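import Pool.Agent.Lib.MP_42948a_nt.TH.M1
import Pool.Agent.Lib.MP_42948a_nt.TB.Defs
import Pool.Agent.Lib.MP_42948a_nt.BU.HH
import Pool.Agent.Lib.MP_42948a_nt.BU2.Main

/-!
# The bound for all nonprincipal characters (job M2)

Copy `Main_min` and `burgess_all` of `BU2/Main.lean` (with the private lemmas `Main_small`, `Main_triv`): no `Cub`, `prim13 (κ / 2)` in place of `Main_gen` (it gives the bound for the primitive character of conductor `q ≥ q00` and `N / e ≥ q^(1/3 + κ/2)`), the exponent `1/4` replaced by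
`1/3` (`1/4 + (1/12 + κ) = 1/3 + κ`).
-/

namespace Pool.Agent.Lib.MP_42948a_nt.TH

open Finset Polynomial Pool.Agent.Lib.MP_42948a_nt.BU Pool.Agent.Lib.MP_42948a_nt.BU2

open Pool.Agent.Lib.MP_42948a_nt.OA Pool.Agent.Lib.MP_42948a_nt.AC in
private theorem M2_small (q : ℕ) (hq : 1 ≤ q) : BB q ≤ (q : ℝ) ^ (5 / 2 : ℝ) := by
  have hq1 : (1 : ℝ) ≤ q := by exact_mod_cast hq
  have hq0 : (0 : ℝ) < q := by linarith
  have h1 : (q.divisors.card : ℝ) ≤ q := by exact_mod_cast Nat.card_divisors_le_self q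
  have h2 : 1 + Real.log q ≤ q := by
    have := Real.log_le_sub_one_of_pos hq0
    linarith
  have h3 : (0 : ℝ) ≤ 1 + Real.log q := by
    have := Real.log_nonneg hq1
    linarith
  have h4 : (q : ℝ) ^ (5 / 2 : ℝ) = √(q : ℝ) * q * q := by
    rw [Real.sqrt_eq_rpow]
    have h5 : (5 / 2 : ℝ) = 1 / 2 + 1 + 1 := by norm_num
    rw [h5, Real.rpow_add hq0, Real.rpow_add hq0, Real.rpow_one]
  rw [h4]
  unfold BB
  have h6 : √(q : ℝ) * (q.divisors.card : ℝ) ≤ √(q : ℝ) * q :=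
    mul_le_mul_of_nonneg_left h1 (Real.sqrt_nonneg _)
  exact mul_le_mul h6 h2 h3 (by positivity)

private theorem M2_triv {q : ℕ} (χ : DirichletCharacter ℂ q) (M : ℕ) :
    ‖∑ n ∈ Icc 1 M, χ (n : ZMod q)‖ ≤ M := by
  refine (norm_sum_le _ _).trans ?_
  have h1 : ∑ n ∈ Icc 1 M, ‖χ (n : ZMod q)‖ ≤ ∑ n ∈ Icc 1 M, (1 : ℝ) :=
    Finset.sum_le_sum fun n _ => DirichletCharacter.norm_le_one χ _
  refine h1.trans ?_
  simp

open Pool.Agent.Lib.MP_42948a_nt.OA Pool.Agent.Lib.MP_42948a_nt.AC in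
private theorem M2_min (κ : ℝ) (hκ : 0 < κ) :
    ∃ κ' : ℝ, 0 < κ' ∧ ∃ d0 : ℕ, ∀ d : ℕ, d0 ≤ d →
      ∀ ξ : DirichletCharacter ℂ d, ξ ≠ 1 → ∀ N : ℕ, (d : ℝ) ^ (1 / 3 + κ) ≤ N →
      ‖∑ n ∈ Icc 1 N, ξ (n : ZMod d)‖ ≤ N * (d : ℝ) ^ (-κ') := by
  obtain ⟨κ1, hκ1p, q00, hprim⟩ := prim13 (κ / 2) (by positivity)
  set κ' : ℝ := min (κ1 / 32) (min (κ / 8) (1 / 32)) with hκ'
  have hκ'0 : 0 < κ' := by
    rw [hκ']
    refine lt_min (by positivity) (lt_min (by positivity) (by norm_num))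
  have hκ'1 : κ' ≤ κ1 / 32 := min_le_left _ _
  have hκ'2 : κ' ≤ κ / 8 := (min_le_right _ _).trans (min_le_left _ _)
  have hκ'3 : κ' ≤ 1 / 32 := (min_le_right _ _).trans (min_le_right _ _)
  obtain ⟨d1, hd1⟩ := BB_le κ' hκ'0
  refine ⟨κ', hκ'0, max d1 (max (q00 ^ 16) 1), ?_⟩
  intro d hd ξ hξ N hN
  have hdd1 : d1 ≤ d := (le_max_left _ _).trans hd
  have hdq : q00 ^ 16 ≤ d := ((le_max_left _ _).trans (le_max_right _ _)).trans hd
  have hd1' : 1 ≤ d := ((le_max_right _ _).trans (le_max_right _ _)).trans hd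
  have hdR : (1 : ℝ) ≤ d := by exact_mod_cast hd1'
  have hd0 : (0 : ℝ) < d := by linarith
  have nd : NeZero d := ⟨by omega⟩
  have hτ := (hd1 d hdd1).2
  have hne : NeZero ξ.conductor := ⟨ξ.conductor_ne_zero⟩
  set q := ξ.conductor with hq
  have hq1 : 1 ≤ q := Nat.one_le_iff_ne_zero.2 hne.out
  have hqd : q ≤ d := Nat.le_of_dvd (by omega) ξ.conductor_dvd_level
  have hqR : (1 : ℝ) ≤ q := by exact_mod_cast hq1
  have hq0 : (0 : ℝ) < q := by linarith
  have hqdR : (q : ℝ) ≤ d := by exact_mod_cast hqd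
  have hχ1 : ξ.primitiveCharacter ≠ 1 := by
    intro h
    apply hξ
    have h1 := ξ.changeLevel_primitiveCharacter
    rw [h, DirichletCharacter.changeLevel_one] at h1
    exact h1.symm
  have hN0 : (0 : ℝ) ≤ N := Nat.cast_nonneg N
  have key : ∀ e ∈ d.divisors, ‖∑ n ∈ Icc 1 (N / e), ξ.primitiveCharacter (n : ZMod ξ.conductor)‖ ≤
      N * (d : ℝ) ^ (-(2 * κ')) := by
    intro e _
    have hNe : ((N / e : ℕ) : ℝ) ≤ N := by exact_mod_cast Nat.div_le_self N e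
    by_cases hsm : (q : ℝ) ≤ (d : ℝ) ^ (1 / 16 : ℝ)
    · have h1 := TQ.polya q ξ.primitiveCharacter hχ1 (N / e)
      refine h1.trans ((M2_small q hq1).trans ?_)
      have h2 : (q : ℝ) ^ (5 / 2 : ℝ) ≤ ((d : ℝ) ^ (1 / 16 : ℝ)) ^ (5 / 2 : ℝ) :=
        Real.rpow_le_rpow hq0.le hsm (by norm_num)
      refine h2.trans ?_
      rw [← Real.rpow_mul hd0.le]
      have h3 : (d : ℝ) ^ (1 / 3 + κ) * (d : ℝ) ^ (-(2 * κ')) ≤ N * (d : ℝ) ^ (-(2 * κ')) :=
        mul_le_mul_of_nonneg_right hN (by positivity)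
      refine le_trans ?_ h3
      rw [← Real.rpow_add hd0]
      apply Real.rpow_le_rpow_of_exponent_le hdR
      linarith
    · push Not at hsm
      have hq00 : q00 ≤ q := by
        have h4 : (q00 : ℝ) ≤ (d : ℝ) ^ (1 / 16 : ℝ) := by
          have h5 : ((q00 : ℝ) ^ (16 : ℕ)) ≤ d := by exact_mod_cast hdq
          have h6 : ((q00 : ℝ) ^ (16 : ℕ)) ^ (1 / 16 : ℝ) ≤ (d : ℝ) ^ (1 / 16 : ℝ) :=
            Real.rpow_le_rpow (by positivity) h5 (by norm_num)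
          have h7 : ((q00 : ℝ) ^ (16 : ℕ)) ^ (1 / 16 : ℝ) = q00 := by
            rw [← Real.rpow_natCast, ← Real.rpow_mul (Nat.cast_nonneg _)]
            norm_num
          rw [h7] at h6
          exact h6
        have h8 : (q00 : ℝ) < q := lt_of_le_of_lt h4 hsm
        have h9 : q00 < q := by exact_mod_cast h8
        exact h9.le
      by_cases hbig : (q : ℝ) ^ (1 / 3 + κ / 2) ≤ ((N / e : ℕ) : ℝ)
      · have h10 := hprim q hq00 ξ.primitiveCharacter ξ.primitiveCharacter_isPrimitive (N / e) hbig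
        refine h10.trans ?_
        have h11 : (q : ℝ) ^ (-κ1) ≤ (d : ℝ) ^ (-(2 * κ')) := by
          have h12 : (q : ℝ) ^ (-κ1) ≤ ((d : ℝ) ^ (1 / 16 : ℝ)) ^ (-κ1) :=
            Real.rpow_le_rpow_of_nonpos (by positivity) hsm.le (by linarith)
          refine h12.trans ?_
          rw [← Real.rpow_mul hd0.le]
          apply Real.rpow_le_rpow_of_exponent_le hdR
          linarith
        exact mul_le_mul hNe h11 (by positivity) hN0
      · push Not at hbig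
        refine (M2_triv ξ.primitiveCharacter (N / e)).trans ?_
        refine hbig.le.trans ?_
        have h13 : (q : ℝ) ^ (1 / 3 + κ / 2) ≤ (d : ℝ) ^ (1 / 3 + κ / 2) :=
          Real.rpow_le_rpow hq0.le hqdR (by linarith)
        refine h13.trans ?_
        have h3 : (d : ℝ) ^ (1 / 3 + κ) * (d : ℝ) ^ (-(2 * κ')) ≤ N * (d : ℝ) ^ (-(2 * κ')) :=
          mul_le_mul_of_nonneg_right hN (by positivity)
        refine le_trans ?_ h3
        rw [← Real.rpow_add hd0]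
        apply Real.rpow_le_rpow_of_exponent_le hdR
        linarith
  refine (imprim ξ N).trans ?_
  refine (Finset.sum_le_sum key).trans ?_
  rw [Finset.sum_const, nsmul_eq_mul]
  have h14 : (d.divisors.card : ℝ) * (N * (d : ℝ) ^ (-(2 * κ'))) ≤
      (d : ℝ) ^ κ' * (N * (d : ℝ) ^ (-(2 * κ'))) :=
    mul_le_mul_of_nonneg_right hτ (by positivity)
  refine h14.trans (le_of_eq ?_)
  have h15 : (d : ℝ) ^ (-κ') = (d : ℝ) ^ κ' * (d : ℝ) ^ (-(2 * κ')) := by
    rw [← Real.rpow_add hd0]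
    congr 1
    ring
  rw [h15]
  ring

theorem bur3 : Pool.Agent.Lib.MP_42948a_nt.TB.Bur3 := by
  intro κ hκ
  obtain ⟨κ', h1, d0, h2⟩ := M2_min κ hκ
  refine ⟨κ', h1, d0, ?_⟩
  intro d hd χ hχ N hN
  refine h2 d hd χ hχ N (le_trans (le_of_eq ?_) hN)
  congr 1
  ring

end Pool.Agent.Lib.MP_42948a_nt.TH
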