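import Pool.Agent.Lib.MP_42948a_nt.TH.Defs

/-!
# Van der Corput's inequality (job A1)

Let `F1 : ℤ → ℂ` be `F` on `[1, N]` and `0` elsewhere, `T n = ∑_{h ∈ range H} F1 (n + g h)`. Summing over the integers `n ∈ [1 - g H, N]` (all `n` with `T n ≠ 0` lie there, and for each `h < H` the shift `n + g h` runs over all of `[1, N]`):
`∑ T n = H * SZ N F`. Cauchy-Schwarz (`N + g H` integers): `H^2 ‖SZ N F‖^2 ≤ (N + g H) ∑_n ‖T n‖^2`, and
`∑_n ‖T n‖^2 = ∑_{h, h'} ∑_n F1 (n + g h) conj (F1 (n + g h'))`. The terms `h = h'` contribute `H ∑ ‖F1‖^2 ≤ H N`; for `h < h'` substitute `m = n + g h`, `k = h' - h ∈ [1, H)`: the inner sum is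
`∑_{1 ≤ m ≤ N - g k} F m conj (F (m + g k))` (empty if `g k ≥ N`), of norm `≤ ‖SZ N (dv (g k) F)‖ + g k` (at most `g k` more terms, each of norm `≤ 1`) `≤ ‖SZ N (dv (g k) F)‖ + g H`; for `h > h'` take the conjugate. Every `k` occurs for at
most `H` pairs `h < h'` and `H` pairs `h > h'`. So `H^2 ‖S‖^2 ≤ (N + g H) (H N + 2 H ∑_{k ∈ Ico 1 H} (‖SZ N (dv (g k) F)‖ + g H))`; divide by `H^2 N^2` and use `g H ≤ α N`, `α ≤ 1`:
`(‖S‖/N)^2 ≤ (1 + α) (1/H + 2 α + (2/H) ∑ ‖SZ N (dv ..)‖/N) ≤ 4 (1/H + α + (1/H) ∑ ‖SZ N (dv ..)‖/N)`.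
Work with finite sums over `Finset.Ioc (-(g H : ℤ)) N` or use a sufficiently large interval and `Finset.sum_subset`; alternatively one can use shifted sums over `ℕ` with `F1` and bound the shift error (constants leave room: only the final
inequality matters).
-/

namespace Pool.Agent.Lib.MP_42948a_nt.TH

open Finset Polynomial Pool.Agent.Lib.MP_42948a_nt.BU Pool.Agent.Lib.MP_42948a_nt.BU2

private theorem THA1_shift {M N : ℕ} (G : ℤ → ℂ)
    (hG : ∀ n : ℤ, ¬ (1 ≤ n ∧ n ≤ (N : ℤ)) → G n = 0) {s : ℕ} (hs : s ≤ M) :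
    ∑ n ∈ Finset.Ioc (-(M : ℤ)) N, G (n + s) = ∑ n ∈ Icc 1 N, G ((n : ℕ) : ℤ) := by
  have h1 : ∑ n ∈ Finset.Ioc (-(M : ℤ)) N, G (n + s) =
      ∑ n ∈ Finset.Ioc (-(M : ℤ) + s) ((N : ℤ) + s), G n := by
    rw [← Finset.map_add_right_Ioc, Finset.sum_map]
    rfl
  have h2 : ∑ n ∈ Icc 1 N, G ((n : ℕ) : ℤ) = ∑ n ∈ Icc (1 : ℤ) N, G n := by
    refine Finset.sum_nbij' (fun n : ℕ => (n : ℤ)) Int.toNat ?_ ?_ ?_ ?_ ?_
    · intro n hn
      rw [Finset.mem_Icc] at hn ⊢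
      omega
    · intro n hn
      rw [Finset.mem_Icc] at hn ⊢
      omega
    · intro n _
      exact Int.toNat_natCast n
    · intro n hn
      rw [Finset.mem_Icc] at hn
      exact Int.toNat_of_nonneg (by omega)
    · intro n _
      rfl
  rw [h1, h2]
  symm
  apply Finset.sum_subset
  · intro n hn
    rw [Finset.mem_Icc] at hn
    rw [Finset.mem_Ioc]
    omega
  · intro n _ hn
    apply hG
    rwa [Finset.mem_Icc] at hn

private theorem THA1_dist (b : ℕ → ℝ) (hb : ∀ k, 0 ≤ b k) (H h : ℕ) (hh : h < H) :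
    ∑ h' ∈ range H, b (h - h' + (h' - h)) ≤ 2 * ∑ k ∈ range H, b k := by
  have h1 : ∀ h' ∈ range H, h - h' + (h' - h) ∈ range H := by
    intro h' hh'
    rw [Finset.mem_range] at hh' ⊢
    omega
  rw [← Finset.sum_fiberwise_of_maps_to h1 (fun h' => b (h - h' + (h' - h))), Finset.mul_sum]
  refine Finset.sum_le_sum fun k _ => ?_
  have h2 : ∑ x ∈ range H with h - x + (x - h) = k, b (h - x + (x - h)) =
      ∑ x ∈ range H with h - x + (x - h) = k, b k := by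
    refine Finset.sum_congr rfl fun x hx => ?_
    rw [(Finset.mem_filter.1 hx).2]
  rw [h2, Finset.sum_const, nsmul_eq_mul]
  refine mul_le_mul_of_nonneg_right ?_ (hb k)
  have h3 : (range H).filter (fun x => h - x + (x - h) = k) ⊆ {h - k, h + k} := by
    intro x hx
    have h4 := (Finset.mem_filter.1 hx).2
    rw [Finset.mem_insert, Finset.mem_singleton]
    omega
  exact_mod_cast (Finset.card_le_card h3).trans Finset.card_le_two

theorem vdc (F : ℤ → ℂ) (hF : ∀ n, ‖F n‖ ≤ 1) (N H g : ℕ) (hN : 1 ≤ N) (hH : 1 ≤ H) (α : ℝ) (hα : α ≤ 1)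
    (hg : (g : ℝ) * H ≤ α * N) :
    (‖SZ N F‖ / N) ^ 2 ≤ 4 * (1 / H + α + 1 / H * ∑ h ∈ Ico 1 H, ‖SZ N (dv ((g * h : ℕ) : ℤ) F)‖ / N) := by
  classical
  have hN0 : (0 : ℝ) < N := by exact_mod_cast hN
  have hH0 : (0 : ℝ) < H := by exact_mod_cast hH
  have hα0 : 0 ≤ α := by
    by_contra hc
    rw [not_le] at hc
    have h1 : α * N < 0 := mul_neg_of_neg_of_pos hc hN0
    have h2 : (0 : ℝ) ≤ (g : ℝ) * H := by positivity
    linarith
  obtain ⟨F1, hF1⟩ : ∃ F1 : ℤ → ℂ, ∀ n, F1 n = if 1 ≤ n ∧ n ≤ (N : ℤ) then F n else 0 :=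
    ⟨fun n => if 1 ≤ n ∧ n ≤ (N : ℤ) then F n else 0, fun _ => rfl⟩
  have hF1z : ∀ n : ℤ, ¬ (1 ≤ n ∧ n ≤ (N : ℤ)) → F1 n = 0 := fun n hn => by rw [hF1, if_neg hn]
  have hF1e : ∀ n : ℤ, (1 ≤ n ∧ n ≤ (N : ℤ)) → F1 n = F n := fun n hn => by rw [hF1, if_pos hn]
  have hF1n : ∀ n, ‖F1 n‖ ≤ 1 := by
    intro n
    rw [hF1]
    split_ifs
    · exact hF n
    · rw [norm_zero]; exact zero_le_one
  have hcast : ∀ n ∈ Icc 1 N, 1 ≤ ((n : ℕ) : ℤ) ∧ ((n : ℕ) : ℤ) ≤ (N : ℤ) := by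
    intro n hn
    rw [Finset.mem_Icc] at hn
    exact ⟨by exact_mod_cast hn.1, by exact_mod_cast hn.2⟩
  -- the sum of the short sums
  have hsum : ∑ n ∈ Finset.Ioc (-((g * H : ℕ) : ℤ)) N,
      ∑ h ∈ range H, F1 (n + ((g * h : ℕ) : ℤ)) = H * SZ N F := by
    rw [Finset.sum_comm]
    rw [Finset.sum_congr rfl (fun h hh => THA1_shift F1 hF1z
      (Nat.mul_le_mul_left g (Finset.mem_range.1 hh).le))]
    rw [Finset.sum_const, Finset.card_range, nsmul_eq_mul]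
    congr 1
    unfold SZ
    exact Finset.sum_congr rfl fun n hn => hF1e _ (hcast n hn)
  -- correlations
  obtain ⟨b, hb⟩ : ∃ b : ℕ → ℝ, ∀ k, b k = if k = 0 then (N : ℝ) else
      ‖SZ N (dv ((g * k : ℕ) : ℤ) F)‖ + ((g * k : ℕ) : ℝ) :=
    ⟨fun k => if k = 0 then (N : ℝ) else
      ‖SZ N (dv ((g * k : ℕ) : ℤ) F)‖ + ((g * k : ℕ) : ℝ), fun _ => rfl⟩
  have hb0 : ∀ k, 0 ≤ b k := by
    intro k
    rw [hb]
    split_ifs <;> positivity
  have hcor : ∀ k : ℕ, ‖∑ n ∈ Icc 1 N, F1 ((n : ℕ) : ℤ) *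
      (starRingEnd ℂ) (F1 (((n : ℕ) : ℤ) + ((g * k : ℕ) : ℤ)))‖ ≤ b k := by
    intro k
    rw [hb]
    split_ifs with hk
    · refine (norm_sum_le_of_le _ (fun n _ => ?_ : ∀ n ∈ Icc 1 N, _ ≤ (1 : ℝ))).trans ?_
      · rw [norm_mul, RCLike.norm_conj]
        exact mul_le_one₀ (hF1n _) (norm_nonneg _) (hF1n _)
      · rw [Finset.sum_const, Nat.card_Icc, nsmul_eq_mul, mul_one]
        simp
    · have h1 : ∑ n ∈ Icc 1 N, F1 ((n : ℕ) : ℤ) *
          (starRingEnd ℂ) (F1 (((n : ℕ) : ℤ) + ((g * k : ℕ) : ℤ))) =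
          SZ N (dv ((g * k : ℕ) : ℤ) F) - ∑ n ∈ Icc 1 N,
            (if n + g * k ≤ N then 0 else F ((n : ℕ) : ℤ) *
              (starRingEnd ℂ) (F (((n : ℕ) : ℤ) + ((g * k : ℕ) : ℤ)))) := by
        unfold SZ
        rw [← Finset.sum_sub_distrib]
        refine Finset.sum_congr rfl fun n hn => ?_
        have h2 := hcast n hn
        unfold dv
        rw [hF1e _ h2]
        split_ifs with h3
        · have h4 : (((n : ℕ) : ℤ) + ((g * k : ℕ) : ℤ)) ≤ (N : ℤ) := by exact_mod_cast h3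
          rw [hF1e _ ⟨by omega, h4⟩, sub_zero]
        · have h4 : ¬ (((n : ℕ) : ℤ) + ((g * k : ℕ) : ℤ)) ≤ (N : ℤ) := by exact_mod_cast h3
          rw [hF1z _ (fun h => h4 h.2), map_zero, mul_zero, sub_self]
      rw [h1]
      refine (norm_sub_le _ _).trans ?_
      refine add_le_add le_rfl ?_
      refine (norm_sum_le_of_le (f := fun n : ℕ => (if n + g * k ≤ N then (0 : ℂ) else
        F ((n : ℕ) : ℤ) * (starRingEnd ℂ) (F (((n : ℕ) : ℤ) + ((g * k : ℕ) : ℤ))))) _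
        (fun n _ => ?_ : ∀ n ∈ Icc 1 N, _ ≤ (if N < n + g * k then (1 : ℝ) else 0))).trans ?_
      · by_cases h3 : n + g * k ≤ N
        · rw [if_pos h3, if_neg (not_lt.2 h3), norm_zero]
        · rw [if_neg h3, if_pos (not_le.1 h3), norm_mul, RCLike.norm_conj]
          exact mul_le_one₀ (hF _) (norm_nonneg _) (hF _)
      · rw [← Finset.sum_filter, Finset.sum_const, nsmul_eq_mul, mul_one]
        have h5 : (Icc 1 N).filter (fun n => N < n + g * k) ⊆ Finset.Ioc (N - g * k) N := by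
          intro n hn
          rw [Finset.mem_filter, Finset.mem_Icc] at hn
          rw [Finset.mem_Ioc]
          omega
        have h6 := Finset.card_le_card h5
        rw [Nat.card_Ioc] at h6
        exact_mod_cast h6.trans (by omega)
  have hC1 : ∀ h h' : ℕ, h ≤ h' → h' < H → ‖∑ n ∈ Finset.Ioc (-((g * H : ℕ) : ℤ)) N,
      F1 (n + ((g * h : ℕ) : ℤ)) * (starRingEnd ℂ) (F1 (n + ((g * h' : ℕ) : ℤ)))‖ ≤
      b (h' - h) := by
    intro h h' hle hlt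
    obtain ⟨k, rfl⟩ := Nat.exists_eq_add_of_le hle
    rw [Nat.add_sub_cancel_left]
    have h1 := THA1_shift (M := g * H) (N := N)
      (fun m => F1 m * (starRingEnd ℂ) (F1 (m + ((g * k : ℕ) : ℤ))))
      (fun n hn => by rw [hF1z n hn, zero_mul]) (s := g * h)
      (Nat.mul_le_mul_left g (by omega))
    have h2 : ∑ n ∈ Finset.Ioc (-((g * H : ℕ) : ℤ)) N,
      F1 (n + ((g * h : ℕ) : ℤ)) * (starRingEnd ℂ) (F1 (n + ((g * (h + k) : ℕ) : ℤ))) =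
      ∑ n ∈ Finset.Ioc (-((g * H : ℕ) : ℤ)) N, F1 (n + ((g * h : ℕ) : ℤ)) *
        (starRingEnd ℂ) (F1 (n + ((g * h : ℕ) : ℤ) + ((g * k : ℕ) : ℤ))) := by
      refine Finset.sum_congr rfl fun n _ => ?_
      congr 3
      push_cast
      ring
    rw [h2]
    rw [h1]
    exact hcor k
  have hC : ∀ h ∈ range H, ∀ h' ∈ range H, ‖∑ n ∈ Finset.Ioc (-((g * H : ℕ) : ℤ)) N,
      F1 (n + ((g * h : ℕ) : ℤ)) * (starRingEnd ℂ) (F1 (n + ((g * h' : ℕ) : ℤ)))‖ ≤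
      b (h - h' + (h' - h)) := by
    intro h hh h' hh'
    rw [Finset.mem_range] at hh hh'
    rcases le_total h h' with hle | hle
    · rw [Nat.sub_eq_zero_of_le hle, zero_add]
      exact hC1 h h' hle hh'
    · rw [Nat.sub_eq_zero_of_le hle, add_zero, ← RCLike.norm_conj, map_sum]
      have h1 : ∀ n : ℤ, (starRingEnd ℂ) (F1 (n + ((g * h : ℕ) : ℤ)) *
          (starRingEnd ℂ) (F1 (n + ((g * h' : ℕ) : ℤ)))) =
          F1 (n + ((g * h' : ℕ) : ℤ)) * (starRingEnd ℂ) (F1 (n + ((g * h : ℕ) : ℤ))) := by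
        intro n
        rw [map_mul, Complex.conj_conj, mul_comm]
      rw [Finset.sum_congr rfl fun n _ => h1 n]
      exact hC1 h' h hle hh
  -- the mean square
  have hsq : ∑ n ∈ Finset.Ioc (-((g * H : ℕ) : ℤ)) N,
      ‖∑ h ∈ range H, F1 (n + ((g * h : ℕ) : ℤ))‖ ^ 2 ≤ H * (2 * ∑ k ∈ range H, b k) := by
    have h1 : ((∑ n ∈ Finset.Ioc (-((g * H : ℕ) : ℤ)) N,
        ‖∑ h ∈ range H, F1 (n + ((g * h : ℕ) : ℤ))‖ ^ 2 : ℝ) : ℂ) =
        ∑ h ∈ range H, ∑ h' ∈ range H, ∑ n ∈ Finset.Ioc (-((g * H : ℕ) : ℤ)) N,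
          F1 (n + ((g * h : ℕ) : ℤ)) * (starRingEnd ℂ) (F1 (n + ((g * h' : ℕ) : ℤ))) := by
      have h2 : ∀ n : ℤ, ((‖∑ h ∈ range H, F1 (n + ((g * h : ℕ) : ℤ))‖ ^ 2 : ℝ) : ℂ) =
          ∑ h ∈ range H, ∑ h' ∈ range H, F1 (n + ((g * h : ℕ) : ℤ)) *
            (starRingEnd ℂ) (F1 (n + ((g * h' : ℕ) : ℤ))) := by
        intro n
        rw [← Finset.sum_mul_sum, ← map_sum, Complex.mul_conj, Complex.normSq_eq_norm_sq]
      push_cast
      have h3 : ∀ n : ℤ, ((‖∑ h ∈ range H, F1 (n + ((g * h : ℕ) : ℤ))‖ : ℝ) : ℂ) ^ 2 =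
          ∑ h ∈ range H, ∑ h' ∈ range H, F1 (n + ((g * h : ℕ) : ℤ)) *
            (starRingEnd ℂ) (F1 (n + ((g * h' : ℕ) : ℤ))) := by
        intro n
        rw [← h2 n]
        push_cast
        rfl
      push_cast at h3
      rw [Finset.sum_congr rfl fun n _ => h3 n, Finset.sum_comm]
      refine Finset.sum_congr rfl fun h _ => ?_
      rw [Finset.sum_comm]
    have h4 : ∑ n ∈ Finset.Ioc (-((g * H : ℕ) : ℤ)) N,
        ‖∑ h ∈ range H, F1 (n + ((g * h : ℕ) : ℤ))‖ ^ 2 =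
        ‖((∑ n ∈ Finset.Ioc (-((g * H : ℕ) : ℤ)) N,
        ‖∑ h ∈ range H, F1 (n + ((g * h : ℕ) : ℤ))‖ ^ 2 : ℝ) : ℂ)‖ := by
      rw [Complex.norm_real, Real.norm_of_nonneg (Finset.sum_nonneg fun n _ => by positivity)]
    rw [h4, h1]
    refine (norm_sum_le_of_le _ (fun h hh => ?_ :
      ∀ h ∈ range H, _ ≤ 2 * ∑ k ∈ range H, b k)).trans ?_
    · refine (norm_sum_le_of_le _ (fun h' hh' => hC h hh h' hh')).trans ?_
      exact THA1_dist b hb0 H h (Finset.mem_range.1 hh)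
    · rw [Finset.sum_const, Finset.card_range, nsmul_eq_mul]
  have hbs : ∑ k ∈ range H, b k ≤ N + ∑ h ∈ Ico 1 H, ‖SZ N (dv ((g * h : ℕ) : ℤ) F)‖ +
      H * (α * N) := by
    rw [Finset.range_eq_Ico, Finset.sum_eq_sum_Ico_succ_bot hH, hb 0, if_pos rfl, add_assoc]
    refine add_le_add le_rfl ?_
    have h1 : ∑ k ∈ Ico (0 + 1) H, b k ≤ ∑ k ∈ Ico 1 H,
        (‖SZ N (dv ((g * k : ℕ) : ℤ) F)‖ + α * N) := by
      rw [zero_add]
      refine Finset.sum_le_sum fun k hk => ?_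
      rw [Finset.mem_Ico] at hk
      rw [hb, if_neg (by omega)]
      refine add_le_add le_rfl (le_trans ?_ hg)
      push_cast
      exact mul_le_mul_of_nonneg_left (by exact_mod_cast hk.2.le) (Nat.cast_nonneg g)
    refine h1.trans ?_
    rw [Finset.sum_add_distrib, Finset.sum_const, Nat.card_Ico, nsmul_eq_mul]
    refine add_le_add le_rfl ?_
    refine mul_le_mul_of_nonneg_right ?_ (by positivity)
    exact_mod_cast Nat.sub_le H 1
  have hCS : (H * ‖SZ N F‖) ^ 2 ≤ (2 * N) * (H * (2 * (N + ∑ h ∈ Ico 1 H,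
      ‖SZ N (dv ((g * h : ℕ) : ℤ) F)‖ + H * (α * N)))) := by
    have h1 : (H : ℝ) * ‖SZ N F‖ ≤ ∑ n ∈ Finset.Ioc (-((g * H : ℕ) : ℤ)) N,
        ‖∑ h ∈ range H, F1 (n + ((g * h : ℕ) : ℤ))‖ := by
      have h2 : (H : ℝ) * ‖SZ N F‖ = ‖(H : ℂ) * SZ N F‖ := by
        rw [norm_mul, Complex.norm_natCast]
      rw [h2, ← hsum]
      exact norm_sum_le _ _
    have h3 : (H * ‖SZ N F‖) ^ 2 ≤ (∑ n ∈ Finset.Ioc (-((g * H : ℕ) : ℤ)) N,
        ‖∑ h ∈ range H, F1 (n + ((g * h : ℕ) : ℤ))‖) ^ 2 :=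
      pow_le_pow_left₀ (by positivity) h1 2
    refine h3.trans (sq_sum_le_card_mul_sum_sq.trans ?_)
    refine mul_le_mul ?_ (hsq.trans ?_) (Finset.sum_nonneg fun n _ => by positivity)
      (by positivity)
    · rw [Int.card_Ioc]
      have h4 : (((N : ℤ) - -((g * H : ℕ) : ℤ)).toNat : ℝ) = (N : ℝ) + (g : ℝ) * H := by
        have h5 : ((N : ℤ) - -((g * H : ℕ) : ℤ)).toNat = N + g * H := by omega
        rw [h5]
        push_cast
        ring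
      rw [h4]
      nlinarith
    · refine mul_le_mul_of_nonneg_left ?_ hH0.le
      linarith
  have e1 : (1 : ℝ) / H * ∑ h ∈ Ico 1 H, ‖SZ N (dv ((g * h : ℕ) : ℤ) F)‖ / N =
      (∑ h ∈ Ico 1 H, ‖SZ N (dv ((g * h : ℕ) : ℤ) F)‖) / (H * N) := by
    rw [← Finset.sum_div]
    field_simp
  rw [e1]
  have e2 : 4 * (1 / H + α + (∑ h ∈ Ico 1 H, ‖SZ N (dv ((g * h : ℕ) : ℤ) F)‖) / (H * N)) =
      ((2 * N) * (H * (2 * (N + ∑ h ∈ Ico 1 H,
      ‖SZ N (dv ((g * h : ℕ) : ℤ) F)‖ + H * (α * N))))) / (H * N) ^ 2 := by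
    field_simp
    ring
  have e3 : (‖SZ N F‖ / N) ^ 2 = (H * ‖SZ N F‖) ^ 2 / (H * N) ^ 2 := by
    field_simp
  rw [e2, e3]
  exact div_le_div_of_nonneg_right hCS (by positivity)

end Pool.Agent.Lib.MP_42948a_nt.TH
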