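import Pool.Agent.Lib.MP_42948a_nt.TH.A1

/-!
# The iterated van der Corput inequality (job A2)

Induction on `gs` (for all `F`, `β`). `gs = []`: `hs = []` gives `‖SZ N F‖ ≤ N β` (`dvs [] F = F`), `CV 0 = 1`. `gs = g :: gs'`, `K = gs'.length`, `m = 2 ^ K ≥ 1`: `vdc` raised to the power `m`:
`(‖S‖/N)^(2 m) ≤ 4^m (a + b + c)^m ≤ 12^m (a^m + b^m + c^m)` with `a = 1/H ≤ 1`, `b = α ≤ 1`, `c = (1/H) ∑_{h ∈ Ico 1 H} x h`, `x h = ‖SZ N (dv (g h) F)‖/N` (`a + b + c ≤ 3 max`). `a^m ≤ a`, `b^m ≤ b`, and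
`c^m ≤ (1/H) ∑_h (x h)^m` by convexity: `(∑_{h ∈ Ico 1 H} x h)^m ≤ (H - 1)^(m-1) ∑ (x h)^m ≤ H^(m-1) ∑ (x h)^m` (`inner`-free: the power mean inequality for finite sums, e.g. `inv_smul`-free `Finset.pow_sum_div_card_le_sum_pow`-like lemma
`(∑ f)^(n+1) / card^n ≤ ∑ f^(n+1)`, or `Real.pow_arith_mean_le_arith_mean_pow` with the weights `1/H` on `Ico 1 H` and one more weight `1/H` on the value `0`).
For `h ∈ Ico 1 H` the induction hypothesis for `dv (g h) F` (bounded by `1`) and `β * w h` (`dvs (g h :: l) F = dvs l (dv (g h) F)`; `yy (g :: gs') (h :: hs') = (g h) :: yy gs' hs'`; `((h :: hs').map w).prod = w h * ..`) gives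
`(x h)^m ≤ CV K (1/H + α + β w h W^K)`. So `c^m ≤ CV K (1/H + α + β W^K (1/H) ∑ w h) ≤ CV K (1/H + α + β W^(K+1))` (`W ≥ 0` follows from `hW`), and
`12^m (a + b + c^m) ≤ 12^m * 2 CV K (1/H + α + β W^(K+1)) ≤ 24^m CV K (..)` (`CV K ≥ 1`, `2 ≤ 2^m`).
-/

namespace Pool.Agent.Lib.MP_42948a_nt.TH

open Finset Polynomial Pool.Agent.Lib.MP_42948a_nt.BU Pool.Agent.Lib.MP_42948a_nt.BU2

private theorem THA2_mean (H : ℕ) (hH : 1 ≤ H) (x : ℕ → ℝ) (hx : ∀ h, 0 ≤ x h) (m : ℕ) (hm : m ≠ 0) :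
    (1 / (H : ℝ) * ∑ h ∈ Ico 1 H, x h) ^ m ≤ 1 / (H : ℝ) * ∑ h ∈ Ico 1 H, x h ^ m := by
  have hH0 : (0 : ℝ) < H := by exact_mod_cast hH
  have h1 := Real.pow_arith_mean_le_arith_mean_pow (range H) (fun _ => 1 / (H : ℝ))
    (fun h => if h = 0 then 0 else x h) (fun _ _ => by positivity)
    (by
      rw [sum_const, card_range, nsmul_eq_mul]
      field_simp)
    (fun h _ => by
      by_cases h0 : h = 0
      · rw [if_pos h0]
      · rw [if_neg h0]
        exact hx h) m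
  have h2 : ∀ f : ℕ → ℝ, f 0 = 0 → ∑ h ∈ range H, 1 / (H : ℝ) * f h = 1 / (H : ℝ) * ∑ h ∈ Ico 1 H, f h := by
    intro f hf
    rw [← mul_sum, range_eq_Ico, sum_eq_sum_Ico_succ_bot (by omega), hf, zero_add]
  rw [h2 (fun h => if h = 0 then 0 else x h) (if_pos rfl),
    h2 (fun h => (if h = 0 then 0 else x h) ^ m) (by
      change (if (0 : ℕ) = 0 then (0 : ℝ) else x 0) ^ m = 0
      rw [if_pos rfl, zero_pow hm])] at h1
  have h3 : ∑ h ∈ Ico 1 H, (if h = 0 then 0 else x h) = ∑ h ∈ Ico 1 H, x h := by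
    refine sum_congr rfl fun h hh => ?_
    have := (mem_Ico.1 hh).1
    rw [if_neg (by omega)]
  have h4 : ∑ h ∈ Ico 1 H, (if h = 0 then 0 else x h) ^ m = ∑ h ∈ Ico 1 H, x h ^ m := by
    refine sum_congr rfl fun h hh => ?_
    have := (mem_Ico.1 hh).1
    rw [if_neg (by omega)]
  rw [h3, h4] at h1
  exact h1

private theorem THA2_three (a b c : ℝ) (ha : 0 ≤ a) (hb : 0 ≤ b) (hc : 0 ≤ c) (m : ℕ) :
    (4 * (a + b + c)) ^ m ≤ 12 ^ m * (a ^ m + b ^ m + c ^ m) := by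
  have ha' := pow_nonneg ha m
  have hb' := pow_nonneg hb m
  have hc' := pow_nonneg hc m
  have key : ∀ t : ℝ, 0 ≤ t → a ≤ t → b ≤ t → c ≤ t → (4 * (a + b + c)) ^ m ≤ 12 ^ m * t ^ m := by
    intro t ht h1 h2 h3
    rw [← mul_pow]
    exact pow_le_pow_left₀ (by positivity) (by linarith) m
  have h12 : (0 : ℝ) ≤ 12 ^ m := by positivity
  rcases le_total a b with hab | hab
  · rcases le_total b c with hbc | hbc
    · refine (key c hc (hab.trans hbc) hbc le_rfl).trans (mul_le_mul_of_nonneg_left ?_ h12)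
      linarith
    · refine (key b hb hab le_rfl hbc).trans (mul_le_mul_of_nonneg_left ?_ h12)
      linarith
  · rcases le_total a c with hac | hac
    · refine (key c hc hac (hab.trans hac) le_rfl).trans (mul_le_mul_of_nonneg_left ?_ h12)
      linarith
    · refine (key a ha le_rfl hab hac).trans (mul_le_mul_of_nonneg_left ?_ h12)
      linarith

theorem CV_ge_one (k : ℕ) : 1 ≤ CV k := by
  induction k with
  | zero => exact le_rfl
  | succ k ih =>
    change 1 ≤ 24 ^ (2 ^ k) * CV k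
    exact one_le_mul_of_one_le_of_one_le (one_le_pow₀ (by norm_num)) ih

theorem vdc_iter (N H : ℕ) (hN : 1 ≤ N) (hH : 1 ≤ H) (α : ℝ) (hα0 : 0 ≤ α) (hα : α ≤ 1) (w : ℕ → ℝ) (hw : ∀ h, 0 ≤ w h)
    (W : ℝ) (hW : ∑ h ∈ Ico 1 H, w h ≤ H * W) (gs : List ℕ) (hg : ∀ g ∈ gs, (g : ℝ) * H ≤ α * N) (F : ℤ → ℂ)
    (hF : ∀ n, ‖F n‖ ≤ 1) (β : ℝ) (hβ : 0 ≤ β)
    (h : ∀ hs : List ℕ, hs.length = gs.length → (∀ h ∈ hs, 1 ≤ h ∧ h < H) →
      ‖SZ N (dvs (yy gs hs) F)‖ ≤ N * (β * (hs.map w).prod)) :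
    (‖SZ N F‖ / N) ^ (2 ^ gs.length) ≤ CV gs.length * (1 / H + α + β * W ^ gs.length) := by
  have hH0 : (0 : ℝ) < H := by exact_mod_cast hH
  have hN0 : (0 : ℝ) < N := by exact_mod_cast hN
  have hW0 : 0 ≤ W := by
    have h1 : 0 ≤ (H : ℝ) * W := le_trans (sum_nonneg fun h _ => hw h) hW
    exact nonneg_of_mul_nonneg_right h1 hH0
  have hHinv : 0 ≤ 1 / (H : ℝ) := by positivity
  have hHinv1 : 1 / (H : ℝ) ≤ 1 := by
    rw [div_le_one hH0]
    exact_mod_cast hH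
  induction gs generalizing F β with
  | nil =>
    have h1 := h [] rfl (fun x hx => absurd hx List.not_mem_nil)
    change ‖SZ N F‖ ≤ N * (β * 1) at h1
    change (‖SZ N F‖ / N) ^ 1 ≤ 1 * (1 / H + α + β * W ^ 0)
    rw [pow_one, one_mul, pow_zero, div_le_iff₀ hN0]
    have h2 : 0 ≤ (1 / (H : ℝ) + α) * N := by positivity
    linarith
  | cons g gs ih =>
    set K := gs.length with hK
    set m : ℕ := 2 ^ K with hm
    have hm0 : m ≠ 0 := by positivity
    have hlen : (g :: gs).length = K + 1 := rfl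
    set x : ℕ → ℝ := fun k => ‖SZ N (dv ((g * k : ℕ) : ℤ) F)‖ / N with hx
    have hx0 : ∀ k, 0 ≤ x k := fun k => by positivity
    have hv := vdc F hF N H g hN hH α hα (hg g List.mem_cons_self)
    have hxm : ∀ k ∈ Ico 1 H, x k ^ m ≤ CV K * (1 / H + α + β * w k * W ^ K) := by
      intro k hk
      have hk' := mem_Ico.1 hk
      refine ih (fun g' hg' => hg g' (List.mem_cons_of_mem g hg')) (dv ((g * k : ℕ) : ℤ) F) ?_
        (β * w k) (mul_nonneg hβ (hw k)) ?_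
      · intro n
        change ‖F n * (starRingEnd ℂ) (F (n + _))‖ ≤ 1
        rw [norm_mul, RCLike.norm_conj]
        exact mul_le_one₀ (hF n) (norm_nonneg _) (hF _)
      · intro hs hs1 hs2
        have h1 := h (k :: hs) (by rw [List.length_cons, List.length_cons, hs1]) (by
          intro y hy
          rcases List.mem_cons.1 hy with h2 | h2
          · rw [h2]
            exact hk'
          · exact hs2 y h2)
        rw [List.map_cons, List.prod_cons] at h1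
        rw [mul_assoc β]
        exact h1
    have hc := THA2_mean H hH x hx0 m hm0
    have hc2 : 1 / (H : ℝ) * ∑ k ∈ Ico 1 H, x k ^ m ≤
        CV K * (1 / H + α + β * W ^ (K + 1)) := by
      have hCV : 0 ≤ CV K := zero_le_one.trans (CV_ge_one K)
      have h1 : ∑ k ∈ Ico 1 H, x k ^ m ≤
          ∑ k ∈ Ico 1 H, CV K * (1 / H + α + β * w k * W ^ K) := sum_le_sum hxm
      have h2 : ∑ k ∈ Ico 1 H, CV K * (1 / H + α + β * w k * W ^ K) =
          CV K * (((H - 1 : ℕ) : ℝ) * (1 / H + α) + β * W ^ K * ∑ k ∈ Ico 1 H, w k) := by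
        rw [← mul_sum, sum_add_distrib, sum_const, Nat.card_Ico, nsmul_eq_mul, mul_sum]
        congr 2
        exact sum_congr rfl fun k _ => by ring
      have h3 : ((H - 1 : ℕ) : ℝ) * (1 / H + α) ≤ H * (1 / H + α) := by
        refine mul_le_mul_of_nonneg_right ?_ (by positivity)
        exact_mod_cast Nat.sub_le H 1
      have h4 : β * W ^ K * ∑ k ∈ Ico 1 H, w k ≤ β * W ^ K * (H * W) :=
        mul_le_mul_of_nonneg_left hW (by positivity)
      have h5 : ∑ k ∈ Ico 1 H, x k ^ m ≤ H * (CV K * (1 / H + α + β * W ^ (K + 1))) := by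
        refine h1.trans ?_
        rw [h2]
        have h6 : CV K * (((H - 1 : ℕ) : ℝ) * (1 / H + α) + β * W ^ K * ∑ k ∈ Ico 1 H, w k) ≤
            CV K * (H * (1 / H + α) + β * W ^ K * (H * W)) :=
          mul_le_mul_of_nonneg_left (add_le_add h3 h4) hCV
        refine h6.trans (le_of_eq ?_)
        rw [pow_succ]
        ring
      calc 1 / (H : ℝ) * ∑ k ∈ Ico 1 H, x k ^ m
          ≤ 1 / (H : ℝ) * (H * (CV K * (1 / H + α + β * W ^ (K + 1)))) :=
            mul_le_mul_of_nonneg_left h5 hHinv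
        _ = CV K * (1 / H + α + β * W ^ (K + 1)) := by
            rw [← mul_assoc, one_div_mul_cancel hH0.ne', one_mul]
    set R : ℝ := 1 / H + α + β * W ^ (K + 1) with hR
    have hβW : 0 ≤ β * W ^ (K + 1) := by positivity
    have hR0 : 0 ≤ R := by positivity
    have hab : (1 / (H : ℝ)) ^ m + α ^ m ≤ CV K * R := by
      have h1 : (1 / (H : ℝ)) ^ m ≤ 1 / H := pow_le_of_le_one hHinv hHinv1 hm0
      have h2 : α ^ m ≤ α := pow_le_of_le_one hα0 hα hm0
      have h3 : R ≤ CV K * R := le_mul_of_one_le_left hR0 (CV_ge_one K)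
      linarith
    have hS : (‖SZ N F‖ / N) ^ (2 ^ (K + 1)) ≤ 12 ^ m * (2 * (CV K * R)) := by
      have h1 : (‖SZ N F‖ / N) ^ (2 ^ (K + 1)) = ((‖SZ N F‖ / N) ^ 2) ^ m := by
        rw [← pow_mul, hm, pow_succ, mul_comm]
      rw [h1]
      have h2 : ((‖SZ N F‖ / N) ^ 2) ^ m ≤
          (4 * (1 / H + α + 1 / H * ∑ k ∈ Ico 1 H, x k)) ^ m :=
        pow_le_pow_left₀ (by positivity) hv m
      have hc0 : 0 ≤ 1 / (H : ℝ) * ∑ k ∈ Ico 1 H, x k :=
        mul_nonneg hHinv (sum_nonneg fun k _ => hx0 k)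
      refine h2.trans ((THA2_three _ _ _ hHinv hα0 hc0 m).trans
        (mul_le_mul_of_nonneg_left ?_ (by positivity)))
      have h3 := hc.trans hc2
      linarith
    rw [hlen]
    change _ ≤ 24 ^ (2 ^ K) * CV K * R
    refine hS.trans ?_
    have h2m : (2 : ℝ) ≤ 2 ^ m := by
      calc (2 : ℝ) = 2 ^ 1 := (pow_one 2).symm
        _ ≤ 2 ^ m := pow_le_pow_right₀ (by norm_num) (Nat.one_le_iff_ne_zero.2 hm0)
    have h24 : (24 : ℝ) ^ m = 12 ^ m * 2 ^ m := by
      rw [← mul_pow]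
      norm_num
    have hCR : 0 ≤ CV K * R := mul_nonneg (zero_le_one.trans (CV_ge_one K)) hR0
    calc (12 : ℝ) ^ m * (2 * (CV K * R)) = 2 * (12 ^ m * (CV K * R)) := by ring
      _ ≤ 2 ^ m * (12 ^ m * (CV K * R)) :=
          mul_le_mul_of_nonneg_right h2m (by positivity)
      _ = 24 ^ (2 ^ K) * CV K * R := by
          rw [← hm, h24]
          ring

end Pool.Agent.Lib.MP_42948a_nt.TH
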