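import Pool.Agent.Lib.MP_42948a_nt.TH.Defs

/-!
# The vertices of the cube (job B1)

All by induction on `l` (`VP_cons`, `VM_cons`). `length_VV`: `(VP l).length + (VM l).length = 2 ^ l.length`, and for `l ≠ []` both are `2 ^ (l.length - 1)`. `VP_map`, `VM_map`: an additive map commutes with the construction.
`dvs_eq`: `dvs (x :: l) F = dvs l (dv x F)`; by the induction hypothesis for `dv x F`: `∏_{VP l} F(n+v) conj F(n+v+x) ∏_{VM l} conj F(n+v) F(n+v+x)`; regroup. `dvs_ch`: `dvs_eq`, `χ` multiplicative, products of lists
(`map_list_prod`, `List.map_map`), casts. `dvs_mul`: from `dvs_eq` or by induction (`dv x (F G) = dv x F * dv x G`). `dvs_norm`: induction, `dv` of a bounded function is bounded (`RCLike.norm_conj`). `dvs_append`: induction.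
-/

namespace Pool.Agent.Lib.MP_42948a_nt.TH

open Finset Polynomial Pool.Agent.Lib.MP_42948a_nt.BU Pool.Agent.Lib.MP_42948a_nt.BU2

theorem length_VV {A : Type*} [AddCommMonoid A] (l : List A) : (VP l).length + (VM l).length = 2 ^ l.length := by
  induction l with
  | nil => rfl
  | cons x l ih =>
    rw [VP_cons, VM_cons, List.length_append, List.length_append, List.length_map, List.length_map,
      List.length_cons, pow_succ, ← ih]
    ring

theorem length_VP {A : Type*} [AddCommMonoid A] (l : List A) (hl : l ≠ []) :
    (VP l).length = 2 ^ (l.length - 1) ∧ (VM l).length = 2 ^ (l.length - 1) := by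
  cases l with
  | nil => exact absurd rfl hl
  | cons x l =>
    have h := length_VV l
    rw [VP_cons, VM_cons, List.length_append, List.length_append, List.length_map, List.length_map,
      List.length_cons, Nat.add_sub_cancel]
    constructor
    · exact h
    · rw [add_comm]
      exact h

theorem VP_map {A B : Type*} [AddCommMonoid A] [AddCommMonoid B] (f : A →+ B) (l : List A) :
    VP (l.map f) = (VP l).map f ∧ VM (l.map f) = (VM l).map f := by
  induction l with
  | nil =>
    constructor
    · change [(0 : B)] = [f 0]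
      rw [map_zero]
    · rfl
  | cons x l ih =>
    have h : ((fun v : B => f x + v) ∘ f) = (f ∘ fun v : A => x + v) := by
      funext v
      exact (map_add f x v).symm
    constructor
    · rw [List.map_cons, VP_cons, VP_cons, List.map_append, ih.1, ih.2, List.map_map, List.map_map, h]
    · rw [List.map_cons, VM_cons, VM_cons, List.map_append, ih.1, ih.2, List.map_map, List.map_map, h]

theorem dvs_eq (l : List ℤ) (F : ℤ → ℂ) (n : ℤ) :
    dvs l F n = ((VP l).map (fun v => F (n + v))).prod * ((VM l).map (fun v => (starRingEnd ℂ) (F (n + v)))).prod := by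
  induction l generalizing F with
  | nil =>
    change F n = ([(0 : ℤ)].map (fun v => F (n + v))).prod * 1
    rw [List.map_cons, List.map_nil, List.prod_singleton, add_zero, mul_one]
  | cons x l ih =>
    change dvs l (dv x F) n = _
    rw [ih, VP_cons, VM_cons, List.map_append, List.map_append, List.prod_append, List.prod_append,
      List.map_map, List.map_map]
    have h1 : ((fun v : ℤ => F (n + v)) ∘ fun v : ℤ => x + v) = fun v => F (n + v + x) := by
      funext v
      change F (n + (x + v)) = F (n + v + x)
      congr 1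
      ring
    have h2 : ((fun v : ℤ => (starRingEnd ℂ) (F (n + v))) ∘ fun v : ℤ => x + v) =
        fun v => (starRingEnd ℂ) (F (n + v + x)) := by
      funext v
      change (starRingEnd ℂ) (F (n + (x + v))) = (starRingEnd ℂ) (F (n + v + x))
      congr 2
      ring
    rw [h1, h2]
    have h3 : ((VP l).map fun v => dv x F (n + v)).prod =
        ((VP l).map fun v => F (n + v)).prod *
          ((VP l).map fun v => (starRingEnd ℂ) (F (n + v + x))).prod := by
      rw [← List.prod_map_mul]
      rfl
    have h4 : ((VM l).map fun v => (starRingEnd ℂ) (dv x F (n + v))).prod =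
        ((VM l).map fun v => (starRingEnd ℂ) (F (n + v))).prod *
          ((VM l).map fun v => F (n + v + x)).prod := by
      rw [← List.prod_map_mul]
      congr 2
      funext v
      change (starRingEnd ℂ) (F (n + v) * (starRingEnd ℂ) (F (n + v + x))) = _
      rw [map_mul, Complex.conj_conj]
    rw [h3, h4]
    ring

theorem dvs_ch {q : ℕ} (χ : DirichletCharacter ℂ q) (l : List ℤ) (n : ℤ) :
    dvs l (ch χ) n = χ ((AV l n : ℤ) : ZMod q) * (starRingEnd ℂ) (χ ((BV l n : ℤ) : ZMod q)) := by
  rw [dvs_eq]
  have h1 : ∀ L : List ℤ, (L.map fun v => ch χ (n + v)).prod =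
      χ (((L.map fun v => n + v).prod : ℤ) : ZMod q) := by
    intro L
    induction L with
    | nil =>
      rw [List.map_nil, List.map_nil, List.prod_nil, List.prod_nil, Int.cast_one, map_one]
    | cons v L ih =>
      rw [List.map_cons, List.map_cons, List.prod_cons, List.prod_cons, ih, Int.cast_mul, map_mul]
      rfl
  have h2 : ((VM l).map fun v => (starRingEnd ℂ) (ch χ (n + v))).prod =
      (starRingEnd ℂ) (((VM l).map fun v => ch χ (n + v)).prod) := by
    rw [map_list_prod, List.map_map]
    rfl
  rw [h2, h1, h1]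
  rfl

theorem dvs_mul (l : List ℤ) (F G : ℤ → ℂ) (n : ℤ) : dvs l (fun k => F k * G k) n = dvs l F n * dvs l G n := by
  rw [dvs_eq, dvs_eq, dvs_eq, List.prod_map_mul]
  have h : ((VM l).map fun v => (starRingEnd ℂ) (F (n + v) * G (n + v))).prod =
      ((VM l).map fun v => (starRingEnd ℂ) (F (n + v))).prod *
        ((VM l).map fun v => (starRingEnd ℂ) (G (n + v))).prod := by
    rw [← List.prod_map_mul]
    congr 2
    funext v
    rw [map_mul]
  rw [h]
  ring

theorem dvs_norm (l : List ℤ) (F : ℤ → ℂ) (hF : ∀ n, ‖F n‖ ≤ 1) (n : ℤ) : ‖dvs l F n‖ ≤ 1 := by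
  induction l generalizing F with
  | nil => exact hF n
  | cons x l ih =>
    refine ih (dv x F) fun k => ?_
    change ‖F k * (starRingEnd ℂ) (F (k + x))‖ ≤ 1
    rw [norm_mul, RCLike.norm_conj]
    exact mul_le_one₀ (hF k) (norm_nonneg _) (hF (k + x))

theorem dvs_append (l l' : List ℤ) (F : ℤ → ℂ) : dvs (l ++ l') F = dvs l' (dvs l F) := by
  induction l generalizing F with
  | nil => rfl
  | cons x l ih => exact ih (dv x F)

theorem dvs_snoc (l : List ℤ) (x : ℤ) (F : ℤ → ℂ) : dvs (l ++ [x]) F = dv x (dvs l F) := by
  rw [dvs_append]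
  rfl

theorem ch_norm {q : ℕ} (χ : DirichletCharacter ℂ q) (n : ℤ) : ‖ch χ n‖ ≤ 1 := by
  exact DirichletCharacter.norm_le_one χ _

theorem dvs_per (l : List ℤ) (F : ℤ → ℂ) (q : ℕ) (hF : Per q F) : Per q (dvs l F) := by
  induction l generalizing F with
  | nil => exact hF
  | cons x l ih =>
    refine ih (dv x F) fun n => ?_
    change F (n + q) * (starRingEnd ℂ) (F (n + q + x)) = F n * (starRingEnd ℂ) (F (n + x))
    have h : n + (q : ℤ) + x = n + x + q := by ring
    rw [h, hF, hF]

theorem ch_per {q : ℕ} (χ : DirichletCharacter ℂ q) : Per q (ch χ) := by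
  intro n
  change χ (((n + (q : ℤ) : ℤ)) : ZMod q) = χ ((n : ℤ) : ZMod q)
  rw [Int.cast_add, Int.cast_natCast, ZMod.natCast_self, add_zero]

end Pool.Agent.Lib.MP_42948a_nt.TH
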