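import Pool.Agent.Lib.MP_42948a_nt.TH.Defs

/-!
# Difference quotients of polynomials (job B2)

`shift_quot`: for `g = ∑ c_i X^i` put `h = ∑ c_i ∑_{j ∈ range i} (X + C x)^j X^(i-1-j)` (e.g. `g.sum (fun i c => C c * ..)`, or by induction on the degree / linearity for `X^i`); `(X + C x)^i - X^i = C x * ∑_{j ∈ range i} (X + C x)^j X^(i-1-j)`
(`Commute.geom_sum₂_mul` / `geom_sum₂_mul`: `(∑_{j ∈ range i} a^j b^(i-1-j)) (a - b) = a^i - b^i`); each `(X + C x)^j X^(i-1-j)` is monic of degree `i - 1`, so the coefficient of `X^(d-1)` in `h` is `d * coeff g d` and the degree is `≤ d - 1`.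
(For `d = 0` all is `0`.) `cube_step`: `E' = E * QA - A * QE` with `QA`, `QE` from `shift_quot` for `(A, a)` and `(E, e)`: `E * A.comp - A * E.comp = E (A + x QA) - A (E + x QE) = x (E QA - A QE)`; degrees
`e + (a - 1)` and `a + (e - 1)` (if `e = 0` then `QE` has degree `≤ 0` and coefficient `0 * ..= 0`, so `QE = 0`); the coefficient of `X^(a+e-1)` is `c a - e c` (`Polynomial.coeff_mul_of_natDegree_le`).
`W_coeff`: the same with derivatives: `coeff (derivative A) (a - 1) = a * coeff A a` (`Polynomial.coeff_derivative`).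
-/

namespace Pool.Agent.Lib.MP_42948a_nt.TH

open Finset Polynomial Pool.Agent.Lib.MP_42948a_nt.BU Pool.Agent.Lib.MP_42948a_nt.BU2

private theorem THB2_geom (x : ℤ) (i : ℕ) :
    ∃ h : ℤ[X], C x * h = (X + C x) ^ i - X ^ i ∧ h.natDegree ≤ i - 1 ∧ h.coeff (i - 1) = i := by
  induction i with
  | zero =>
    refine ⟨0, ?_, ?_, ?_⟩
    · rw [pow_zero, pow_zero, sub_self, mul_zero]
    · rw [natDegree_zero]
    · rw [coeff_zero, Nat.cast_zero]
  | succ i ih =>
    obtain ⟨h, h1, h2, h3⟩ := ih
    refine ⟨(X + C x) ^ i + X * h, ?_, ?_, ?_⟩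
    · rw [mul_add, mul_left_comm, h1, pow_succ, pow_succ]
      ring
    · rw [Nat.add_sub_cancel]
      refine natDegree_add_le_of_degree_le ?_ ?_
      · refine natDegree_pow_le.trans ?_
        rw [natDegree_X_add_C, mul_one]
      · rcases Nat.eq_zero_or_pos i with hi | hi
        · subst hi
          have h4 : h = 0 := by
            have h5 : h = C (h.coeff 0) := eq_C_of_natDegree_le_zero h2
            rw [h5, show h.coeff 0 = 0 by rw [h3, Nat.cast_zero], map_zero]
          rw [h4, mul_zero, natDegree_zero]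
        · refine natDegree_mul_le.trans ?_
          rw [natDegree_X]
          omega
    · rw [Nat.add_sub_cancel, coeff_add]
      have h6 : ((X + C x : ℤ[X]) ^ i).coeff i = 1 := by
        have h7 : ((X + C x : ℤ[X]) ^ i).natDegree = i := by
          rw [natDegree_pow, natDegree_X_add_C, mul_one]
        have h8 : ((X + C x : ℤ[X]) ^ i).Monic := (monic_X_add_C x).pow i
        have h9 := h8.coeff_natDegree
        rw [h7] at h9
        exact h9
      rw [h6]
      rcases Nat.eq_zero_or_pos i with hi | hi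
      · subst hi
        rw [mul_coeff_zero, coeff_X_zero, zero_mul]
        rfl
      · obtain ⟨j, rfl⟩ : ∃ j, i = j + 1 := ⟨i - 1, by omega⟩
        rw [coeff_X_mul]
        rw [Nat.add_sub_cancel] at h3
        rw [h3]
        push_cast
        ring

private theorem THB2_sum (x : ℤ) (g : ℤ[X]) (H : ℕ → ℤ[X])
    (hH : ∀ i, C x * H i = (X + C x) ^ i - X ^ i) (d : ℕ) (hd : g.natDegree ≤ d) :
    C x * (∑ i ∈ range (d + 1), C (g.coeff i) * H i) = g.comp (X + C x) - g := by
  have h1 : g.comp (X + C x) = ∑ i ∈ range (d + 1), C (g.coeff i) * (X + C x) ^ i := by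
    rw [comp, eval₂_eq_sum_range' C (Nat.lt_succ_of_le hd)]
  have h2 : g = ∑ i ∈ range (d + 1), C (g.coeff i) * X ^ i := by
    have h3 := as_sum_range_C_mul_X_pow' g (Nat.lt_succ_of_le hd)
    exact h3
  rw [h1]
  nth_rewrite 3 [h2]
  rw [mul_sum, ← sum_sub_distrib]
  refine sum_congr rfl fun i _ => ?_
  rw [mul_left_comm, hH]
  ring

theorem shift_quot (x : ℤ) (g : ℤ[X]) (d : ℕ) (hd : g.natDegree ≤ d) :
    ∃ h : ℤ[X], C x * h = g.comp (X + C x) - g ∧ h.natDegree ≤ d - 1 ∧ h.coeff (d - 1) = d * g.coeff d := by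
  choose H h1 h2 h3 using THB2_geom x
  refine ⟨∑ i ∈ range (d + 1), C (g.coeff i) * H i, THB2_sum x g H h1 d hd, ?_, ?_⟩
  · refine natDegree_sum_le_of_forall_le _ _ fun i hi => ?_
    have hi' := mem_range.1 hi
    exact (natDegree_C_mul_le _ _).trans ((h2 i).trans (by omega))
  · rw [finsetSum_coeff, sum_range_succ, coeff_C_mul, h3, sum_eq_zero]
    · ring
    · intro i hi
      have hi' := mem_range.1 hi
      rw [coeff_C_mul]
      rcases Nat.eq_zero_or_pos i with h0 | h0
      · have h4 : H i = 0 := by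
          have h5 : H i = C ((H i).coeff 0) :=
            eq_C_of_natDegree_le_zero ((h2 i).trans (by omega))
          have h6 : (H i).coeff 0 = 0 := by
            have h7 := h3 i
            rw [h0] at h7 ⊢
            rw [h7, Nat.cast_zero]
          rw [h5, h6, map_zero]
        rw [h4, coeff_zero, mul_zero]
      · rw [coeff_eq_zero_of_natDegree_lt (lt_of_le_of_lt (h2 i) (by omega)), mul_zero]

theorem cube_step (x : ℤ) (A E : ℤ[X]) (a e : ℕ) (c : ℤ) (ha : A.natDegree ≤ a) (hA : A.coeff a = 1)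
    (he : E.natDegree ≤ e) (hE : E.coeff e = c) (hea : e < a) :
    ∃ E' : ℤ[X], C x * E' = E * A.comp (X + C x) - A * E.comp (X + C x) ∧ E'.natDegree ≤ a + e - 1 ∧
      E'.coeff (a + e - 1) = c * (a - e) := by
  obtain ⟨QA, hA1, hA2, hA3⟩ := shift_quot x A a ha
  obtain ⟨QE, hE1, hE2, hE3⟩ := shift_quot x E e he
  have hA4 : A.comp (X + C x) = A + C x * QA := by rw [hA1]; ring
  have hE4 : E.comp (X + C x) = E + C x * QE := by rw [hE1]; ring
  rw [hA, mul_one] at hA3
  rw [hE] at hE3
  have hQ : (A * QE).natDegree ≤ a + e - 1 ∧ (A * QE).coeff (a + e - 1) = e * c := by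
    rcases Nat.eq_zero_or_pos e with h0 | h0
    · have h1 : QE = 0 := by
        have h5 : QE = C (QE.coeff 0) := eq_C_of_natDegree_le_zero (hE2.trans (by omega))
        have h6 : QE.coeff 0 = 0 := by
          rw [h0] at hE3
          rw [hE3, Nat.cast_zero, zero_mul]
        rw [h5, h6, map_zero]
      rw [h1, mul_zero]
      refine ⟨?_, ?_⟩
      · rw [natDegree_zero]
        omega
      · rw [coeff_zero, h0, Nat.cast_zero, zero_mul]
    · have h1 : a + e - 1 = a + (e - 1) := by omega
      rw [h1]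
      refine ⟨natDegree_mul_le_of_le ha hE2, ?_⟩
      rw [coeff_mul_add_eq_of_natDegree_le ha hE2, hA, hE3, one_mul]
  have hP : (E * QA).natDegree ≤ a + e - 1 ∧ (E * QA).coeff (a + e - 1) = c * a := by
    have h1 : a + e - 1 = e + (a - 1) := by omega
    rw [h1]
    refine ⟨natDegree_mul_le_of_le he hA2, ?_⟩
    rw [coeff_mul_add_eq_of_natDegree_le he hA2, hE, hA3]
  refine ⟨E * QA - A * QE, ?_, ?_, ?_⟩
  · rw [hA4, hE4]
    ring
  · exact (natDegree_sub_le _ _).trans (max_le hP.1 hQ.1)
  · rw [coeff_sub, hP.2, hQ.2]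
    ring

theorem W_coeff (A E : ℤ[X]) (a e : ℕ) (c : ℤ) (ha : A.natDegree ≤ a) (hA : A.coeff a = 1)
    (he : E.natDegree ≤ e) (hE : E.coeff e = c) (hea : e < a) :
    (A * derivative E - derivative A * E).natDegree ≤ a + e - 1 ∧
      (A * derivative E - derivative A * E).coeff (a + e - 1) = c * (e - a) := by
  have hdA : (derivative A).natDegree ≤ a - 1 := (natDegree_derivative_le A).trans (by omega)
  have hdA' : (derivative A).coeff (a - 1) = a := by
    obtain ⟨b, rfl⟩ : ∃ b, a = b + 1 := ⟨a - 1, by omega⟩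
    rw [Nat.add_sub_cancel, coeff_derivative, hA]
    push_cast
    ring
  have hP : (derivative A * E).natDegree ≤ a + e - 1 ∧
      (derivative A * E).coeff (a + e - 1) = a * c := by
    have h1 : a + e - 1 = (a - 1) + e := by omega
    rw [h1]
    refine ⟨natDegree_mul_le_of_le hdA he, ?_⟩
    rw [coeff_mul_add_eq_of_natDegree_le hdA he, hdA', hE]
  have hQ : (A * derivative E).natDegree ≤ a + e - 1 ∧
      (A * derivative E).coeff (a + e - 1) = e * c := by
    rcases Nat.eq_zero_or_pos e with h0 | h0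
    · have h1 : derivative E = 0 := by
        have h5 : E = C (E.coeff 0) := eq_C_of_natDegree_le_zero (he.trans (by omega))
        rw [h5, derivative_C]
      rw [h1, mul_zero]
      refine ⟨?_, ?_⟩
      · rw [natDegree_zero]
        omega
      · rw [coeff_zero, h0, Nat.cast_zero, zero_mul]
    · have hdE : (derivative E).natDegree ≤ e - 1 := (natDegree_derivative_le E).trans (by omega)
      have hdE' : (derivative E).coeff (e - 1) = e * c := by
        obtain ⟨b, rfl⟩ : ∃ b, e = b + 1 := ⟨e - 1, by omega⟩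
        rw [Nat.add_sub_cancel, coeff_derivative, hE]
        push_cast
        ring
      have h1 : a + e - 1 = a + (e - 1) := by omega
      rw [h1]
      refine ⟨natDegree_mul_le_of_le ha hdE, ?_⟩
      rw [coeff_mul_add_eq_of_natDegree_le ha hdE, hA, hdE', one_mul]
  refine ⟨(natDegree_sub_le _ _).trans (max_le hQ.1 hP.1), ?_⟩
  rw [coeff_sub, hP.2, hQ.2]
  ring

end Pool.Agent.Lib.MP_42948a_nt.TH
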