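import Pool.Agent.Lib.MP_42948a_nt.TH.B1
import Pool.Agent.Lib.MP_42948a_nt.TH.B2

/-!
# The cube identity (job B3)

`PA_monic`: a product of `(VP l).length` monic factors `X + C v` of degree one. `PA_eval`, `PB_eval`: evaluation of the product of a list (`Polynomial.eval_list_prod` or `map_list_prod (evalRingHom n)`).
`cube_poly`: induction on `l`. `l = [x]`: `VP [x] = [0]`, `VM [x] = [x + 0]`: `PA - PB = X - (X + C x) = C x * (-1)`, `E = -1`. `l = x :: l'`, `l' ≠ []`, `K = l'.length`, `P = l'.prod`, `A = PA l'`, `B = PB l'`, `A - B = C P * E`: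
`PA l = A * B.comp (X + C x)` and `PB l = B * A.comp (X + C x)` (`(X + C v).comp (X + C x) = X + C (x + v)`), so
`PA l - PB l = A (A.comp - C P E.comp) - (A - C P E) A.comp = C P (E A.comp - A E.comp) = C P * C x * E'` by `cube_step` with `a = 2^(K-1)` (`PA_monic`, `length_VP`), `e = 2^(K-1) - K` (`K ≤ 2^(K-1)`, `K ≥ 1`), `c = -(K-1)!`:
`a + e - 1 = 2^K - (K + 1)` and the coefficient is `c (a - e) = -(K-1)! K = -K!`.
-/

namespace Pool.Agent.Lib.MP_42948a_nt.TH

open Finset Polynomial Pool.Agent.Lib.MP_42948a_nt.BU Pool.Agent.Lib.MP_42948a_nt.BU2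

theorem THB3_monic (L : List ℤ) :
    ((L.map (fun v => (X + C v : ℤ[X]))).prod).natDegree = L.length ∧
      ((L.map (fun v => (X + C v : ℤ[X]))).prod).Monic := by
  induction L with
  | nil => simp
  | cons v L ih =>
    rw [List.map_cons, List.prod_cons]
    have h1 : (X + C v : ℤ[X]).Monic := monic_X_add_C v
    refine ⟨?_, h1.mul ih.2⟩
    rw [h1.natDegree_mul ih.2, ih.1, natDegree_X_add_C, List.length_cons, add_comm]

theorem PA_monic (l : List ℤ) : (PA l).natDegree = (VP l).length ∧ (PA l).coeff (VP l).length = 1 := by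
  have h := THB3_monic (VP l)
  refine ⟨h.1, ?_⟩
  have h2 : (PA l).leadingCoeff = 1 := h.2
  have h1 : (PA l).natDegree = (VP l).length := h.1
  rw [← h1]
  exact h2

theorem THB3_eval (L : List ℤ) (n : ℤ) :
    ((L.map (fun v => (X + C v : ℤ[X]))).prod).eval n = (L.map (fun v => n + v)).prod := by
  induction L with
  | nil => simp
  | cons v L ih =>
    rw [List.map_cons, List.prod_cons, List.map_cons, List.prod_cons, eval_mul, ih]
    simp

theorem PA_eval (l : List ℤ) (n : ℤ) : (PA l).eval n = AV l n ∧ (PB l).eval n = BV l n :=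
  ⟨THB3_eval (VP l) n, THB3_eval (VM l) n⟩

theorem THB3_comp (L : List ℤ) (x : ℤ) :
    (((L.map (fun v => x + v)).map (fun v => (X + C v : ℤ[X]))).prod) =
      ((L.map (fun v => (X + C v : ℤ[X]))).prod).comp (X + C x) := by
  induction L with
  | nil => simp
  | cons v L ih =>
    rw [List.map_cons, List.map_cons, List.prod_cons, List.map_cons, List.prod_cons, mul_comp, ih]
    congr 1
    rw [add_comp, X_comp, C_comp, C_add, add_assoc]

theorem THB3_PA (x : ℤ) (l : List ℤ) : PA (x :: l) = PA l * (PB l).comp (X + C x) := by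
  unfold PA PB
  rw [VP_cons, List.map_append, List.prod_append, THB3_comp]

theorem THB3_PB (x : ℤ) (l : List ℤ) : PB (x :: l) = PB l * (PA l).comp (X + C x) := by
  unfold PA PB
  rw [VM_cons, List.map_append, List.prod_append, THB3_comp]

theorem cube_poly (l : List ℤ) (hl : l ≠ []) :
    ∃ E : ℤ[X], PA l - PB l = C l.prod * E ∧ E.natDegree ≤ 2 ^ (l.length - 1) - l.length ∧
      E.coeff (2 ^ (l.length - 1) - l.length) = -(((l.length - 1).factorial : ℕ) : ℤ) := by
  induction l with
  | nil => exact absurd rfl hl
  | cons x l ih =>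
    by_cases hl' : l = []
    · subst hl'
      refine ⟨-1, ?_, ?_, ?_⟩
      · have h1 : PA [x] = X := by
          unfold PA
          rw [VP_cons, VP_nil, VM_nil]
          simp
        have h2 : PB [x] = X + C x := by
          unfold PB
          rw [VM_cons, VP_nil, VM_nil]
          simp
        rw [h1, h2, List.prod_singleton]
        ring
      · rw [natDegree_neg, natDegree_one]
        exact Nat.zero_le _
      · simp
    · obtain ⟨E, hE1, hE2, hE3⟩ := ih hl'
      have hK : 1 ≤ l.length := List.length_pos_of_ne_nil hl'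
      have hK2 : l.length ≤ 2 ^ (l.length - 1) := by
        have h := Nat.lt_two_pow_self (n := l.length - 1)
        omega
      obtain ⟨hA1, hA2⟩ := PA_monic l
      have hlen := (length_VP l hl').1
      rw [hlen] at hA1 hA2
      obtain ⟨E', h1, h2, h3⟩ := cube_step x (PA l) E (2 ^ (l.length - 1)) (2 ^ (l.length - 1) - l.length) _
        hA1.le hA2 hE2 hE3 (by omega)
      have hpow : 2 ^ (l.length - 1) + 2 ^ (l.length - 1) = 2 ^ l.length := by
        rw [← two_mul, ← pow_succ']
        congr 1
        omega
      have hidx : 2 ^ (l.length - 1) + (2 ^ (l.length - 1) - l.length) - 1 =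
          2 ^ ((x :: l).length - 1) - (x :: l).length := by
        rw [List.length_cons, Nat.add_sub_cancel]
        omega
      rw [hidx] at h2 h3
      refine ⟨E', ?_, h2, ?_⟩
      · rw [THB3_PA, THB3_PB, List.prod_cons, C_mul]
        have hB : PB l = PA l - C l.prod * E := by rw [← hE1]; ring
        have hB' : (PB l).comp (X + C x) = (PA l).comp (X + C x) - C l.prod * E.comp (X + C x) := by
          rw [hB, sub_comp, mul_comp, C_comp]
        rw [hB', hB]
        calc PA l * ((PA l).comp (X + C x) - C l.prod * E.comp (X + C x)) -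
              (PA l - C l.prod * E) * (PA l).comp (X + C x)
            = C l.prod * (E * (PA l).comp (X + C x) - PA l * E.comp (X + C x)) := by ring
          _ = C x * C l.prod * E' := by rw [← h1]; ring
      · rw [h3]
        have hcast : ((2 ^ (l.length - 1) - l.length : ℕ) : ℤ) = ((2 ^ (l.length - 1) : ℕ) : ℤ) - l.length := by
          rw [Nat.cast_sub hK2]
        rw [hcast, sub_sub_cancel, List.length_cons, Nat.add_sub_cancel, neg_mul]
        congr 1
        have hf : l.length.factorial = l.length * (l.length - 1).factorial := by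
          conv_lhs => rw [show l.length = (l.length - 1) + 1 by omega]
          rw [Nat.factorial_succ]
          congr 1
          omega
        rw [hf]
        push_cast
        ring

theorem cube_int (l : List ℤ) (hl : l ≠ []) (n : ℤ) : l.prod ∣ AV l n - BV l n := by
  obtain ⟨E, hE, _, _⟩ := cube_poly l hl
  have h := congrArg (fun p : ℤ[X] => p.eval n) hE
  simp only [eval_sub, eval_mul, eval_C] at h
  rw [(PA_eval l n).1, (PA_eval l n).2] at h
  exact ⟨E.eval n, h⟩

end Pool.Agent.Lib.MP_42948a_nt.TH
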