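import Pool.Agent.Lib.MP_42948a_nt.TH.B3

/-!
# Support and periodicity of the differenced characters (job B4)

`cop_iff`: `AV l n * BV l n` is the product of the `n + v` over `VP l ++ VM l`; a product is coprime to `m` iff all factors are (`IsCoprime.list_prod_left_iff`-like, by induction with `IsCoprime.mul_left_iff`).
`dvs_zero`: some `n + v` is not coprime to `m`, so `AV l n` or `BV l n` is not coprime to `m` and `χ` vanishes there (`ZMod.isUnit..`: `MulChar.map_nonunit`, `ZMod.coe_int_isUnit_iff_isCoprime`), `dvs_ch`.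
`dvs_one`: `cube_int` and `h` give `AV l n = BV l n` in `ZMod m`, so `dvs = χ(AV) conj χ(AV) = ‖χ(AV)‖^2 = 1` for the unit `AV` (`DirichletCharacter.unit_norm_eq_one`-like, `Complex.mul_conj`).
`dvs_period`: let `Ψ = dvs l (ch χ)`, `l' = l ++ [(q' : ℤ)]`. `l'.prod = l.prod * q'`, divisible by `m`. `dvs l' (ch χ) n = Ψ n * conj (Ψ (n + q'))` (`dvs_snoc`). The vertices of `l'` are (up to order) those of `l` and those of `l` shifted by `q'`:
more simply, `dvs_eq` for `l` shows: if all `n + v` (`v ∈ VP l ++ VM l`) are coprime to `m` then so are all `n + v + q'` (a prime `p ∣ m` divides `q'`, so it divides `n + v + q'` iff it divides `n + v`), and one proves by induction that the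
vertices of `l ++ [y]` are vertices of `l` or of the form `v + y` (`mem_snoc`). So in this case `dvs l' (ch χ) n = 1` (`dvs_one`), `‖Ψ‖ ≤ 1`, hence `Ψ (n + q') = Ψ n` (`z conj w = 1`, `‖z‖, ‖w‖ ≤ 1` implies `z = w`). Otherwise
some `n + v` is not coprime to `m`, then `n + q' + v` is not either, and both sides are `0` (`dvs_zero`).
-/

namespace Pool.Agent.Lib.MP_42948a_nt.TH

open Finset Polynomial Pool.Agent.Lib.MP_42948a_nt.BU Pool.Agent.Lib.MP_42948a_nt.BU2

theorem THB4_list (L : List ℤ) (n a : ℤ) :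
    IsCoprime ((L.map (fun v => n + v)).prod) a ↔ ∀ v ∈ L, IsCoprime (n + v) a := by
  induction L with
  | nil => simp [isCoprime_one_left]
  | cons v L ih =>
    rw [List.map_cons, List.prod_cons, IsCoprime.mul_left_iff, ih, List.forall_mem_cons]

theorem cop_iff (l : List ℤ) (n : ℤ) (m : ℕ) :
    IsCoprime (AV l n * BV l n) (m : ℤ) ↔ ∀ v ∈ VP l ++ VM l, IsCoprime (n + v) (m : ℤ) := by
  unfold AV BV
  rw [← List.prod_append, ← List.map_append, THB4_list]

theorem mem_snoc (l : List ℤ) (y v : ℤ) (hv : v ∈ VP (l ++ [y]) ++ VM (l ++ [y])) :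
    v ∈ VP l ++ VM l ∨ ∃ u ∈ VP l ++ VM l, v = u + y := by
  induction l generalizing v with
  | nil =>
    rw [List.nil_append, VP_cons, VM_cons, VP_nil, VM_nil] at hv
    simp only [List.map_nil, List.append_nil, List.nil_append, List.map_cons, List.mem_append, List.mem_singleton] at hv
    rw [VP_nil, VM_nil]
    rcases hv with h | h
    · left; simp [h]
    · right; exact ⟨0, by simp, by rw [h]; ring⟩
  | cons x l ih =>
    rw [List.cons_append, VP_cons, VM_cons] at hv
    simp only [List.mem_append, List.mem_map] at hv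
    have key : ∀ w, (w ∈ VP (l ++ [y]) ∨ w ∈ VM (l ++ [y])) → 
        (w ∈ VP l ++ VM l ∨ ∃ u ∈ VP l ++ VM l, w = u + y) := fun w hw =>
      ih w (List.mem_append.mpr hw)
    have up : ∀ w, w ∈ VP l ++ VM l → w ∈ VP (x :: l) ++ VM (x :: l) := by
      intro w hw
      rw [VP_cons, VM_cons]
      simp only [List.mem_append] at hw ⊢
      rcases hw with h | h
      · left; left; exact h
      · right; left; exact h
    have ux : ∀ w, w ∈ VP l ++ VM l → x + w ∈ VP (x :: l) ++ VM (x :: l) := by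
      intro w hw
      rw [VP_cons, VM_cons]
      simp only [List.mem_append, List.mem_map] at hw ⊢
      rcases hw with h | h
      · right; right; exact ⟨w, h, rfl⟩
      · left; right; exact ⟨w, h, rfl⟩
    have h1 : (v ∈ VP (l ++ [y]) ∨ v ∈ VM (l ++ [y])) ∨ 
        ∃ w, (w ∈ VP (l ++ [y]) ∨ w ∈ VM (l ++ [y])) ∧ x + w = v := by
      rcases hv with (h | ⟨w, h, e⟩) | (h | ⟨w, h, e⟩)
      · exact Or.inl (Or.inl h)
      · exact Or.inr ⟨w, Or.inr h, e⟩
      · exact Or.inl (Or.inr h)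
      · exact Or.inr ⟨w, Or.inl h, e⟩
    rcases h1 with h | ⟨w, h, e⟩
    · rcases key v h with h2 | ⟨u, hu, e⟩
      · exact Or.inl (up v h2)
      · exact Or.inr ⟨u, up u hu, e⟩
    · rcases key w h with h2 | ⟨u, hu, e2⟩
      · left; rw [← e]; exact ux w h2
      · right; exact ⟨x + u, ux u hu, by rw [← e, e2]; ring⟩

theorem THB4_unit {m : ℕ} [NeZero m] (χ : DirichletCharacter ℂ m) (a : ℤ) (h : ¬ IsCoprime a (m : ℤ)) :
    χ (a : ZMod m) = 0 := by
  apply MulChar.map_nonunit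
  intro hu
  apply h
  exact (ZMod.coe_int_isUnit_iff_isCoprime a m).mp hu |>.symm

theorem dvs_zero {m : ℕ} [NeZero m] (χ : DirichletCharacter ℂ m) (l : List ℤ) (n : ℤ)
    (h : ¬ ∀ v ∈ VP l ++ VM l, IsCoprime (n + v) (m : ℤ)) : dvs l (ch χ) n = 0 := by
  rw [dvs_ch]
  rw [← cop_iff, IsCoprime.mul_left_iff] at h
  by_cases h1 : IsCoprime (AV l n) (m : ℤ)
  · have h2 : ¬ IsCoprime (BV l n) (m : ℤ) := fun h2 => h ⟨h1, h2⟩
    rw [THB4_unit χ _ h2, map_zero, mul_zero]
  · rw [THB4_unit χ _ h1, zero_mul]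

theorem dvs_one {m : ℕ} [NeZero m] (χ : DirichletCharacter ℂ m) (l : List ℤ) (hl : l ≠ []) (h : (m : ℤ) ∣ l.prod) (n : ℤ)
    (hn : ∀ v ∈ VP l ++ VM l, IsCoprime (n + v) (m : ℤ)) : dvs l (ch χ) n = 1 := by
  rw [dvs_ch]
  have h1 : (m : ℤ) ∣ AV l n - BV l n := h.trans (cube_int l hl n)
  have h2 : ((AV l n : ℤ) : ZMod m) = ((BV l n : ℤ) : ZMod m) := by
    have := (ZMod.intCast_zmod_eq_zero_iff_dvd (AV l n - BV l n) m).mpr h1
    rw [Int.cast_sub] at this
    exact sub_eq_zero.mp this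
  rw [← cop_iff, IsCoprime.mul_left_iff] at hn
  have hu : IsUnit ((BV l n : ℤ) : ZMod m) :=
    (ZMod.coe_int_isUnit_iff_isCoprime _ m).mpr hn.2.symm
  rw [h2, Complex.mul_conj, Complex.normSq_eq_norm_sq]
  obtain ⟨u, hu⟩ := hu
  rw [← hu, χ.unit_norm_eq_one u]
  norm_num

theorem dvs_period {m : ℕ} [NeZero m] (χ : DirichletCharacter ℂ m) (l : List ℤ) (q' : ℕ)
    (h : (m : ℤ) ∣ (q' : ℤ) * l.prod) (hrad : ∀ p : ℕ, p.Prime → p ∣ m → p ∣ q') : Per q' (dvs l (ch χ)) := by
  intro n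
  have hm0 : m ≠ 0 := NeZero.ne m
  have hcop : ∀ a : ℤ, IsCoprime (a + q') (m : ℤ) ↔ IsCoprime a (m : ℤ) := by
    have one : ∀ a : ℤ, ∀ b : ℤ, (∃ k : ℤ, b = a + k * q') → IsCoprime a (m : ℤ) → IsCoprime b (m : ℤ) := by
      rintro a b ⟨k, hk⟩ hab
      rw [Int.isCoprime_iff_gcd_eq_one] at hab ⊢
      by_contra hne
      obtain ⟨p, hp, hpd⟩ := Nat.exists_prime_and_dvd hne
      have hpd' : (p : ℤ) ∣ ((Int.gcd b (m : ℤ) : ℕ) : ℤ) := Int.natCast_dvd_natCast.mpr hpd
      have hpb : (p : ℤ) ∣ b := hpd'.trans (Int.gcd_dvd_left _ _)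
      have hpm : (p : ℤ) ∣ (m : ℤ) := hpd'.trans (Int.gcd_dvd_right _ _)
      have hpm' : p ∣ m := Int.natCast_dvd_natCast.mp hpm
      have hpq : (p : ℤ) ∣ (q' : ℤ) := Int.natCast_dvd_natCast.mpr (hrad p hp hpm')
      have hpa : (p : ℤ) ∣ a := by
        have : a = b - k * q' := by rw [hk]; ring
        rw [this]
        exact dvd_sub hpb (hpq.mul_left k)
      have hpg : (p : ℤ) ∣ ((Int.gcd a (m : ℤ) : ℕ) : ℤ) := Int.dvd_coe_gcd hpa hpm
      rw [hab] at hpg
      have := Int.natCast_dvd_natCast.mp hpg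
      exact hp.one_lt.ne' (Nat.dvd_one.mp this)
    intro a
    constructor
    · exact one _ _ ⟨-1, by ring⟩
    · exact one _ _ ⟨1, by ring⟩
  have hshift : (∀ v ∈ VP l ++ VM l, IsCoprime (n + q' + v) (m : ℤ)) ↔ 
      (∀ v ∈ VP l ++ VM l, IsCoprime (n + v) (m : ℤ)) := by
    refine forall₂_congr fun v _ => ?_
    rw [add_right_comm, hcop]
  by_cases hc : ∀ v ∈ VP l ++ VM l, IsCoprime (n + v) (m : ℤ)
  · have hp : (m : ℤ) ∣ (l ++ [(q' : ℤ)]).prod := by
      rw [List.prod_append, List.prod_singleton, mul_comm]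
      exact h
    have hall : ∀ v ∈ VP (l ++ [(q' : ℤ)]) ++ VM (l ++ [(q' : ℤ)]), IsCoprime (n + v) (m : ℤ) := by
      intro v hv
      rcases mem_snoc l q' v hv with h1 | ⟨u, hu, e⟩
      · exact hc v h1
      · rw [e, ← add_assoc, hcop]
        exact hc u hu
    have h1 := dvs_one χ (l ++ [(q' : ℤ)]) (by simp) hp n hall
    rw [dvs_snoc] at h1
    change dvs l (ch χ) n * (starRingEnd ℂ) (dvs l (ch χ) (n + q')) = 1 at h1
    have hz := dvs_norm l (ch χ) (ch_norm χ) n
    have hw := dvs_norm l (ch χ) (ch_norm χ) (n + q')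
    set z := dvs l (ch χ) n with hzdef
    set w := dvs l (ch χ) (n + q') with hwdef
    have hn1 : ‖z‖ * ‖w‖ = 1 := by
      have := congrArg norm h1
      rwa [norm_mul, RCLike.norm_conj, norm_one] at this
    have hw1 : ‖w‖ = 1 := by
      apply le_antisymm hw
      nlinarith [norm_nonneg z, norm_nonneg w]
    have hww : (starRingEnd ℂ) w * w = 1 := by
      rw [mul_comm, Complex.mul_conj, Complex.normSq_eq_norm_sq, hw1]
      norm_num
    calc w = (z * (starRingEnd ℂ) w) * w := by rw [h1, one_mul]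
      _ = z * ((starRingEnd ℂ) w * w) := by ring
      _ = z := by rw [hww, mul_one]
  · rw [dvs_zero χ l n hc, dvs_zero χ l (n + q') (fun h' => hc (hshift.mp h'))]

end Pool.Agent.Lib.MP_42948a_nt.TH
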