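import Pool.Agent.Lib.MP_42948a_nt.TH.Defs

/-!
# Complete sums of periodic functions (job C1)

`CZ_zmod`: the sum over `range q` of a function of the residue class is the sum over `ZMod q` (`n ↦ (n : ZMod q)` is a bijection of `range q` onto `ZMod q`). `Per_int`: induction on the integer multiple.
`CZ_shift`: a `q`-periodic function has the same sum over every interval of `q` consecutive integers (it is a function `f : ZMod q → ℂ` of the class: `F n = f n` with `f x = F (x.val)`; use `CZ_zmod` and `Equiv.addRight`).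
`CZ_mul`: `range (k q)` splits into `k` intervals of length `q` (induction on `k`). `CZ_crt`: `F n = f (n : ZMod a)`, `G n = g (n : ZMod b)`; `CZ_zmod` for `a b` and `ZMod.chineseRemainder hab` (as in `CS_mul` of `BU/CB.lean`), `Finset.sum_mul_sum`.
`sum_le_CZ`: for a nonnegative `q`-periodic `f : ℤ → ℝ`: `[1, N]` is contained in the union of `N / q + 1` (natural division) intervals of length `q`. `SZ_le_CZ`: `[1, N]` is the union of `N / q` intervals of length `q` and at most `q`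
further terms of norm `≤ 1`.
-/

namespace Pool.Agent.Lib.MP_42948a_nt.TH

open Finset Polynomial Pool.Agent.Lib.MP_42948a_nt.BU Pool.Agent.Lib.MP_42948a_nt.BU2

private theorem THC1_sum_zmod {M : Type*} [AddCommMonoid M] (q : ℕ) [NeZero q] (f : ZMod q → M) :
    ∑ n ∈ range q, f ((n : ℕ) : ZMod q) = ∑ x : ZMod q, f x := by
  refine Finset.sum_bij' (fun n _ => ((n : ℕ) : ZMod q)) (fun x _ => x.val) ?_ ?_ ?_ ?_ ?_
  · intro n _; exact Finset.mem_univ _
  · intro x _; exact Finset.mem_range.2 (ZMod.val_lt x)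
  · intro n hn; exact ZMod.val_cast_of_lt (Finset.mem_range.1 hn)
  · intro x _; exact ZMod.natCast_zmod_val x
  · intro n _; rfl

theorem CZ_zmod (q : ℕ) [NeZero q] (f : ZMod q → ℂ) : CZ q (fun n => f ((n : ℤ) : ZMod q)) = ∑ x : ZMod q, f x := by
  unfold CZ
  rw [← THC1_sum_zmod q f]
  refine Finset.sum_congr rfl (fun n _ => ?_)
  simp only [Int.cast_natCast]

theorem Per_int (q : ℕ) (F : ℤ → ℂ) (hF : Per q F) (n k : ℤ) : F (n + q * k) = F n := by
  have h : Function.Periodic F (q : ℤ) := fun x => hF x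
  have h2 := h.int_mul k n
  rw [mul_comm (q : ℤ) k]
  exact h2

private theorem THC1_class (q : ℕ) [NeZero q] (F : ℤ → ℂ) (hF : Per q F) (n : ℤ) :
    F n = F ((((n : ℤ) : ZMod q).val : ℕ) : ℤ) := by
  rw [ZMod.val_intCast]
  have h := Per_int q F hF (n % q) (n / q)
  rw [Int.emod_add_mul_ediv] at h
  exact h

theorem CZ_shift (q : ℕ) [NeZero q] (F : ℤ → ℂ) (hF : Per q F) (t : ℤ) : CZ q (fun n => F (n + t)) = CZ q F := by
  have h1 : CZ q (fun n => F (n + t)) =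
      CZ q (fun n => (fun x : ZMod q => F (((x + ((t : ℤ) : ZMod q)).val : ℕ) : ℤ)) ((n : ℤ) : ZMod q)) := by
    unfold CZ
    refine Finset.sum_congr rfl (fun n _ => ?_)
    show F (((n : ℕ) : ℤ) + t) = _
    rw [THC1_class q F hF (((n : ℕ) : ℤ) + t), Int.cast_add]
  have h2 : CZ q F = CZ q (fun n => (fun x : ZMod q => F ((x.val : ℕ) : ℤ)) ((n : ℤ) : ZMod q)) := by
    unfold CZ
    refine Finset.sum_congr rfl (fun n _ => ?_)
    exact THC1_class q F hF _
  have e1 := h1.trans (CZ_zmod q (fun x : ZMod q => F (((x + ((t : ℤ) : ZMod q)).val : ℕ) : ℤ)))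
  have e2 := h2.trans (CZ_zmod q (fun x : ZMod q => F ((x.val : ℕ) : ℤ)))
  rw [e1, e2]
  exact Equiv.sum_comp (Equiv.addRight ((t : ℤ) : ZMod q)) (fun x : ZMod q => F ((x.val : ℕ) : ℤ))

theorem CZ_mul (k q : ℕ) (F : ℤ → ℂ) (hF : Per q F) : CZ (k * q) F = k * CZ q F := by
  induction k with
  | zero => simp [CZ]
  | succ k ih =>
    unfold CZ at ih ⊢
    rw [Nat.succ_mul, Finset.sum_range_add, ih]
    have h : ∀ x ∈ range q, F (((k * q + x : ℕ)) : ℤ) = F ((x : ℕ) : ℤ) := by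
      intro x _
      have h1 := Per_int q F hF ((x : ℕ) : ℤ) (k : ℤ)
      rw [← h1]
      refine congrArg F ?_
      push_cast
      ring
    rw [Finset.sum_congr rfl h]
    push_cast
    ring

theorem CZ_crt (a b : ℕ) [NeZero a] [NeZero b] (hab : a.Coprime b) (F G : ℤ → ℂ) (hF : Per a F) (hG : Per b G) :
    CZ (a * b) (fun n => F n * G n) = CZ a F * CZ b G := by
  have : NeZero (a * b) := ⟨mul_ne_zero (NeZero.ne a) (NeZero.ne b)⟩
  have h1 : CZ (a * b) (fun n => F n * G n) =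
      CZ (a * b) (fun n => (fun x : ZMod (a * b) => (fun y : ZMod a × ZMod b => F ((y.1.val : ℕ) : ℤ) * G ((y.2.val : ℕ) : ℤ))
        (ZMod.chineseRemainder hab x)) ((n : ℤ) : ZMod (a * b))) := by
    unfold CZ
    refine Finset.sum_congr rfl (fun n _ => ?_)
    show F ((n : ℕ) : ℤ) * G ((n : ℕ) : ℤ) = F ((((ZMod.chineseRemainder hab (((n : ℕ) : ℤ) : ZMod (a * b))).1.val : ℕ)) : ℤ) *
      G ((((ZMod.chineseRemainder hab (((n : ℕ) : ℤ) : ZMod (a * b))).2.val : ℕ)) : ℤ)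
    rw [map_intCast (ZMod.chineseRemainder hab)]
    rw [Prod.fst_intCast, Prod.snd_intCast, ← THC1_class a F hF, ← THC1_class b G hG]
  have h2 : CZ a F = CZ a (fun n => (fun x : ZMod a => F ((x.val : ℕ) : ℤ)) ((n : ℤ) : ZMod a)) := by
    unfold CZ
    refine Finset.sum_congr rfl (fun n _ => ?_)
    exact THC1_class a F hF _
  have h3 : CZ b G = CZ b (fun n => (fun x : ZMod b => G ((x.val : ℕ) : ℤ)) ((n : ℤ) : ZMod b)) := by
    unfold CZ
    refine Finset.sum_congr rfl (fun n _ => ?_)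
    exact THC1_class b G hG _
  have e1 := h1.trans (CZ_zmod (a * b) (fun x : ZMod (a * b) =>
    (fun y : ZMod a × ZMod b => F ((y.1.val : ℕ) : ℤ) * G ((y.2.val : ℕ) : ℤ)) (ZMod.chineseRemainder hab x)))
  have e2 := h2.trans (CZ_zmod a (fun x : ZMod a => F ((x.val : ℕ) : ℤ)))
  have e3 := h3.trans (CZ_zmod b (fun x : ZMod b => G ((x.val : ℕ) : ℤ)))
  rw [e1, e2, e3]
  rw [Finset.sum_mul_sum, ← Finset.sum_product', Finset.univ_product_univ]
  exact Equiv.sum_comp (ZMod.chineseRemainder hab).toEquiv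
    (fun y : ZMod a × ZMod b => F ((y.1.val : ℕ) : ℤ) * G ((y.2.val : ℕ) : ℤ))

theorem CZ_norm (q : ℕ) (F : ℤ → ℂ) (hF : ∀ n, ‖F n‖ ≤ 1) : ‖CZ q F‖ ≤ q := by
  unfold CZ
  refine (norm_sum_le _ _).trans ?_
  refine (Finset.sum_le_sum (fun n _ => hF ((n : ℕ) : ℤ))).trans ?_
  simp

private theorem THC1_Icc {M : Type*} [AddCommMonoid M] (F : ℤ → M) (N : ℕ) :
    ∑ n ∈ Icc 1 N, F ((n : ℕ) : ℤ) = ∑ n ∈ range N, F (((n : ℕ) : ℤ) + 1) := by
  rw [Finset.range_eq_Ico, ← Finset.Ico_add_one_right_eq_Icc]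
  have h := Finset.sum_Ico_add' (fun n : ℕ => F ((n : ℕ) : ℤ)) 0 N 1
  rw [zero_add] at h
  rw [← h]
  refine Finset.sum_congr rfl (fun n _ => ?_)
  push_cast
  rfl

private theorem THC1_shift1 (q : ℕ) [NeZero q] (F : ℤ → ℂ) (hper : Per q F) (k : ℕ) :
    CZ (k * q) (fun n => F (n + 1)) = k * CZ q F := by
  rw [CZ_mul k q (fun n => F (n + 1)) (fun n => by
    show F (n + q + 1) = F (n + 1)
    rw [← hper (n + 1)]
    refine congrArg F ?_
    ring), CZ_shift q F hper 1]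

theorem sum_le_CZ (q : ℕ) [NeZero q] (f : ℤ → ℝ) (hf : ∀ n, 0 ≤ f n) (hper : ∀ n, f (n + q) = f n) (N : ℕ) :
    ∑ n ∈ Icc 1 N, f ((n : ℕ) : ℤ) ≤ ((N : ℝ) / q + 1) * ∑ n ∈ range q, f ((n : ℕ) : ℤ) := by
  have hq : 0 < q := Nat.pos_of_ne_zero (NeZero.ne q)
  have hN : N ≤ (N / q + 1) * q := by
    have h1 := Nat.div_add_mod N q
    have h2 := Nat.mod_lt N hq
    have h3 : (N / q + 1) * q = q * (N / q) + q := by ring
    omega
  have hs : ∑ n ∈ range ((N / q + 1) * q), f (((n : ℕ) : ℤ) + 1) = ((N / q + 1 : ℕ) : ℝ) * ∑ n ∈ range q, f ((n : ℕ) : ℤ) := by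
    have h := THC1_shift1 q (fun n => (f n : ℂ)) (fun n => by
      show ((f (n + q) : ℝ) : ℂ) = ((f n : ℝ) : ℂ)
      rw [hper n]) (N / q + 1)
    unfold CZ at h
    have h' : (((∑ n ∈ range ((N / q + 1) * q), f (((n : ℕ) : ℤ) + 1) : ℝ)) : ℂ) =
        (((((N / q + 1 : ℕ) : ℝ) * ∑ n ∈ range q, f ((n : ℕ) : ℤ) : ℝ)) : ℂ) := by
      rw [Complex.ofReal_sum, h, Complex.ofReal_mul, Complex.ofReal_sum, Complex.ofReal_natCast]
    exact Complex.ofReal_injective h'
  rw [THC1_Icc]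
  have h0 : 0 ≤ ∑ n ∈ range q, f ((n : ℕ) : ℤ) := Finset.sum_nonneg (fun n _ => hf _)
  calc ∑ n ∈ range N, f (((n : ℕ) : ℤ) + 1) ≤ ∑ n ∈ range ((N / q + 1) * q), f (((n : ℕ) : ℤ) + 1) :=
        Finset.sum_le_sum_of_subset_of_nonneg (Finset.range_mono hN) (fun n _ _ => hf _)
    _ = ((N / q + 1 : ℕ) : ℝ) * ∑ n ∈ range q, f ((n : ℕ) : ℤ) := hs
    _ ≤ ((N : ℝ) / q + 1) * ∑ n ∈ range q, f ((n : ℕ) : ℤ) := by
        refine mul_le_mul_of_nonneg_right ?_ h0
        have := @Nat.cast_div_le ℝ _ _ _ N q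
        push_cast
        linarith

theorem SZ_le_CZ (q : ℕ) [NeZero q] (F : ℤ → ℂ) (hF : ∀ n, ‖F n‖ ≤ 1) (hper : Per q F) (N : ℕ) :
    ‖SZ N F‖ ≤ (N : ℝ) / q * ‖CZ q F‖ + q := by
  have hq : 0 < q := Nat.pos_of_ne_zero (NeZero.ne q)
  have hN : N = (N / q) * q + N % q := (Nat.div_add_mod' N q).symm
  have h1 : SZ N F = (N / q : ℕ) * CZ q F + ∑ x ∈ range (N % q), F (((((N / q) * q + x : ℕ)) : ℤ) + 1) := by
    unfold SZ
    rw [THC1_Icc]
    have h2 := THC1_shift1 q F hper (N / q)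
    unfold CZ at h2
    have h3 := Finset.sum_range_add (fun n : ℕ => F (((n : ℕ) : ℤ) + 1)) ((N / q) * q) (N % q)
    rw [← hN] at h3
    rw [h3]
    unfold CZ
    rw [← h2]
  rw [h1]
  refine (norm_add_le _ _).trans ?_
  refine add_le_add ?_ ?_
  · rw [norm_mul, Complex.norm_natCast]
    exact mul_le_mul_of_nonneg_right Nat.cast_div_le (norm_nonneg _)
  · refine (norm_sum_le _ _).trans ?_
    refine (Finset.sum_le_sum (fun n _ => hF _)).trans ?_
    rw [Finset.sum_const, Finset.card_range, nsmul_eq_mul, mul_one]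
    exact_mod_cast (Nat.mod_lt N hq).le

end Pool.Agent.Lib.MP_42948a_nt.TH
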