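import Pool.Agent.Lib.MP_42948a_nt.TH.Defs

/-!
# Simultaneous small multiples (job C2)

Pigeonhole. Let `L = y.length ≥ 1`, `r i t = (t * y_i).val ∈ [0, p)` for `t : ZMod p`. The map `t ↦ (i ↦ L * r i t / p)` (natural division) goes from the `p` elements of `ZMod p` to `Fin L → Fin L` (`L^L < p` elements;
`Fintype.exists_ne_map_eq_of_card_lt`): `t1 ≠ t2` with the same image. Put `t = t1 - t2 ≠ 0`, `z_i = r i t1 - r i t2` (integers). `(z_i : ZMod p) = t y_i`, `L |z_i| < p` (both `L r / p` have the same floor), `z_i ≠ 0` because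
`t y_i ≠ 0`. So `∑ |z_i| < p` (`L ∑ |z_i| < L p`). (`z = List.ofFn ..` and `y = List.ofFn y.get`.)
-/

namespace Pool.Agent.Lib.MP_42948a_nt.TH

open Finset Polynomial Pool.Agent.Lib.MP_42948a_nt.BU Pool.Agent.Lib.MP_42948a_nt.BU2

theorem dilate (p : ℕ) [Fact p.Prime] (y : List (ZMod p)) (hy : y ≠ []) (h0 : ∀ a ∈ y, a ≠ 0)
    (hp : y.length ^ y.length < p) :
    ∃ (t : ZMod p) (z : List ℤ), t ≠ 0 ∧ z.map (fun a : ℤ => (a : ZMod p)) = y.map (fun a => t * a) ∧
      (∀ a ∈ z, a ≠ 0) ∧ (z.map (fun a => |a|)).sum < p := by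
  have hL : 0 < y.length := List.length_pos_iff.2 hy
  have hp0 : 0 < p := (Fact.out : p.Prime).pos
  let r : Fin y.length → ZMod p → ℕ := fun i t => (t * y.get i).val
  have hr : ∀ i t, r i t < p := fun i t => ZMod.val_lt _
  have hb : ∀ i t, y.length * r i t / p < y.length := by
    intro i t
    rw [Nat.div_lt_iff_lt_mul hp0]
    exact Nat.mul_lt_mul_of_pos_left (hr i t) hL
  obtain ⟨t1, t2, hne, heq⟩ := Fintype.exists_ne_map_eq_of_card_lt
    (fun (t : ZMod p) (i : Fin y.length) => (⟨y.length * r i t / p, hb i t⟩ : Fin y.length))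
    (by
      rw [Fintype.card_fun, Fintype.card_fin, ZMod.card]
      exact hp)
  have hfl : ∀ i, y.length * r i t1 / p = y.length * r i t2 / p := by
    intro i
    have h := congrFun heq i
    exact Fin.mk.inj h
  have hcast : ∀ i t, ((r i t : ℕ) : ZMod p) = t * y.get i := fun i t => ZMod.natCast_zmod_val _
  have hsm : ∀ i, (y.length : ℤ) * |((r i t1 : ℕ) : ℤ) - ((r i t2 : ℕ) : ℤ)| < p := by
    intro i
    have h1 := Nat.div_add_mod (y.length * r i t1) p
    have h2 := Nat.div_add_mod (y.length * r i t2) p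
    have h3 := Nat.mod_lt (y.length * r i t1) hp0
    have h4 := Nat.mod_lt (y.length * r i t2) hp0
    rw [hfl i] at h1
    have h5 : (y.length : ℤ) * |((r i t1 : ℕ) : ℤ) - ((r i t2 : ℕ) : ℤ)| =
        |((y.length * r i t1 : ℕ) : ℤ) - ((y.length * r i t2 : ℕ) : ℤ)| := by
      rw [Nat.cast_mul, Nat.cast_mul, ← mul_sub, abs_mul, Nat.abs_cast]
    rw [h5, abs_lt]
    constructor
    · have : (y.length * r i t2 : ℕ) < y.length * r i t1 + p := by omega
      omega
    · have : (y.length * r i t1 : ℕ) < y.length * r i t2 + p := by omega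
      omega
  refine ⟨t1 - t2, List.ofFn fun i : Fin y.length => ((r i t1 : ℕ) : ℤ) - ((r i t2 : ℕ) : ℤ),
    sub_ne_zero.2 hne, ?_, ?_, ?_⟩
  · rw [List.map_ofFn]
    have hyof : y = List.ofFn y.get := (List.ofFn_get y).symm
    have h6 : y.map (fun a => (t1 - t2) * a) = List.ofFn fun i => (t1 - t2) * y.get i := by
      conv_lhs => rw [hyof]
      rw [List.map_ofFn]
      rfl
    rw [h6]
    refine congrArg List.ofFn (funext fun i => ?_)
    simp only [Function.comp]
    rw [Int.cast_sub, Int.cast_natCast, Int.cast_natCast, hcast, hcast, sub_mul]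
  · intro a ha
    rw [List.mem_ofFn] at ha
    obtain ⟨i, rfl⟩ := ha
    intro h
    have h7 : ((r i t1 : ℕ) : ℤ) = ((r i t2 : ℕ) : ℤ) := sub_eq_zero.1 h
    have h8 : r i t1 = r i t2 := by exact_mod_cast h7
    have h9 : t1 * y.get i = t2 * y.get i := by rw [← hcast, ← hcast, h8]
    exact hne (mul_right_cancel₀ (h0 _ (List.get_mem y i)) h9)
  · rw [List.map_ofFn, List.sum_ofFn]
    have h10 : (y.length : ℤ) * ∑ i : Fin y.length, |((r i t1 : ℕ) : ℤ) - ((r i t2 : ℕ) : ℤ)| <
        (y.length : ℤ) * p := by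
      rw [Finset.mul_sum]
      have : (y.length : ℤ) * p = ∑ _i : Fin y.length, (p : ℤ) := by simp
      rw [this]
      exact Finset.sum_lt_sum_of_nonempty ⟨⟨0, hL⟩, Finset.mem_univ _⟩ fun i _ => hsm i
    have hL' : (0 : ℤ) < y.length := by exact_mod_cast hL
    exact lt_of_mul_lt_mul_left h10 hL'.le

end Pool.Agent.Lib.MP_42948a_nt.TH
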