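import Pool.Agent.Lib.MP_42948a_nt.TH.C3a
import Pool.Agent.Lib.MP_42948a_nt.TH.C1
import Pool.Agent.Lib.MP_42948a_nt.WX.Main
import Pool.Agent.Lib.MP_42948a_nt.BU2.A

/-!
# Complete sums modulo a prime (job C3)

`r = 2 ^ (l.length - 1) ≥ 1`, `length_VP`. Put `b (inl i) = ((VP l).get i : ZMod p)`, `b (inr i) = ((VM l).get i : ZMod p)` (with the casts of `Fin r`). By `dvs_eq` and `CZ_zmod` the sum is
`∑_{x : ZMod p} (∏_i χ (x + b (inl i))) * ∏_i conj χ (x + b (inr i))` (`List.prod_ofFn`, `List.ofFn_get`-like: `(L.map f).prod = ∏ i : Fin L.length, f (L.get i)`: `List.prod_ofFn`/`Fin.prod_univ_get'`). `unique_vertex` gives an index `j` with `b i ≠ b j` for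
all `i ≠ j` (a value of count one in the list `VP ++ VM`). `χ ≠ 1` because of `NT χ p` (see `BU2/A.lean`: `CS_prime'`). `WX.weil_all r hr : WeilAll r (2 * r)` and `2 * r = 2 ^ l.length`.
-/

namespace Pool.Agent.Lib.MP_42948a_nt.TH

open Finset Polynomial Pool.Agent.Lib.MP_42948a_nt.BU Pool.Agent.Lib.MP_42948a_nt.BU2

private theorem THC3_count {p : ℕ} (v : ZMod p) (L : List ℤ) :
    (L.map (fun a : ℤ => (a : ZMod p))).count v = (L.map (fun a : ℤ => if (a : ZMod p) = v then 1 else 0)).sum := by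
  induction L with
  | nil => rfl
  | cons a L ih =>
    rw [List.map_cons, List.map_cons, List.sum_cons, List.count_cons, ih, add_comm]
    by_cases h : (a : ZMod p) = v
    · simp [h]
    · simp [h]

private theorem THC3_gen {p : ℕ} [Fact p.Prime] (χ : MulChar (ZMod p) ℂ) (hχ : χ ≠ 1) (r : ℕ) (hr : 1 ≤ r) (LP LM : List ℤ)
    (hP : LP.length = r) (hM : LM.length = r) (v : ZMod p)
    (hv : ((LP ++ LM).map (fun a : ℤ => (a : ZMod p))).count v = 1) :
    ‖∑ x : ZMod p, (LP.map (fun a : ℤ => χ (x + (a : ZMod p)))).prod *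
      (LM.map (fun a : ℤ => (starRingEnd ℂ) (χ (x + (a : ZMod p))))).prod‖ ≤ (2 * r) * √(p : ℝ) := by
  classical
  subst hP
  have hM' : ∀ i : Fin LP.length, i.1 < LM.length := fun i => by rw [hM]; exact i.2
  have key : ∀ (M : Type) [CommMonoid M] (f : ℤ → M), (LM.map f).prod = ∏ i : Fin LP.length, f (LM[i.1]'(hM' i)) := by
    intro M _ f
    rw [← Fin.prod_univ_fun_getElem LM f]
    exact (Fintype.prod_equiv (finCongr hM.symm) _ _ (fun i => rfl)).symm
  have keyA : ∀ (M : Type) [AddCommMonoid M] (f : ℤ → M), (LM.map f).sum = ∑ i : Fin LP.length, f (LM[i.1]'(hM' i)) := by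
    intro M _ f
    rw [← Fin.sum_univ_fun_getElem LM f]
    exact (Fintype.sum_equiv (finCongr hM.symm) _ _ (fun i => rfl)).symm
  set b : Fin LP.length ⊕ Fin LP.length → ZMod p :=
    Sum.elim (fun i => ((LP[i.1] : ℤ) : ZMod p)) (fun i => ((LM[i.1]'(hM' i) : ℤ) : ZMod p)) with hb
  have hsum : ∑ i : Fin LP.length ⊕ Fin LP.length, (if b i = v then 1 else 0) = 1 := by
    rw [List.map_append, List.count_append, THC3_count, THC3_count, keyA ℕ,
      ← Fin.sum_univ_fun_getElem LP (fun a : ℤ => if (a : ZMod p) = v then 1 else 0)] at hv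
    rw [Fintype.sum_sum_type]
    exact hv
  rw [Finset.sum_boole] at hsum
  have hcard : (univ.filter (fun i : Fin LP.length ⊕ Fin LP.length => b i = v)).card = 1 := by
    exact_mod_cast hsum
  obtain ⟨j, hj⟩ := Finset.card_eq_one.mp hcard
  have hjv : b j = v := by
    have h1 : j ∈ univ.filter (fun i : Fin LP.length ⊕ Fin LP.length => b i = v) := by
      rw [hj]
      exact Finset.mem_singleton_self j
    exact (Finset.mem_filter.mp h1).2
  have hne : ∀ i, i ≠ j → b i ≠ b j := by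
    intro i hij h
    apply hij
    have h1 : i ∈ univ.filter (fun i : Fin LP.length ⊕ Fin LP.length => b i = v) := by
      rw [Finset.mem_filter]
      exact ⟨Finset.mem_univ i, h.trans hjv⟩
    rw [hj] at h1
    exact Finset.mem_singleton.mp h1
  have hw := WX.weil_all LP.length hr p χ hχ b j hne
  refine le_of_eq_of_le ?_ hw
  refine congrArg _ (Finset.sum_congr rfl fun x _ => ?_)
  rw [key ℂ, ← Fin.prod_univ_fun_getElem LP (fun a : ℤ => χ (x + (a : ZMod p)))]
  rfl

theorem loc_prime (p : ℕ) [Fact p.Prime] (χ : DirichletCharacter ℂ p) (hχ : NT χ p) (l : List ℤ) (hl : l ≠ [])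
    (hp : l.length ^ l.length < p) (hd : ¬ (p : ℤ) ∣ l.prod) :
    ‖CZ p (dvs l (ch χ))‖ ≤ 2 ^ l.length * √(p : ℝ) := by
  have : NeZero p := ⟨(Fact.out : p.Prime).ne_zero⟩
  obtain ⟨n, hn, -, hne⟩ := hχ
  have hχ1 : χ ≠ 1 := by
    rintro rfl
    apply hne
    have hu : IsUnit (n : ZMod p) := (ZMod.isUnit_iff_coprime n p).mpr hn
    exact MulChar.one_apply hu
  obtain ⟨v, hv⟩ := unique_vertex p l hl hp hd
  have hlen := length_VP l hl
  have h := THC3_gen χ hχ1 (2 ^ (l.length - 1)) Nat.one_le_two_pow (VP l) (VM l) hlen.1 hlen.2 v hv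
  have h2 : (2 : ℝ) * ((2 ^ (l.length - 1) : ℕ) : ℝ) = 2 ^ l.length := by
    have h3 : l.length - 1 + 1 = l.length := Nat.sub_add_cancel (List.length_pos_iff.mpr hl)
    rw [Nat.cast_pow, Nat.cast_ofNat, mul_comm, ← pow_succ, h3]
  rw [h2] at h
  refine le_of_eq_of_le ?_ h
  rw [← CZ_zmod]
  unfold CZ
  refine congrArg _ (Finset.sum_congr rfl fun m _ => ?_)
  rw [dvs_eq]
  have e1 : ∀ v : ℤ, ch χ (((m : ℕ) : ℤ) + v) = χ ((((m : ℕ) : ℤ) : ZMod p) + (v : ZMod p)) := by
    intro v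
    unfold ch
    rw [Int.cast_add]
  simp only [e1]

end Pool.Agent.Lib.MP_42948a_nt.TH
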