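import Pool.Agent.Lib.MP_42948a_nt.TH.B1
import Pool.Agent.Lib.MP_42948a_nt.TH.C2

/-!
# A vertex which is unique modulo `p` (job C3a)

`max_vertex` (integers): with `mx = (z.filter (0 < ·)).sum`: every `v ∈ VP z ++ VM z` satisfies `mx - ∑ |z_i| ≤ v ≤ mx` and `mx` occurs exactly once. Induction: `VP (x :: z) ++ VM (x :: z)` is a permutation of
`(VP z ++ VM z) ++ (VP z ++ VM z).map (x + ·)`. If `x > 0` then `mx' = x + mx`; in the first part all `v ≤ mx < mx'`, in the second part the count of `x + mx` is the count of `mx`. If `x < 0` then `mx' = mx` and in the second part all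
`x + v ≤ x + mx < mx`. (State it as: `∃ M, (∀ v ∈ ..., M - ∑ |z_i| ≤ v ∧ v ≤ M) ∧ count M (VP z ++ VM z) = 1`.)
`unique_vertex`: `y = l.map (Int.cast : ℤ → ZMod p)` has no zero (`p ∤ l.prod`), `dilate` gives `t ≠ 0` and `z`. By `VP_map` (for `Int.castAddHom` and for multiplication by `t`) `(VP l ++ VM l)`, cast to `ZMod p` and multiplied by `t`, is the cast of
`VP z ++ VM z`. Two elements `v`, `M` of `VP z ++ VM z` with the same cast are equal if `M` is the maximum (`0 ≤ M - v ≤ ∑ |z_i| < p`), so the count of `(M : ZMod p)` in the cast list is the count of `M`, which is `1`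
(`List.count_map`-like via `List.countP`), and multiplication by `t` is injective. The vertex is `v = t⁻¹ * M`.
-/

namespace Pool.Agent.Lib.MP_42948a_nt.TH

open Finset Polynomial Pool.Agent.Lib.MP_42948a_nt.BU Pool.Agent.Lib.MP_42948a_nt.BU2

private theorem C3a_count (x : ℤ) (z : List ℤ) (M : ℤ) :
    (VP (x :: z) ++ VM (x :: z)).count M =
      (VP z ++ VM z).count M + ((VP z ++ VM z).map (fun v => x + v)).count M := by
  rw [VP_cons, VM_cons]
  simp only [List.count_append, List.map_append]
  ring

private theorem C3a_mem (x : ℤ) (z : List ℤ) (v : ℤ) (h : v ∈ VP (x :: z) ++ VM (x :: z)) :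
    v ∈ VP z ++ VM z ∨ ∃ w ∈ VP z ++ VM z, v = x + w := by
  rw [VP_cons, VM_cons] at h
  simp only [List.mem_append, List.mem_map] at h ⊢
  rcases h with (h | ⟨w, hw, rfl⟩) | (h | ⟨w, hw, rfl⟩)
  · exact Or.inl (Or.inl h)
  · exact Or.inr ⟨w, Or.inr hw, rfl⟩
  · exact Or.inl (Or.inr h)
  · exact Or.inr ⟨w, Or.inl hw, rfl⟩

theorem max_vertex (z : List ℤ) (h0 : ∀ a ∈ z, a ≠ 0) :
    ∃ M : ℤ, (∀ v ∈ VP z ++ VM z, M - (z.map (fun a => |a|)).sum ≤ v ∧ v ≤ M) ∧ (VP z ++ VM z).count M = 1 := by
  induction z with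
  | nil =>
    refine ⟨0, ?_, ?_⟩
    · intro v hv
      rw [VP_nil, VM_nil] at hv
      simp only [List.append_nil, List.mem_singleton] at hv
      subst hv
      simp
    · rw [VP_nil, VM_nil]
      rfl
  | cons x z ih =>
    obtain ⟨M, hM, hc⟩ := ih (fun a ha => h0 a (List.mem_cons_of_mem x ha))
    have hx : x ≠ 0 := h0 x List.mem_cons_self
    have hinj : Function.Injective (fun v : ℤ => x + v) := fun a b h => add_left_cancel h
    rcases lt_or_gt_of_ne hx with hneg | hpos
    · refine ⟨M, ?_, ?_⟩
      · intro v hv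
        rw [List.map_cons, List.sum_cons, abs_of_neg hneg]
        rcases C3a_mem x z v hv with h | ⟨w, hw, rfl⟩
        · have := hM v h
          constructor <;> linarith [this.1, this.2]
        · have := hM w hw
          constructor <;> linarith [this.1, this.2]
      · rw [C3a_count, hc, List.count_eq_zero_of_not_mem]
        intro h
        obtain ⟨w, hw, h1⟩ := List.mem_map.1 h
        have := (hM w hw).2
        have h2 : x + w = M := h1
        linarith
    · refine ⟨x + M, ?_, ?_⟩
      · intro v hv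
        rw [List.map_cons, List.sum_cons, abs_of_pos hpos]
        rcases C3a_mem x z v hv with h | ⟨w, hw, rfl⟩
        · have := hM v h
          constructor <;> linarith [this.1, this.2]
        · have := hM w hw
          constructor <;> linarith [this.1, this.2]
      · have h1 : ((VP z ++ VM z).map (fun v => x + v)).count (x + M) = 1 := by
          have := List.count_map_of_injective (VP z ++ VM z) (fun v : ℤ => x + v) hinj M
          exact this.trans hc
        rw [C3a_count, h1, List.count_eq_zero_of_not_mem]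
        intro h
        have := (hM _ h).2
        linarith

theorem unique_vertex (p : ℕ) [Fact p.Prime] (l : List ℤ) (hl : l ≠ []) (hp : l.length ^ l.length < p)
    (hd : ¬ (p : ℤ) ∣ l.prod) :
    ∃ v : ZMod p, ((VP l ++ VM l).map (fun a : ℤ => (a : ZMod p))).count v = 1 := by
  have hy : l.map (fun a : ℤ => (a : ZMod p)) ≠ [] := by
    intro h
    exact hl (List.map_eq_nil_iff.1 h)
  have hy0 : ∀ a ∈ l.map (fun a : ℤ => (a : ZMod p)), a ≠ 0 := by
    intro a ha
    obtain ⟨b, hb, rfl⟩ := List.mem_map.1 ha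
    intro h
    exact hd (((ZMod.intCast_zmod_eq_zero_iff_dvd b p).1 h).trans (List.dvd_prod hb))
  obtain ⟨t, z, ht, hz, hz0, hs⟩ := dilate p (l.map (fun a : ℤ => (a : ZMod p))) hy hy0
    (by rw [List.length_map]; exact hp)
  obtain ⟨M, hM, hc⟩ := max_vertex z hz0
  refine ⟨t⁻¹ * (M : ZMod p), ?_⟩
  have hinj : Function.Injective (fun a : ZMod p => t * a) := fun a b h => mul_left_cancel₀ ht h
  have e1 := List.count_map_of_injective ((VP l ++ VM l).map (fun a : ℤ => (a : ZMod p)))
    (fun a : ZMod p => t * a) hinj (t⁻¹ * (M : ZMod p))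
  rw [← e1]
  have e2 : t * (t⁻¹ * (M : ZMod p)) = (M : ZMod p) := mul_inv_cancel_left₀ ht _
  rw [e2]
  have c1 := VP_map (Int.castAddHom (ZMod p)) l
  have c2 := VP_map (AddMonoidHom.mulLeft t) (l.map (fun a : ℤ => (a : ZMod p)))
  have c3 := VP_map (Int.castAddHom (ZMod p)) z
  have f1 : (fun a : ℤ => (a : ZMod p)) = ⇑(Int.castAddHom (ZMod p)) := rfl
  have f2 : (fun a : ZMod p => t * a) = ⇑(AddMonoidHom.mulLeft t) := rfl
  have e3 : ((VP l ++ VM l).map (fun a : ℤ => (a : ZMod p))).map (fun a : ZMod p => t * a) =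
      (VP z ++ VM z).map (fun a : ℤ => (a : ZMod p)) := by
    rw [f1, f2] at hz
    rw [f1] at c2
    rw [f1, f2, List.map_append, List.map_append, List.map_append, ← c1.1, ← c1.2, ← c2.1, ← c2.2,
      ← hz, c3.1, c3.2]
  rw [e3, ← hc, List.count, List.count, List.countP_map]
  apply List.countP_congr
  intro v hv
  simp only [Function.comp_apply, beq_iff_eq]
  constructor
  · intro h
    have h1 : ((M - v : ℤ) : ZMod p) = 0 := by
      rw [Int.cast_sub, h, sub_self]
    have h2 := (ZMod.intCast_zmod_eq_zero_iff_dvd (M - v) p).1 h1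
    have h3 := hM v hv
    have h4 : M - v = 0 := by
      apply Int.eq_zero_of_abs_lt_dvd h2
      rw [abs_of_nonneg (by linarith [h3.2])]
      linarith [h3.1]
    linarith
  · rintro rfl
    rfl

end Pool.Agent.Lib.MP_42948a_nt.TH
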