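import Pool.Agent.Lib.MP_42948a_nt.TH.Defs

/-!
# Zeros of a polynomial modulo `p` among the residues modulo `p ^ k` (job C4b)

`W` mod `p` (`W.map (Int.castRingHom (ZMod p))`) is not zero (coefficient `i`) and has degree `≤ D`, so it has at most `D` roots in `ZMod p` (`Polynomial.card_roots'`). `p ∣ W.eval n` iff the class of `n` is a root. Each class mod `p` contains
`p^(k-1)` numbers `n < p^k` (`n = a + p m`, `m < p^(k-1)`).
-/

namespace Pool.Agent.Lib.MP_42948a_nt.TH

open Finset Polynomial Pool.Agent.Lib.MP_42948a_nt.BU Pool.Agent.Lib.MP_42948a_nt.BU2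

theorem root_count_pow (p k : ℕ) [Fact p.Prime] (hk : 1 ≤ k) (W : ℤ[X]) (D i : ℕ) (hW : W.natDegree ≤ D)
    (hi : ¬ (p : ℤ) ∣ W.coeff i) :
    ((range (p ^ k)).filter (fun n : ℕ => (p : ℤ) ∣ W.eval ((n : ℕ) : ℤ))).card ≤ D * p ^ (k - 1) := by
  classical
  have hp : 0 < p := (Fact.out : p.Prime).pos
  have hW0 : W.map (Int.castRingHom (ZMod p)) ≠ 0 := by
    intro h
    have h1 := congrArg (fun P => P.coeff i) h
    simp only [coeff_map, coeff_zero, eq_intCast] at h1
    exact hi ((ZMod.intCast_zmod_eq_zero_iff_dvd _ _).1 h1)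
  have hcard : (W.map (Int.castRingHom (ZMod p))).roots.toFinset.card ≤ D :=
    ((Multiset.toFinset_card_le _).trans (card_roots' _)).trans (natDegree_map_le.trans hW)
  have h1 := Finset.card_le_mul_card_image (f := fun n : ℕ => (n : ZMod p))
    ((range (p ^ k)).filter (fun n : ℕ => (p : ℤ) ∣ W.eval ((n : ℕ) : ℤ))) (p ^ (k - 1)) (by
      intro a _
      have h2 : (((range (p ^ k)).filter (fun n : ℕ => (p : ℤ) ∣ W.eval ((n : ℕ) : ℤ))).filter
          (fun n : ℕ => (n : ZMod p) = a)).card ≤ (range (p ^ (k - 1))).card := by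
        refine Finset.card_le_card_of_injOn (fun n => n / p) ?_ ?_
        · intro n hn
          have hn1 := Finset.mem_coe.1 hn
          have hn2 := Finset.mem_range.1 (Finset.mem_filter.1 (Finset.mem_filter.1 hn1).1).1
          rw [Finset.mem_coe, Finset.mem_range]
          refine Nat.div_lt_of_lt_mul ?_
          have h3 : p * p ^ (k - 1) = p ^ k := by
            rw [← pow_succ']
            congr 1
            omega
          rw [h3]
          exact hn2
        · intro n hn m hm hnm
          have hn1 := (Finset.mem_filter.1 (Finset.mem_coe.1 hn)).2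
          have hm1 := (Finset.mem_filter.1 (Finset.mem_coe.1 hm)).2
          have h3 : n % p = m % p :=
            (ZMod.natCast_eq_natCast_iff' n m p).1 (hn1.trans hm1.symm)
          have h4 : n / p = m / p := hnm
          rw [← Nat.div_add_mod n p, ← Nat.div_add_mod m p, h3, h4]
      rw [card_range] at h2
      exact h2)
  have h5 : ((range (p ^ k)).filter (fun n : ℕ => (p : ℤ) ∣ W.eval ((n : ℕ) : ℤ))).image
      (fun n : ℕ => (n : ZMod p)) ⊆ (W.map (Int.castRingHom (ZMod p))).roots.toFinset := by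
    intro a ha
    obtain ⟨n, hn, rfl⟩ := Finset.mem_image.1 ha
    have hn2 := (Finset.mem_filter.1 hn).2
    rw [Multiset.mem_toFinset, mem_roots hW0, IsRoot.def, eval_map]
    have h6 : ((W.eval ((n : ℕ) : ℤ) : ℤ) : ZMod p) = 0 :=
      (ZMod.intCast_zmod_eq_zero_iff_dvd _ _).2 hn2
    have h7 := hom_eval₂ W (RingHom.id ℤ) (Int.castRingHom (ZMod p)) ((n : ℕ) : ℤ)
    rw [RingHom.comp_id, ← eval₂_id] at *
    have h8 : (Int.castRingHom (ZMod p)) ((n : ℕ) : ℤ) = ((n : ℕ) : ZMod p) := by
      rw [eq_intCast, Int.cast_natCast]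
    rw [h8] at h7
    rw [← h7, eq_intCast]
    exact h6
  calc _ ≤ p ^ (k - 1) * _ := h1
    _ ≤ p ^ (k - 1) * D := Nat.mul_le_mul_left _ ((Finset.card_le_card h5).trans hcard)
    _ = D * p ^ (k - 1) := Nat.mul_comm _ _

end Pool.Agent.Lib.MP_42948a_nt.TH
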