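import Pool.Agent.Lib.MP_42948a_nt.TH.C4a
import Pool.Agent.Lib.MP_42948a_nt.TH.C4b
import Pool.Agent.Lib.MP_42948a_nt.TH.C1

/-!
# Complete sums modulo `p ^ k`, `k ≥ 2` (job C4)

`L = l.length ≥ 1`, `E` from `cube_poly`, `W = PA l * E' - (PA l)' * E`; by `W_coeff` (`a = 2^(L-1)`, `e = 2^(L-1) - L < a`, `c = -(L-1)!`; `PA_monic`, `length_VP`) its degree is `≤ a + e - 1 ≤ 2^L` and its coefficient at `a + e - 1` is
`c (e - a) = (L-1)! L = L!`, not divisible by `p` because `p > L^L ≥ L` (`Nat.Prime.dvd_factorial`; `p > L ^ L ≥ L`). `l.prod = p^j u` with `p ∤ u`. Let `f = dvs l (ch χ)` (`p^k`-periodic: `dvs_per`, `ch_per`), `s n = u W(n) (AV BV)⁻¹ : ZMod p`.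
`CZ_shift` with `p^(k-1-j) t` and `shift_dvs`: `CZ f = ∑_n f n ψ(t s n)` for all `t`; sum over `t ∈ range p`: `p CZ f = ∑_n f n ∑_{t < p} ψ(t s n)`, and the inner sum is `p` if `s n = 0` and `0` otherwise (`ψ ≠ 1`, `p` prime: as in
`CS_psq` of `BU2/B3.lean`). If `f n ≠ 0` then `p ∤ AV BV` (`dvs_ch`), so `s n = 0` implies `p ∣ W(n)`. `‖f n‖ ≤ 1`. So `‖CZ f‖ ≤ #{n < p^k : p ∣ W(n)} ≤ 2^L p^(k-1)` (`root_count_pow` with `D = 2 ^ L`).
-/

namespace Pool.Agent.Lib.MP_42948a_nt.TH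

open Finset Polynomial Pool.Agent.Lib.MP_42948a_nt.BU Pool.Agent.Lib.MP_42948a_nt.BU2

theorem THC4_nonunit (p k : ℕ) [Fact p.Prime] [NeZero (p ^ k)] (hk : k ≠ 0) (χ : DirichletCharacter ℂ (p ^ k))
    (a : ℤ) (h : ((a : ℤ) : ZMod p) = 0) : χ ((a : ℤ) : ZMod (p ^ k)) = 0 := by
  refine MulChar.map_nonunit χ fun hu => ?_
  have h1 := hu.map (ZMod.castHom (dvd_pow_self p hk) (ZMod p))
  rw [map_intCast, h] at h1
  exact not_isUnit_zero h1

theorem THC4_supp (p k : ℕ) [Fact p.Prime] [NeZero (p ^ k)] (hk : k ≠ 0) (χ : DirichletCharacter ℂ (p ^ k))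
    (l : List ℤ) (n : ℤ) (h : dvs l (ch χ) n ≠ 0) : (((AV l n * BV l n : ℤ) : ZMod p)) ≠ 0 := by
  intro h0
  apply h
  rw [dvs_ch]
  rw [Int.cast_mul, mul_eq_zero] at h0
  rcases h0 with h1 | h1
  · rw [THC4_nonunit p k hk χ _ h1, zero_mul]
  · rw [THC4_nonunit p k hk χ _ h1, map_zero, mul_zero]

theorem THC4_W (p : ℕ) [Fact p.Prime] (l : List ℤ) (hl : l ≠ []) (hp : l.length ^ l.length < p) (E : ℤ[X])
    (hE2 : E.natDegree ≤ 2 ^ (l.length - 1) - l.length)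
    (hE3 : E.coeff (2 ^ (l.length - 1) - l.length) = -(((l.length - 1).factorial : ℕ) : ℤ)) :
    ∃ i : ℕ, (PA l * derivative E - derivative (PA l) * E).natDegree ≤ 2 ^ l.length ∧
      ¬ (p : ℤ) ∣ (PA l * derivative E - derivative (PA l) * E).coeff i := by
  have hpp : p.Prime := Fact.out
  have hL : 1 ≤ l.length := List.length_pos_of_ne_nil hl
  obtain ⟨M, hM⟩ : ∃ M, l.length = M + 1 := ⟨l.length - 1, by omega⟩
  have hLp : l.length < p := lt_of_le_of_lt (Nat.le_self_pow (by omega) _) hp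
  have hle : l.length ≤ 2 ^ (l.length - 1) := by
    rw [hM, Nat.add_sub_cancel]
    exact Nat.lt_two_pow_self
  have h2 : 2 ^ l.length = 2 ^ (l.length - 1) + 2 ^ (l.length - 1) := by
    rw [hM, Nat.add_sub_cancel, pow_succ]
    ring
  obtain ⟨hm1, hm2⟩ := PA_monic l
  rw [(length_VP l hl).1] at hm1 hm2
  obtain ⟨w1, w2⟩ := W_coeff (PA l) E (2 ^ (l.length - 1)) (2 ^ (l.length - 1) - l.length)
    (-(((l.length - 1).factorial : ℕ) : ℤ)) hm1.le hm2 hE2 hE3 (by omega)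
  refine ⟨2 ^ (l.length - 1) + (2 ^ (l.length - 1) - l.length) - 1, w1.trans (by omega), ?_⟩
  rw [w2]
  have hc : (-(((l.length - 1).factorial : ℕ) : ℤ)) *
      (((2 ^ (l.length - 1) - l.length : ℕ) : ℤ) - ((2 ^ (l.length - 1) : ℕ) : ℤ)) = ((l.length.factorial : ℕ) : ℤ) := by
    rw [Nat.cast_sub hle]
    have e1 : l.length.factorial = l.length * (l.length - 1).factorial := by
      rw [hM, Nat.add_sub_cancel, Nat.factorial_succ]
    rw [e1]
    push_cast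
    ring
  rw [hc, Int.natCast_dvd_natCast, hpp.dvd_factorial]
  omega

theorem loc_pow (p k j : ℕ) [Fact p.Prime] [NeZero (p ^ k)] (hj : j + 2 ≤ k) (χ : DirichletCharacter ℂ (p ^ k))
    (hχ : NT χ p) (l : List ℤ) (hl : l ≠ []) (hp : l.length ^ l.length < p) (hd : (p : ℤ) ^ j ∣ l.prod)
    (hd' : ¬ (p : ℤ) ^ (j + 1) ∣ l.prod) :
    ‖CZ (p ^ k) (dvs l (ch χ))‖ ≤ 2 ^ l.length * (p : ℝ) ^ (k - 1) := by
  classical
  have hpp : p.Prime := Fact.out
  obtain ⟨ψ, hψ1, hψ⟩ := ppow_psi p k (by omega) χ hχ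
  obtain ⟨u, hu⟩ := hd
  have hup : ¬ (p : ℤ) ∣ u := by
    rintro ⟨v, hv⟩
    apply hd'
    refine ⟨v, ?_⟩
    rw [hu, hv, pow_succ]
    ring
  obtain ⟨E, hE1, hE2, hE3⟩ := cube_poly l hl
  obtain ⟨i, hW1, hW2⟩ := THC4_W p l hl hp E hE2 hE3
  obtain ⟨W, hW⟩ : ∃ W : ℤ[X], W = PA l * derivative E - derivative (PA l) * E := ⟨_, rfl⟩
  obtain ⟨s, hs⟩ : ∃ s : ℤ → ZMod p, s = fun n => ((u * W.eval n : ℤ) : ZMod p) *
        (((AV l n * BV l n : ℤ) : ZMod p))⁻¹ := ⟨_, rfl⟩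
  obtain ⟨f, hf⟩ : ∃ f : ℤ → ℂ, f = dvs l (ch χ) := ⟨_, rfl⟩
  have hshift : ∀ n t : ℤ, f (n + (p : ℤ) ^ (k - 1 - j) * t) = f n * ψ (((t : ℤ) : ZMod p) * s n) := by
    intro n t
    rw [hf, hs, hW]
    exact shift_dvs p k j hj χ ψ hψ l u hu E hE1 n t
  have hper : Per (p ^ k) f := by
    rw [hf]
    exact dvs_per l _ _ (ch_per χ)
  have hf1 : ∀ n, ‖f n‖ ≤ 1 := by
    intro n
    rw [hf]
    exact dvs_norm l _ (ch_norm χ) n
  have hCt : ∀ t : ZMod p, CZ (p ^ k) f = ∑ n ∈ range (p ^ k), f ((n : ℕ) : ℤ) * ψ (t * s ((n : ℕ) : ℤ)) := by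
    intro t
    rw [← CZ_shift (p ^ k) f hper ((p : ℤ) ^ (k - 1 - j) * ((t.val : ℕ) : ℤ))]
    unfold CZ
    refine Finset.sum_congr rfl fun n _ => ?_
    show f (((n : ℕ) : ℤ) + (p : ℤ) ^ (k - 1 - j) * ((t.val : ℕ) : ℤ)) = _
    rw [hshift, Int.cast_natCast, ZMod.natCast_zmod_val]
  have hprim : ψ.IsPrimitive := AddChar.IsPrimitive.of_ne_one hψ1
  have hsum : (p : ℂ) * CZ (p ^ k) f =
      ∑ n ∈ range (p ^ k), f ((n : ℕ) : ℤ) * (if s ((n : ℕ) : ℤ) = 0 then (p : ℂ) else 0) := by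
    have h1 : ∑ t : ZMod p, CZ (p ^ k) f = (p : ℂ) * CZ (p ^ k) f := by
      rw [Finset.sum_const, Finset.card_univ, ZMod.card, nsmul_eq_mul]
    rw [← h1, Finset.sum_congr rfl fun t _ => hCt t, Finset.sum_comm]
    refine Finset.sum_congr rfl fun n _ => ?_
    rw [← Finset.mul_sum, AddChar.sum_mulShift (s ((n : ℕ) : ℤ)) hprim, ZMod.card]
    push_cast
    rfl
  have hp0 : (0 : ℝ) < p := by exact_mod_cast hpp.pos
  have hbound : (p : ℝ) * ‖CZ (p ^ k) f‖ ≤ (p : ℝ) *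
      (((range (p ^ k)).filter (fun n : ℕ => (p : ℤ) ∣ W.eval ((n : ℕ) : ℤ))).card : ℝ) := by
    have h1 : (p : ℝ) * ‖CZ (p ^ k) f‖ = ‖(p : ℂ) * CZ (p ^ k) f‖ := by
      rw [norm_mul, Complex.norm_natCast]
    rw [h1, hsum]
    refine (norm_sum_le _ _).trans ?_
    have h2 : ∀ n ∈ range (p ^ k),
        ‖f ((n : ℕ) : ℤ) * (if s ((n : ℕ) : ℤ) = 0 then (p : ℂ) else 0)‖ ≤
        if (p : ℤ) ∣ W.eval ((n : ℕ) : ℤ) then (p : ℝ) else 0 := by
      intro n _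
      by_cases g1 : f ((n : ℕ) : ℤ) = 0
      · rw [g1, zero_mul, norm_zero]
        split_ifs
        · exact hp0.le
        · exact le_rfl
      · by_cases g2 : s ((n : ℕ) : ℤ) = 0
        · have g3 : (p : ℤ) ∣ W.eval ((n : ℕ) : ℤ) := by
            have g4 : (((AV l ((n : ℕ) : ℤ) * BV l ((n : ℕ) : ℤ) : ℤ) : ZMod p)) ≠ 0 := by
              refine THC4_supp p k (by omega) χ l _ ?_
              rw [← hf]
              exact g1
            rw [hs] at g2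
            have g5 : (((u * W.eval ((n : ℕ) : ℤ) : ℤ) : ZMod p)) = 0 := by
              rcases mul_eq_zero.1 g2 with g6 | g6
              · exact g6
              · exact absurd (inv_eq_zero.1 g6) g4
            rw [ZMod.intCast_zmod_eq_zero_iff_dvd] at g5
            rcases (Nat.prime_iff_prime_int.1 hpp).dvd_or_dvd g5 with g6 | g6
            · exact absurd g6 hup
            · exact g6
          rw [if_pos g2, if_pos g3, norm_mul, Complex.norm_natCast]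
          have := hf1 ((n : ℕ) : ℤ)
          calc ‖f ((n : ℕ) : ℤ)‖ * (p : ℝ) ≤ 1 * (p : ℝ) := mul_le_mul_of_nonneg_right this hp0.le
            _ = p := one_mul _
        · rw [if_neg g2, mul_zero, norm_zero]
          split_ifs
          · exact hp0.le
          · exact le_rfl
    refine (Finset.sum_le_sum h2).trans (le_of_eq ?_)
    rw [← Finset.sum_filter, Finset.sum_const, nsmul_eq_mul, mul_comm]
  have hcard := root_count_pow p k (by omega) W (2 ^ l.length) i (by rw [hW]; exact hW1) (by rw [hW]; exact hW2)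
  have hcard' : (((range (p ^ k)).filter (fun n : ℕ => (p : ℤ) ∣ W.eval ((n : ℕ) : ℤ))).card : ℝ) ≤
      2 ^ l.length * (p : ℝ) ^ (k - 1) := by exact_mod_cast hcard
  rw [← hf]
  exact (le_of_mul_le_mul_left hbound hp0).trans hcard'

end Pool.Agent.Lib.MP_42948a_nt.TH
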