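import Pool.Agent.Lib.MP_42948a_nt.TH.B4
import Pool.Agent.Lib.MP_42948a_nt.BU2.B2

/-!
# Characters modulo `p ^ k` near a point (job C4a)

`ppow_psi`: as `psq_shift` in `BU2/B2.lean`: `ψ s = χ (1 + p^(k-1) * s.val)` for `s : ZMod p`; `(1 + p^(k-1) s)(1 + p^(k-1) t) = 1 + p^(k-1) (s + t)` in `ZMod (p^k)` because `2 (k - 1) ≥ k`; `p^(k-1) * (multiple of p) = 0`. `ψ ≠ 1` by `NT χ p`
(`p^k / p = p^(k-1)`: some `n ≡ 1 mod p^(k-1)` has `χ n ≠ 1`).
`shift_dvs`: write `A = AV l`, `B = BV l` (as functions), `ε = p^(k-1-j) * t`, `P = l.prod = p^j * u`, `A n - B n = P * E n` for all `n` (`hE` evaluated, `PA_eval`). Then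
`A(n+ε) B(n) - A(n) B(n+ε) = P (A(n) E(n+ε) - A(n+ε) E(n))`, and by Taylor (`Polynomial.eval_add..`, `Polynomial.evalSubFactor`-like: `∃ z, f.eval (n+ε) = f.eval n + ε * (derivative f).eval n + ε^2 * z`: `Polynomial.binomExpansion`)
`A(n) E(n+ε) - A(n+ε) E(n) = ε W(n) + ε^2 z`, `W = A E' - A' E`. `P ε = p^(k-1) u t` and `P ε^2 = p^(j + 2 (k-1-j)) ..` is divisible by `p^k` (`j + 2 ≤ k`). So `A(n+ε) B(n) = A(n) B(n+ε) + p^(k-1) u t W(n)` in `ZMod (p^k)`.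
If `A(n)`, `B(n)` are units mod `p` then so are `A(n+ε)`, `B(n+ε)` (`p ∣ ε`), and `A(n+ε) B(n) = A(n) B(n+ε) (1 + p^(k-1) c)` in `ZMod (p^k)` for any integer `c` with `c A(n) B(n) ≡ u t W(n) mod p` (`B(n+ε) ≡ B(n) mod p`), so
`χ(A(n+ε)) conj χ(B(n+ε)) = χ(A(n)) conj χ(B(n)) ψ(c)` (`‖χ‖ = 1` on units) and `(c : ZMod p) = u t W(n) (A(n) B(n))⁻¹`. Otherwise `p` divides `A(n) B(n)` and `A(n+ε) B(n+ε)` and both sides are `0` (`dvs_ch`, `MulChar.map_nonunit`).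
-/

namespace Pool.Agent.Lib.MP_42948a_nt.TH

open Finset Polynomial Pool.Agent.Lib.MP_42948a_nt.BU Pool.Agent.Lib.MP_42948a_nt.BU2

/-- the element `1 + p ^ (k - 1) s` -/
private def cc (p k : ℕ) (s : ℤ) : ZMod (p ^ k) := ((1 + (p : ℤ) ^ (k - 1) * s : ℤ) : ZMod (p ^ k))

private theorem pk_zero (p k : ℕ) : ((((p : ℤ) ^ k : ℤ)) : ZMod (p ^ k)) = 0 := by
  have h : (((p ^ k : ℕ)) : ZMod (p ^ k)) = 0 := ZMod.natCast_self _
  rw [← h]
  push_cast
  rfl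

private theorem cast_eq_of_dvd (p k : ℕ) (a b : ℤ) (h : ((p : ℤ) ^ k) ∣ a - b) :
    ((a : ℤ) : ZMod (p ^ k)) = ((b : ℤ) : ZMod (p ^ k)) := by
  obtain ⟨z, hz⟩ := h
  have h1 : a = b + (p : ℤ) ^ k * z := by linear_combination hz
  rw [h1, Int.cast_add, Int.cast_mul, pk_zero, zero_mul, add_zero]

private theorem cc_add (p k : ℕ) (hk : 2 ≤ k) (s t : ℤ) : cc p k (s + t) = cc p k s * cc p k t := by
  unfold cc
  rw [← Int.cast_mul]
  apply cast_eq_of_dvd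
  have h1 : (p : ℤ) ^ (k - 1) * (p : ℤ) ^ (k - 1) = (p : ℤ) ^ k * (p : ℤ) ^ (k - 2) := by
    rw [← pow_add, ← pow_add]
    congr 1
    omega
  exact ⟨-((p : ℤ) ^ (k - 2) * (s * t)), by linear_combination (-(s * t)) * h1⟩

private theorem cc_mod (p k : ℕ) (hk : 2 ≤ k) (s t : ℤ) (h : (p : ℤ) ∣ s - t) : cc p k s = cc p k t := by
  unfold cc
  apply cast_eq_of_dvd
  obtain ⟨z, hz⟩ := h
  have h1 : (p : ℤ) ^ (k - 1) * (p : ℤ) = (p : ℤ) ^ k := by
    rw [← pow_succ]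
    congr 1
    omega
  exact ⟨z, by linear_combination (p : ℤ) ^ (k - 1) * hz + z * h1⟩

private theorem cc_zero (p k : ℕ) : cc p k 0 = 1 := by
  unfold cc
  rw [mul_zero, add_zero, Int.cast_one]

theorem ppow_psi (p k : ℕ) [Fact p.Prime] [NeZero (p ^ k)] (hk : 2 ≤ k) (χ : DirichletCharacter ℂ (p ^ k)) (hNT : NT χ p) :
    ∃ ψ : AddChar (ZMod p) ℂ, ψ ≠ 1 ∧
      ∀ s : ℤ, χ ((1 + (p : ℤ) ^ (k - 1) * s : ℤ) : ZMod (p ^ k)) = ψ ((s : ℤ) : ZMod p) := by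
  have hp : p.Prime := Fact.out
  have : NeZero p := ⟨hp.ne_zero⟩
  have hval : ∀ s : ℤ, cc p k (((s : ℤ) : ZMod p).val : ℤ) = cc p k s := by
    intro s
    apply cc_mod p k hk
    rw [ZMod.val_intCast]
    have h1 := Int.emod_add_mul_ediv s p
    exact ⟨-(s / p), by linear_combination h1⟩
  let ψ : AddChar (ZMod p) ℂ :=
    { toFun := fun s => χ (cc p k (s.val : ℤ))
      map_zero_eq_one' := by
        show χ (cc p k ((0 : ZMod p).val : ℤ)) = 1
        rw [ZMod.val_zero, Int.ofNat_zero, cc_zero, map_one]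
      map_add_eq_mul' := by
        intro s t
        show χ (cc p k ((s + t).val : ℤ)) = χ (cc p k (s.val : ℤ)) * χ (cc p k (t.val : ℤ))
        have h1 : s + t = (((s.val : ℤ) + (t.val : ℤ) : ℤ) : ZMod p) := by
          rw [Int.cast_add, Int.cast_natCast, Int.cast_natCast, ZMod.natCast_zmod_val, ZMod.natCast_zmod_val]
        rw [h1, hval, cc_add p k hk, map_mul] }
  have hψ : ∀ s : ℤ, χ (cc p k s) = ψ ((s : ℤ) : ZMod p) := by
    intro s
    show χ (cc p k s) = χ (cc p k ((((s : ℤ) : ZMod p)).val : ℤ))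
    rw [hval]
  refine ⟨ψ, ?_, hψ⟩
  intro h1
  obtain ⟨n, _, hn2, hn3⟩ := hNT
  have h2 : p ^ k / p = p ^ (k - 1) := by
    have h3 : p ^ k = p ^ (k - 1) * p := by
      rw [← pow_succ]
      congr 1
      omega
    rw [h3, Nat.mul_div_cancel _ hp.pos]
  rw [h2] at hn2
  obtain ⟨m, hm⟩ := (Nat.modEq_iff_dvd.1 hn2.symm)
  have h3 : ((n : ℕ) : ZMod (p ^ k)) = cc p k m := by
    unfold cc
    have h4 : (n : ℤ) = 1 + (p : ℤ) ^ (k - 1) * m := by
      push_cast at hm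
      linear_combination hm
    rw [← h4, Int.cast_natCast]
  apply hn3
  rw [h3, hψ, h1]
  rfl

private theorem unit_of_not_dvd (p k : ℕ) [Fact p.Prime] (a : ℤ) (h : ¬ (p : ℤ) ∣ a) :
    IsUnit ((a : ℤ) : ZMod (p ^ k)) := by
  rw [ZMod.coe_int_isUnit_iff_isCoprime]
  have hp : p.Prime := Fact.out
  push_cast
  apply IsCoprime.pow_left
  have h1 : Prime (p : ℤ) := Nat.prime_iff_prime_int.1 hp
  exact (Prime.coprime_iff_not_dvd h1).2 h

private theorem nonunit_of_dvd (p k : ℕ) [Fact p.Prime] (hk : k ≠ 0) (a : ℤ) (h : (p : ℤ) ∣ a) :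
    ¬ IsUnit ((a : ℤ) : ZMod (p ^ k)) := by
  rw [ZMod.coe_int_isUnit_iff_isCoprime]
  have hp : p.Prime := Fact.out
  push_cast
  intro h2
  have h3 : IsCoprime (p : ℤ) a := IsCoprime.of_isCoprime_of_dvd_left h2 (dvd_pow_self _ hk)
  have h1 : Prime (p : ℤ) := Nat.prime_iff_prime_int.1 hp
  exact (Prime.coprime_iff_not_dvd h1).1 h3 h

private theorem chi_conj {q : ℕ} (χ : DirichletCharacter ℂ q) (a : ZMod q) (ha : IsUnit a) :
    χ a * (starRingEnd ℂ) (χ a) = 1 := by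
  have h1 : ‖χ a‖ = 1 := by
    have h2 := χ.unit_norm_eq_one ha.unit
    rwa [IsUnit.unit_spec] at h2
  rw [Complex.mul_conj, Complex.normSq_eq_norm_sq, h1]
  norm_num

theorem shift_dvs (p k j : ℕ) [Fact p.Prime] [NeZero (p ^ k)] (hj : j + 2 ≤ k) (χ : DirichletCharacter ℂ (p ^ k))
    (ψ : AddChar (ZMod p) ℂ)
    (hψ : ∀ s : ℤ, χ ((1 + (p : ℤ) ^ (k - 1) * s : ℤ) : ZMod (p ^ k)) = ψ ((s : ℤ) : ZMod p))
    (l : List ℤ) (u : ℤ) (hu : l.prod = (p : ℤ) ^ j * u) (E : ℤ[X]) (hE : PA l - PB l = C l.prod * E) (n t : ℤ) :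
    dvs l (ch χ) (n + (p : ℤ) ^ (k - 1 - j) * t) = dvs l (ch χ) n *
      ψ (((t : ℤ) : ZMod p) * (((u * (PA l * derivative E - derivative (PA l) * E).eval n : ℤ) : ZMod p) *
        (((AV l n * BV l n : ℤ) : ZMod p))⁻¹)) := by
  have hp : p.Prime := Fact.out
  have hp0 : NeZero p := ⟨hp.ne_zero⟩
  have hpp : Prime (p : ℤ) := Nat.prime_iff_prime_int.1 hp
  have hab : ∀ m : ℤ, AV l m - BV l m = l.prod * E.eval m := by
    intro m
    have h1 := congrArg (fun f : ℤ[X] => f.eval m) hE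
    simp only [eval_sub, eval_mul, eval_C] at h1
    rw [(PA_eval l m).1, (PA_eval l m).2] at h1
    exact h1
  set e : ℤ := (p : ℤ) ^ (k - 1 - j) * t with he
  have hpe : (p : ℤ) ∣ e := by
    rw [he]
    exact Dvd.dvd.mul_right (dvd_pow_self _ (by omega)) t
  obtain ⟨z1, hz1⟩ := binomExpansion (PA l) n e
  obtain ⟨z2, hz2⟩ := binomExpansion E n e
  rw [(PA_eval l (n + e)).1, (PA_eval l n).1] at hz1
  set a1 : ℤ := (derivative (PA l)).eval n with ha1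
  set e1 : ℤ := (derivative E).eval n with he1
  have hW : (PA l * derivative E - derivative (PA l) * E).eval n = AV l n * e1 - a1 * E.eval n := by
    rw [eval_sub, eval_mul, eval_mul, (PA_eval l n).1]
  rw [hW]
  set W : ℤ := AV l n * e1 - a1 * E.eval n with hWd
  -- the main congruence
  have hPe : l.prod * e = (p : ℤ) ^ (k - 1) * (u * t) := by
    rw [hu, he]
    have h1 : (p : ℤ) ^ j * (p : ℤ) ^ (k - 1 - j) = (p : ℤ) ^ (k - 1) := by
      rw [← pow_add]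
      congr 1
      omega
    linear_combination (u * t) * h1
  have hkk : (p : ℤ) ^ (k - 1) * (p : ℤ) = (p : ℤ) ^ k := by
    rw [← pow_succ]
    congr 1
    omega
  obtain ⟨e', he'⟩ := hpe
  have hmain : ((p : ℤ) ^ k) ∣ AV l (n + e) * BV l n - (AV l n * BV l (n + e) + (p : ℤ) ^ (k - 1) * (u * t * W)) := by
    refine ⟨u * t * e' * (AV l n * z2 - z1 * E.eval n), ?_⟩
    have h1 := hab n
    have h2 := hab (n + e)
    have h3 : AV l (n + e) * BV l n - AV l n * BV l (n + e) = l.prod * e * (W + e * (AV l n * z2 - z1 * E.eval n)) := by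
      rw [hWd]
      linear_combination (-AV l (n + e)) * h1 + AV l n * h2 + l.prod * AV l n * hz2 - l.prod * E.eval n * hz1
    rw [hPe] at h3
    linear_combination h3 + (p : ℤ) ^ (k - 1) * (u * t) * (AV l n * z2 - z1 * E.eval n) * he' +
      (u * t * e' * (AV l n * z2 - z1 * E.eval n)) * hkk
  have hAe : (p : ℤ) ∣ AV l (n + e) - AV l n := by
    rw [hz1, he']
    exact ⟨e' * a1 + z1 * (p * e' * e'), by ring⟩
  have hBe : (p : ℤ) ∣ BV l (n + e) - BV l n := by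
    obtain ⟨z3, hz3⟩ := binomExpansion (PB l) n e
    rw [(PA_eval l (n + e)).2, (PA_eval l n).2] at hz3
    rw [hz3, he']
    exact ⟨e' * (derivative (PB l)).eval n + z3 * (p * e' * e'), by ring⟩
  rw [dvs_ch, dvs_ch]
  have hk0 : k ≠ 0 := by omega
  by_cases hA : (p : ℤ) ∣ AV l n
  · have hA' : (p : ℤ) ∣ AV l (n + e) := by
      have h1 := dvd_add hAe hA
      rwa [sub_add_cancel] at h1
    rw [MulChar.map_nonunit χ (nonunit_of_dvd p k hk0 _ hA), MulChar.map_nonunit χ (nonunit_of_dvd p k hk0 _ hA')]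
    simp only [zero_mul]
  by_cases hB : (p : ℤ) ∣ BV l n
  · have hB' : (p : ℤ) ∣ BV l (n + e) := by
      have h1 := dvd_add hBe hB
      rwa [sub_add_cancel] at h1
    rw [MulChar.map_nonunit χ (nonunit_of_dvd p k hk0 _ hB), MulChar.map_nonunit χ (nonunit_of_dvd p k hk0 _ hB')]
    simp only [map_zero, mul_zero, zero_mul]
  have hA' : ¬ (p : ℤ) ∣ AV l (n + e) := by
    intro h
    apply hA
    have h1 := dvd_sub h hAe
    rwa [sub_sub_cancel] at h1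
  have hB' : ¬ (p : ℤ) ∣ BV l (n + e) := by
    intro h
    apply hB
    have h1 := dvd_sub h hBe
    rwa [sub_sub_cancel] at h1
  -- the integer `c`
  set cz : ZMod p := ((t : ℤ) : ZMod p) * (((u * W : ℤ) : ZMod p) * (((AV l n * BV l n : ℤ) : ZMod p))⁻¹) with hcz
  set c : ℤ := (cz.val : ℤ) with hc
  have hcc : ((c : ℤ) : ZMod p) = cz := by
    rw [hc, Int.cast_natCast, ZMod.natCast_zmod_val]
  have hne : (((AV l n * BV l n : ℤ) : ZMod p)) ≠ 0 := by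
    intro h
    rw [ZMod.intCast_zmod_eq_zero_iff_dvd] at h
    rcases hpp.dvd_or_dvd h with h | h
    · exact hA h
    · exact hB h
  have hcm : (p : ℤ) ∣ c * (AV l n * BV l (n + e)) - u * t * W := by
    rw [← ZMod.intCast_zmod_eq_zero_iff_dvd]
    have h1 : ((BV l (n + e) : ℤ) : ZMod p) = ((BV l n : ℤ) : ZMod p) := by
      rw [← sub_eq_zero, ← Int.cast_sub, ZMod.intCast_zmod_eq_zero_iff_dvd]
      exact hBe
    rw [Int.cast_sub, Int.cast_mul, hcc, Int.cast_mul (AV l n), h1, ← Int.cast_mul (AV l n), hcz]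
    have h2 : (((AV l n * BV l n : ℤ) : ZMod p))⁻¹ * (((AV l n * BV l n : ℤ) : ZMod p)) = 1 := inv_mul_cancel₀ hne
    have h3 : (((u * t * W : ℤ) : ZMod p)) = ((t : ℤ) : ZMod p) * ((u * W : ℤ) : ZMod p) := by
      push_cast
      ring
    rw [h3]
    linear_combination (((t : ℤ) : ZMod p) * ((u * W : ℤ) : ZMod p)) * h2
  obtain ⟨y, hy⟩ := hcm
  have hfin : (((AV l (n + e) * BV l n : ℤ)) : ZMod (p ^ k)) =
      (((AV l n * BV l (n + e)) * (1 + (p : ℤ) ^ (k - 1) * c) : ℤ) : ZMod (p ^ k)) := by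
    apply cast_eq_of_dvd
    obtain ⟨x, hx⟩ := hmain
    exact ⟨x - y, by linear_combination hx - (p : ℤ) ^ (k - 1) * hy - y * hkk⟩
  have hchi := congrArg χ hfin
  rw [Int.cast_mul, map_mul, Int.cast_mul, map_mul, Int.cast_mul, map_mul, hψ c, hcc] at hchi
  have u1 := chi_conj χ _ (unit_of_not_dvd p k _ hB)
  have u2 := chi_conj χ _ (unit_of_not_dvd p k _ hB')
  linear_combination (-(χ ((AV l (n + e) : ℤ) : ZMod (p ^ k)) * (starRingEnd ℂ) (χ ((BV l (n + e) : ℤ) : ZMod (p ^ k))))) * u1 +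
    (χ ((AV l n : ℤ) : ZMod (p ^ k)) * ψ cz * (starRingEnd ℂ) (χ ((BV l n : ℤ) : ZMod (p ^ k)))) * u2 +
    ((starRingEnd ℂ) (χ ((BV l (n + e) : ℤ) : ZMod (p ^ k))) * (starRingEnd ℂ) (χ ((BV l n : ℤ) : ZMod (p ^ k)))) * hchi

end Pool.Agent.Lib.MP_42948a_nt.TH
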