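import Pool.Agent.Lib.MP_42948a_nt.TH.C3
import Pool.Agent.Lib.MP_42948a_nt.TH.C4
import Pool.Agent.Lib.MP_42948a_nt.TH.C1
import Pool.Agent.Lib.MP_42948a_nt.BU.CA
import Pool.Agent.Lib.MP_42948a_nt.BU2.C

/-!
# Complete sums, global bound (job C5)

Strong induction on `m` (for all `q'`, `χ`), as `C_aux` in `BU2/C.lean` (with its private lemma `C_lb`; copy and adapt). `m = 1`: then `q' = 1` (no prime factor), `CZ 1 f = f 0`, `‖f 0‖ ≤ 1`, `lb .. 1 D = 1`.
`m > 1`: `p = m.minFac`, `k = m.factorization p ≥ 1`, `m = p^k * m2`, `p ∤ m2` (`Nat.ordProj_mul_ordCompl_eq_self`); `q' = p^(min k 2) * q2`, `p ∤ q2`; `crt_char (p^k) m2 : χ n = χp n * χ2 n`, so `dvs l (ch χ) = dvs l (ch χp) * dvs l (ch χ2)` (`dvs_mul`)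
and `CZ_crt`. Local factor: claim `p^(min k 2) ‖CZ (p^k) (dvs l (ch χp))‖ ≤ p^k * (if p ∣ D then p^(min k 2) else 2^L √(p^(min k 2)))`. If `p ∣ D`: `CZ_norm`. If `p ∤ D`, `k = 1`: `hD` says `¬ p ∣ l.prod`: `loc_prime`
(`p ^ 1 = p`: treat the case `m = p * m2` separately). If `p ∤ D`, `k ≥ 2`: `hD` says `¬ p^(k-2+1) ∣ l.prod`, let `j ≤ k - 2` be the exact exponent of `p` in `l.prod` (`l.prod ≠ 0`), `loc_pow`: `p^2 * 2^L p^(k-1) = p^k * (2^L p)` and
`√(p^2) = p`. The induction hypothesis for `m2`, `q2`, `χ2` (`NT χ l → NT χ2 l`; the factorizations agree for primes `≠ p`), and `lb C (P * q2) D = (local factor) * lb C q2 D`.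
-/

namespace Pool.Agent.Lib.MP_42948a_nt.TH

open Finset Polynomial Pool.Agent.Lib.MP_42948a_nt.BU Pool.Agent.Lib.MP_42948a_nt.BU2

private theorem THC5_lb (C : ℝ) (D : ℤ) {p v P q' : ℕ} (hp : p.Prime) (hv : v ≠ 0) (hP : P = p ^ v) (hq' : q' ≠ 0)
    (hcop : ¬ p ∣ q') :
    lb C (P * q') D = (if (p : ℤ) ∣ D then (P : ℝ) else C * √(P : ℝ)) * lb C q' D := by
  subst hP
  have hpv : p ^ v ≠ 0 := pow_ne_zero _ hp.ne_zero
  have hc : (p ^ v).Coprime q' := Nat.Coprime.pow_left v ((Nat.Prime.coprime_iff_not_dvd hp).mpr hcop)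
  have hfac : (p ^ v * q').primeFactors = insert p q'.primeFactors := by
    rw [hc.primeFactors_mul, Nat.primeFactors_prime_pow hv hp, Finset.insert_eq]
  have hnot : p ∉ q'.primeFactors := fun hmem => hcop (Nat.dvd_of_mem_primeFactors hmem)
  have h1 : (p ^ v * q').factorization p = v := by
    rw [Nat.factorization_mul hpv hq', Finsupp.add_apply, Nat.factorization_eq_zero_of_not_dvd hcop,
      hp.factorization_pow, Finsupp.single_eq_same, Nat.add_zero]
  have h2 : ∀ l ∈ q'.primeFactors, (p ^ v * q').factorization l = q'.factorization l := by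
    intro l hl
    have hne : l ≠ p := fun h => hnot (h ▸ hl)
    rw [Nat.factorization_mul hpv hq', Finsupp.add_apply, hp.factorization_pow,
      Finsupp.single_eq_of_ne hne, zero_add]
  unfold lb
  rw [hfac, Finset.prod_insert hnot, h1]
  congr 1
  refine Finset.prod_congr rfl fun l hl => ?_
  rw [h2 l hl]

private theorem THC5_fac {p v x r : ℕ} (hp : p.Prime) (hx : x ≠ 0) (hr : r ≠ p) :
    (p ^ v * x).factorization r = x.factorization r := by
  rw [Nat.factorization_mul (pow_ne_zero _ hp.ne_zero) hx, Finsupp.add_apply, hp.factorization_pow,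
    Finsupp.single_eq_of_ne hr, zero_add]

private theorem THC5_fac' {p v x : ℕ} (hp : p.Prime) (hx : x ≠ 0) (hpx : ¬ p ∣ x) :
    (p ^ v * x).factorization p = v := by
  rw [Nat.factorization_mul (pow_ne_zero _ hp.ne_zero) hx, Finsupp.add_apply, hp.factorization_pow,
    Finsupp.single_eq_same, Nat.factorization_eq_zero_of_not_dvd hpx, add_zero]

/-- the local factor -/
private theorem THC5_loc (p k : ℕ) [Fact p.Prime] (P : ℕ) [NeZero P] (hP : P = p ^ k) (hk : k ≠ 0)
    (χ : DirichletCharacter ℂ P) (hχ : NT χ p) (l : List ℤ) (hl : l ≠ []) (hp : l.length ^ l.length < p)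
    (D : ℤ) (hD : ¬ (p : ℤ) ∣ D → ¬ (p : ℤ) ^ (k - min k 2 + 1) ∣ l.prod) :
    ((p ^ min k 2 : ℕ) : ℝ) * ‖CZ P (dvs l (ch χ))‖ ≤
      (P : ℝ) * (if (p : ℤ) ∣ D then ((p ^ min k 2 : ℕ) : ℝ) else 2 ^ l.length * √((p ^ min k 2 : ℕ) : ℝ)) := by
  have hpp : p.Prime := Fact.out
  have hp0 : (0 : ℝ) < p := by exact_mod_cast hpp.pos
  split_ifs with hpD
  · have h1 := CZ_norm P (dvs l (ch χ)) (dvs_norm l _ (ch_norm χ))
    rw [mul_comm]
    exact mul_le_mul_of_nonneg_right h1 (Nat.cast_nonneg _)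
  · have h2 := hD hpD
    by_cases hk1 : k = 1
    · subst hk1
      rw [pow_one] at hP
      subst hP
      have h3 : min 1 2 = 1 := rfl
      rw [h3] at h2 ⊢
      rw [Nat.sub_self, zero_add, pow_one] at h2
      rw [pow_one]
      exact mul_le_mul_of_nonneg_left (loc_prime P χ hχ l hl hp h2) hp0.le
    · have hk2 : 2 ≤ k := by omega
      subst hP
      rw [min_eq_right hk2] at h2 ⊢
      classical
      have hex : ∃ j : ℕ, ¬ (p : ℤ) ^ (j + 1) ∣ l.prod := ⟨k - 2, h2⟩
      have hj1 := Nat.find_spec hex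
      have hj2 : Nat.find hex ≤ k - 2 := Nat.find_min' hex h2
      have hj3 : (p : ℤ) ^ (Nat.find hex) ∣ l.prod := by
        rcases Nat.eq_zero_or_pos (Nat.find hex) with h | h
        · rw [h, pow_zero]
          exact one_dvd _
        · have h4 := Nat.find_min hex (Nat.sub_lt h one_pos)
          rw [not_not] at h4
          have h8 : Nat.find hex - 1 + 1 = Nat.find hex := Nat.sub_add_cancel h
          rw [h8] at h4
          exact h4
      have h5 := loc_pow p k (Nat.find hex) (by omega) χ hχ l hl hp hj3 hj1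
      have h6 : √((p ^ 2 : ℕ) : ℝ) = (p : ℝ) := by
        rw [Nat.cast_pow, Real.sqrt_sq (Nat.cast_nonneg p)]
      rw [h6]
      have h7 : ((p ^ k : ℕ) : ℝ) = (p : ℝ) ^ (k - 1) * p := by
        rw [Nat.cast_pow, ← pow_succ, Nat.sub_add_cancel (by omega)]
      rw [h7]
      push_cast
      calc (p : ℝ) ^ 2 * ‖CZ (p ^ k) (dvs l (ch χ))‖ ≤ (p : ℝ) ^ 2 * (2 ^ l.length * (p : ℝ) ^ (k - 1)) :=
            mul_le_mul_of_nonneg_left h5 (by positivity)
        _ = (p : ℝ) ^ (k - 1) * p * (2 ^ l.length * p) := by ring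

private theorem THC5_aux (l : List ℤ) (hl : l ≠ []) (D : ℤ) : ∀ (m : ℕ) (_ : NeZero m) (q' : ℕ), 0 < q' →
    ∀ χ : DirichletCharacter ℂ m,
    (∀ p : ℕ, p.Prime → p ∣ m → l.length ^ l.length < p ∧ NT χ p) →
    (∀ p : ℕ, p.Prime → q'.factorization p = min (m.factorization p) 2) →
    (∀ p : ℕ, p.Prime → p ∣ m → ¬ (p : ℤ) ∣ D →
      ¬ (p : ℤ) ^ (m.factorization p - q'.factorization p + 1) ∣ l.prod) →
    (q' : ℝ) * ‖CZ m (dvs l (ch χ))‖ ≤ m * lb (2 ^ l.length) q' D := by
  intro m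
  induction m using Nat.strong_induction_on with
  | _ m ih =>
    intro hm0 q' hq' χ h1 h2 hD
    by_cases hm1 : m = 1
    · subst hm1
      have hq1 : q' = 1 := by
        by_contra hne
        have hpr := Nat.minFac_prime hne
        have h3 := h2 _ hpr
        rw [Nat.factorization_one, Finsupp.coe_zero, Pi.zero_apply, Nat.zero_min] at h3
        have h4 := hpr.factorization_pos_of_dvd hq'.ne' (Nat.minFac_dvd q')
        omega
      subst hq1
      have h3 := CZ_norm 1 (dvs l (ch χ)) (dvs_norm l _ (ch_norm χ))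
      have h4 : lb (2 ^ l.length) 1 D = 1 := by
        unfold lb
        rw [Nat.primeFactors_one, Finset.prod_empty]
      rw [h4, mul_one]
      simpa using h3
    · obtain ⟨p, hp, hpm⟩ : ∃ p : ℕ, p.Prime ∧ p ∣ m := ⟨m.minFac, Nat.minFac_prime hm1, Nat.minFac_dvd m⟩
      have : Fact p.Prime := ⟨hp⟩
      obtain ⟨k, hk⟩ : ∃ k, k = m.factorization p := ⟨_, rfl⟩
      have hk0 : k ≠ 0 := by
        have := hp.factorization_pos_of_dvd hm0.out hpm
        omega
      obtain ⟨m2, hm2⟩ : ∃ m2, m2 = m / p ^ m.factorization p := ⟨_, rfl⟩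
      have hmm : m = p ^ k * m2 := by
        rw [hk, hm2]
        exact (Nat.ordProj_mul_ordCompl_eq_self m p).symm
      have hpm2 : ¬ p ∣ m2 := by
        rw [hm2]
        exact Nat.not_dvd_ordCompl hp hm0.out
      obtain ⟨q2, hq2⟩ : ∃ q2, q2 = q' / p ^ q'.factorization p := ⟨_, rfl⟩
      have hqp : q'.factorization p = min k 2 := by rw [h2 p hp, hk]
      have hqq : q' = p ^ min k 2 * q2 := by
        rw [← hqp, hq2]
        exact (Nat.ordProj_mul_ordCompl_eq_self q' p).symm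
      have hpq2 : ¬ p ∣ q2 := by
        rw [hq2]
        exact Nat.not_dvd_ordCompl hp hq'.ne'
      clear hm2 hq2
      have hm20 : m2 ≠ 0 := by
        rintro rfl
        exact hm0.out (by rw [hmm, mul_zero])
      have hq20 : q2 ≠ 0 := by
        rintro rfl
        rw [mul_zero] at hqq
        omega
      subst hmm
      have : NeZero m2 := ⟨hm20⟩
      have : NeZero (p ^ k) := ⟨pow_ne_zero _ hp.ne_zero⟩
      have hcop : (p ^ k).Coprime m2 := Nat.Coprime.pow_left k ((Nat.Prime.coprime_iff_not_dvd hp).mpr hpm2)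
      have hlt : m2 < p ^ k * m2 := by
        have h3 : 1 < p ^ k := Nat.one_lt_pow hk0 hp.one_lt
        have h4 : 0 < m2 := Nat.pos_of_ne_zero hm20
        nlinarith
      obtain ⟨χp, χ2, hmul, -, hNTp, hNT2⟩ := crt_char (p ^ k) m2 hcop χ
      have hdv : dvs l (ch χ) = fun n => dvs l (ch χp) n * dvs l (ch χ2) n := by
        have e : ch χ = fun n => ch χp n * ch χ2 n := by
          funext n
          exact hmul n
        funext n
        rw [e]
        exact dvs_mul l _ _ n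
      have hCZ : CZ (p ^ k * m2) (dvs l (ch χ)) = CZ (p ^ k) (dvs l (ch χp)) * CZ m2 (dvs l (ch χ2)) := by
        rw [hdv]
        exact CZ_crt (p ^ k) m2 hcop _ _ (dvs_per l _ _ (ch_per χp)) (dvs_per l _ _ (ch_per χ2))
      have hmp : (p ^ k * m2).factorization p = k := THC5_fac' hp hm20 hpm2
      have hA := THC5_loc p k (p ^ k) rfl hk0 χp
        (hNTp p hp (dvd_pow_self p hk0) (h1 p hp hpm).2) l hl (h1 p hp hpm).1 D (by
          intro h3
          have h4 := hD p hp hpm h3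
          rw [hmp, hqp] at h4
          exact h4)
      have hB := ih m2 hlt ‹NeZero m2› q2 (Nat.pos_of_ne_zero hq20) χ2
        (fun r hr hrm => ⟨(h1 r hr (hrm.mul_left _)).1, hNT2 r hr hrm (h1 r hr (hrm.mul_left _)).2⟩)
        (by
          intro r hr
          by_cases hrp : r = p
          · subst hrp
            rw [Nat.factorization_eq_zero_of_not_dvd hpq2, Nat.factorization_eq_zero_of_not_dvd hpm2]
            rfl
          · have h3 := h2 r hr
            rw [hqq, THC5_fac hp hq20 hrp, THC5_fac hp hm20 hrp] at h3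
            exact h3)
        (by
          intro r hr hrm hrD
          have hrp : r ≠ p := by
            rintro rfl
            exact hpm2 hrm
          have h3 := hD r hr (hrm.mul_left _) hrD
          rw [hqq, THC5_fac hp hq20 hrp, THC5_fac hp hm20 hrp] at h3
          exact h3)
      have hv0 : min k 2 ≠ 0 := by
        rcases le_total k 2 with h | h
        · rw [min_eq_left h]
          exact hk0
        · rw [min_eq_right h]
          norm_num
      have hlb := THC5_lb (2 ^ l.length) D hp hv0 rfl hq20 hpq2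
      rw [hCZ, norm_mul, hqq, hlb]
      rw [Nat.cast_mul, Nat.cast_mul]
      have hlb0 : 0 ≤ ((p ^ k : ℕ) : ℝ) *
          (if (p : ℤ) ∣ D then ((p ^ min k 2 : ℕ) : ℝ) else 2 ^ l.length * √((p ^ min k 2 : ℕ) : ℝ)) := by
        split_ifs <;> positivity
      calc ((p ^ min k 2 : ℕ) : ℝ) * (q2 : ℝ) * (‖CZ (p ^ k) (dvs l (ch χp))‖ * ‖CZ m2 (dvs l (ch χ2))‖)
          = (((p ^ min k 2 : ℕ) : ℝ) * ‖CZ (p ^ k) (dvs l (ch χp))‖) *
            ((q2 : ℝ) * ‖CZ m2 (dvs l (ch χ2))‖) := by ring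
        _ ≤ (((p ^ k : ℕ) : ℝ) * (if (p : ℤ) ∣ D then ((p ^ min k 2 : ℕ) : ℝ) else
              2 ^ l.length * √((p ^ min k 2 : ℕ) : ℝ))) * ((m2 : ℝ) * lb (2 ^ l.length) q2 D) :=
            mul_le_mul hA hB (by positivity) hlb0
        _ = _ := by ring

theorem CZ_global (l : List ℤ) (hl : l ≠ []) (D : ℤ) (m q' : ℕ) [NeZero m] (hq' : 0 < q') (χ : DirichletCharacter ℂ m)
    (h1 : ∀ p : ℕ, p.Prime → p ∣ m → l.length ^ l.length < p ∧ NT χ p)
    (h2 : ∀ p : ℕ, p.Prime → q'.factorization p = min (m.factorization p) 2)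
    (hD : ∀ p : ℕ, p.Prime → p ∣ m → ¬ (p : ℤ) ∣ D →
      ¬ (p : ℤ) ^ (m.factorization p - q'.factorization p + 1) ∣ l.prod) :
    (q' : ℝ) * ‖CZ m (dvs l (ch χ))‖ ≤ m * lb (2 ^ l.length) q' D := by
  exact THC5_aux l hl D m inferInstance q' hq' χ h1 h2 hD

end Pool.Agent.Lib.MP_42948a_nt.TH
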