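import Pool.Agent.Lib.MP_42948a_nt.TH.C1

/-!
# Completing an incomplete sum by one more difference (job D1)

Let `S = SZ N (w Ψ)`. For `σ ∈ range H`: `‖S - ∑_{n ∈ Icc 1 N} w n * Ψ (n + D σ)‖ ≤ 2 D σ`: the sum of `w Ψ` over `[1, N]` and over `[1 + D σ, N + D σ]` differ by at most `2 D σ` terms of norm `≤ 1`, and `w (n + D σ) = w n`. Sum over `σ`:
`H ‖S‖ ≤ ∑_{n} ‖T n‖ + 2 D H^2`, `T n = ∑_{σ ∈ range H} Ψ (n + D σ)`. Cauchy-Schwarz: `∑_n ‖T n‖ ≤ √(N ∑_{n ∈ Icc 1 N} ‖T n‖^2)`, `T` is `q`-periodic, so (`sum_le_CZ`) `∑_{n ≤ N} ‖T n‖^2 ≤ (N/q + 1) ∑_{n < q} ‖T n‖^2`, and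
`∑_{n < q} ‖T n‖^2 = ∑_{σ, σ'} CZ q (n ↦ Ψ (n + D σ) conj (Ψ (n + D σ')))`: the terms `σ = σ'` give `≤ H q`; for `σ < σ'` the shift by `- D σ` (`CZ_shift`) gives `CZ q (dv (D (σ' - σ)) Ψ)`, for `σ > σ'` its conjugate; every difference
`τ ∈ Ico 1 H` occurs at most `2 H` times: `≤ H q + 2 H ∑_{τ ∈ Ico 1 H} ‖CZ q (dv (D τ) Ψ)‖ ≤ H q + 2 H^2 X`. So `‖S‖ ≤ 2 D H + (1/H) √(N (N/q + 1) (H q + 2 H^2 X)) = 2 D H + √(N (N/q + 1) (q/H + 2 X))`.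
-/

namespace Pool.Agent.Lib.MP_42948a_nt.TH

open Finset Polynomial Pool.Agent.Lib.MP_42948a_nt.BU Pool.Agent.Lib.MP_42948a_nt.BU2

/-- shifting an incomplete sum -/
theorem THD1_shift (N m : ℕ) (F : ℤ → ℂ) (hF : ∀ n, ‖F n‖ ≤ 1) :
    ‖∑ n ∈ Icc 1 N, F ((n : ℕ) : ℤ) - ∑ n ∈ Icc 1 N, F ((n : ℕ) + (m : ℤ))‖ ≤ 2 * m := by
  induction m with
  | zero => simp
  | succ m ih =>
    have h1 : ∑ n ∈ Icc 1 N, F ((n : ℕ) + (m : ℤ)) - ∑ n ∈ Icc 1 N, F ((n : ℕ) + ((m + 1 : ℕ) : ℤ))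
        = F (1 + m) - F (N + 1 + m) := by
      rw [← Finset.sum_sub_distrib]
      have h2 : ∀ f : ℕ → ℂ, ∑ n ∈ Icc 1 N, f n = ∑ n ∈ range N, f (n + 1) := by
        intro f
        rw [Finset.range_eq_Ico, Finset.sum_Ico_add' f 0 N 1]
        refine Finset.sum_congr ?_ (fun _ _ => rfl)
        ext x
        simp only [Finset.mem_Icc, Finset.mem_Ico]
        omega
      rw [h2]
      have h3 : ∀ n ∈ range N, F (((n + 1 : ℕ) : ℤ) + (m : ℤ)) - F (((n + 1 : ℕ) : ℤ) + ((m + 1 : ℕ) : ℤ))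
          = (fun k : ℕ => F ((k : ℤ) + 1 + m)) n - (fun k : ℕ => F ((k : ℤ) + 1 + m)) (n + 1) := by
        intro n _
        simp only
        have e1 : ((n + 1 : ℕ) : ℤ) + (m : ℤ) = (n : ℤ) + 1 + m := by push_cast; ring
        have e2 : ((n + 1 : ℕ) : ℤ) + ((m + 1 : ℕ) : ℤ) = ((n + 1 : ℕ) : ℤ) + 1 + m := by push_cast; ring
        rw [e1, e2]
      rw [Finset.sum_congr rfl h3, Finset.sum_range_sub']
      simp
    have h4 : ∑ n ∈ Icc 1 N, F ((n : ℕ) : ℤ) - ∑ n ∈ Icc 1 N, F ((n : ℕ) + ((m + 1 : ℕ) : ℤ))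
        = (∑ n ∈ Icc 1 N, F ((n : ℕ) : ℤ) - ∑ n ∈ Icc 1 N, F ((n : ℕ) + (m : ℤ))) + (F (1 + m) - F (N + 1 + m)) := by
      rw [← h1]; ring
    rw [h4]
    have h5 := norm_add_le (∑ n ∈ Icc 1 N, F ((n : ℕ) : ℤ) - ∑ n ∈ Icc 1 N, F ((n : ℕ) + (m : ℤ))) (F (1 + m) - F (N + 1 + m))
    have h6 := norm_sub_le (F (1 + m)) (F (N + 1 + m))
    have h7 := hF (1 + m)
    have h8 := hF (N + 1 + m)
    push_cast
    linarith

/-- rows of the double sum -/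
theorem THD1_row (H q σ : ℕ) (hσ : σ < H) (g : ℕ → ℝ) (G : ℕ → ℝ) (B : ℝ) (hG0 : ∀ τ, 0 ≤ G τ)
    (hB : ∑ τ ∈ Ico 1 H, G τ ≤ B) (hd : g σ ≤ q) (hlt : ∀ k, k < σ → g k ≤ G (σ - k))
    (hgt : ∀ k, σ < k → g k ≤ G (k - σ)) : ∑ k ∈ range H, g k ≤ q + 2 * B := by
  have h1 : ∑ k ∈ range H, g k = ∑ k ∈ range σ, g k + ∑ k ∈ Ico σ H, g k := by
    rw [Finset.range_eq_Ico, Finset.range_eq_Ico, Finset.sum_Ico_consecutive _ (Nat.zero_le _) hσ.le]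
  have h2 : ∑ k ∈ Ico σ H, g k = g σ + ∑ k ∈ Ico (σ + 1) H, g k := Finset.sum_eq_sum_Ico_succ_bot hσ g
  have hB' : ∑ i ∈ range (H - 1), G (1 + i) ≤ B := by
    rw [Finset.sum_Ico_eq_sum_range] at hB
    exact hB
  have h3 : ∑ k ∈ range σ, g k ≤ B := by
    have h31 : ∑ k ∈ range σ, g k ≤ ∑ k ∈ range σ, (fun j => G (1 + j)) (σ - 1 - k) := by
      refine Finset.sum_le_sum ?_
      intro k hk
      have hk' := Finset.mem_range.1 hk
      have := hlt k hk'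
      have e : 1 + (σ - 1 - k) = σ - k := by omega
      simp only [e]
      exact this
    have h32 := Finset.sum_range_reflect (fun j => G (1 + j)) σ
    have h33 : ∑ j ∈ range σ, (fun j => G (1 + j)) j ≤ ∑ j ∈ range (H - 1), G (1 + j) := by
      refine Finset.sum_le_sum_of_subset_of_nonneg ?_ (fun i _ _ => hG0 _)
      intro x hx
      have := Finset.mem_range.1 hx
      exact Finset.mem_range.2 (by omega)
    linarith
  have h4 : ∑ k ∈ Ico (σ + 1) H, g k ≤ B := by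
    rw [Finset.sum_Ico_eq_sum_range]
    have h41 : ∑ i ∈ range (H - (σ + 1)), g (σ + 1 + i) ≤ ∑ i ∈ range (H - (σ + 1)), G (1 + i) := by
      refine Finset.sum_le_sum ?_
      intro i _
      have := hgt (σ + 1 + i) (by omega)
      have e : σ + 1 + i - σ = 1 + i := by omega
      rw [e] at this
      exact this
    have h42 : ∑ i ∈ range (H - (σ + 1)), G (1 + i) ≤ ∑ i ∈ range (H - 1), G (1 + i) := by
      refine Finset.sum_le_sum_of_subset_of_nonneg ?_ (fun i _ _ => hG0 _)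
      intro x hx
      have := Finset.mem_range.1 hx
      exact Finset.mem_range.2 (by omega)
    linarith
  rw [h1, h2]
  linarith

theorem compl (N D H q : ℕ) [NeZero q] (hH : 1 ≤ H) (w Ψ : ℤ → ℂ) (hw : ∀ n, ‖w n‖ ≤ 1) (hwD : ∀ n, w (n + D) = w n)
    (hΨ : ∀ n, ‖Ψ n‖ ≤ 1) (hper : Per q Ψ) (X : ℝ)
    (hX : ∑ σ ∈ Ico 1 H, ‖CZ q (dv ((D * σ : ℕ) : ℤ) Ψ)‖ ≤ H * X) :
    ‖SZ N (fun n => w n * Ψ n)‖ ≤ 2 * D * H + √((N : ℝ) * ((N : ℝ) / q + 1) * ((q : ℝ) / H + 2 * X)) := by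
  have hHpos : (0 : ℝ) < H := by exact_mod_cast hH
  have hqpos : (0 : ℝ) < q := by exact_mod_cast Nat.pos_of_ne_zero (NeZero.ne q)
  -- periodicity of w
  have hwk : ∀ (k : ℕ) (n : ℤ), w (n + ((D * k : ℕ) : ℤ)) = w n := by
    intro k
    induction k with
    | zero => intro n; simp
    | succ k ih =>
      intro n
      have e : n + ((D * (k + 1) : ℕ) : ℤ) = (n + ((D * k : ℕ) : ℤ)) + D := by push_cast; ring
      rw [e, hwD, ih]
  set F : ℤ → ℂ := fun n => w n * Ψ n with hFdef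
  have hF : ∀ n, ‖F n‖ ≤ 1 := by
    intro n
    simp only [hFdef, norm_mul]
    exact mul_le_one₀ (hw n) (norm_nonneg _) (hΨ n)
  set T : ℤ → ℂ := fun n => ∑ σ ∈ range H, Ψ (n + ((D * σ : ℕ) : ℤ)) with hTdef
  -- step 1
  have h1 : ∀ σ ∈ range H, ‖SZ N F - ∑ n ∈ Icc 1 N, w ((n : ℕ) : ℤ) * Ψ ((n : ℕ) + ((D * σ : ℕ) : ℤ))‖ ≤ 2 * D * H := by
    intro σ hσ
    have hσ' := Finset.mem_range.1 hσ
    have := THD1_shift N (D * σ) F hF
    have e : ∑ n ∈ Icc 1 N, F ((n : ℕ) + ((D * σ : ℕ) : ℤ))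
        = ∑ n ∈ Icc 1 N, w ((n : ℕ) : ℤ) * Ψ ((n : ℕ) + ((D * σ : ℕ) : ℤ)) := by
      refine Finset.sum_congr rfl ?_
      intro n _
      simp only [hFdef]
      rw [hwk]
    rw [e] at this
    have e2 : SZ N F = ∑ n ∈ Icc 1 N, F ((n : ℕ) : ℤ) := rfl
    rw [e2]
    refine this.trans ?_
    have hσH : (σ : ℝ) ≤ H := by exact_mod_cast hσ'.le
    have hD0 : (0 : ℝ) ≤ D := Nat.cast_nonneg _
    push_cast
    nlinarith [mul_le_mul_of_nonneg_left hσH hD0]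
  -- step 2
  have h2 : (H : ℝ) * ‖SZ N F‖ ≤ H * (2 * D * H) + ∑ n ∈ Icc 1 N, ‖T ((n : ℕ) : ℤ)‖ := by
    have e1 : (H : ℂ) * SZ N F = ∑ σ ∈ range H, (SZ N F - ∑ n ∈ Icc 1 N, w ((n : ℕ) : ℤ) * Ψ ((n : ℕ) + ((D * σ : ℕ) : ℤ)))
        + ∑ n ∈ Icc 1 N, w ((n : ℕ) : ℤ) * T ((n : ℕ) : ℤ) := by
      have e11 : ∑ n ∈ Icc 1 N, w ((n : ℕ) : ℤ) * T ((n : ℕ) : ℤ)
          = ∑ σ ∈ range H, ∑ n ∈ Icc 1 N, w ((n : ℕ) : ℤ) * Ψ ((n : ℕ) + ((D * σ : ℕ) : ℤ)) := by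
        rw [Finset.sum_comm]
        refine Finset.sum_congr rfl ?_
        intro n _
        simp only [hTdef]
        rw [Finset.mul_sum]
      rw [e11, Finset.sum_sub_distrib, Finset.sum_const, Finset.card_range, nsmul_eq_mul]
      ring
    have e2 : (H : ℝ) * ‖SZ N F‖ = ‖(H : ℂ) * SZ N F‖ := by
      rw [norm_mul, Complex.norm_natCast]
    rw [e2, e1]
    refine (norm_add_le _ _).trans ?_
    refine add_le_add ?_ ?_
    · refine (norm_sum_le _ _).trans ?_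
      refine (Finset.sum_le_sum h1).trans ?_
      rw [Finset.sum_const, Finset.card_range, nsmul_eq_mul]
    · refine (norm_sum_le _ _).trans ?_
      refine Finset.sum_le_sum ?_
      intro n _
      rw [norm_mul]
      exact mul_le_of_le_one_left (norm_nonneg _) (hw _)
  -- step 3
  have h3 : (∑ n ∈ Icc 1 N, ‖T ((n : ℕ) : ℤ)‖) ^ 2 ≤ N * ∑ n ∈ Icc 1 N, ‖T ((n : ℕ) : ℤ)‖ ^ 2 := by
    have := sq_sum_le_card_mul_sum_sq (s := Icc 1 N) (f := fun n : ℕ => ‖T ((n : ℕ) : ℤ)‖)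
    simpa using this
  -- step 4
  have hTper : Per q T := by
    intro n
    simp only [hTdef]
    refine Finset.sum_congr rfl ?_
    intro σ _
    have e : n + (q : ℤ) + ((D * σ : ℕ) : ℤ) = n + ((D * σ : ℕ) : ℤ) + q := by ring
    rw [e, hper]
  have h4 : ∑ n ∈ Icc 1 N, ‖T ((n : ℕ) : ℤ)‖ ^ 2 ≤ ((N : ℝ) / q + 1) * ∑ n ∈ range q, ‖T ((n : ℕ) : ℤ)‖ ^ 2 := by
    refine sum_le_CZ q (fun n => ‖T n‖ ^ 2) (fun n => by positivity) ?_ N
    intro n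
    rw [hTper n]
  -- step 5
  have h5 : ∑ n ∈ range q, ‖T ((n : ℕ) : ℤ)‖ ^ 2 ≤ H * (q + 2 * (H * X)) := by
    set g : ℕ → ℕ → ℝ := fun σ k => ‖CZ q (fun n => Ψ (n + ((D * σ : ℕ) : ℤ)) * (starRingEnd ℂ) (Ψ (n + ((D * k : ℕ) : ℤ))))‖ with hg
    have e1 : ((∑ n ∈ range q, ‖T ((n : ℕ) : ℤ)‖ ^ 2 : ℝ) : ℂ)
        = ∑ σ ∈ range H, ∑ k ∈ range H, CZ q (fun n => Ψ (n + ((D * σ : ℕ) : ℤ)) * (starRingEnd ℂ) (Ψ (n + ((D * k : ℕ) : ℤ)))) := by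
      have e11 : ∀ σ ∈ range H, ∑ k ∈ range H, CZ q (fun n => Ψ (n + ((D * σ : ℕ) : ℤ)) * (starRingEnd ℂ) (Ψ (n + ((D * k : ℕ) : ℤ))))
          = ∑ n ∈ range q, Ψ ((n : ℕ) + ((D * σ : ℕ) : ℤ)) * (starRingEnd ℂ) (T ((n : ℕ) : ℤ)) := by
        intro σ _
        unfold CZ
        rw [Finset.sum_comm]
        refine Finset.sum_congr rfl ?_
        intro n _
        simp only [hTdef]
        rw [map_sum, Finset.mul_sum]
      rw [Finset.sum_congr rfl e11, Finset.sum_comm, Complex.ofReal_sum]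
      refine Finset.sum_congr rfl ?_
      intro n _
      rw [← Finset.sum_mul]
      have e12 : ∑ σ ∈ range H, Ψ ((n : ℕ) + ((D * σ : ℕ) : ℤ)) = T ((n : ℕ) : ℤ) := rfl
      rw [e12, Complex.mul_conj, Complex.normSq_eq_norm_sq]
    have e2 : ∑ n ∈ range q, ‖T ((n : ℕ) : ℤ)‖ ^ 2 = ‖((∑ n ∈ range q, ‖T ((n : ℕ) : ℤ)‖ ^ 2 : ℝ) : ℂ)‖ := by
      rw [Complex.norm_real, Real.norm_of_nonneg (Finset.sum_nonneg (fun _ _ => by positivity))]
    rw [e2, e1]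
    have e3 : ‖∑ σ ∈ range H, ∑ k ∈ range H, CZ q (fun n => Ψ (n + ((D * σ : ℕ) : ℤ)) * (starRingEnd ℂ) (Ψ (n + ((D * k : ℕ) : ℤ))))‖
        ≤ ∑ σ ∈ range H, ∑ k ∈ range H, g σ k := by
      refine (norm_sum_le _ _).trans ?_
      refine Finset.sum_le_sum ?_
      intro σ _
      exact norm_sum_le _ _
    refine e3.trans ?_
    have hup : ∀ σ k : ℕ, σ < k → g σ k = ‖CZ q (dv ((D * (k - σ) : ℕ) : ℤ) Ψ)‖ := by
      intro σ k hk
      have hperd : Per q (dv ((D * (k - σ) : ℕ) : ℤ) Ψ) := by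
        intro n
        unfold dv
        have e : n + (q : ℤ) + ((D * (k - σ) : ℕ) : ℤ) = n + ((D * (k - σ) : ℕ) : ℤ) + q := by ring
        rw [e, hper, hper]
      have hs := CZ_shift q (dv ((D * (k - σ) : ℕ) : ℤ) Ψ) hperd ((D * σ : ℕ) : ℤ)
      rw [← hs]
      simp only [hg]
      refine congrArg (fun F => ‖CZ q F‖) ?_
      funext n
      unfold dv
      have e : n + ((D * σ : ℕ) : ℤ) + ((D * (k - σ) : ℕ) : ℤ) = n + ((D * k : ℕ) : ℤ) := by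
        have e' : D * σ + D * (k - σ) = D * k := by
          rw [← Nat.mul_add]; congr 1; omega
        rw [add_assoc]
        congr 1
        exact_mod_cast e'
      rw [e]
    have hsymm : ∀ σ k : ℕ, g σ k = g k σ := by
      intro σ k
      simp only [hg]
      have e : CZ q (fun n => Ψ (n + ((D * σ : ℕ) : ℤ)) * (starRingEnd ℂ) (Ψ (n + ((D * k : ℕ) : ℤ))))
          = (starRingEnd ℂ) (CZ q (fun n => Ψ (n + ((D * k : ℕ) : ℤ)) * (starRingEnd ℂ) (Ψ (n + ((D * σ : ℕ) : ℤ))))) := by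
        unfold CZ
        rw [map_sum]
        refine Finset.sum_congr rfl ?_
        intro n _
        rw [map_mul, Complex.conj_conj]
        ring
      rw [e, RCLike.norm_conj]
    have hrow : ∀ σ ∈ range H, ∑ k ∈ range H, g σ k ≤ q + 2 * (H * X) := by
      intro σ hσ
      refine THD1_row H q σ (Finset.mem_range.1 hσ) (fun k => g σ k) (fun τ => ‖CZ q (dv ((D * τ : ℕ) : ℤ) Ψ)‖) (H * X)
        (fun τ => norm_nonneg _) hX ?_ ?_ ?_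
      · refine CZ_norm q _ ?_
        intro n
        rw [norm_mul, RCLike.norm_conj]
        exact mul_le_one₀ (hΨ _) (norm_nonneg _) (hΨ _)
      · intro k hk
        rw [hsymm, hup k σ hk]
      · intro k hk
        rw [hup σ k hk]
    refine (Finset.sum_le_sum hrow).trans ?_
    rw [Finset.sum_const, Finset.card_range, nsmul_eq_mul]
  -- step 6
  set A : ℝ := ∑ n ∈ Icc 1 N, ‖T ((n : ℕ) : ℤ)‖ with hA
  have hA0 : 0 ≤ A := Finset.sum_nonneg (fun _ _ => norm_nonneg _)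
  have hN0 : (0 : ℝ) ≤ N := Nat.cast_nonneg _
  have h6 : A ^ 2 ≤ N * (((N : ℝ) / q + 1) * (H * (q + 2 * (H * X)))) := by
    refine h3.trans (mul_le_mul_of_nonneg_left (h4.trans (mul_le_mul_of_nonneg_left h5 (by positivity))) hN0)
  have h7 : (A / H) ^ 2 ≤ (N : ℝ) * ((N : ℝ) / q + 1) * ((q : ℝ) / H + 2 * X) := by
    have e : (N : ℝ) * ((N : ℝ) / q + 1) * ((q : ℝ) / H + 2 * X)
        = (N * (((N : ℝ) / q + 1) * (H * (q + 2 * (H * X))))) / H ^ 2 := by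
      field_simp
    rw [e, div_pow]
    exact div_le_div_of_nonneg_right h6 (by positivity)
  have h8 : A / H ≤ √((N : ℝ) * ((N : ℝ) / q + 1) * ((q : ℝ) / H + 2 * X)) := Real.le_sqrt_of_sq_le h7
  have h9 : ‖SZ N F‖ ≤ 2 * D * H + A / H := by
    have h91 : ‖SZ N F‖ = (H * ‖SZ N F‖) / H := by field_simp
    rw [h91]
    have h92 : (2 * D * H + A / H : ℝ) = (H * (2 * D * H) + A) / H := by field_simp
    rw [h92]
    exact div_le_div_of_nonneg_right h2 hHpos.le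
  linarith

end Pool.Agent.Lib.MP_42948a_nt.TH
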