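import Pool.Agent.Lib.MP_42948a_nt.TH.Defs
import Pool.Agent.Lib.MP_42948a_nt.BU2.E
import Pool.Agent.Lib.MP_42948a_nt.BU2.F

/-!
# The weights (job D2)

`wt_ge_one`: all factors are `≥ 1` (`p ^ v ≥ 1`). `wt_mul'`: a prime dividing `x y` divides `x` or `y`; factorwise (`BU2/E.lean` has it as a private lemma `E_wt_mul`; or `wt_prod` for two factors). `wt_list`: induction.
`wt_coprime`: if `D` is coprime to `q` then `p ∣ D x ↔ p ∣ x` for the primes `p ∣ q`. `wt_Ico`: `Ico 1 H ⊆ Icc 1 H`, `wt_sum`, `wt_nonneg`. `sqrt_wt`: `a + b w ≤ (a + b) w^2` for `w ≥ 1`.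
-/

namespace Pool.Agent.Lib.MP_42948a_nt.TH

open Finset Polynomial Pool.Agent.Lib.MP_42948a_nt.BU Pool.Agent.Lib.MP_42948a_nt.BU2

private theorem THD2_one (q p : ℕ) (hp : p ∈ q.primeFactors) :
    (1 : ℝ) ≤ √((p ^ q.factorization p : ℕ) : ℝ) := by
  have hpp : p.Prime := Nat.prime_of_mem_primeFactors hp
  rw [Real.one_le_sqrt]
  have h2 : 1 ≤ p ^ q.factorization p := Nat.one_le_pow _ _ hpp.pos
  exact_mod_cast h2

theorem wt_ge_one (q : ℕ) (D : ℤ) : 1 ≤ wt q D := by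
  unfold wt
  have h : ∏ p ∈ q.primeFactors, (1 : ℝ) ≤ ∏ p ∈ q.primeFactors,
      (if (p : ℤ) ∣ D then √((p ^ q.factorization p : ℕ) : ℝ) else 1) := by
    refine Finset.prod_le_prod (fun p _ => zero_le_one) (fun p hp => ?_)
    split_ifs
    · exact THD2_one q p hp
    · exact le_rfl
  rw [Finset.prod_const_one] at h
  exact h

theorem wt_mul' (q : ℕ) (x y : ℤ) : wt q (x * y) ≤ wt q x * wt q y := by
  unfold wt
  rw [← Finset.prod_mul_distrib]
  refine Finset.prod_le_prod (fun p _ => ?_) fun p hp => ?_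
  · split_ifs
    · exact Real.sqrt_nonneg _
    · exact zero_le_one
  · have hpp : p.Prime := Nat.prime_of_mem_primeFactors hp
    have hpi : Prime (p : ℤ) := Nat.prime_iff_prime_int.mp hpp
    have h1 := THD2_one q p hp
    by_cases hx : (p : ℤ) ∣ x
    · have hxy : (p : ℤ) ∣ x * y := Dvd.dvd.mul_right hx y
      rw [if_pos hx, if_pos hxy]
      split_ifs
      · exact le_mul_of_one_le_left (by linarith) h1
      · rw [mul_one]
    · by_cases hy : (p : ℤ) ∣ y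
      · have hxy : (p : ℤ) ∣ x * y := Dvd.dvd.mul_left hy x
        rw [if_neg hx, if_pos hy, if_pos hxy, one_mul]
      · have hxy : ¬ (p : ℤ) ∣ x * y := fun h => (hpi.dvd_or_dvd h).elim hx hy
        rw [if_neg hx, if_neg hy, if_neg hxy, one_mul]

private theorem THD2_wt_one (q : ℕ) : wt q 1 = 1 := by
  unfold wt
  refine Finset.prod_eq_one fun p hp => ?_
  have hpp : p.Prime := Nat.prime_of_mem_primeFactors hp
  have hpi : Prime (p : ℤ) := Nat.prime_iff_prime_int.mp hpp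
  rw [if_neg fun h => hpi.not_isUnit (isUnit_of_dvd_one h)]

theorem wt_list (q : ℕ) (hs : List ℕ) :
    wt q ((hs.prod : ℕ) : ℤ) ≤ (hs.map (fun h => wt q ((h : ℕ) : ℤ))).prod ∧ 1 ≤ (hs.map (fun h => wt q ((h : ℕ) : ℤ))).prod := by
  induction hs with
  | nil =>
    refine ⟨?_, ?_⟩
    · rw [List.prod_nil, List.map_nil, List.prod_nil, Nat.cast_one, THD2_wt_one]
    · rw [List.map_nil, List.prod_nil]
  | cons h l ih =>
    obtain ⟨ih1, ih2⟩ := ih
    have h1 : 1 ≤ wt q ((h : ℕ) : ℤ) := wt_ge_one q _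
    refine ⟨?_, ?_⟩
    · rw [List.prod_cons, List.map_cons, List.prod_cons, Nat.cast_mul]
      exact (wt_mul' q _ _).trans (mul_le_mul_of_nonneg_left ih1 (wt_nonneg q _))
    · rw [List.map_cons, List.prod_cons]
      exact one_le_mul_of_one_le_of_one_le h1 ih2

theorem wt_coprime (q : ℕ) (D x : ℤ) (h : IsCoprime D (q : ℤ)) : wt q (D * x) = wt q x := by
  unfold wt
  refine Finset.prod_congr rfl fun p hp => ?_
  have hpp : p.Prime := Nat.prime_of_mem_primeFactors hp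
  have hpi : Prime (p : ℤ) := Nat.prime_iff_prime_int.mp hpp
  have hpq : (p : ℤ) ∣ (q : ℤ) := Int.natCast_dvd_natCast.2 (Nat.dvd_of_mem_primeFactors hp)
  have hpD : ¬ (p : ℤ) ∣ D := fun h1 => hpi.not_isUnit (h.isUnit_of_dvd' h1 hpq)
  have e : ((p : ℤ) ∣ D * x) ↔ ((p : ℤ) ∣ x) :=
    ⟨fun h1 => (hpi.dvd_or_dvd h1).resolve_left hpD, fun h1 => Dvd.dvd.mul_left h1 D⟩
  by_cases hx : (p : ℤ) ∣ x
  · rw [if_pos hx, if_pos (e.2 hx)]
  · rw [if_neg hx, if_neg (fun h1 => hx (e.1 h1))]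

theorem wt_Ico (q H : ℕ) (hq : 0 < q) (hq3 : ∀ p : ℕ, p.Prime → ¬ p ^ 3 ∣ q) :
    ∑ t ∈ Ico 1 H, wt q ((t : ℕ) : ℤ) ≤ H * (q.divisors.card : ℝ) := by
  refine le_trans ?_ (wt_sum q H hq hq3)
  refine Finset.sum_le_sum_of_subset_of_nonneg ?_ (fun _ _ _ => wt_nonneg _ _)
  intro t ht
  rw [mem_Ico] at ht
  rw [mem_Icc]
  omega

theorem sqrt_wt (a b c w : ℝ) (ha : 0 ≤ a) (hb : 0 ≤ b) (hc : 0 ≤ c) (hw : 1 ≤ w) :
    √(c * (a + b * w)) ≤ √(c * (a + b)) * w := by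
  have hw0 : 0 ≤ w := by linarith
  have h1 : c * (a + b * w) ≤ c * (a + b) * w ^ 2 := by
    have h2 : a + b * w ≤ (a + b) * w ^ 2 := by
      have h3 : a ≤ a * w ^ 2 := by
        have h4 : (1 : ℝ) ≤ w ^ 2 := by nlinarith
        exact le_mul_of_one_le_right ha h4
      have h5 : b * w ≤ b * w ^ 2 := by
        have h6 : w ≤ w ^ 2 := by nlinarith
        exact mul_le_mul_of_nonneg_left h6 hb
      linarith
    calc c * (a + b * w) ≤ c * ((a + b) * w ^ 2) := mul_le_mul_of_nonneg_left h2 hc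
      _ = c * (a + b) * w ^ 2 := by ring
  calc √(c * (a + b * w)) ≤ √(c * (a + b) * w ^ 2) := Real.sqrt_le_sqrt h1
    _ = √(c * (a + b)) * w := by
      rw [Real.sqrt_mul (mul_nonneg hc (add_nonneg ha hb)), Real.sqrt_sq hw0]

end Pool.Agent.Lib.MP_42948a_nt.TH
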