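import Pool.Agent.Lib.MP_42948a_nt.TH.Defs

/-!
# The sieve for the vertices (job D3)

Let `f n = (V.map (n + ·)).prod : ℤ`. `IsCoprime (n + v) m0` for all `v ∈ V` iff `IsCoprime (f n) m0` iff `gcd(m0, |f n|) = 1`, so the indicator is `∑_{D ∣ m0, D ∣ f n} μ(D)` (`∑_{D ∣ g} μ(D) = [g = 1]`, `g = gcd(m0, |f n|) > 0`; see `N1_moebius` in `BM/N1.lean`).
Hence `SZ N (1 Ψ) = ∑_{D ∣ m0} μ(D) SZ N (1[D ∣ f] Ψ)`, `|μ(D)| ≤ 1` and `μ(D) = 0` unless `D` is squarefree. The `D ≤ Δ` give the first sum. For a squarefree `D > Δ` with `D ∣ f n`: `D` divides `∏_{v ∈ V} gcd(D, |n + v|)` (every prime `p ∣ D`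
divides some `n + v`; `D` is squarefree: `Nat.Coprime`-products or `UniqueFactorizationMonoid.dvd_of_..`, e.g. `D ∣ gcd(D, a b)` and `Nat.gcd_mul_dvd_mul_gcd` by induction on the list: `gcd(D, ∏) ∣ ∏ gcd(D, ·)`; no squarefreeness needed), so
some `e = gcd(D, |n + v|)` satisfies `e^(V.length) ≥ D > Δ ≥ y^(V.length)`, i.e. `e > y`, `e ∣ m0`, `e ∣ n + v`. So `‖SZ N (1[D ∣ f] Ψ)‖ ≤ #{n ≤ N : D ∣ f n} ≤ ∑_{v ∈ V} ∑_{e ∣ m0, e > y} #{1 ≤ n ≤ N : e ∣ n + v} ≤
V.length * τ(m0) * (N/y + 1)` (`#{1 ≤ n ≤ N : e ∣ n + v} ≤ N/e + 1`, `e ≥ y ≥ 1`), and there are at most `τ(m0)` numbers `D`. (If `V = []` the indicator is `1`, `f = 1`, `y^0 = 1 ≤ Δ`; `D ∣ 1` only for `D = 1 ≤ Δ`; fine.)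
-/

namespace Pool.Agent.Lib.MP_42948a_nt.TH

open Finset Polynomial Pool.Agent.Lib.MP_42948a_nt.BU Pool.Agent.Lib.MP_42948a_nt.BU2

private theorem THD3_moebius (d n : ℕ) (hd : d ≠ 0) :
    ∑ e ∈ d.divisors with e ∣ n, ArithmeticFunction.moebius e = if n.Coprime d then (1 : ℤ) else 0 := by
  have h1 : d.divisors.filter (fun e => e ∣ n) = (n.gcd d).divisors := by
    ext e
    rw [mem_filter, Nat.mem_divisors, Nat.mem_divisors]
    constructor
    · rintro ⟨⟨h1, _⟩, h2⟩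
      exact ⟨Nat.dvd_gcd h2 h1, (Nat.gcd_pos_of_pos_right _ (Nat.pos_of_ne_zero hd)).ne'⟩
    · rintro ⟨h1, _⟩
      exact ⟨⟨h1.trans (Nat.gcd_dvd_right _ _), hd⟩, h1.trans (Nat.gcd_dvd_left _ _)⟩
  rw [h1, ← ArithmeticFunction.coe_mul_zeta_apply, ArithmeticFunction.moebius_mul_coe_zeta,
    ArithmeticFunction.one_apply]

private theorem THD3_list (m : ℤ) (L : List ℤ) :
    IsCoprime L.prod m ↔ ∀ x ∈ L, IsCoprime x m := by
  induction L with
  | nil =>
    rw [List.prod_nil]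
    exact ⟨fun _ x hx => absurd hx List.not_mem_nil, fun _ => isCoprime_one_left⟩
  | cons a l ih =>
    rw [List.prod_cons, IsCoprime.mul_left_iff, ih]
    constructor
    · rintro ⟨h1, h2⟩ x hx
      rcases List.mem_cons.1 hx with rfl | hx
      · exact h1
      · exact h2 x hx
    · intro h
      exact ⟨h a List.mem_cons_self, fun x hx => h x (List.mem_cons_of_mem _ hx)⟩

private theorem THD3_gcd (D : ℕ) (L : List ℤ) :
    D.gcd L.prod.natAbs ∣ (L.map (fun x => D.gcd x.natAbs)).prod := by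
  induction L with
  | nil =>
    rw [List.prod_nil, List.map_nil, List.prod_nil, Int.natAbs_one, Nat.gcd_one_right]
  | cons a l ih =>
    rw [List.prod_cons, List.map_cons, List.prod_cons, Int.natAbs_mul]
    exact (Nat.gcd_mul_right_dvd_mul_gcd D _ _).trans (mul_dvd_mul (dvd_refl _) ih)

private theorem THD3_pow (y : ℕ) (L : List ℕ) (h : ∀ x ∈ L, x ≤ y) : L.prod ≤ y ^ L.length := by
  induction L with
  | nil => exact le_of_eq (by rw [List.prod_nil, List.length_nil, pow_zero])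
  | cons a l ih =>
    rw [List.prod_cons, List.length_cons, pow_succ, mul_comm]
    exact Nat.mul_le_mul (ih fun x hx => h x (List.mem_cons_of_mem _ hx)) (h a List.mem_cons_self)

private theorem THD3_large (D y : ℕ) (V : List ℤ) (n : ℤ) (hD : 0 < D) (hyV : y ^ V.length < D)
    (h : (D : ℤ) ∣ (V.map (fun v => n + v)).prod) :
    ∃ v ∈ V, ∃ e : ℕ, e ∣ D ∧ y < e ∧ (e : ℤ) ∣ n + v := by
  by_contra hcon
  push Not at hcon
  have h1 : D.gcd (V.map (fun v => n + v)).prod.natAbs = D :=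
    Nat.gcd_eq_left (Int.natCast_dvd.1 h)
  have h2 := THD3_gcd D (V.map (fun v => n + v))
  rw [h1, List.map_map] at h2
  have h3 : ∀ x ∈ V.map ((fun x : ℤ => D.gcd x.natAbs) ∘ fun v => n + v), x ≤ y := by
    intro x hx
    obtain ⟨v, hv, rfl⟩ := List.mem_map.1 hx
    by_contra hlt
    push Not at hlt
    refine hcon v hv (D.gcd (n + v).natAbs) (Nat.gcd_dvd_left _ _) hlt ?_
    rw [Int.natCast_dvd]
    exact Nat.gcd_dvd_right _ _
  have h4 := THD3_pow y _ h3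
  rw [List.length_map] at h4
  have hpos : 0 < (V.map ((fun x : ℤ => D.gcd x.natAbs) ∘ fun v => n + v)).prod := by
    refine Nat.pos_of_ne_zero fun h0 => ?_
    rw [List.prod_eq_zero_iff] at h0
    obtain ⟨v, _, hv⟩ := List.mem_map.1 h0
    have h5 := Nat.gcd_pos_of_pos_left (n + v).natAbs hD
    exact h5.ne' hv
  exact absurd (Nat.le_of_dvd hpos h2) (by omega)

private theorem THD3_count (N e y : ℕ) (v : ℤ) (hy : 1 ≤ y) (he : y < e) :
    ((((Icc 1 N).filter (fun n : ℕ => (e : ℤ) ∣ (n : ℤ) + v)).card : ℕ) : ℝ) ≤ (N : ℝ) / y + 1 := by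
  have he0 : 0 < e := by omega
  have h1 : ((Icc 1 N).filter (fun n : ℕ => (e : ℤ) ∣ (n : ℤ) + v)).card ≤ (range (N / e + 1)).card := by
    refine Finset.card_le_card_of_injOn (fun n => n / e) ?_ ?_
    · intro n hn
      have hn' : n ∈ (Icc 1 N).filter (fun n : ℕ => (e : ℤ) ∣ (n : ℤ) + v) := hn
      rw [mem_filter, mem_Icc] at hn'
      have h2 : n / e ≤ N / e := Nat.div_le_div_right hn'.1.2
      exact Finset.mem_coe.2 (mem_range.2 (Nat.lt_succ_of_le h2))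
    · intro n hn n' hn' h
      have hn1 : n ∈ (Icc 1 N).filter (fun n : ℕ => (e : ℤ) ∣ (n : ℤ) + v) := hn
      have hn2 : n' ∈ (Icc 1 N).filter (fun n : ℕ => (e : ℤ) ∣ (n : ℤ) + v) := hn'
      rw [mem_filter] at hn1 hn2
      have h3 : (e : ℤ) ∣ (n : ℤ) - (n' : ℤ) := by
        have := dvd_sub hn1.2 hn2.2
        rwa [add_sub_add_right_eq_sub] at this
      have h4 : n % e = n' % e := by
        have h5 : (n' : ℤ) ≡ (n : ℤ) [ZMOD (e : ℤ)] := (Int.modEq_iff_dvd).2 h3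
        exact ((Int.natCast_modEq_iff).1 h5).symm
      have h6 : n / e = n' / e := h
      rw [← Nat.div_add_mod n e, ← Nat.div_add_mod n' e, h6, h4]
  rw [card_range] at h1
  have h2 : ((N / e : ℕ) : ℝ) ≤ (N : ℝ) / y := by
    have h3 : ((N / e : ℕ) : ℝ) ≤ (N : ℝ) / e := Nat.cast_div_le
    refine h3.trans ?_
    have hy0 : (0 : ℝ) < y := by exact_mod_cast hy
    have hye : (y : ℝ) ≤ e := by exact_mod_cast he.le
    exact div_le_div_of_nonneg_left (Nat.cast_nonneg _) hy0 hye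
  have h3 : ((((Icc 1 N).filter (fun n : ℕ => (e : ℤ) ∣ (n : ℤ) + v)).card : ℕ) : ℝ) ≤ ((N / e + 1 : ℕ) : ℝ) := by
    exact_mod_cast h1
  rw [Nat.cast_add, Nat.cast_one] at h3
  linarith

private theorem THD3_bigD (m0 N Δ y D : ℕ) (hm0 : 0 < m0) (V : List ℤ) (hy : 1 ≤ y) (hyV : y ^ V.length ≤ Δ)
    (hD : D ∈ m0.divisors) (hDΔ : Δ < D) :
    ((((Icc 1 N).filter (fun n : ℕ => (D : ℤ) ∣ (V.map (fun v => (n : ℤ) + v)).prod)).card : ℕ) : ℝ) ≤
      V.length * ((m0.divisors.card : ℝ) * ((N : ℝ) / y + 1)) := by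
  classical
  have hc : (0 : ℝ) ≤ (N : ℝ) / y + 1 := by positivity
  have hsub : (Icc 1 N).filter (fun n : ℕ => (D : ℤ) ∣ (V.map (fun v => (n : ℤ) + v)).prod) ⊆
      V.toFinset.biUnion (fun v => (m0.divisors.filter (fun e => y < e)).biUnion
        (fun e => (Icc 1 N).filter (fun n : ℕ => (e : ℤ) ∣ (n : ℤ) + v))) := by
    intro n hn
    rw [mem_filter] at hn
    obtain ⟨v, hv, e, he1, he2, he3⟩ := THD3_large D y V n (Nat.pos_of_mem_divisors hD)
      (lt_of_le_of_lt hyV hDΔ) hn.2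
    rw [mem_biUnion]
    refine ⟨v, List.mem_toFinset.2 hv, ?_⟩
    rw [mem_biUnion]
    refine ⟨e, ?_, ?_⟩
    · rw [mem_filter, Nat.mem_divisors]
      exact ⟨⟨he1.trans (Nat.dvd_of_mem_divisors hD), hm0.ne'⟩, he2⟩
    · rw [mem_filter]
      exact ⟨hn.1, he3⟩
  have h1 : ((((Icc 1 N).filter (fun n : ℕ => (D : ℤ) ∣ (V.map (fun v => (n : ℤ) + v)).prod)).card : ℕ) : ℝ) ≤
      ∑ v ∈ V.toFinset, ∑ e ∈ m0.divisors.filter (fun e => y < e),
        ((((Icc 1 N).filter (fun n : ℕ => (e : ℤ) ∣ (n : ℤ) + v)).card : ℕ) : ℝ) := by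
    have h2 := (Finset.card_le_card hsub).trans (Finset.card_biUnion_le.trans
      (Finset.sum_le_sum fun v _ => Finset.card_biUnion_le))
    exact_mod_cast h2
  refine h1.trans ?_
  have h2 : ∀ v ∈ V.toFinset, ∑ e ∈ m0.divisors.filter (fun e => y < e),
        ((((Icc 1 N).filter (fun n : ℕ => (e : ℤ) ∣ (n : ℤ) + v)).card : ℕ) : ℝ) ≤
      (m0.divisors.card : ℝ) * ((N : ℝ) / y + 1) := by
    intro v _
    have h3 : ∑ e ∈ m0.divisors.filter (fun e => y < e),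
        ((((Icc 1 N).filter (fun n : ℕ => (e : ℤ) ∣ (n : ℤ) + v)).card : ℕ) : ℝ) ≤
        ∑ e ∈ m0.divisors.filter (fun e => y < e), ((N : ℝ) / y + 1) := by
      refine Finset.sum_le_sum fun e he => ?_
      rw [mem_filter] at he
      exact THD3_count N e y v hy he.2
    refine h3.trans ?_
    rw [sum_const, nsmul_eq_mul]
    refine mul_le_mul_of_nonneg_right ?_ hc
    exact_mod_cast Finset.card_filter_le _ _
  refine (Finset.sum_le_sum h2).trans ?_
  rw [sum_const, nsmul_eq_mul]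
  refine mul_le_mul_of_nonneg_right ?_ (mul_nonneg (Nat.cast_nonneg _) hc)
  exact_mod_cast List.toFinset_card_le V

theorem sieve (m0 N Δ y : ℕ) (hm0 : 0 < m0) (V : List ℤ) (hy : 1 ≤ y) (hyV : y ^ V.length ≤ Δ) (Ψ : ℤ → ℂ)
    (hΨ : ∀ n, ‖Ψ n‖ ≤ 1) (I : ℤ → ℂ) (hI1 : ∀ n : ℤ, (∀ v ∈ V, IsCoprime (n + v) (m0 : ℤ)) → I n = 1)
    (hI0 : ∀ n : ℤ, (¬ ∀ v ∈ V, IsCoprime (n + v) (m0 : ℤ)) → I n = 0) :
    ‖SZ N (fun n => I n * Ψ n)‖ ≤
      ∑ D ∈ m0.divisors.filter (fun D => D ≤ Δ),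
        ‖SZ N (fun n => (if (D : ℤ) ∣ (V.map (fun v => n + v)).prod then 1 else 0) * Ψ n)‖ +
      (m0.divisors.card : ℝ) ^ 2 * V.length * ((N : ℝ) / y + 1) := by
  classical
  have hcop : ∀ n : ℤ, (V.map (fun v => n + v)).prod.natAbs.Coprime m0 ↔ ∀ v ∈ V, IsCoprime (n + v) (m0 : ℤ) := by
    intro n
    have e1 : (V.map (fun v => n + v)).prod.natAbs.Coprime m0 ↔ IsCoprime (V.map (fun v => n + v)).prod (m0 : ℤ) := by
      rw [Int.isCoprime_iff_gcd_eq_one, Int.gcd, Int.natAbs_natCast]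
    rw [e1, THD3_list]
    constructor
    · intro h v hv
      exact h _ (List.mem_map.2 ⟨v, hv, rfl⟩)
    · intro h x hx
      obtain ⟨v, hv, rfl⟩ := List.mem_map.1 hx
      exact h v hv
  have hI : ∀ n : ℤ, I n = ∑ D ∈ m0.divisors, ((ArithmeticFunction.moebius D : ℤ) : ℂ) *
      (if (D : ℤ) ∣ (V.map (fun v => n + v)).prod then 1 else 0) := by
    intro n
    have h1 := THD3_moebius m0 (V.map (fun v => n + v)).prod.natAbs hm0.ne'
    rw [Finset.sum_filter] at h1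
    have h2 : ∑ D ∈ m0.divisors, ((ArithmeticFunction.moebius D : ℤ) : ℂ) *
        (if (D : ℤ) ∣ (V.map (fun v => n + v)).prod then 1 else 0) =
        (((∑ a ∈ m0.divisors, if a ∣ (V.map (fun v => n + v)).prod.natAbs then ArithmeticFunction.moebius a else 0 : ℤ)) : ℂ) := by
      rw [Int.cast_sum]
      refine Finset.sum_congr rfl fun D _ => ?_
      by_cases h : (D : ℤ) ∣ (V.map (fun v => n + v)).prod
      · rw [if_pos h, if_pos (Int.natCast_dvd.1 h), mul_one]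
      · rw [if_neg h, if_neg (fun h' => h (Int.natCast_dvd.2 h')), mul_zero, Int.cast_zero]
    rw [h2, h1]
    by_cases h : ∀ v ∈ V, IsCoprime (n + v) (m0 : ℤ)
    · rw [if_pos ((hcop n).2 h), hI1 n h, Int.cast_one]
    · rw [if_neg (fun h' => h ((hcop n).1 h')), hI0 n h, Int.cast_zero]
  have hSZ : SZ N (fun n => I n * Ψ n) = ∑ D ∈ m0.divisors, ((ArithmeticFunction.moebius D : ℤ) : ℂ) *
      SZ N (fun n => (if (D : ℤ) ∣ (V.map (fun v => n + v)).prod then 1 else 0) * Ψ n) := by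
    unfold SZ
    have h1 : ∀ n ∈ Icc 1 N, I ((n : ℕ) : ℤ) * Ψ ((n : ℕ) : ℤ) = ∑ D ∈ m0.divisors,
        ((ArithmeticFunction.moebius D : ℤ) : ℂ) *
        ((if (D : ℤ) ∣ (V.map (fun v => ((n : ℕ) : ℤ) + v)).prod then 1 else 0) * Ψ ((n : ℕ) : ℤ)) := by
      intro n _
      rw [hI ((n : ℕ) : ℤ), Finset.sum_mul]
      exact Finset.sum_congr rfl fun D _ => by ring
    rw [Finset.sum_congr rfl h1, Finset.sum_comm]
    exact Finset.sum_congr rfl fun D _ => (Finset.mul_sum _ _ _).symm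
  have hmu : ∀ D : ℕ, ‖((ArithmeticFunction.moebius D : ℤ) : ℂ)‖ ≤ 1 := by
    intro D
    rw [Complex.norm_intCast]
    exact_mod_cast ArithmeticFunction.abs_moebius_le_one
  have hnorm : ‖SZ N (fun n => I n * Ψ n)‖ ≤ ∑ D ∈ m0.divisors,
      ‖SZ N (fun n => (if (D : ℤ) ∣ (V.map (fun v => n + v)).prod then 1 else 0) * Ψ n)‖ := by
    rw [hSZ]
    refine (norm_sum_le _ _).trans (Finset.sum_le_sum fun D _ => ?_)
    rw [norm_mul]
    exact mul_le_of_le_one_left (norm_nonneg _) (hmu D)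
  refine hnorm.trans ?_
  rw [← Finset.sum_filter_add_sum_filter_not m0.divisors (fun D => D ≤ Δ)]
  refine add_le_add le_rfl ?_
  have hc : (0 : ℝ) ≤ (N : ℝ) / y + 1 := by positivity
  have hone : ∀ D ∈ m0.divisors.filter (fun D => ¬ D ≤ Δ),
      ‖SZ N (fun n => (if (D : ℤ) ∣ (V.map (fun v => n + v)).prod then 1 else 0) * Ψ n)‖ ≤
        V.length * ((m0.divisors.card : ℝ) * ((N : ℝ) / y + 1)) := by
    intro D hD
    rw [mem_filter] at hD
    refine le_trans ?_ (THD3_bigD m0 N Δ y D hm0 V hy hyV hD.1 (not_le.1 hD.2))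
    unfold SZ
    refine (norm_sum_le _ _).trans ?_
    rw [Finset.card_filter, Nat.cast_sum]
    refine Finset.sum_le_sum fun n _ => ?_
    beta_reduce
    by_cases h : (D : ℤ) ∣ (V.map (fun v => ((n : ℕ) : ℤ) + v)).prod
    · rw [if_pos h, if_pos h, one_mul, Nat.cast_one]
      exact hΨ _
    · rw [if_neg h, if_neg h, zero_mul, norm_zero, Nat.cast_zero]
  refine (Finset.sum_le_sum hone).trans ?_
  rw [sum_const, nsmul_eq_mul]
  have h5 : (((m0.divisors.filter (fun D => ¬ D ≤ Δ)).card : ℕ) : ℝ) ≤ (m0.divisors.card : ℝ) := by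
    exact_mod_cast Finset.card_filter_le _ _
  calc (((m0.divisors.filter (fun D => ¬ D ≤ Δ)).card : ℕ) : ℝ) * (V.length * ((m0.divisors.card : ℝ) * ((N : ℝ) / y + 1)))
      ≤ (m0.divisors.card : ℝ) * (V.length * ((m0.divisors.card : ℝ) * ((N : ℝ) / y + 1))) :=
        mul_le_mul_of_nonneg_right h5 (by positivity)
    _ = (m0.divisors.card : ℝ) ^ 2 * V.length * ((N : ℝ) / y + 1) := by ring

end Pool.Agent.Lib.MP_42948a_nt.TH
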