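import Pool.Agent.Lib.MP_42948a_nt.TH.D4a
import Pool.Agent.Lib.MP_42948a_nt.TH.D3
import Pool.Agent.Lib.MP_42948a_nt.BU.CA

/-!
# The bound for fixed shifts (job D4)

`crt_char m0 m1` (`BU/CA.lean`): `χ n = χ0 n * χ1 n`, so `dvs ys (ch χ) = I * Ψ` (`dvs_mul`; `funext`) with `I = dvs ys (ch χ0)`, `Ψ = dvs ys (ch χ1)`. `V = VP ys ++ VM ys` (length `2^K`, `K = ys.length`: `length_VV`). `dvs_one`, `dvs_zero` (`m0 ∣ ys.prod`, `ys ≠ []`)
give the hypotheses on `I` in `sieve`. For `D ∣ m0`, `D ≤ Δ` (`D ≥ 1`, coprime to `m1`): `w n = if D ∣ ∏ (n + v) then 1 else 0` is `D`-periodic (congruences: `(n + D) + v ≡ n + v`, products of lists), `‖w‖ ≤ 1`; `per_D` for `χ1` bounds each term of the first sum of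
`sieve` by `(2 Δ H' + √(..)) wt q' T`, and there are at most `τ(m0)` of them; the second part of `sieve` is `τ(m0)^2 2^K (N/y + 1)`.
-/

namespace Pool.Agent.Lib.MP_42948a_nt.TH

open Finset Polynomial Pool.Agent.Lib.MP_42948a_nt.BU Pool.Agent.Lib.MP_42948a_nt.BU2

private theorem THD4_mod (D : ℕ) (n : ℤ) (V : List ℤ) :
    (V.map (fun v => n + D + v)).prod ≡ (V.map (fun v => n + v)).prod [ZMOD D] := by
  induction V with
  | nil => rfl
  | cons v V ih =>
    rw [List.map_cons, List.map_cons, List.prod_cons, List.prod_cons]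
    refine Int.ModEq.mul ?_ ih
    have h1 : n + D + v = n + v + D := by ring
    rw [h1]
    exact Int.add_modEq_right

private theorem THD4_dvd (D : ℕ) (n : ℤ) (V : List ℤ) :
    (D : ℤ) ∣ (V.map (fun v => n + D + v)).prod ↔ (D : ℤ) ∣ (V.map (fun v => n + v)).prod := by
  rw [← Int.modEq_zero_iff_dvd, ← Int.modEq_zero_iff_dvd]
  exact ⟨fun h => (THD4_mod D n V).symm.trans h, fun h => (THD4_mod D n V).trans h⟩

theorem fixed_bound (ys : List ℤ) (hys : ys ≠ []) (T : ℤ) (m0 m1 q' N H' Δ y : ℕ) [NeZero m0] [NeZero m1] [NeZero (m0 * m1)]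
    (hco : m0.Coprime m1) (hq'0 : 0 < q') (χ : DirichletCharacter ℂ (m0 * m1))
    (hp : ∀ p : ℕ, p.Prime → p ∣ m1 → (ys.length + 1) ^ (ys.length + 1) < p ∧ NT χ p)
    (hq' : ∀ p : ℕ, p.Prime → q'.factorization p = min (m1.factorization p) 2)
    (hm0 : (m0 : ℤ) ∣ ys.prod) (hm1 : (m1 : ℤ) ∣ (q' : ℤ) * ys.prod)
    (hT : ∀ p : ℕ, p.Prime → p ∣ m1 → ¬ (p : ℤ) ∣ T →
      ¬ (p : ℤ) ^ (m1.factorization p - q'.factorization p + 1) ∣ ys.prod)
    (hH : 1 ≤ H') (hy : 1 ≤ y) (hyΔ : y ^ 2 ^ ys.length ≤ Δ) :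
    ‖SZ N (dvs ys (ch χ))‖ ≤
      (m0.divisors.card : ℝ) * ((2 * Δ * H' + √((N : ℝ) * ((N : ℝ) / q' + 1) * ((q' : ℝ) / H' +
        2 * (((2 : ℝ) ^ (ys.length + 1)) ^ q'.primeFactors.card * √(q' : ℝ) * (q'.divisors.card : ℝ))))) * wt q' T) +
      (m0.divisors.card : ℝ) ^ 2 * 2 ^ ys.length * ((N : ℝ) / y + 1) := by
  classical
  obtain ⟨χ0, χ1, hmul, _, _, hNT⟩ := crt_char m0 m1 hco χ
  have hchi : ch χ = fun k => ch χ0 k * ch χ1 k := by
    funext k
    exact hmul k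
  have hsplit : dvs ys (ch χ) = fun n => dvs ys (ch χ0) n * dvs ys (ch χ1) n := by
    funext n
    rw [hchi]
    exact dvs_mul ys (ch χ0) (ch χ1) n
  obtain ⟨V, hV⟩ : ∃ V, V = VP ys ++ VM ys := ⟨_, rfl⟩
  have hVlen : V.length = 2 ^ ys.length := by
    rw [hV, List.length_append, length_VV]
  have hm0pos : 0 < m0 := Nat.pos_of_ne_zero (NeZero.ne m0)
  have hsv := sieve m0 N Δ y hm0pos V hy (by rw [hVlen]; exact hyΔ) (dvs ys (ch χ1))
    (fun n => dvs_norm ys _ (ch_norm χ1) n) (dvs ys (ch χ0))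
    (fun n hn => dvs_one χ0 ys hys hm0 n (by rw [← hV]; exact hn))
    (fun n hn => dvs_zero χ0 ys n (by rw [← hV]; exact hn))
  rw [hsplit]
  refine hsv.trans ?_
  obtain ⟨X, hX⟩ : ∃ X : ℝ, X = √((N : ℝ) * ((N : ℝ) / q' + 1) * ((q' : ℝ) / H' +
        2 * (((2 : ℝ) ^ (ys.length + 1)) ^ q'.primeFactors.card * √(q' : ℝ) *
          (q'.divisors.card : ℝ)))) := ⟨_, rfl⟩
  rw [← hX]
  have hX0 : 0 ≤ X := by rw [hX]; exact Real.sqrt_nonneg _
  have hw1 : 1 ≤ wt q' T := wt_ge_one q' T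
  have hΔH : (0 : ℝ) ≤ 2 * Δ * H' := by positivity
  refine add_le_add ?_ (le_of_eq ?_)
  · have hterm : ∀ D ∈ m0.divisors.filter (fun D => D ≤ Δ),
        ‖SZ N (fun n => (if (D : ℤ) ∣ (V.map (fun v => n + v)).prod then (1 : ℂ) else 0) *
          dvs ys (ch χ1) n)‖ ≤ (2 * Δ * H' + X) * wt q' T := by
      intro D hD
      rw [Finset.mem_filter] at hD
      have hDm : D ∣ m0 := Nat.dvd_of_mem_divisors hD.1
      have hD1 : 1 ≤ D := Nat.pos_of_dvd_of_pos hDm hm0pos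
      have hDco : D.Coprime m1 := Nat.Coprime.coprime_dvd_left hDm hco
      have h1 := per_D ys hys T m1 q' N H' D hD1 hDco hq'0 χ1
        (fun p hp1 hp2 => ⟨(hp p hp1 hp2).1, hNT p hp1 hp2 (hp p hp1 hp2).2⟩) hq' hm1 hT hH
        (fun n => if (D : ℤ) ∣ (V.map (fun v => n + v)).prod then (1 : ℂ) else 0)
        (fun n => by
          split_ifs
          · rw [norm_one]
          · rw [norm_zero]
            exact zero_le_one)
        (fun n => by
          simp only [THD4_dvd])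
      rw [← hX] at h1
      refine h1.trans (mul_le_mul_of_nonneg_right ?_ (zero_le_one.trans hw1))
      have h2 : (2 : ℝ) * D * H' ≤ 2 * Δ * H' := by
        have h3 : (D : ℝ) ≤ Δ := by exact_mod_cast hD.2
        have h4 : (0 : ℝ) ≤ H' := Nat.cast_nonneg _
        exact mul_le_mul_of_nonneg_right (by linarith) h4
      linarith
    refine (Finset.sum_le_sum hterm).trans ?_
    rw [Finset.sum_const, nsmul_eq_mul]
    refine mul_le_mul_of_nonneg_right ?_ (mul_nonneg (by linarith) (zero_le_one.trans hw1))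
    exact_mod_cast Finset.card_le_card (Finset.filter_subset _ _)
  · rw [hVlen]
    push_cast
    ring

end Pool.Agent.Lib.MP_42948a_nt.TH
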