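import Pool.Agent.Lib.MP_42948a_nt.TH.B4
import Pool.Agent.Lib.MP_42948a_nt.TH.C5
import Pool.Agent.Lib.MP_42948a_nt.TH.D1
import Pool.Agent.Lib.MP_42948a_nt.TH.D2

/-!
# The bound for a periodic weight (job D4a)

`K = ys.length ≥ 1`, `Ψ = dvs ys (ch χ)`. `dvs_period` (`m1 ∣ q' ys.prod`; `p ∣ m1 → p ∣ q'` since `v_p(q') = min (v_p m1) 2 ≥ 1`): `Ψ` has the period `q'`; `‖Ψ‖ ≤ 1` (`dvs_norm`, `ch_norm`). `q' ∣ m1` (factorizations), `m1 = (m1 / q') * q'`.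
For `σ ≥ 1` let `l = ys ++ [D σ]`: `dv (D σ) Ψ = dvs l (ch χ)` (`dvs_snoc`), it has the period `q'` (`dv` of a periodic function), so `CZ m1 (..) = (m1/q') CZ q' (..)` (`CZ_mul`) and by `CZ_global` for `l` (length `K + 1`) and `T σ` in place of `D`:
`‖CZ q' (dv (D σ) Ψ)‖ ≤ lb (2^(K+1)) q' (T σ)`. (Its hypothesis `hD`: a prime `p ∣ m1` with `p ∤ T σ` does not divide `σ`, nor `D` (coprime to `m1`), so if `p^(..)` divides `l.prod = ys.prod * (D σ)` it divides `ys.prod`, contradicting `hT`.)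
`lb_le` (`BU2/E.lean`) and `wt_mul'`: `≤ (2^(K+1))^ω √q' wt q' T wt q' σ`; the sum over `σ ∈ Ico 1 H'` is by `wt_Ico` (`q'` is cube-free by `hq'`) `≤ H' X0 wt q' T`, `X0 = (2^(K+1))^ω √q' τ(q')`.
`compl` with `X = X0 * wt q' T`, and `sqrt_wt`: `‖SZ N (w Ψ)‖ ≤ 2 D H' + √(N (N/q' + 1) (q'/H' + 2 X0)) wt q' T ≤ (2 D H' + √(..)) wt q' T` (`wt ≥ 1`).
-/

namespace Pool.Agent.Lib.MP_42948a_nt.TH

open Finset Polynomial Pool.Agent.Lib.MP_42948a_nt.BU Pool.Agent.Lib.MP_42948a_nt.BU2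

private theorem D4a_dvd (m1 q' : ℕ) [NeZero m1] (hq'0 : 0 < q')
    (hq' : ∀ p : ℕ, p.Prime → q'.factorization p = min (m1.factorization p) 2) : q' ∣ m1 := by
  rw [← Nat.factorization_prime_le_iff_dvd hq'0.ne' (NeZero.ne m1)]
  intro p hp
  rw [hq' p hp]
  exact min_le_left _ _

private theorem D4a_rad (m1 q' : ℕ) [NeZero m1]
    (hq' : ∀ p : ℕ, p.Prime → q'.factorization p = min (m1.factorization p) 2) (p : ℕ) (hp : p.Prime) (hpm : p ∣ m1) :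
    p ∣ q' := by
  have h1 : 1 ≤ m1.factorization p := (hp.dvd_iff_one_le_factorization (NeZero.ne m1)).1 hpm
  have h2 : 1 ≤ q'.factorization p := by
    rw [hq' p hp]
    exact le_min h1 (by norm_num)
  by_contra hcon
  rw [Nat.factorization_eq_zero_of_not_dvd hcon] at h2
  omega

private theorem D4a_cube (m1 q' : ℕ) (hq'0 : 0 < q')
    (hq' : ∀ p : ℕ, p.Prime → q'.factorization p = min (m1.factorization p) 2) (p : ℕ) (hp : p.Prime) :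
    ¬ p ^ 3 ∣ q' := by
  intro h
  have h1 := (hp.pow_dvd_iff_le_factorization hq'0.ne').1 h
  rw [hq' p hp] at h1
  have := min_le_right (m1.factorization p) 2
  omega

/-- the hypothesis of `CZ_global` -/
private theorem D4a_hD (ys : List ℤ) (T : ℤ) (m1 q' D s : ℕ) (hD : D.Coprime m1)
    (hT : ∀ p : ℕ, p.Prime → p ∣ m1 → ¬ (p : ℤ) ∣ T →
      ¬ (p : ℤ) ^ (m1.factorization p - q'.factorization p + 1) ∣ ys.prod) (p : ℕ) (hp : p.Prime) (hpm : p ∣ m1)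
    (hpT : ¬ (p : ℤ) ∣ T * ((s : ℕ) : ℤ)) :
    ¬ (p : ℤ) ^ (m1.factorization p - q'.factorization p + 1) ∣ (ys ++ [((D * s : ℕ) : ℤ)]).prod := by
  have hpi : Prime (p : ℤ) := Nat.prime_iff_prime_int.1 hp
  have h1 : ¬ (p : ℤ) ∣ T := fun h => hpT (Dvd.dvd.mul_right h _)
  have h2 : ¬ (p : ℤ) ∣ ((s : ℕ) : ℤ) := fun h => hpT (Dvd.dvd.mul_left h _)
  have h3 : ¬ (p : ℤ) ∣ ((D : ℕ) : ℤ) := by
    intro h
    have h' : p ∣ D := by exact_mod_cast h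
    have := Nat.dvd_gcd h' hpm
    rw [hD] at this
    exact hp.one_lt.ne' (Nat.dvd_one.1 this)
  have h4 : ¬ (p : ℤ) ∣ ((D * s : ℕ) : ℤ) := by
    push_cast
    intro h
    rcases hpi.dvd_or_dvd h with h | h
    · exact h3 h
    · exact h2 h
  intro h
  rw [List.prod_append, List.prod_singleton] at h
  have hc : IsCoprime ((p : ℤ) ^ (m1.factorization p - q'.factorization p + 1)) ((D * s : ℕ) : ℤ) :=
    IsCoprime.pow_left ((Prime.coprime_iff_not_dvd hpi).2 h4)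
  exact hT p hp hpm h1 (hc.dvd_of_dvd_mul_right h)

private theorem D4a_per_dv (q : ℕ) (x : ℤ) (F : ℤ → ℂ) (hF : Per q F) : Per q (dv x F) := by
  intro n
  unfold dv
  have h1 : n + (q : ℤ) + x = (n + x) + q := by ring
  rw [h1, hF n, hF (n + x)]

/-- the complete sum -/
private theorem D4a_CZ (ys : List ℤ) (T : ℤ) (m1 q' D s : ℕ) [NeZero m1] (hD : D.Coprime m1)
    (hq'0 : 0 < q') (χ : DirichletCharacter ℂ m1)
    (hp : ∀ p : ℕ, p.Prime → p ∣ m1 → (ys.length + 1) ^ (ys.length + 1) < p ∧ NT χ p)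
    (hq' : ∀ p : ℕ, p.Prime → q'.factorization p = min (m1.factorization p) 2)
    (hm1 : (m1 : ℤ) ∣ (q' : ℤ) * ys.prod)
    (hT : ∀ p : ℕ, p.Prime → p ∣ m1 → ¬ (p : ℤ) ∣ T →
      ¬ (p : ℤ) ^ (m1.factorization p - q'.factorization p + 1) ∣ ys.prod) :
    ‖CZ q' (dv ((D * s : ℕ) : ℤ) (dvs ys (ch χ)))‖ ≤
      (((2 : ℝ) ^ (ys.length + 1)) ^ q'.primeFactors.card * √(q' : ℝ)) * (wt q' T * wt q' ((s : ℕ) : ℤ)) := by
  have hlen : (ys ++ [((D * s : ℕ) : ℤ)]).length = ys.length + 1 := by simp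
  have hne : ys ++ [((D * s : ℕ) : ℤ)] ≠ [] := by simp
  have hper : Per q' (dvs ys (ch χ)) := dvs_period χ ys q' hm1 (fun p hpp hpm => D4a_rad m1 q' hq' p hpp hpm)
  have h1 := CZ_global (ys ++ [((D * s : ℕ) : ℤ)]) hne (T * ((s : ℕ) : ℤ)) m1 q' hq'0 χ
    (by rw [hlen]; exact hp) hq' (fun p hpp hpm hpT => D4a_hD ys T m1 q' D s hD hT p hpp hpm hpT)
  rw [dvs_snoc, hlen] at h1
  obtain ⟨k, hk⟩ := D4a_dvd m1 q' hq'0 hq'
  have hk' : m1 = k * q' := by rw [hk]; ring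
  have hperdv : Per q' (dv ((D * s : ℕ) : ℤ) (dvs ys (ch χ))) := D4a_per_dv q' _ _ hper
  have h2 : CZ m1 (dv ((D * s : ℕ) : ℤ) (dvs ys (ch χ))) = k * CZ q' (dv ((D * s : ℕ) : ℤ) (dvs ys (ch χ))) := by
    have h3 := CZ_mul k q' _ hperdv
    rw [← hk'] at h3
    exact h3
  rw [h2, norm_mul, Complex.norm_natCast] at h1
  have hm1pos : (0 : ℝ) < (m1 : ℝ) := by exact_mod_cast Nat.pos_of_ne_zero (NeZero.ne m1)
  have hmk : (m1 : ℝ) = q' * k := by exact_mod_cast hk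
  have h4 : (m1 : ℝ) * ‖CZ q' (dv ((D * s : ℕ) : ℤ) (dvs ys (ch χ)))‖ ≤
      m1 * lb (2 ^ (ys.length + 1)) q' (T * ((s : ℕ) : ℤ)) := by
    refine le_trans (le_of_eq ?_) h1
    rw [← mul_assoc]
    congr 1
  have h5 := le_of_mul_le_mul_left h4 hm1pos
  have hC : (1 : ℝ) ≤ 2 ^ (ys.length + 1) := one_le_pow₀ (by norm_num)
  refine h5.trans ((lb_le q' hq'0 _ _ hC).trans ?_)
  exact mul_le_mul_of_nonneg_left (wt_mul' q' T _) (by positivity)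

theorem per_D (ys : List ℤ) (hys : ys ≠ []) (T : ℤ) (m1 q' N H' D : ℕ) [NeZero m1] (hD1 : 1 ≤ D) (hD : D.Coprime m1)
    (hq'0 : 0 < q') (χ : DirichletCharacter ℂ m1)
    (hp : ∀ p : ℕ, p.Prime → p ∣ m1 → (ys.length + 1) ^ (ys.length + 1) < p ∧ NT χ p)
    (hq' : ∀ p : ℕ, p.Prime → q'.factorization p = min (m1.factorization p) 2)
    (hm1 : (m1 : ℤ) ∣ (q' : ℤ) * ys.prod)
    (hT : ∀ p : ℕ, p.Prime → p ∣ m1 → ¬ (p : ℤ) ∣ T →
      ¬ (p : ℤ) ^ (m1.factorization p - q'.factorization p + 1) ∣ ys.prod)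
    (hH : 1 ≤ H') (w : ℤ → ℂ) (hw : ∀ n, ‖w n‖ ≤ 1) (hwD : ∀ n, w (n + D) = w n) :
    ‖SZ N (fun n => w n * dvs ys (ch χ) n)‖ ≤
      (2 * D * H' + √((N : ℝ) * ((N : ℝ) / q' + 1) * ((q' : ℝ) / H' +
        2 * (((2 : ℝ) ^ (ys.length + 1)) ^ q'.primeFactors.card * √(q' : ℝ) * (q'.divisors.card : ℝ))))) * wt q' T := by
  have : NeZero q' := ⟨hq'0.ne'⟩
  have hper : Per q' (dvs ys (ch χ)) := dvs_period χ ys q' hm1 (fun p hpp hpm => D4a_rad m1 q' hq' p hpp hpm)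
  set C : ℝ := ((2 : ℝ) ^ (ys.length + 1)) ^ q'.primeFactors.card * √(q' : ℝ) with hCdef
  have hC0 : 0 ≤ C := by positivity
  have hwt1 : 1 ≤ wt q' T := wt_ge_one q' T
  have hwt0 : 0 ≤ wt q' T := by linarith
  have hX : ∑ σ ∈ Ico 1 H', ‖CZ q' (dv ((D * σ : ℕ) : ℤ) (dvs ys (ch χ)))‖ ≤
      H' * ((C * (q'.divisors.card : ℝ)) * wt q' T) := by
    calc ∑ σ ∈ Ico 1 H', ‖CZ q' (dv ((D * σ : ℕ) : ℤ) (dvs ys (ch χ)))‖
        ≤ ∑ σ ∈ Ico 1 H', C * (wt q' T * wt q' ((σ : ℕ) : ℤ)) :=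
          Finset.sum_le_sum fun σ _ => D4a_CZ ys T m1 q' D σ hD hq'0 χ hp hq' hm1 hT
      _ = (C * wt q' T) * ∑ σ ∈ Ico 1 H', wt q' ((σ : ℕ) : ℤ) := by
          rw [Finset.mul_sum]
          exact Finset.sum_congr rfl fun σ _ => by ring
      _ ≤ (C * wt q' T) * (H' * (q'.divisors.card : ℝ)) :=
          mul_le_mul_of_nonneg_left (wt_Ico q' H' hq'0 (fun p hpp => D4a_cube m1 q' hq'0 hq' p hpp))
            (mul_nonneg hC0 hwt0)
      _ = H' * ((C * (q'.divisors.card : ℝ)) * wt q' T) := by ring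
  have h1 := compl N D H' q' hH w (dvs ys (ch χ)) hw hwD (dvs_norm ys (ch χ) (ch_norm χ)) hper
    ((C * (q'.divisors.card : ℝ)) * wt q' T) hX
  have h2 := sqrt_wt ((q' : ℝ) / H') (2 * (C * (q'.divisors.card : ℝ))) ((N : ℝ) * ((N : ℝ) / q' + 1)) (wt q' T)
    (by positivity) (by positivity) (by positivity) hwt1
  have h3 : (2 : ℝ) * ((C * (q'.divisors.card : ℝ)) * wt q' T) = 2 * (C * (q'.divisors.card : ℝ)) * wt q' T := by ring
  rw [h3] at h1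
  have h4 : (2 : ℝ) * D * H' ≤ 2 * D * H' * wt q' T := le_mul_of_one_le_right (by positivity) hwt1
  rw [add_mul]
  linarith

end Pool.Agent.Lib.MP_42948a_nt.TH
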