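import Pool.Agent.Lib.MP_42948a_nt.BU2.Defs

/-!
# A bound for character sums of length `d ^ (1/3 + ..)`, every modulus: definitions

Library `TH`. `NT`, `CS`, `Dl`, `Tup`, `nu`, `TS` are defined in `BU/Defs.lean`, `wt`, `lb` in `BU2/Defs.lean`.
-/

namespace Pool.Agent.Lib.MP_42948a_nt.TH

open Finset Polynomial Pool.Agent.Lib.MP_42948a_nt.BU Pool.Agent.Lib.MP_42948a_nt.BU2

/-- the sums of the sublists with an even (first component) and with an odd (second component) number of terms -/
def VV {A : Type*} [AddCommMonoid A] : List A → List A × List A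
  | [] => ([0], [])
  | x :: l => ((VV l).1 ++ (VV l).2.map (fun v => x + v), (VV l).2 ++ (VV l).1.map (fun v => x + v))

/-- the even vertices of the cube -/
def VP {A : Type*} [AddCommMonoid A] (l : List A) : List A := (VV l).1

/-- the odd vertices of the cube -/
def VM {A : Type*} [AddCommMonoid A] (l : List A) : List A := (VV l).2

theorem VP_nil {A : Type*} [AddCommMonoid A] : VP ([] : List A) = [0] := rfl

theorem VM_nil {A : Type*} [AddCommMonoid A] : VM ([] : List A) = [] := rfl

theorem VP_cons {A : Type*} [AddCommMonoid A] (x : A) (l : List A) :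
    VP (x :: l) = VP l ++ (VM l).map (fun v => x + v) := rfl

theorem VM_cons {A : Type*} [AddCommMonoid A] (x : A) (l : List A) :
    VM (x :: l) = VM l ++ (VP l).map (fun v => x + v) := rfl

/-- one differencing step -/
noncomputable def dv (x : ℤ) (F : ℤ → ℂ) (n : ℤ) : ℂ := F n * (starRingEnd ℂ) (F (n + x))

/-- several differencing steps -/
noncomputable def dvs : List ℤ → (ℤ → ℂ) → (ℤ → ℂ)
  | [], F => F
  | x :: l, F => dvs l (dv x F)

/-- the sum over `1 ≤ n ≤ N` -/
noncomputable def SZ (N : ℕ) (F : ℤ → ℂ) : ℂ := ∑ n ∈ Icc 1 N, F ((n : ℕ) : ℤ)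

/-- the sum over `0 ≤ n < q` -/
noncomputable def CZ (q : ℕ) (F : ℤ → ℂ) : ℂ := ∑ n ∈ range q, F ((n : ℕ) : ℤ)

/-- `F` has the period `q` -/
def Per (q : ℕ) (F : ℤ → ℂ) : Prop := ∀ n : ℤ, F (n + q) = F n

/-- a Dirichlet character as a function on `ℤ` -/
noncomputable def ch {q : ℕ} (χ : DirichletCharacter ℂ q) (n : ℤ) : ℂ := χ ((n : ℤ) : ZMod q)

/-- the product of `n + v` over the even vertices -/
def AV (l : List ℤ) (n : ℤ) : ℤ := ((VP l).map (fun v => n + v)).prod

/-- the product of `n + v` over the odd vertices -/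
def BV (l : List ℤ) (n : ℤ) : ℤ := ((VM l).map (fun v => n + v)).prod

/-- the polynomial of the even vertices -/
noncomputable def PA (l : List ℤ) : ℤ[X] := ((VP l).map (fun v => (X + C v : ℤ[X]))).prod

/-- the polynomial of the odd vertices -/
noncomputable def PB (l : List ℤ) : ℤ[X] := ((VM l).map (fun v => (X + C v : ℤ[X]))).prod

/-- the shifts `g h` -/
def yy (gs hs : List ℕ) : List ℤ := List.zipWith (fun g h => ((g * h : ℕ) : ℤ)) gs hs

/-- the constants in the iterated van der Corput inequality -/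
def CV : ℕ → ℝ
  | 0 => 1
  | k + 1 => 24 ^ (2 ^ k) * CV k

/-- the radical -/
def rad (q : ℕ) : ℕ := ∏ p ∈ q.primeFactors, p

end Pool.Agent.Lib.MP_42948a_nt.TH
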