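import Pool.Agent.Lib.MP_42948a_nt.TH.Defs

/-!
# The cube-full part (job F0)

`e` is the product of the `p ^ (q.factorization p)` over the prime factors `p` of `q` with `3 ≤ q.factorization p`, `r` the product over the other ones; compare `modulus_split'` in `BU2/L.lean` (copy).
`cube_prime_le`: a prime `p` with `2 ≤ v_p(q)`: if `v_p = 2` then `p ∤ e`, so `p^2 e ∣ q` (coprime divisors) and `p^2 ≤ q/e ≤ q^(2/3)`; if `v_p ≥ 3` then `p^3 ≤ q`. `small_part`: the product of the primes `p` with `v_p(q) = 1` divides `r`.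
-/

namespace Pool.Agent.Lib.MP_42948a_nt.TH

open Finset Polynomial Pool.Agent.Lib.MP_42948a_nt.BU Pool.Agent.Lib.MP_42948a_nt.BU2

theorem split_cube (q : ℕ) (hq : 0 < q) :
    ∃ e r : ℕ, q = e * r ∧ 0 < e ∧ 0 < r ∧ e.Coprime r ∧ (∀ p : ℕ, p.Prime → ¬ p ^ 3 ∣ r) ∧
      (∀ p : ℕ, p.Prime → p ∣ e → p ^ 3 ∣ e) := by
  classical
  set P0 : Finset ℕ := q.primeFactors.filter (fun p => 3 ≤ q.factorization p) with hP0
  set P1 : Finset ℕ := q.primeFactors.filter (fun p => ¬ 3 ≤ q.factorization p) with hP1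
  have hpr0 : ∀ p ∈ P0, p.Prime := fun p hp => Nat.prime_of_mem_primeFactors (Finset.mem_filter.1 hp).1
  have hpr1 : ∀ p ∈ P1, p.Prime := fun p hp => Nat.prime_of_mem_primeFactors (Finset.mem_filter.1 hp).1
  have hprod : q = (∏ p ∈ P0, p ^ q.factorization p) * ∏ p ∈ P1, p ^ q.factorization p := by
    have h1 := Nat.prod_factorization_pow_eq_self hq.ne'
    rw [Finsupp.prod, Nat.support_factorization] at h1
    rw [hP0, hP1, Finset.prod_filter_mul_prod_filter_not]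
    exact h1.symm
  refine ⟨∏ p ∈ P0, p ^ q.factorization p, ∏ p ∈ P1, p ^ q.factorization p, hprod, ?_, ?_, ?_, ?_, ?_⟩
  · exact Finset.prod_pos fun p hp => pow_pos (hpr0 p hp).pos _
  · exact Finset.prod_pos fun p hp => pow_pos (hpr1 p hp).pos _
  · refine Nat.Coprime.prod_left fun p hp => Nat.Coprime.prod_right fun r hr => ?_
    refine Nat.coprime_pow_primes _ _ (hpr0 p hp) (hpr1 r hr) ?_
    rintro rfl
    exact (Finset.mem_filter.1 hr).2 (Finset.mem_filter.1 hp).2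
  · intro p hp h3
    have h4 : p ∣ ∏ r ∈ P1, r ^ q.factorization r := (dvd_pow_self p (by norm_num)).trans h3
    obtain ⟨r, hr, hpr⟩ := (hp.prime.dvd_finsetProd_iff _).1 h4
    have h5 : p = r := (Nat.prime_dvd_prime_iff_eq hp (hpr1 r hr)).1 (hp.dvd_of_dvd_pow hpr)
    subst h5
    have h6 : p ^ 3 ∣ q := h3.trans (Dvd.intro_left _ hprod.symm)
    exact (Finset.mem_filter.1 hr).2 ((hp.pow_dvd_iff_le_factorization hq.ne').1 h6)
  · intro p hp h4
    obtain ⟨r, hr, hpr⟩ := (hp.prime.dvd_finsetProd_iff _).1 h4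
    have h5 : p = r := (Nat.prime_dvd_prime_iff_eq hp (hpr0 r hr)).1 (hp.dvd_of_dvd_pow hpr)
    subst h5
    have h6 : 3 ≤ q.factorization p := (Finset.mem_filter.1 hr).2
    exact (pow_dvd_pow p h6).trans (Finset.dvd_prod_of_mem (fun p => p ^ q.factorization p) hr)

private theorem F0_r_le (q e r : ℕ) (hq : 0 < q) (h : q = e * r)
    (hbig : (q : ℝ) ^ (1 / 3 : ℝ) < e) : (r : ℝ) ≤ (q : ℝ) ^ (2 / 3 : ℝ) := by
  have hq' : (0 : ℝ) < q := by exact_mod_cast hq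
  have h1 : (0 : ℝ) < (q : ℝ) ^ (1 / 3 : ℝ) := Real.rpow_pos_of_pos hq' _
  have h2 : (q : ℝ) ^ (1 / 3 : ℝ) * (q : ℝ) ^ (2 / 3 : ℝ) = q := by
    rw [← Real.rpow_add hq']
    norm_num
  have h3 : (q : ℝ) = e * r := by exact_mod_cast h
  have h4 : (q : ℝ) ^ (1 / 3 : ℝ) * r ≤ (q : ℝ) ^ (1 / 3 : ℝ) * (q : ℝ) ^ (2 / 3 : ℝ) := by
    rw [h2]
    calc (q : ℝ) ^ (1 / 3 : ℝ) * r ≤ e * r := mul_le_mul_of_nonneg_right hbig.le (Nat.cast_nonneg r)
      _ = q := h3.symm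
  exact le_of_mul_le_mul_left h4 h1

private theorem F0_not_dvd (q e r : ℕ) (hq : 0 < q) (h : q = e * r)
    (he : ∀ p : ℕ, p.Prime → p ∣ e → p ^ 3 ∣ e) (p : ℕ) (hp : p.Prime) (hv : q.factorization p < 3) :
    ¬ p ∣ e := by
  intro hpe
  have h1 : p ^ 3 ∣ q := (he p hp hpe).trans ⟨r, h⟩
  have h2 := (hp.pow_dvd_iff_le_factorization hq.ne').1 h1
  omega

theorem cube_prime_le (q e r : ℕ) (hq : 0 < q) (h : q = e * r) (hco : e.Coprime r)
    (he : ∀ p : ℕ, p.Prime → p ∣ e → p ^ 3 ∣ e) (hbig : (q : ℝ) ^ (1 / 3 : ℝ) < e) (p : ℕ) (hp : p.Prime)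
    (hv : 2 ≤ q.factorization p) : (p : ℝ) ≤ (q : ℝ) ^ (1 / 3 : ℝ) := by
  have hq' : (0 : ℝ) < q := by exact_mod_cast hq
  have h1 : (0 : ℝ) < (q : ℝ) ^ (1 / 3 : ℝ) := Real.rpow_pos_of_pos hq' _
  by_cases h3 : q.factorization p < 3
  · have hpe := F0_not_dvd q e r hq h he p hp h3
    have h4 : p ^ 2 ∣ q := (hp.pow_dvd_iff_le_factorization hq.ne').2 hv
    have h5 : (p ^ 2).Coprime e := Nat.Coprime.pow_left 2 ((Nat.Prime.coprime_iff_not_dvd hp).2 hpe)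
    have h6 : p ^ 2 ∣ r := by
      rw [h] at h4
      exact h5.dvd_of_dvd_mul_left h4
    have hr0 : 0 < r := by
      rcases Nat.eq_zero_or_pos r with hr | hr
      · rw [hr, mul_zero] at h; omega
      · exact hr
    have h7 : ((p ^ 2 : ℕ) : ℝ) ≤ r := by exact_mod_cast Nat.le_of_dvd hr0 h6
    have h8 : ((p : ℝ)) ^ 2 ≤ ((q : ℝ) ^ (1 / 3 : ℝ)) ^ 2 := by
      have h9 := F0_r_le q e r hq h hbig
      have h10 : ((q : ℝ) ^ (1 / 3 : ℝ)) ^ 2 = (q : ℝ) ^ (2 / 3 : ℝ) := by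
        rw [← Real.rpow_natCast, ← Real.rpow_mul hq'.le]
        norm_num
      rw [h10]
      push_cast at h7
      exact h7.trans h9
    exact le_of_sq_le_sq h8 h1.le
  · have h4 : p ^ 3 ∣ q := (hp.pow_dvd_iff_le_factorization hq.ne').2 (by omega)
    have h5 : ((p ^ 3 : ℕ) : ℝ) ≤ q := by exact_mod_cast Nat.le_of_dvd hq h4
    have h6 : (p : ℝ) ^ 3 ≤ ((q : ℝ) ^ (1 / 3 : ℝ)) ^ 3 := by
      have h10 : ((q : ℝ) ^ (1 / 3 : ℝ)) ^ 3 = (q : ℝ) := by
        rw [← Real.rpow_natCast, ← Real.rpow_mul hq'.le]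
        norm_num
      rw [h10]
      exact_mod_cast h5
    exact le_of_pow_le_pow_left₀ (by norm_num) h1.le h6

theorem small_part (q e r : ℕ) (hq : 0 < q) (h : q = e * r) (hco : e.Coprime r)
    (he : ∀ p : ℕ, p.Prime → p ∣ e → p ^ 3 ∣ e) (hbig : (q : ℝ) ^ (1 / 3 : ℝ) < e) :
    ((∏ p ∈ q.primeFactors.filter (fun p => q.factorization p = 1), p : ℕ) : ℝ) ≤ (q : ℝ) ^ (2 / 3 : ℝ) := by
  have hr0 : 0 < r := by
    rcases Nat.eq_zero_or_pos r with hr | hr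
    · rw [hr, mul_zero] at h; omega
    · exact hr
  have h1 : (∏ p ∈ q.primeFactors.filter (fun p => q.factorization p = 1), p) ∣ r := by
    refine Finset.prod_primes_dvd r ?_ ?_
    · intro p hp
      exact (Nat.prime_of_mem_primeFactors (Finset.mem_filter.1 hp).1).prime
    · intro p hp
      have hp1 := Finset.mem_filter.1 hp
      have hpp := Nat.prime_of_mem_primeFactors hp1.1
      have hpe := F0_not_dvd q e r hq h he p hpp (by omega)
      have hpq : p ∣ e * r := by rw [← h]; exact Nat.dvd_of_mem_primeFactors hp1.1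
      exact (hpp.dvd_mul.1 hpq).resolve_left hpe
  have h2 : ((∏ p ∈ q.primeFactors.filter (fun p => q.factorization p = 1), p : ℕ) : ℝ) ≤ r := by
    exact_mod_cast Nat.le_of_dvd hr0 h1
  exact h2.trans (F0_r_le q e r hq h hbig)

end Pool.Agent.Lib.MP_42948a_nt.TH
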