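import Pool.Agent.Lib.MP_42948a_nt.TH.Defs

/-!
# Five blocks (job F1)

Induction on the number of prime factors of `G` (`Nat.recOnMul` or strong induction: `G = p G'`). `G = 1`: five ones. `G = p G'`: the induction hypothesis gives `g1, .., g5` for `G'` (`G' ≤ G ≤ X^3`). The six numbers `p, g1, .., g5` have product `G ≤ X^3`, so one of
`p g1`, `g2 g3`, `g4 g5` is `≤ X` (otherwise the product is `> X^3`), and multiplying this pair gives five numbers `≤ X` (`1 ≤ X`, `p ≤ X`).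
-/

namespace Pool.Agent.Lib.MP_42948a_nt.TH

open Finset Polynomial Pool.Agent.Lib.MP_42948a_nt.BU Pool.Agent.Lib.MP_42948a_nt.BU2

theorem THF1_aux (X : ℝ) (hX : 1 ≤ X) (G : ℕ) :
    0 < G → (∀ p : ℕ, p.Prime → p ∣ G → (p : ℝ) ≤ X) → (G : ℝ) ≤ X ^ 3 →
      ∃ a b c d e : ℕ, a * b * c * d * e = G ∧ (1 ≤ a ∧ (a : ℝ) ≤ X) ∧ (1 ≤ b ∧ (b : ℝ) ≤ X) ∧
        (1 ≤ c ∧ (c : ℝ) ≤ X) ∧ (1 ≤ d ∧ (d : ℝ) ≤ X) ∧ (1 ≤ e ∧ (e : ℝ) ≤ X) := by
  induction G using Nat.strong_induction_on with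
  | _ G ih =>
    intro hG hp hGX
    by_cases h1 : G = 1
    · have h11 : (1 ≤ 1 ∧ ((1 : ℕ) : ℝ) ≤ X) := ⟨le_rfl, by rw [Nat.cast_one]; exact hX⟩
      exact ⟨1, 1, 1, 1, 1, by rw [h1], h11, h11, h11, h11, h11⟩
    · have hpp := Nat.minFac_prime h1
      obtain ⟨G', hG'⟩ := Nat.minFac_dvd G
      have hpX := hp _ hpp (Nat.minFac_dvd G)
      generalize G.minFac = p at hpp hG' hpX
      have hG'0 : 0 < G' := by
        rcases Nat.eq_zero_or_pos G' with h | h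
        · rw [h, mul_zero] at hG'
          omega
        · exact h
      have hlt : G' < G := by
        rw [hG']
        exact lt_mul_of_one_lt_left hG'0 hpp.one_lt
      have hle : (G' : ℝ) ≤ X ^ 3 := le_trans (by exact_mod_cast hlt.le) hGX
      obtain ⟨a, b, c, d, e, hprod, ⟨ha1, haX⟩, ⟨hb1, hbX⟩, ⟨hc1, hcX⟩, ⟨hd1, hdX⟩, ⟨he1, heX⟩⟩ :=
        ih G' hlt hG'0 (fun q hq hqG => hp q hq (hG' ▸ hqG.mul_left p)) hle
      have hp1 : 1 ≤ p := hpp.one_lt.le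
      by_cases c1 : ((p * a : ℕ) : ℝ) ≤ X
      · exact ⟨p * a, b, c, d, e, by rw [hG', ← hprod]; ring, ⟨Nat.mul_pos hp1 ha1, c1⟩, ⟨hb1, hbX⟩, ⟨hc1, hcX⟩,
          ⟨hd1, hdX⟩, ⟨he1, heX⟩⟩
      · by_cases c2 : ((b * c : ℕ) : ℝ) ≤ X
        · exact ⟨p, a, b * c, d, e, by rw [hG', ← hprod]; ring, ⟨hp1, hpX⟩, ⟨ha1, haX⟩, ⟨Nat.mul_pos hb1 hc1, c2⟩,
            ⟨hd1, hdX⟩, ⟨he1, heX⟩⟩
        · by_cases c3 : ((d * e : ℕ) : ℝ) ≤ X
          · exact ⟨p, a, b, c, d * e, by rw [hG', ← hprod]; ring, ⟨hp1, hpX⟩, ⟨ha1, haX⟩, ⟨hb1, hbX⟩,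
              ⟨hc1, hcX⟩, ⟨Nat.mul_pos hd1 he1, c3⟩⟩
          · exfalso
            push Not at c1 c2 c3
            have hX0 : 0 < X := by linarith
            have h2 : X * X < ((p * a : ℕ) : ℝ) * ((b * c : ℕ) : ℝ) := mul_lt_mul'' c1 c2 hX0.le hX0.le
            have h3 : X * X * X < ((p * a : ℕ) : ℝ) * ((b * c : ℕ) : ℝ) * ((d * e : ℕ) : ℝ) :=
              mul_lt_mul'' h2 c3 (mul_pos hX0 hX0).le hX0.le
            have h4 : ((p * a : ℕ) : ℝ) * ((b * c : ℕ) : ℝ) * ((d * e : ℕ) : ℝ) = (G : ℝ) := by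
              rw [hG', ← hprod]
              push_cast
              ring
            rw [h4] at h3
            have h5 : X * X * X = X ^ 3 := by ring
            linarith

theorem blocks (X : ℝ) (hX : 1 ≤ X) (G : ℕ) (hG : 0 < G) (hp : ∀ p : ℕ, p.Prime → p ∣ G → (p : ℝ) ≤ X)
    (hGX : (G : ℝ) ≤ X ^ 3) :
    ∃ gs : List ℕ, gs.length = 5 ∧ gs.prod = G ∧ ∀ g ∈ gs, 1 ≤ g ∧ (g : ℝ) ≤ X := by
  obtain ⟨a, b, c, d, e, hprod, ha, hb, hc, hd, he⟩ := THF1_aux X hX G hG hp hGX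
  refine ⟨[a, b, c, d, e], rfl, ?_, ?_⟩
  · simp only [List.prod_cons, List.prod_nil, mul_one]
    rw [← hprod]
    ring
  · intro g hg
    simp only [List.mem_cons, List.not_mem_nil, or_false] at hg
    rcases hg with h | h | h | h | h
    · rw [h]; exact ha
    · rw [h]; exact hb
    · rw [h]; exact hc
    · rw [h]; exact hd
    · rw [h]; exact he

end Pool.Agent.Lib.MP_42948a_nt.TH
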