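import Pool.Agent.Lib.MP_42948a_nt.TH.Defs

/-!
# Splitting the modulus along a set of primes (job F2a)

`m1 = ∏_{p ∈ S} p^(v_p q)`, `m0 = ∏_{p ∈ q.primeFactors \ S} p^(v_p q)`, `q' = ∏_{p ∈ S} p^(min (v_p q) 2)`. `m0 m1 = q` (`Nat.prod_factorization_pow_eq_self`, `Finset.prod_sdiff`), coprime (`Nat.Coprime.prod_left/right`, distinct primes); a prime divides such a
product iff it belongs to the set (`v_p q ≥ 1`); `v_p(m1) = v_p(q)` for `p ∈ S` and `0` otherwise, `v_p(q') = min (v_p q) 2` for `p ∈ S`, `0` otherwise (`Nat.factorization_prod`, `Nat.Prime.factorization_pow`); compare `modulus_split'` in `BU2/L.lean`.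
`q' ∣ m1`: `Finset.prod_dvd_prod_of_dvd` (`min v 2 ≤ v`).
-/

namespace Pool.Agent.Lib.MP_42948a_nt.TH

open Finset Polynomial Pool.Agent.Lib.MP_42948a_nt.BU Pool.Agent.Lib.MP_42948a_nt.BU2

theorem THF2a_fac (S : Finset ℕ) (hS : ∀ p ∈ S, p.Prime) (f : ℕ → ℕ) (r : ℕ) (hr : r.Prime) :
    (∏ p ∈ S, p ^ f p).factorization r = if r ∈ S then f r else 0 := by
  have h0 : ∀ p ∈ S, p ^ f p ≠ 0 := fun p hp => pow_ne_zero _ (hS p hp).ne_zero
  rw [Nat.factorization_prod h0, Finsupp.finsetSum_apply]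
  have h1 : ∀ p ∈ S, (p ^ f p).factorization r = if r = p then f r else 0 := by
    intro p hp
    rw [(hS p hp).factorization_pow, Finsupp.single_apply]
    by_cases h : p = r
    · rw [if_pos h, if_pos h.symm, h]
    · rw [if_neg h, if_neg (fun h' => h h'.symm)]
  rw [Finset.sum_congr rfl h1, Finset.sum_ite_eq]

theorem THF2a_dvd (S : Finset ℕ) (hS : ∀ p ∈ S, p.Prime) (f : ℕ → ℕ) (r : ℕ) (hr : r.Prime)
    (h : r ∣ ∏ p ∈ S, p ^ f p) : r ∈ S := by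
  obtain ⟨p, hp, hrp⟩ := (Prime.dvd_finsetProd_iff hr.prime _).1 h
  have h1 := hr.dvd_of_dvd_pow hrp
  rw [(Nat.prime_dvd_prime_iff_eq hr (hS p hp)).1 h1]
  exact hp

theorem build (q : ℕ) (hq : 0 < q) (S : Finset ℕ) (hS : S ⊆ q.primeFactors) :
    ∃ m0 m1 q' : ℕ, q = m0 * m1 ∧ 0 < m0 ∧ 0 < m1 ∧ 0 < q' ∧ m0.Coprime m1 ∧ q' ∣ m1 ∧
      (∀ p : ℕ, p.Prime → p ∣ m1 → p ∈ S) ∧ (∀ p : ℕ, p.Prime → p ∣ m0 → p ∈ q.primeFactors ∧ p ∉ S) ∧
      (∀ p ∈ S, m1.factorization p = q.factorization p) ∧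
      (∀ p : ℕ, p.Prime → q'.factorization p = min (m1.factorization p) 2) ∧
      q' = ∏ p ∈ S, p ^ min (q.factorization p) 2 := by
  have hSp : ∀ p ∈ S, p.Prime := fun p hp => Nat.prime_of_mem_primeFactors (hS hp)
  have hTp : ∀ p ∈ q.primeFactors \ S, p.Prime := fun p hp =>
    Nat.prime_of_mem_primeFactors (Finset.mem_sdiff.1 hp).1
  have hm0 : 0 < ∏ p ∈ q.primeFactors \ S, p ^ q.factorization p :=
    Finset.prod_pos fun p hp => Nat.pow_pos (hTp p hp).pos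
  have hm1 : 0 < ∏ p ∈ S, p ^ q.factorization p := Finset.prod_pos fun p hp => Nat.pow_pos (hSp p hp).pos
  have hq' : 0 < ∏ p ∈ S, p ^ min (q.factorization p) 2 :=
    Finset.prod_pos fun p hp => Nat.pow_pos (hSp p hp).pos
  refine ⟨∏ p ∈ q.primeFactors \ S, p ^ q.factorization p, ∏ p ∈ S, p ^ q.factorization p,
    ∏ p ∈ S, p ^ min (q.factorization p) 2, ?_, hm0, hm1, hq', ?_, ?_, ?_, ?_, ?_, ?_, rfl⟩
  · rw [Finset.prod_sdiff hS]
    exact (Nat.prod_factorization_pow_eq_self hq.ne').symm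
  · refine Nat.coprime_of_dvd fun r hr h0 h1 => ?_
    have h2 := THF2a_dvd _ hTp _ r hr h0
    have h3 := THF2a_dvd _ hSp _ r hr h1
    exact (Finset.mem_sdiff.1 h2).2 h3
  · exact Finset.prod_dvd_prod_of_dvd _ _ fun p _ => pow_dvd_pow p (min_le_left _ _)
  · intro r hr h
    exact THF2a_dvd _ hSp _ r hr h
  · intro r hr h
    exact Finset.mem_sdiff.1 (THF2a_dvd _ hTp _ r hr h)
  · intro r hr
    rw [THF2a_fac S hSp _ r (hSp r hr), if_pos hr]
  · intro r hr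
    rw [THF2a_fac S hSp _ r hr, THF2a_fac S hSp _ r hr]
    by_cases h : r ∈ S
    · rw [if_pos h, if_pos h]
    · rw [if_neg h, if_neg h]
      rfl

end Pool.Agent.Lib.MP_42948a_nt.TH
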