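import Pool.Agent.Lib.MP_42948a_nt.TH.F0
import Pool.Agent.Lib.MP_42948a_nt.TH.F2a

/-!
# The window (job F2)

`q` large, `q = e r` as in `split_cube`, `e > q^(1/3)`. For a set `S` of prime factors of `q` let `Q(S) = ∏_{p ∈ S} p^(min (v_p q) 2)`. Let `S1` be the set of prime factors `p > P0` with `v_p(q) = 1`, `S2` the set of the `p > P0` with `v_p(q) ≥ 2`.
* If `Q(S1 ∪ S2) < q^η`: `rad q ≤ (∏_{p ∣ q, p ≤ P0} p) * Q(S1 ∪ S2) ≤ P0^P0 q^η ≤ q^(2 η)` for large `q` (first alternative). (If `P0 = 0` the first product is empty.)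
* Otherwise choose `T ⊆ S2` of minimal cardinality with `Q(S1 ∪ T) ≥ q^η` (`Nat.find` or `Finset.exists_min_image` on the filtered powerset). If `T = ∅`: `Q(S1) = ∏ p ≤ q^(2/3)` (`small_part`: a product over a subset, factors `≥ 1`). If `p ∈ T`:
  `Q(S1 ∪ T) = Q(S1 ∪ (T.erase p)) * p^2 < q^η q^(2/3)` (minimality; `p ≤ q^(1/3)` by `cube_prime_le`). Let `S = S1 ∪ T` and apply `build`. A prime `p ∣ m0 * (m1 / q')`: if `p ∣ m0` then `p ∣ q`, `p ∉ S`, so `p ≤ P0 ≤ q^(1/3)` (for large `q`) or `v_p(q) ≥ 2` and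
  `p ≤ q^(1/3)` (`cube_prime_le`); if `p ∣ m1/q'` then `v_p(m1) > min (v_p m1) 2`, so `v_p(q) = v_p(m1) ≥ 3`, the same.
-/

namespace Pool.Agent.Lib.MP_42948a_nt.TH

open Finset Polynomial Pool.Agent.Lib.MP_42948a_nt.BU Pool.Agent.Lib.MP_42948a_nt.BU2

private theorem THF2_large (P0 K : ℕ) (η : ℝ) (hη : 0 < η) : ∃ q00 : ℕ, ∀ q : ℕ, q00 ≤ q →
    1 ≤ q ∧ (K : ℝ) ≤ (q : ℝ) ^ η ∧ (P0 : ℝ) ≤ (q : ℝ) ^ (1 / 3 : ℝ) := by
  have h1 : ∀ᶠ q : ℕ in Filter.atTop, (K : ℝ) ≤ (q : ℝ) ^ η :=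
    ((tendsto_rpow_atTop hη).comp tendsto_natCast_atTop_atTop).eventually_ge_atTop _
  have h2 : ∀ᶠ q : ℕ in Filter.atTop, (P0 : ℝ) ≤ (q : ℝ) ^ (1 / 3 : ℝ) :=
    ((tendsto_rpow_atTop (by norm_num)).comp tendsto_natCast_atTop_atTop).eventually_ge_atTop _
  obtain ⟨q00, h⟩ := Filter.eventually_atTop.1 ((Filter.eventually_ge_atTop 1).and (h1.and h2))
  exact ⟨q00, h⟩

theorem window (P0 : ℕ) (η : ℝ) (hη : 0 < η) :
    ∃ q00 : ℕ, ∀ q e r : ℕ, q00 ≤ q → q = e * r → e.Coprime r → (∀ p : ℕ, p.Prime → ¬ p ^ 3 ∣ r) →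
      (∀ p : ℕ, p.Prime → p ∣ e → p ^ 3 ∣ e) → (q : ℝ) ^ (1 / 3 : ℝ) < e →
      ((rad q : ℕ) : ℝ) ≤ (q : ℝ) ^ (2 * η) ∨
      ∃ m0 m1 q' : ℕ, q = m0 * m1 ∧ 0 < m0 ∧ 0 < m1 ∧ 0 < q' ∧ m0.Coprime m1 ∧ q' ∣ m1 ∧
        (∀ p : ℕ, p.Prime → p ∣ m1 → P0 < p) ∧
        (∀ p : ℕ, p.Prime → q'.factorization p = min (m1.factorization p) 2) ∧
        (q : ℝ) ^ η ≤ q' ∧ (q' : ℝ) ≤ (q : ℝ) ^ (2 / 3 + η) ∧
        ∀ p : ℕ, p.Prime → p ∣ m0 * (m1 / q') → (p : ℝ) ≤ (q : ℝ) ^ (1 / 3 : ℝ) := by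
  classical
  obtain ⟨q00, hq00⟩ := THF2_large P0 (∏ p ∈ (range (P0 + 1)).filter Nat.Prime, p) η hη
  refine ⟨q00, fun q e r hqq hqe hco hr he hbig => ?_⟩
  obtain ⟨hq1, hK, hP0⟩ := hq00 q hqq
  have hq0 : 0 < q := hq1
  have hqr : (1 : ℝ) ≤ q := by exact_mod_cast hq1
  have hqr0 : (0 : ℝ) < q := by linarith
  obtain ⟨S1, hS1⟩ : ∃ S1 : Finset ℕ, ∀ p, p ∈ S1 ↔
      p ∈ q.primeFactors ∧ P0 < p ∧ q.factorization p = 1 :=
    ⟨q.primeFactors.filter fun p => P0 < p ∧ q.factorization p = 1, fun p => Finset.mem_filter⟩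
  obtain ⟨S2, hS2⟩ : ∃ S2 : Finset ℕ, ∀ p, p ∈ S2 ↔
      p ∈ q.primeFactors ∧ P0 < p ∧ 2 ≤ q.factorization p :=
    ⟨q.primeFactors.filter fun p => P0 < p ∧ 2 ≤ q.factorization p, fun p => Finset.mem_filter⟩
  have hv1 : ∀ p ∈ q.primeFactors, 1 ≤ q.factorization p := by
    intro p hp
    have h1 := Nat.mem_primeFactors.1 hp
    exact (h1.1.dvd_iff_one_le_factorization hq0.ne').1 h1.2.1
  have hone : ∀ T : Finset ℕ, T ⊆ q.primeFactors → ∀ p ∈ T, 1 ≤ p ^ min (q.factorization p) 2 := by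
    intro T hT p hp
    exact Nat.one_le_pow _ _ (Nat.mem_primeFactors.1 (hT hp)).1.pos
  by_cases hcase : (((∏ p ∈ S1 ∪ S2, p ^ min (q.factorization p) 2 : ℕ)) : ℝ) < (q : ℝ) ^ η
  · -- first alternative
    left
    have h1 : rad q ≤ (∏ p ∈ (range (P0 + 1)).filter Nat.Prime, p) *
        ∏ p ∈ S1 ∪ S2, p ^ min (q.factorization p) 2 := by
      unfold rad
      rw [← Finset.prod_filter_mul_prod_filter_not q.primeFactors (fun p => p ≤ P0)]
      refine Nat.mul_le_mul ?_ ?_
      · refine Finset.prod_le_prod_of_subset_of_one_le' ?_ ?_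
        · intro p hp
          obtain ⟨hp1, hp2⟩ := Finset.mem_filter.1 hp
          exact Finset.mem_filter.2 ⟨Finset.mem_range.2 (Nat.lt_succ_of_le hp2),
            (Nat.mem_primeFactors.1 hp1).1⟩
        · intro p hp _
          exact (Finset.mem_filter.1 hp).2.one_le
      · have h2 : q.primeFactors.filter (fun p => ¬ p ≤ P0) ⊆ S1 ∪ S2 := by
          intro p hp
          obtain ⟨hp1, hp2⟩ := Finset.mem_filter.1 hp
          rw [Finset.mem_union, hS1, hS2]
          have h3 := hv1 p hp1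
          rcases Nat.lt_or_ge 1 (q.factorization p) with h4 | h4
          · exact Or.inr ⟨hp1, not_le.1 hp2, h4⟩
          · exact Or.inl ⟨hp1, not_le.1 hp2, le_antisymm h4 h3⟩
        calc ∏ p ∈ q.primeFactors.filter (fun p => ¬ p ≤ P0), p
            ≤ ∏ p ∈ q.primeFactors.filter (fun p => ¬ p ≤ P0), p ^ min (q.factorization p) 2 := by
              refine Finset.prod_le_prod' fun p hp => ?_
              have hp1 := (Finset.mem_filter.1 hp).1
              have h3 := hv1 p hp1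
              exact Nat.le_self_pow (by omega) p
          _ ≤ ∏ p ∈ S1 ∪ S2, p ^ min (q.factorization p) 2 := by
              refine Finset.prod_le_prod_of_subset_of_one_le' h2 fun p hp _ => ?_
              refine hone (S1 ∪ S2) ?_ p hp
              intro p hp
              rw [Finset.mem_union, hS1, hS2] at hp
              rcases hp with hp | hp
              · exact hp.1
              · exact hp.1
    have h2 : ((rad q : ℕ) : ℝ) ≤
        ((∏ p ∈ (range (P0 + 1)).filter Nat.Prime, p : ℕ) : ℝ) *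
          ((∏ p ∈ S1 ∪ S2, p ^ min (q.factorization p) 2 : ℕ) : ℝ) := by
      exact_mod_cast h1
    have h3 : (q : ℝ) ^ (2 * η) = (q : ℝ) ^ η * (q : ℝ) ^ η := by
      rw [← Real.rpow_add hqr0]
      congr 1
      ring
    rw [h3]
    exact h2.trans (mul_le_mul hK hcase.le (Nat.cast_nonneg _) (Real.rpow_nonneg hqr0.le _))
  · -- second alternative
    right
    have hS12 : ∀ T ⊆ S2, S1 ∪ T ⊆ q.primeFactors := by
      intro T hT p hp
      rw [Finset.mem_union] at hp
      rcases hp with hp | hp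
      · exact ((hS1 p).1 hp).1
      · exact ((hS2 p).1 (hT hp)).1
    obtain ⟨T, hT, hmin⟩ := Finset.exists_min_image (S2.powerset.filter fun T =>
      (q : ℝ) ^ η ≤ (((∏ p ∈ S1 ∪ T, p ^ min (q.factorization p) 2 : ℕ)) : ℝ)) Finset.card
      ⟨S2, Finset.mem_filter.2 ⟨Finset.mem_powerset_self S2, not_lt.1 hcase⟩⟩
    obtain ⟨hT1, hT2⟩ := Finset.mem_filter.1 hT
    rw [Finset.mem_powerset] at hT1
    obtain ⟨m0, m1, q', a1, a2, a3, a4, a5, a6, a7, a8, a9, a10, a11⟩ :=
      build q hq0 (S1 ∪ T) (hS12 T hT1)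
    refine ⟨m0, m1, q', a1, a2, a3, a4, a5, a6, ?_, a10, ?_, ?_, ?_⟩
    · intro p hp hpm
      have h1 := a7 p hp hpm
      rw [Finset.mem_union] at h1
      rcases h1 with h1 | h1
      · exact ((hS1 p).1 h1).2.1
      · exact ((hS2 p).1 (hT1 h1)).2.1
    · rw [a11]
      exact hT2
    · rw [a11]
      by_cases hTe : T = ∅
      · rw [hTe, Finset.union_empty]
        have h1 : ∏ p ∈ S1, p ^ min (q.factorization p) 2 ≤
            ∏ p ∈ q.primeFactors.filter (fun p => q.factorization p = 1), p := by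
          calc ∏ p ∈ S1, p ^ min (q.factorization p) 2 = ∏ p ∈ S1, p := by
                refine Finset.prod_congr rfl fun p hp => ?_
                rw [((hS1 p).1 hp).2.2]
                exact pow_one p
            _ ≤ _ := by
                refine Finset.prod_le_prod_of_subset_of_one_le' ?_ ?_
                · intro p hp
                  have h2 := (hS1 p).1 hp
                  exact Finset.mem_filter.2 ⟨h2.1, h2.2.2⟩
                · intro p hp _
                  exact (Nat.mem_primeFactors.1 (Finset.mem_filter.1 hp).1).1.one_le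
        have h2 : ((∏ p ∈ S1, p ^ min (q.factorization p) 2 : ℕ) : ℝ) ≤
            ((∏ p ∈ q.primeFactors.filter (fun p => q.factorization p = 1), p : ℕ) : ℝ) := by
          exact_mod_cast h1
        refine h2.trans ((small_part q e r hq0 hqe hco he hbig).trans ?_)
        exact Real.rpow_le_rpow_of_exponent_le hqr (by linarith)
      · obtain ⟨p, hp⟩ := Finset.nonempty_iff_ne_empty.2 hTe
        have hpS2 := (hS2 p).1 (hT1 hp)
        have h1 : ¬ (q : ℝ) ^ η ≤
            (((∏ p ∈ S1 ∪ T.erase p, p ^ min (q.factorization p) 2 : ℕ)) : ℝ) := by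
          intro h2
          have h3 := hmin (T.erase p) (Finset.mem_filter.2 ⟨Finset.mem_powerset.2
            ((Finset.erase_subset _ _).trans hT1), h2⟩)
          have h4 := Finset.card_erase_lt_of_mem hp
          omega
        have h2 : S1 ∪ T = insert p (S1 ∪ T.erase p) := by
          rw [← Finset.union_insert, Finset.insert_erase hp]
        have h3 : p ∉ S1 ∪ T.erase p := by
          rw [Finset.mem_union]
          rintro (h4 | h4)
          · have h5 := ((hS1 p).1 h4).2.2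
            omega
          · exact Finset.notMem_erase p T h4
        rw [h2, Finset.prod_insert h3]
        push_cast
        have h4 : ((p : ℝ)) ^ min (q.factorization p) 2 ≤ ((q : ℝ) ^ (1 / 3 : ℝ)) ^ 2 := by
          rw [min_eq_right hpS2.2.2]
          exact pow_le_pow_left₀ (Nat.cast_nonneg _)
            (cube_prime_le q e r hq0 hqe hco he hbig p (Nat.mem_primeFactors.1 hpS2.1).1 hpS2.2.2) 2
        have h5 : ((q : ℝ) ^ (1 / 3 : ℝ)) ^ 2 * (q : ℝ) ^ η = (q : ℝ) ^ (2 / 3 + η) := by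
          rw [← Real.rpow_natCast, ← Real.rpow_mul hqr0.le, ← Real.rpow_add hqr0]
          congr 1
          push_cast
          ring
        rw [← h5]
        have h6 := (not_le.1 h1).le
        push_cast at h6
        exact mul_le_mul h4 h6 (Finset.prod_nonneg fun _ _ => pow_nonneg (Nat.cast_nonneg _) _)
          (by positivity)
    · intro p hp hpd
      rcases hp.dvd_mul.1 hpd with h1 | h1
      · obtain ⟨h2, h3⟩ := a8 p hp h1
        by_cases h4 : p ≤ P0
        · have h5 : (p : ℝ) ≤ P0 := by exact_mod_cast h4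
          linarith
        · refine cube_prime_le q e r hq0 hqe hco he hbig p hp ?_
          have h5 := hv1 p h2
          by_contra h6
          exact h3 (Finset.mem_union_left _ ((hS1 p).2 ⟨h2, not_le.1 h4, by omega⟩))
      · have h2 : p ∣ m1 := h1.trans (Nat.div_dvd_of_dvd a6)
        have h3 := a9 p (a7 p hp h2)
        have h4 : 0 < m1 / q' := Nat.div_pos (Nat.le_of_dvd a3 a6) a4
        have h5 := (hp.dvd_iff_one_le_factorization h4.ne').1 h1
        rw [Nat.factorization_div a6, Finsupp.tsub_apply, a10 p hp] at h5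
        refine cube_prime_le q e r hq0 hqe hco he hbig p hp ?_
        omega

end Pool.Agent.Lib.MP_42948a_nt.TH
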