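import Pool.Agent.Lib.MP_42948a_nt.TH.Defs
import Pool.Agent.Lib.MP_42948a_nt.OA.ZA
import Pool.Agent.Lib.MP_42948a_nt.BU.HE

/-!
# The choice of the parameters, first kind of moduli (job F3)

`Q = (q : ℝ)`, `ε4 = κ / 10000`. For large `q`: `τ(m0), τ(q') ≤ τ(q) ≤ Q^ε4` (`BB_le` or `divisor_bound`; divisors of a divisor: `Nat.divisors_subset_of_dvd`), `64^ω(q') = (2^ω)^6 ≤ τ(q')^6 ≤ Q^(6 ε4)` (`HE_two_pow` in `BU/HE.lean`).
`H = ⌊Q^(κ/100)⌋₊`, `α = Q^(κ/100 - κ)`, `H' = ⌊N Q^(-κ/4)⌋₊`, `Δ = ⌊Q^(κ/8)⌋₊`, `y = ⌊Q^(κ/320)⌋₊`. (1) `g ≤ Q^(1/3)`: `g H ≤ Q^(1/3 + κ/100) ≤ α N`. (2) `y^32 ≤ Q^(κ/10) ≤ Δ` for large `q`.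
(3) `β N` is the displayed quantity: `b = τ(m0) (2 Δ H' + √(N (N/q' + 1) (q'/H' + 2 X0))) + τ(m0)^2 32 (N/y + 1)`, `X0 = 64^ω(q') √q' τ(q') ≤ Q^(7 ε4) √q'`. Estimate: `2 Δ H'/N ≤ 2 Q^(κ/8 - κ/4)`; `(1/N^2) N (N/q' + 1)(q'/H' + 2 X0) = (1/q' + 1/N)(q'/H' + 2 X0)
= 1/H' + 2 X0/q' + q'/(N H') + 2 X0/N`, where `H' ≥ N Q^(-κ/4)/2`, so `1/H' ≤ 2 Q^(κ/4 - 1/3 - κ)`, `2 X0/q' ≤ 2 Q^(7 ε4 - κ/40)` (`q' ≥ Q^(κ/20)`), `q'/(N H') ≤ 2 Q^(2/3 + κ/20 + κ/4 - 2/3 - 2 κ)`, `2 X0/N ≤ 2 Q^(7 ε4 + 1/3 + κ/40 - 1/3 - κ)`: all are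
`≤ 2 Q^(-κ/50)`, so the square root is `≤ √8 Q^(-κ/100)`; `32 (1/y + 1/N) ≤ 128 Q^(-κ/320)`. Hence `b/N ≤ Q^(2 ε4) * C * Q^(-κ/320)` with an absolute constant `C`, and `b/N * τ(q')^5 ≤ C Q^(7 ε4 - κ/320) ≤ Q^(-κ/500)` for large `q` (`7/10000 < 1/320 - 1/500`).
`1/H ≤ 2 Q^(-κ/100)`, `α ≤ Q^(-κ/100)`. So the total is `≤ CV 5 * 4 Q^(-κ/500) ≤ Q^(-κ/1000)` for large `q`.
-/

namespace Pool.Agent.Lib.MP_42948a_nt.TH

open Finset Polynomial Pool.Agent.Lib.MP_42948a_nt.BU Pool.Agent.Lib.MP_42948a_nt.BU2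

private theorem THF3_floor {x : ℝ} (hx : 1 ≤ x) : x / 2 ≤ (⌊x⌋₊ : ℝ) ∧ (⌊x⌋₊ : ℝ) ≤ x ∧ 1 ≤ ⌊x⌋₊ := by
  have h1 : 1 ≤ ⌊x⌋₊ := Nat.le_floor (by exact_mod_cast hx)
  have h2 : x < ⌊x⌋₊ + 1 := Nat.lt_floor_add_one x
  have h3 : (1 : ℝ) ≤ (⌊x⌋₊ : ℝ) := by exact_mod_cast h1
  exact ⟨by linarith, Nat.floor_le (by linarith), h1⟩

/-- the product under the square root -/
private theorem THF3_prod (Q κ N r H' X W : ℝ) (hQ : 1 ≤ Q) (hκ : 0 < κ)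
    (hN : Q ^ (1 / 3 + κ) ≤ N) (hr1 : Q ^ (κ / 20) ≤ r) (hr2 : r ≤ Q ^ (2 / 3 + κ / 20))
    (hH : N * Q ^ (-(κ / 4)) / 2 ≤ H') (hW : W ≤ Q ^ (7 * (κ / 10000))) (hX : X = W * √r) :
    N * (N / r + 1) * (r / H' + 2 * X) ≤ (3 * (N * Q ^ (-(κ / 100)))) ^ 2 := by
  have hQ0 : 0 < Q := by linarith
  have hp : ∀ x y : ℝ, x ≤ y → Q ^ x ≤ Q ^ y := fun x y h => Real.rpow_le_rpow_of_exponent_le hQ h
  have hm : ∀ x y : ℝ, Q ^ x * Q ^ y = Q ^ (x + y) := fun x y => (Real.rpow_add hQ0 x y).symm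
  have hpos : ∀ x : ℝ, 0 < Q ^ x := fun x => Real.rpow_pos_of_pos hQ0 x
  have hN0 : 0 < N := lt_of_lt_of_le (hpos _) hN
  have hr0 : 0 < r := lt_of_lt_of_le (hpos _) hr1
  have hH0 : 0 < H' := lt_of_lt_of_le (by have := hpos (-(κ / 4)); positivity) hH
  have hsr : 0 < √r := Real.sqrt_pos.2 hr0
  have hss : √r * √r = r := Real.mul_self_sqrt hr0.le
  obtain ⟨E, hE⟩ : ∃ E : ℝ, E = Q ^ (-(κ / 50)) := ⟨_, rfl⟩
  have hE0 : 0 < E := by rw [hE]; exact hpos _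
  -- sqrt r
  have hs1 : √r ≤ Q ^ (1 / 3 + κ / 40) := by
    rw [Real.sqrt_le_iff]
    refine ⟨(hpos _).le, hr2.trans (le_of_eq ?_)⟩
    rw [pow_two, hm]
    congr 1
    ring
  have hs2 : Q ^ (κ / 40) ≤ √r := by
    apply Real.le_sqrt_of_sq_le
    refine (le_of_eq ?_).trans hr1
    rw [pow_two, hm]
    congr 1
    ring
  -- (i) `N ≤ 2 E N H'`, i.e. `N / H' ≤ 2 E N`
  have h1 : N ≤ 2 * E * N * H' := by
    have e1 : N * (Q ^ (-(κ / 4)) * Q ^ (-(κ / 50)) * Q ^ (1 / 3 + κ)) ≤ 2 * E * N * H' := by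
      calc N * (Q ^ (-(κ / 4)) * Q ^ (-(κ / 50)) * Q ^ (1 / 3 + κ))
          = Q ^ (-(κ / 50)) * (Q ^ (1 / 3 + κ)) * (N * Q ^ (-(κ / 4))) := by ring
        _ ≤ E * N * (2 * H') := by
            rw [← hE]
            have a1 : N * Q ^ (-(κ / 4)) ≤ 2 * H' := by linarith
            have a2 : E * Q ^ (1 / 3 + κ) ≤ E * N := mul_le_mul_of_nonneg_left hN hE0.le
            exact mul_le_mul a2 a1 (by have := hpos (-(κ / 4)); positivity) (by positivity)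
        _ = 2 * E * N * H' := by ring
    have e2 : 1 ≤ Q ^ (-(κ / 4)) * Q ^ (-(κ / 50)) * Q ^ (1 / 3 + κ) := by
      rw [hm, hm]
      exact Real.one_le_rpow hQ (by linarith)
    exact (le_mul_of_one_le_right hN0.le e2).trans e1
  have h1' : N / H' ≤ 2 * E * N := by
    rw [div_le_iff₀ hH0]
    exact h1
  -- (iii) `r / H' ≤ 2 E N`
  have h3 : r / H' ≤ 2 * E * N := by
    rw [div_le_iff₀ hH0]
    have a1 : N * Q ^ (-(κ / 4)) ≤ 2 * H' := by linarith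
    have a3 : Q ^ (1 / 3 + κ) * (Q ^ (1 / 3 + κ) * Q ^ (-(κ / 4))) ≤ N * (2 * H') :=
      mul_le_mul hN ((mul_le_mul_of_nonneg_right hN (hpos _).le).trans a1)
        (mul_nonneg (hpos _).le (hpos _).le) hN0.le
    calc r ≤ Q ^ (2 / 3 + κ / 20) := hr2
      _ ≤ Q ^ (-(κ / 50)) * (Q ^ (1 / 3 + κ) * (Q ^ (1 / 3 + κ) * Q ^ (-(κ / 4)))) := by
          rw [hm, hm, hm]
          exact hp _ _ (by linarith)
      _ ≤ E * (N * (2 * H')) := by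
          rw [← hE]
          exact mul_le_mul_of_nonneg_left a3 hE0.le
      _ = 2 * E * N * H' := by ring
  -- (ii) `2 X / r ≤ 2 E`
  have h2 : X / r ≤ E := by
    rw [hX, div_le_iff₀ hr0]
    have a1 : W ≤ E * √r := by
      calc W ≤ Q ^ (7 * (κ / 10000)) := hW
        _ ≤ Q ^ (-(κ / 50)) * Q ^ (κ / 40) := by
            rw [hm]
            exact hp _ _ (by linarith)
        _ ≤ E * √r := by
            rw [← hE]
            exact mul_le_mul_of_nonneg_left hs2 hE0.le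
    calc W * √r ≤ E * √r * √r := mul_le_mul_of_nonneg_right a1 hsr.le
      _ = E * r := by rw [mul_assoc, hss]
  -- (iv) `X ≤ E N`
  have h4 : X ≤ E * N := by
    rw [hX]
    calc W * √r ≤ Q ^ (7 * (κ / 10000)) * Q ^ (1 / 3 + κ / 40) :=
          mul_le_mul hW hs1 hsr.le (hpos _).le
      _ ≤ Q ^ (-(κ / 50)) * Q ^ (1 / 3 + κ) := by
          rw [hm, hm]
          exact hp _ _ (by linarith)
      _ ≤ E * N := by
          rw [← hE]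
          exact mul_le_mul_of_nonneg_left hN hE0.le
  have e1 : N * (N / r + 1) * (r / H' + 2 * X) =
      N * (N / H' + r / H' + 2 * (N * (X / r)) + 2 * X) := by
    field_simp
    ring
  have e2 : (3 * (N * Q ^ (-(κ / 100)))) ^ 2 = 9 * (N * (E * N)) := by
    have : Q ^ (-(κ / 100)) * Q ^ (-(κ / 100)) = E := by
      rw [hm, hE]
      congr 1
      ring
    calc (3 * (N * Q ^ (-(κ / 100)))) ^ 2 = 9 * (N * N * (Q ^ (-(κ / 100)) * Q ^ (-(κ / 100)))) := by ring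
      _ = 9 * (N * (E * N)) := by rw [this]; ring
  rw [e1, e2]
  have h5 : N * (X / r) ≤ N * E := mul_le_mul_of_nonneg_left h2 hN0.le
  have h6 : N / H' + r / H' + 2 * (N * (X / r)) + 2 * X ≤ 9 * (E * N) := by
    have : 0 ≤ E * N := by positivity
    nlinarith
  calc N * (N / H' + r / H' + 2 * (N * (X / r)) + 2 * X) ≤ N * (9 * (E * N)) :=
        mul_le_mul_of_nonneg_left h6 hN0.le
    _ = 9 * (N * (E * N)) := by ring

/-- the bound for the displayed quantity -/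
private theorem THF3_main (Q κ N r H' Δ y t0 t' X C : ℝ) (hQ : 1 ≤ Q) (hκ : 0 < κ) (hκ1 : κ ≤ 1 / 100)
    (hN : Q ^ (1 / 3 + κ) ≤ N) (hr1 : Q ^ (κ / 20) ≤ r) (hr2 : r ≤ Q ^ (2 / 3 + κ / 20))
    (hH : N * Q ^ (-(κ / 4)) / 2 ≤ H') (hH2 : H' ≤ N * Q ^ (-(κ / 4)))
    (hΔ0 : 0 ≤ Δ) (hΔ : Δ ≤ Q ^ (κ / 8)) (hy : Q ^ (κ / 320) / 2 ≤ y)
    (ht0 : 0 ≤ t0) (ht0' : t0 ≤ Q ^ (κ / 10000)) (ht1 : 0 ≤ t') (ht1' : t' ≤ Q ^ (κ / 10000))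
    (hC0 : 0 ≤ C) (hC : C ≤ Q ^ (6 * (κ / 10000))) (hX : X = C * √r * t') :
    (t0 * (2 * Δ * H' + √(N * (N / r + 1) * (r / H' + 2 * X))) + t0 ^ 2 * 2 ^ 5 * (N / y + 1)) / N * t' ^ 5 ≤
      101 * Q ^ (-(κ / 500)) := by
  have hQ0 : 0 < Q := by linarith
  have hp : ∀ x y : ℝ, x ≤ y → Q ^ x ≤ Q ^ y := fun x y h => Real.rpow_le_rpow_of_exponent_le hQ h
  have hm : ∀ x y : ℝ, Q ^ x * Q ^ y = Q ^ (x + y) := fun x y => (Real.rpow_add hQ0 x y).symm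
  have hpos : ∀ x : ℝ, 0 < Q ^ x := fun x => Real.rpow_pos_of_pos hQ0 x
  have hN0 : 0 < N := lt_of_lt_of_le (hpos _) hN
  have hy0 : 0 < y := lt_of_lt_of_le (by have := hpos (κ / 320); positivity) hy
  have hH0 : 0 < H' := lt_of_lt_of_le (by have := hpos (-(κ / 4)); positivity) hH
  obtain ⟨G, hG⟩ : ∃ G : ℝ, G = Q ^ (-(κ / 320)) := ⟨_, rfl⟩
  have hG0 : 0 < G := by rw [hG]; exact hpos _
  obtain ⟨S, hS⟩ : ∃ S : ℝ, S = √(N * (N / r + 1) * (r / H' + 2 * X)) := ⟨_, rfl⟩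
  rw [← hS]
  have hS0 : 0 ≤ S := by rw [hS]; exact Real.sqrt_nonneg _
  have hSle : S ≤ 3 * (N * G) := by
    have e1 : S ≤ 3 * (N * Q ^ (-(κ / 100))) := by
      rw [hS, Real.sqrt_le_iff]
      refine ⟨by have := hpos (-(κ / 100)); positivity, ?_⟩
      refine THF3_prod Q κ N r H' X (C * t') hQ hκ hN hr1 hr2 hH ?_ ?_
      · calc C * t' ≤ Q ^ (6 * (κ / 10000)) * Q ^ (κ / 10000) := mul_le_mul hC ht1' ht1 (hpos _).le
          _ = Q ^ (7 * (κ / 10000)) := by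
              rw [hm]
              congr 1
              ring
      · rw [hX]
        ring
    have e2 : Q ^ (-(κ / 100)) ≤ G := by
      rw [hG]
      exact hp _ _ (by linarith)
    refine e1.trans ?_
    gcongr
  have h1 : 2 * Δ * H' ≤ 2 * (N * G) := by
    have e1 : Δ * H' ≤ N * G := by
      calc Δ * H' ≤ Q ^ (κ / 8) * (N * Q ^ (-(κ / 4))) := mul_le_mul hΔ hH2 hH0.le (hpos _).le
        _ = N * (Q ^ (κ / 8) * Q ^ (-(κ / 4))) := by ring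
        _ ≤ N * G := by
            rw [hm, hG]
            exact mul_le_mul_of_nonneg_left (hp _ _ (by linarith)) hN0.le
    linarith
  have h2 : N / y + 1 ≤ 3 * (N * G) := by
    have e1 : N / y ≤ 2 * (N * G) := by
      rw [div_le_iff₀ hy0]
      have a1 : Q ^ (κ / 320) * G = 1 := by
        rw [hG, hm, add_neg_cancel, Real.rpow_zero]
      calc N = N * (Q ^ (κ / 320) * G) := by rw [a1, mul_one]
        _ = 2 * (N * G) * (Q ^ (κ / 320) / 2) := by ring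
        _ ≤ 2 * (N * G) * y := mul_le_mul_of_nonneg_left hy (by positivity)
    have e2 : 1 ≤ N * G := by
      calc (1 : ℝ) ≤ Q ^ (1 / 3 + κ) * Q ^ (-(κ / 320)) := by
            rw [hm]
            exact Real.one_le_rpow hQ (by linarith)
        _ ≤ N * G := by
            rw [← hG]
            exact mul_le_mul_of_nonneg_right hN hG0.le
    linarith
  obtain ⟨U, hU⟩ : ∃ U : ℝ, U = Q ^ (κ / 10000) := ⟨_, rfl⟩
  rw [← hU] at ht0' ht1'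
  have hU1 : 1 ≤ U := by rw [hU]; exact Real.one_le_rpow hQ (by positivity)
  have hNG : 0 ≤ N * G := by positivity
  have h3 : t0 * (2 * Δ * H' + S) + t0 ^ 2 * 2 ^ 5 * (N / y + 1) ≤ 101 * (U ^ 2 * (N * G)) := by
    have e1 : t0 * (2 * Δ * H' + S) ≤ U ^ 2 * (5 * (N * G)) := by
      refine mul_le_mul ?_ (by linarith) (by positivity) (by positivity)
      nlinarith
    have e2 : t0 ^ 2 * 2 ^ 5 * (N / y + 1) ≤ U ^ 2 * 2 ^ 5 * (3 * (N * G)) := by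
      refine mul_le_mul ?_ h2 (by positivity) (by positivity)
      exact mul_le_mul_of_nonneg_right (pow_le_pow_left₀ ht0 ht0' 2) (by norm_num)
    calc _ ≤ U ^ 2 * (5 * (N * G)) + U ^ 2 * 2 ^ 5 * (3 * (N * G)) := add_le_add e1 e2
      _ = 101 * (U ^ 2 * (N * G)) := by ring
  have h4 : (t0 * (2 * Δ * H' + S) + t0 ^ 2 * 2 ^ 5 * (N / y + 1)) / N ≤ 101 * (U ^ 2 * G) := by
    rw [div_le_iff₀ hN0]
    calc _ ≤ 101 * (U ^ 2 * (N * G)) := h3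
      _ = 101 * (U ^ 2 * G) * N := by ring
  have h5 : U ^ 7 * G ≤ Q ^ (-(κ / 500)) := by
    have e1 : U ^ 7 = Q ^ (7 * (κ / 10000)) := by
      rw [hU, ← Real.rpow_natCast, ← Real.rpow_mul hQ0.le]
      congr 1
      push_cast
      ring
    rw [e1, hG, hm]
    exact hp _ _ (by linarith)
  calc (t0 * (2 * Δ * H' + S) + t0 ^ 2 * 2 ^ 5 * (N / y + 1)) / N * t' ^ 5
      ≤ 101 * (U ^ 2 * G) * U ^ 5 := by
        refine mul_le_mul h4 (pow_le_pow_left₀ ht1 ht1' 5) (by positivity) (by positivity)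
    _ = 101 * (U ^ 7 * G) := by ring
    _ ≤ 101 * Q ^ (-(κ / 500)) := by linarith

private theorem THF3_CV : (0 : ℝ) < CV 5 := by
  simp only [CV]
  positivity

theorem num_a (κ : ℝ) (hκ : 0 < κ) (hκ1 : κ ≤ 1 / 100) :
    ∃ q00 : ℕ, ∀ q m0 q' N : ℕ, q00 ≤ q → m0 ∣ q → q' ∣ q → (q : ℝ) ^ (κ / 20) ≤ q' → (q' : ℝ) ≤ (q : ℝ) ^ (2 / 3 + κ / 20) →
      (q : ℝ) ^ (1 / 3 + κ) ≤ N →
      ∃ (H H' Δ y : ℕ) (α : ℝ), 1 ≤ H ∧ 1 ≤ H' ∧ 1 ≤ y ∧ y ^ 2 ^ 5 ≤ Δ ∧ 0 ≤ α ∧ α ≤ 1 ∧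
        (∀ g : ℝ, g ≤ (q : ℝ) ^ (1 / 3 : ℝ) → g * H ≤ α * N) ∧
        CV 5 * (1 / H + α + ((m0.divisors.card : ℝ) * (2 * Δ * H' + √((N : ℝ) * ((N : ℝ) / q' + 1) * ((q' : ℝ) / H' +
          2 * (((2 : ℝ) ^ (5 + 1)) ^ q'.primeFactors.card * √(q' : ℝ) * (q'.divisors.card : ℝ))))) +
          (m0.divisors.card : ℝ) ^ 2 * 2 ^ 5 * ((N : ℝ) / y + 1)) / N * (q'.divisors.card : ℝ) ^ 5) ≤
          (q : ℝ) ^ (-(κ / 1000)) := by
  obtain ⟨d1, hd1⟩ := Pool.Agent.Lib.MP_42948a_nt.OA.BB_le (κ / 10000) (by positivity)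
  have hCV := THF3_CV
  obtain ⟨x1, hx1⟩ : ∃ x1 : ℝ, ∀ x : ℝ, x1 ≤ x → CV 5 * 104 ≤ x ^ (κ / 1000) := by
    have := (tendsto_rpow_atTop (by positivity : 0 < κ / 1000)).eventually_ge_atTop (CV 5 * 104)
    exact Filter.eventually_atTop.1 this
  refine ⟨max (max d1 1) ⌈x1⌉₊, ?_⟩
  intro q m0 q' N hq hm0 hq' hr1 hr2 hN
  have hq1 : 1 ≤ q := (le_max_right d1 1).trans ((le_max_left _ _).trans hq)
  have hqd : d1 ≤ q := (le_max_left d1 1).trans ((le_max_left _ _).trans hq)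
  have hqx : x1 ≤ (q : ℝ) := (Nat.le_ceil x1).trans (by exact_mod_cast (le_max_right _ _).trans hq)
  obtain ⟨Q, hQd⟩ : ∃ Q : ℝ, Q = (q : ℝ) := ⟨_, rfl⟩
  have hQ : 1 ≤ Q := by rw [hQd]; exact_mod_cast hq1
  have hQ0 : 0 < Q := by linarith
  have hp : ∀ x y : ℝ, x ≤ y → Q ^ x ≤ Q ^ y := fun x y h => Real.rpow_le_rpow_of_exponent_le hQ h
  have hm : ∀ x y : ℝ, Q ^ x * Q ^ y = Q ^ (x + y) := fun x y => (Real.rpow_add hQ0 x y).symm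
  have hpos : ∀ x : ℝ, 0 < Q ^ x := fun x => Real.rpow_pos_of_pos hQ0 x
  have hτ : (q.divisors.card : ℝ) ≤ Q ^ (κ / 10000) := by rw [hQd]; exact (hd1 q hqd).2
  have hx := hx1 (q : ℝ) hqx
  rw [← hQd] at hr1 hr2 hN hx ⊢
  have hqne : q ≠ 0 := by omega
  have hdiv : ∀ m : ℕ, m ∣ q → (m.divisors.card : ℝ) ≤ Q ^ (κ / 10000) := by
    intro m hmq
    have h1 : m.divisors.card ≤ q.divisors.card := Finset.card_le_card (Nat.divisors_subset_of_dvd hqne hmq)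
    exact (by exact_mod_cast h1 : (m.divisors.card : ℝ) ≤ q.divisors.card).trans hτ
  have hN0 : (0 : ℝ) < N := lt_of_lt_of_le (hpos _) hN
  have hq'0 : (0 : ℝ) < q' := lt_of_lt_of_le (hpos _) hr1
  have hq'ne : q' ≠ 0 := by
    intro h
    rw [h] at hq'0
    simp at hq'0
  -- the constant `64 ^ ω`
  have hC : ((2 : ℝ) ^ (5 + 1)) ^ q'.primeFactors.card ≤ Q ^ (6 * (κ / 10000)) := by
    have h1 : (2 : ℝ) ^ q'.primeFactors.card ≤ Q ^ (κ / 10000) := by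
      have := HE_two_pow q' hq'ne
      exact (by exact_mod_cast this : (2 : ℝ) ^ q'.primeFactors.card ≤ q'.divisors.card).trans (hdiv q' hq')
    calc ((2 : ℝ) ^ (5 + 1)) ^ q'.primeFactors.card = ((2 : ℝ) ^ q'.primeFactors.card) ^ 6 := by
          rw [← pow_mul, ← pow_mul, mul_comm]
      _ ≤ (Q ^ (κ / 10000)) ^ 6 := pow_le_pow_left₀ (by positivity) h1 6
      _ = Q ^ (6 * (κ / 10000)) := by
          rw [← Real.rpow_natCast, ← Real.rpow_mul hQ0.le]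
          congr 1
          push_cast
          ring
  -- the parameters
  obtain ⟨a1, a2, a3⟩ := THF3_floor (x := Q ^ (κ / 100)) (Real.one_le_rpow hQ (by positivity))
  obtain ⟨b1, b2, b3⟩ := THF3_floor (x := Q ^ (κ / 8)) (Real.one_le_rpow hQ (by positivity))
  obtain ⟨c1, c2, c3⟩ := THF3_floor (x := Q ^ (κ / 320)) (Real.one_le_rpow hQ (by positivity))
  have hNH : 1 ≤ (N : ℝ) * Q ^ (-(κ / 4)) := by
    calc (1 : ℝ) ≤ Q ^ (1 / 3 + κ) * Q ^ (-(κ / 4)) := by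
          rw [hm]
          exact Real.one_le_rpow hQ (by linarith)
      _ ≤ (N : ℝ) * Q ^ (-(κ / 4)) := mul_le_mul_of_nonneg_right hN (hpos _).le
  obtain ⟨e1, e2, e3⟩ := THF3_floor hNH
  refine ⟨⌊Q ^ (κ / 100)⌋₊, ⌊(N : ℝ) * Q ^ (-(κ / 4))⌋₊, ⌊Q ^ (κ / 8)⌋₊, ⌊Q ^ (κ / 320)⌋₊, Q ^ (κ / 100 - κ),
    a3, e3, c3, ?_, (hpos _).le, ?_, ?_, ?_⟩
  · apply Nat.le_floor
    rw [Nat.cast_pow]
    calc ((⌊Q ^ (κ / 320)⌋₊ : ℕ) : ℝ) ^ 2 ^ 5 ≤ (Q ^ (κ / 320)) ^ 2 ^ 5 :=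
          pow_le_pow_left₀ (Nat.cast_nonneg _) c2 _
      _ = Q ^ (κ / 10) := by
          rw [← Real.rpow_natCast, ← Real.rpow_mul hQ0.le]
          congr 1
          push_cast
          ring
      _ ≤ Q ^ (κ / 8) := hp _ _ (by linarith)
  · exact Real.rpow_le_one_of_one_le_of_nonpos hQ (by linarith)
  · intro g hg
    calc g * ((⌊Q ^ (κ / 100)⌋₊ : ℕ) : ℝ) ≤ Q ^ (1 / 3 : ℝ) * ((⌊Q ^ (κ / 100)⌋₊ : ℕ) : ℝ) :=
          mul_le_mul_of_nonneg_right hg (Nat.cast_nonneg _)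
      _ ≤ Q ^ (1 / 3 : ℝ) * Q ^ (κ / 100) := mul_le_mul_of_nonneg_left a2 (hpos _).le
      _ = Q ^ (κ / 100 - κ) * Q ^ (1 / 3 + κ) := by
          rw [hm, hm]
          congr 1
          ring
      _ ≤ Q ^ (κ / 100 - κ) * N := mul_le_mul_of_nonneg_left hN (hpos _).le
  · have h1 := THF3_main Q κ N q' (⌊(N : ℝ) * Q ^ (-(κ / 4))⌋₊ : ℕ) (⌊Q ^ (κ / 8)⌋₊ : ℕ)
      (⌊Q ^ (κ / 320)⌋₊ : ℕ) (m0.divisors.card : ℝ) (q'.divisors.card : ℝ) _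
      (((2 : ℝ) ^ (5 + 1)) ^ q'.primeFactors.card) hQ hκ hκ1 hN hr1 hr2 e1 e2 (Nat.cast_nonneg _) b2 c1
      (Nat.cast_nonneg _) (hdiv m0 hm0) (Nat.cast_nonneg _) (hdiv q' hq') (by positivity) hC rfl
    have h2 : 1 / ((⌊Q ^ (κ / 100)⌋₊ : ℕ) : ℝ) ≤ 2 * Q ^ (-(κ / 500)) := by
      have g0 : (0 : ℝ) < ((⌊Q ^ (κ / 100)⌋₊ : ℕ) : ℝ) := by exact_mod_cast a3
      rw [div_le_iff₀ g0]
      calc (1 : ℝ) ≤ Q ^ (-(κ / 500)) * Q ^ (κ / 100) := by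
            rw [hm]
            exact Real.one_le_rpow hQ (by linarith)
        _ = 2 * Q ^ (-(κ / 500)) * (Q ^ (κ / 100) / 2) := by ring
        _ ≤ 2 * Q ^ (-(κ / 500)) * ((⌊Q ^ (κ / 100)⌋₊ : ℕ) : ℝ) :=
            mul_le_mul_of_nonneg_left a1 (by have := hpos (-(κ / 500)); positivity)
    have h3 : Q ^ (κ / 100 - κ) ≤ Q ^ (-(κ / 500)) := hp _ _ (by linarith)
    refine (mul_le_mul_of_nonneg_left (add_le_add (add_le_add h2 h3) h1) hCV.le).trans ?_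
    calc CV 5 * (2 * Q ^ (-(κ / 500)) + Q ^ (-(κ / 500)) + 101 * Q ^ (-(κ / 500)))
        = (CV 5 * 104) * Q ^ (-(κ / 500)) := by ring
      _ ≤ Q ^ (κ / 1000) * Q ^ (-(κ / 500)) := mul_le_mul_of_nonneg_right hx (hpos _).le
      _ = Q ^ (-(κ / 1000)) := by
          rw [hm]
          congr 1
          ring

end Pool.Agent.Lib.MP_42948a_nt.TH
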