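import Pool.Agent.Lib.MP_42948a_nt.TH.A2
import Pool.Agent.Lib.MP_42948a_nt.TH.D4
import Pool.Agent.Lib.MP_42948a_nt.TH.F1
import Pool.Agent.Lib.MP_42948a_nt.TH.F3
import Pool.Agent.Lib.MP_42948a_nt.BU.MA

/-!
# The bound for the first kind of moduli (job F4)

`κ' = κ/32000`. `num_a κ` gives `H, H', Δ, y, α`; `blocks (q^(1/3))` for `G = m0 (m1/q')` (`G ≤ q = (q^(1/3))^3`) gives `gs` of length `5`. `vdc_iter` with `w h = wt q' h`, `W = τ(q')` (`wt_Ico`; `q'` is cube-free because `v_p(q') ≤ 2`), `F = ch χ` and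
`β = b/N`, where `b = τ(m0) (2 Δ H' + √(..)) + τ(m0)^2 2^5 (N/y + 1)`. For `hs` let `ys = yy gs hs` (length `5`), `T = hs.prod`; `ys.prod = gs.prod * hs.prod = G T` (induction on the lists, equal lengths). `fixed_bound`: `m0 ∣ G`; `m1 = q' (m1/q')` divides `q' G`; for
`p ∣ m1`, `p ∤ T`: the exponent of `p` in `G T` is `v_p(m1/q') = v_p(m1) - v_p(q')` (`p ∤ m0`, coprime). `NT χ p` by `NT_of_primitive` (`BU/MA.lean`). `(5 + 1)^(5 + 1) = 46656 ≤ P0 < p`. The result is `≤ b * wt q' T ≤ b ∏ w h` (`wt_list`, the second part is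
multiplied by the product, which is `≥ 1`). So `(‖SZ N (ch χ)‖/N)^32 ≤ q^(-κ/1000)`, i.e. `‖SZ‖ ≤ N q^(-κ/32000)`. `SZ N (ch χ) = ∑_{n ∈ Icc 1 N} χ n` (casts). The modulus is `m0 * m1` in the statement (`q = m0 * m1`).
-/

namespace Pool.Agent.Lib.MP_42948a_nt.TH

open Finset Polynomial Pool.Agent.Lib.MP_42948a_nt.BU Pool.Agent.Lib.MP_42948a_nt.BU2

private theorem F4_yy_prod : ∀ (gs hs : List ℕ), hs.length = gs.length →
    (yy gs hs).prod = ((gs.prod * hs.prod : ℕ) : ℤ) := by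
  intro gs
  induction gs with
  | nil =>
    intro hs h
    have h1 : hs = [] := List.length_eq_zero_iff.1 (by simpa using h)
    subst h1
    simp [yy]
  | cons g gs ih =>
    intro hs h
    cases hs with
    | nil => simp at h
    | cons a hs =>
      have h1 : hs.length = gs.length := by simpa using h
      have h2 := ih hs h1
      have h3 : yy (g :: gs) (a :: hs) = ((g * a : ℕ) : ℤ) :: yy gs hs := rfl
      rw [h3, List.prod_cons, h2, List.prod_cons, List.prod_cons]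
      push_cast
      ring

private theorem F4_yy_length (gs hs : List ℕ) (h : hs.length = gs.length) :
    (yy gs hs).length = gs.length := by
  simp [yy, h]

theorem case_a (κ : ℝ) (hκ : 0 < κ) (hκ1 : κ ≤ 1 / 100) :
    ∃ q00 : ℕ, ∀ m0 m1 q' N : ℕ, ∀ [NeZero m0] [NeZero m1] [NeZero (m0 * m1)], q00 ≤ m0 * m1 → 0 < q' → m0.Coprime m1 → q' ∣ m1 →
      (∀ p : ℕ, p.Prime → p ∣ m1 → 46656 < p) →
      (∀ p : ℕ, p.Prime → q'.factorization p = min (m1.factorization p) 2) →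
      ((m0 * m1 : ℕ) : ℝ) ^ (κ / 20) ≤ q' → (q' : ℝ) ≤ ((m0 * m1 : ℕ) : ℝ) ^ (2 / 3 + κ / 20) →
      (∀ p : ℕ, p.Prime → p ∣ m0 * (m1 / q') → (p : ℝ) ≤ ((m0 * m1 : ℕ) : ℝ) ^ (1 / 3 : ℝ)) →
      ∀ χ : DirichletCharacter ℂ (m0 * m1), χ.IsPrimitive → ((m0 * m1 : ℕ) : ℝ) ^ (1 / 3 + κ) ≤ N →
      ‖∑ n ∈ Icc 1 N, χ (n : ZMod (m0 * m1))‖ ≤ N * ((m0 * m1 : ℕ) : ℝ) ^ (-(κ / 32000)) := by
  obtain ⟨q00, hnum⟩ := num_a κ hκ hκ1
  refine ⟨max q00 1, ?_⟩
  intro m0 m1 q' N _ _ _ hq hq'0 hco hdvd hP0 hfac hlow hhigh hprime χ hχ hN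
  have hm0 : 0 < m0 := Nat.pos_of_ne_zero (NeZero.ne m0)
  have hm1 : 0 < m1 := Nat.pos_of_ne_zero (NeZero.ne m1)
  have hq1 : 1 ≤ m0 * m1 := (le_max_right _ _).trans hq
  set Q : ℝ := ((m0 * m1 : ℕ) : ℝ) with hQ
  have hQ1 : 1 ≤ Q := by
    rw [hQ]
    exact_mod_cast hq1
  have hQ0 : 0 < Q := by linarith
  obtain ⟨H, H', Δ, y, α, hH, hH', hy, hyΔ, hα0, hα1, hg, hfin⟩ :=
    hnum (m0 * m1) m0 q' N ((le_max_left _ _).trans hq) (Nat.dvd_mul_right _ _)
      (hdvd.trans (Nat.dvd_mul_left m1 m0)) hlow hhigh hN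
  have hN1R : (1 : ℝ) ≤ N := by
    refine le_trans ?_ hN
    exact Real.one_le_rpow hQ1 (by linarith)
  have hN1 : 1 ≤ N := by exact_mod_cast hN1R
  have hN0 : (0 : ℝ) < N := by linarith
  have hdiv : 0 < m1 / q' := Nat.div_pos (Nat.le_of_dvd hm1 hdvd) hq'0
  have hG : 0 < m0 * (m1 / q') := Nat.mul_pos hm0 hdiv
  have hX : 1 ≤ Q ^ (1 / 3 : ℝ) := Real.one_le_rpow hQ1 (by norm_num)
  have hX3 : (Q ^ (1 / 3 : ℝ)) ^ 3 = Q := by
    rw [← Real.rpow_natCast, ← Real.rpow_mul hQ0.le]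
    norm_num
  have hGX : ((m0 * (m1 / q') : ℕ) : ℝ) ≤ (Q ^ (1 / 3 : ℝ)) ^ 3 := by
    rw [hX3, hQ]
    exact_mod_cast Nat.mul_le_mul_left m0 (Nat.div_le_self m1 q')
  obtain ⟨gs, hlen, hprod, hgs⟩ := blocks (Q ^ (1 / 3 : ℝ)) hX (m0 * (m1 / q')) hG hprime hGX
  have hq3 : ∀ p : ℕ, p.Prime → ¬ p ^ 3 ∣ q' := by
    intro p hp h3
    have h4 := (hp.pow_dvd_iff_le_factorization hq'0.ne').1 h3
    rw [hfac p hp] at h4
    have h5 := min_le_right (m1.factorization p) 2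
    omega
  set B : ℝ := (2 * Δ * H' + √((N : ℝ) * ((N : ℝ) / q' + 1) * ((q' : ℝ) / H' +
          2 * (((2 : ℝ) ^ (5 + 1)) ^ q'.primeFactors.card * √(q' : ℝ) * (q'.divisors.card : ℝ)))))
    with hB
  have hB0 : 0 ≤ B := by
    rw [hB]
    positivity
  set b : ℝ := (m0.divisors.card : ℝ) * B + (m0.divisors.card : ℝ) ^ 2 * 2 ^ 5 * ((N : ℝ) / y + 1)
    with hb
  have hb0 : 0 ≤ b := by
    rw [hb]
    positivity
  have hkey : ∀ hs : List ℕ, hs.length = gs.length → (∀ h ∈ hs, 1 ≤ h ∧ h < H) →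
      ‖SZ N (dvs (yy gs hs) (ch χ))‖ ≤
        N * (b / N * (hs.map (fun h => wt q' ((h : ℕ) : ℤ))).prod) := by
    intro hs hlen' _
    have hyl : (yy gs hs).length = 5 := by rw [F4_yy_length gs hs hlen', hlen]
    have hyne : yy gs hs ≠ [] := by
      intro h0
      rw [h0] at hyl
      simp at hyl
    have hyp : (yy gs hs).prod = ((m0 * (m1 / q') * hs.prod : ℕ) : ℤ) := by
      rw [F4_yy_prod gs hs hlen', hprod]
    have hfb := fixed_bound (yy gs hs) hyne ((hs.prod : ℕ) : ℤ) m0 m1 q' N H' Δ y hco hq'0 χ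
      (by
        intro p hp hpm
        refine ⟨?_, NT_of_primitive χ hχ p hp (hpm.trans (Nat.dvd_mul_left m1 m0))⟩
        rw [hyl]
        have := hP0 p hp hpm
        norm_num
        exact this)
      hfac
      (by
        rw [hyp, Int.natCast_dvd_natCast, mul_assoc]
        exact Nat.dvd_mul_right _ _)
      (by
        rw [hyp, ← Int.natCast_mul, Int.natCast_dvd_natCast]
        have h1 : q' * (m0 * (m1 / q') * hs.prod) = m1 * (m0 * hs.prod) := by
          have h2 : q' * (m1 / q') = m1 := Nat.mul_div_cancel' hdvd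
          calc q' * (m0 * (m1 / q') * hs.prod) = (q' * (m1 / q')) * (m0 * hs.prod) := by ring
            _ = _ := by rw [h2]
        rw [h1]
        exact Nat.dvd_mul_right _ _)
      (by
        intro p hp hpm hpT hcon
        rw [hyp, ← Int.natCast_pow, Int.natCast_dvd_natCast] at hcon
        rw [Int.natCast_dvd_natCast] at hpT
        have hc1 : (p ^ (m1.factorization p - q'.factorization p + 1)).Coprime hs.prod :=
          Nat.Coprime.pow_left _ ((Nat.Prime.coprime_iff_not_dvd hp).2 hpT)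
        have h1 := hc1.dvd_of_dvd_mul_right hcon
        have hpm0 : ¬ p ∣ m0 := by
          intro h
          exact hp.one_lt.ne' (Nat.eq_one_of_dvd_one (hco ▸ Nat.dvd_gcd h hpm))
        have hc2 : (p ^ (m1.factorization p - q'.factorization p + 1)).Coprime m0 :=
          Nat.Coprime.pow_left _ ((Nat.Prime.coprime_iff_not_dvd hp).2 hpm0)
        have h2 := hc2.dvd_of_dvd_mul_left h1
        have h3 := (hp.pow_dvd_iff_le_factorization hdiv.ne').1 h2
        rw [Nat.factorization_div hdvd, Finsupp.tsub_apply] at h3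
        omega)
      hH' hy (by rw [hyl]; exact hyΔ)
    rw [hyl] at hfb
    obtain ⟨hw1, hw2⟩ := wt_list q' hs
    refine hfb.trans ?_
    have e1 : (N : ℝ) * (b / N * (hs.map (fun h => wt q' ((h : ℕ) : ℤ))).prod) =
        b * (hs.map (fun h => wt q' ((h : ℕ) : ℤ))).prod := by
      field_simp
    have e2 : b * (hs.map (fun h => wt q' ((h : ℕ) : ℤ))).prod =
        (m0.divisors.card : ℝ) * (B * (hs.map (fun h => wt q' ((h : ℕ) : ℤ))).prod) +
        (m0.divisors.card : ℝ) ^ 2 * 2 ^ 5 * ((N : ℝ) / y + 1) *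
          (hs.map (fun h => wt q' ((h : ℕ) : ℤ))).prod := by
      rw [hb]
      ring
    rw [e1, e2]
    refine add_le_add ?_ ?_
    · refine mul_le_mul_of_nonneg_left ?_ (Nat.cast_nonneg _)
      exact mul_le_mul_of_nonneg_left hw1 hB0
    · exact le_mul_of_one_le_right (by positivity) hw2
  have hvdc := vdc_iter N H hN1 hH α hα0 hα1 (fun h => wt q' ((h : ℕ) : ℤ))
    (fun h => zero_le_one.trans (wt_ge_one q' _)) (q'.divisors.card : ℝ)
    (wt_Ico q' H hq'0 hq3) gs (fun g hg' => hg g (hgs g hg').2) (ch χ)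
    (fun n => DirichletCharacter.norm_le_one χ _) (b / N) (by positivity) hkey
  rw [hlen] at hvdc
  have hfin' := hvdc.trans hfin
  have hSZ : SZ N (ch χ) = ∑ n ∈ Icc 1 N, χ (n : ZMod (m0 * m1)) := by
    unfold SZ ch
    refine Finset.sum_congr rfl fun n _ => ?_
    rw [Int.cast_natCast]
  rw [hSZ] at hfin'
  have h32 : (Q ^ (-(κ / 32000))) ^ (2 ^ 5) = Q ^ (-(κ / 1000)) := by
    rw [← Real.rpow_natCast, ← Real.rpow_mul hQ0.le]
    congr 1
    push_cast
    ring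
  rw [← h32] at hfin'
  have hlast := (pow_le_pow_iff_left₀ (by positivity) (by positivity) (by norm_num)).1 hfin'
  rw [div_le_iff₀ hN0] at hlast
  exact hlast.trans (mul_comm _ _).le

end Pool.Agent.Lib.MP_42948a_nt.TH
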