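import Pool.Agent.Lib.MP_42948a_nt.TH.Defs

/-!
# The choice of the shift for moduli with a small radical (job G1)

`g = ∏_{p ∣ q} p^a`, `a = ⌈v/3⌉ = (v + 2) / 3`, `v = q.factorization p ≥ 1`; `m = q / gcd(q, g^2)`. For each prime: `1 ≤ a ≤ v ≤ 3 a ≤ v + 2`; `v_p(m) = v - min v (2 a) = v - 2 a` (truncated), `≤ a`, and `v ≤ 3 (v - 2a) + 4`. So `g ∣ q`, `q ∣ g^3`, `g^3 ∣ q (rad q)^2`,
`m ∣ g`, `q ∣ m^3 (rad q)^4` (compare factorizations, `Nat.factorization_le_iff_dvd`-like, `Nat.factorization_gcd`, `Nat.factorization_div`); divisibility gives the inequalities. `q ∣ m g^2` and `q ∣ g^2 t ↔ m ∣ t`: `q/gcd ∣ (g^2/gcd) t` and coprimality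
(`Nat.Coprime.dvd_of_dvd_mul_left`, `Nat.coprime_div_gcd_div_gcd`); for integers `t` via `Int.natAbs`.
-/

namespace Pool.Agent.Lib.MP_42948a_nt.TH

open Finset Polynomial Pool.Agent.Lib.MP_42948a_nt.BU Pool.Agent.Lib.MP_42948a_nt.BU2

private theorem THG1_make (q : ℕ) (hq : 0 < q) (φ : ℕ → ℕ) (h0 : φ 0 = 0) :
    ∃ g : ℕ, g ≠ 0 ∧ ∀ p, g.factorization p = φ (q.factorization p) := by
  obtain ⟨f, hf⟩ : ∃ f : ℕ →₀ ℕ, f = q.factorization.mapRange φ h0 := ⟨_, rfl⟩
  have hs : ∀ p ∈ f.support, Nat.Prime p := by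
    intro p hp
    rw [hf] at hp
    have h1 := Finsupp.support_mapRange hp
    rw [Nat.support_factorization] at h1
    exact Nat.prime_of_mem_primeFactors h1
  refine ⟨f.prod (fun x y => x ^ y), ?_, ?_⟩
  · rw [Finsupp.prod, Finset.prod_ne_zero_iff]
    intro p hp
    exact pow_ne_zero _ (hs p hp).ne_zero
  · intro p
    have h1 : (f.prod (fun x y => x ^ y)).factorization = f :=
      Nat.prod_pow_factorization_eq_self hs
    rw [h1, hf, Finsupp.mapRange_apply]

private theorem THG1_rad (q : ℕ) (hq : 0 < q) :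
    rad q ≠ 0 ∧ ∀ p, (rad q).factorization p = min (q.factorization p) 1 := by
  obtain ⟨g, hg0, hg⟩ := THG1_make q hq (fun v => min v 1) rfl
  have e : rad q = g := by
    have h1 : g = g.factorization.prod (fun x y => x ^ y) := (Nat.prod_factorization_pow_eq_self hg0).symm
    have hsup : g.factorization.support = q.primeFactors := by
      ext p
      rw [Finsupp.mem_support_iff, hg, ← Nat.support_factorization, Finsupp.mem_support_iff]
      omega
    rw [h1, Finsupp.prod, hsup, rad]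
    refine Finset.prod_congr rfl (fun p hp => ?_)
    have h2 : q.factorization p ≠ 0 := by
      rw [← Nat.support_factorization, Finsupp.mem_support_iff] at hp
      exact hp
    have h3 : g.factorization p = 1 := by
      rw [hg]
      show min (q.factorization p) 1 = 1
      omega
    rw [h3, pow_one]
  rw [e]
  exact ⟨hg0, hg⟩

theorem choose_g (q : ℕ) (hq : 0 < q) :
    ∃ g m : ℕ, 0 < g ∧ 0 < m ∧ g ∣ q ∧ q ∣ g ^ 3 ∧ (∀ p : ℕ, p.Prime → p ∣ q → p ∣ g) ∧
      g ^ 3 ≤ q * rad q ^ 2 ∧ q ≤ m ^ 3 * rad q ^ 4 ∧ m ∣ g ∧ m ∣ q ∧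
      (∀ p : ℕ, p.Prime → p ∣ m → q.factorization p = 2 * g.factorization p + m.factorization p) ∧
      ∀ t : ℤ, (q : ℤ) ∣ (g : ℤ) ^ 2 * t ↔ (m : ℤ) ∣ t := by
  have hq0 : q ≠ 0 := hq.ne'
  obtain ⟨g, hg0, hg⟩ := THG1_make q hq (fun v => (v + 2) / 3) rfl
  obtain ⟨m, hm0, hm⟩ := THG1_make q hq (fun v => v - 2 * ((v + 2) / 3)) rfl
  obtain ⟨hr0, hr⟩ := THG1_rad q hq
  have dvd_of : ∀ a b : ℕ, a ≠ 0 → b ≠ 0 → (∀ p, a.factorization p ≤ b.factorization p) → a ∣ b :=
    fun a b ha hb h => (Nat.factorization_le_iff_dvd ha hb).1 (fun p => h p)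
  refine ⟨g, m, Nat.pos_of_ne_zero hg0, Nat.pos_of_ne_zero hm0, ?_, ?_, ?_, ?_, ?_, ?_, ?_, ?_, ?_⟩
  · refine dvd_of _ _ hg0 hq0 (fun p => ?_)
    rw [hg]
    show (q.factorization p + 2) / 3 ≤ _
    omega
  · refine dvd_of _ _ hq0 (pow_ne_zero _ hg0) (fun p => ?_)
    rw [Nat.factorization_pow, Finsupp.smul_apply, hg, smul_eq_mul]
    show _ ≤ 3 * ((q.factorization p + 2) / 3)
    omega
  · intro p hp hpq
    rw [hp.dvd_iff_one_le_factorization hg0, hg]
    have h1 := (hp.dvd_iff_one_le_factorization hq0).1 hpq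
    show 1 ≤ (q.factorization p + 2) / 3
    omega
  · refine Nat.le_of_dvd (Nat.mul_pos hq (pow_pos (Nat.pos_of_ne_zero hr0) _)) ?_
    refine dvd_of _ _ (pow_ne_zero _ hg0) (mul_ne_zero hq0 (pow_ne_zero _ hr0)) (fun p => ?_)
    rw [Nat.factorization_mul hq0 (pow_ne_zero _ hr0), Nat.factorization_pow, Nat.factorization_pow,
      Finsupp.add_apply, Finsupp.smul_apply, Finsupp.smul_apply, hg, hr, smul_eq_mul, smul_eq_mul]
    show 3 * ((q.factorization p + 2) / 3) ≤ _
    omega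
  · refine Nat.le_of_dvd (Nat.mul_pos (pow_pos (Nat.pos_of_ne_zero hm0) _)
      (pow_pos (Nat.pos_of_ne_zero hr0) _)) ?_
    refine dvd_of _ _ hq0 (mul_ne_zero (pow_ne_zero _ hm0) (pow_ne_zero _ hr0)) (fun p => ?_)
    rw [Nat.factorization_mul (pow_ne_zero _ hm0) (pow_ne_zero _ hr0), Nat.factorization_pow,
      Nat.factorization_pow, Finsupp.add_apply, Finsupp.smul_apply, Finsupp.smul_apply, hm, hr,
      smul_eq_mul, smul_eq_mul]
    show _ ≤ 3 * (q.factorization p - 2 * ((q.factorization p + 2) / 3)) + _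
    omega
  · refine dvd_of _ _ hm0 hg0 (fun p => ?_)
    rw [hm, hg]
    show q.factorization p - 2 * ((q.factorization p + 2) / 3) ≤ (q.factorization p + 2) / 3
    omega
  · refine dvd_of _ _ hm0 hq0 (fun p => ?_)
    rw [hm]
    show q.factorization p - 2 * ((q.factorization p + 2) / 3) ≤ _
    omega
  · intro p hp hpm
    have h1 := (hp.dvd_iff_one_le_factorization hm0).1 hpm
    rw [hm] at h1 ⊢
    rw [hg]
    have h2 : 1 ≤ q.factorization p - 2 * ((q.factorization p + 2) / 3) := h1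
    show q.factorization p = 2 * ((q.factorization p + 2) / 3) +
      (q.factorization p - 2 * ((q.factorization p + 2) / 3))
    omega
  · intro t
    rw [Int.natCast_dvd, Int.natCast_dvd, Int.natAbs_mul, Int.natAbs_pow, Int.natAbs_natCast]
    by_cases ht : t.natAbs = 0
    · rw [ht, mul_zero]
      exact ⟨fun _ => dvd_zero _, fun _ => dvd_zero _⟩
    · have hg2 : g ^ 2 ≠ 0 := pow_ne_zero _ hg0
      rw [← Nat.factorization_le_iff_dvd hq0 (mul_ne_zero hg2 ht),
        ← Nat.factorization_le_iff_dvd hm0 ht, Nat.factorization_mul hg2 ht, Nat.factorization_pow,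
        Finsupp.le_def, Finsupp.le_def]
      refine forall_congr' (fun p => ?_)
      rw [Finsupp.add_apply, Finsupp.smul_apply, hg, hm, smul_eq_mul]
      show q.factorization p ≤ 2 * ((q.factorization p + 2) / 3) + _ ↔
        q.factorization p - 2 * ((q.factorization p + 2) / 3) ≤ _
      omega

end Pool.Agent.Lib.MP_42948a_nt.TH
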