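import Pool.Agent.Lib.MP_42948a_nt.TH.Defs
import Pool.Agent.Lib.MP_42948a_nt.BU.MA

/-!
# The additive character `w ↦ χ(1 - g ^ 2 w)` (job G2)

`lam_add`: `(1 - g^2 w)(1 - g^2 w') = 1 - g^2 (w + w') + g^4 w w'` and `q ∣ g^3 ∣ g^4`. `lam_norm`: `1 - g^2 w` is a unit mod `q` (a prime `p ∣ q` divides `g`), so `χ` has norm one there; hence `conj (λ w) = λ (-w)` (`λ w λ(-w) = λ 0 = 1`).
`lam_nontrivial`: let `m ∤ c`. There is a prime `p ∣ m` with `v_p(c) < v_p(m)` (`c ≠ 0`, or `c = 0` impossible). Then `v_p(g^2 c) = 2 v_p(g) + v_p(c) < v_p(q)`, so `gcd(g^2 c, q) ∣ q / p` (compare factorizations: for the other primes it is clear), hence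
(Bezout, `Int.gcd_eq_gcd_ab`) for every integer `s` there is `u` with `g^2 c u ≡ (q/p) s mod q`. By `NT χ p` (`NT_of_primitive` in `BU/MA.lean`) some `n ≡ 1 mod q/p` has `χ n ≠ 1`, `n = 1 - (q/p) s`, so `χ(1 - g^2 c u) = χ n ≠ 1`.
`lam_sum`: `S = ∑_{u ∈ range q} λ(c u)`; `u ↦ λ(c u)` is `q`-periodic and multiplicative, so `λ(c u0) S = S` for the `u0` of `lam_nontrivial`, hence `S = 0`.
-/

namespace Pool.Agent.Lib.MP_42948a_nt.TH

open Finset Polynomial Pool.Agent.Lib.MP_42948a_nt.BU Pool.Agent.Lib.MP_42948a_nt.BU2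

private theorem THG2_cube {q : ℕ} (g : ℕ) (h3 : q ∣ g ^ 3) : (g : ZMod q) ^ 3 = 0 := by
  rw [← Nat.cast_pow, ZMod.natCast_eq_zero_iff]
  exact h3

private theorem THG2_sum {q : ℕ} [NeZero q] (f : ZMod q → ℂ) :
    ∑ u ∈ range q, f (u : ZMod q) = ∑ x : ZMod q, f x := by
  refine Finset.sum_nbij' (fun u => (u : ZMod q)) (fun x => x.val) ?_ ?_ ?_ ?_ ?_
  · intro u _
    exact mem_univ _
  · intro x _
    exact mem_range.2 (ZMod.val_lt x)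
  · intro u hu
    exact ZMod.val_cast_of_lt (mem_range.1 hu)
  · intro x _
    exact ZMod.natCast_zmod_val x
  · intro u _
    rfl

private theorem THG2_dvd {q : ℕ} (hq : q ≠ 0) (g m : ℕ) (hg0 : 0 < g) (hm0 : 0 < m)
    (hmq : m ∣ q)
    (hv : ∀ p : ℕ, p.Prime → p ∣ m → q.factorization p = 2 * g.factorization p + m.factorization p)
    (c : ℤ) (hc : ¬ (m : ℤ) ∣ c) :
    ∃ p : ℕ, p.Prime ∧ p ∣ q ∧ Int.gcd ((g : ℤ) ^ 2 * c) q ∣ q / p := by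
  have hc0 : c.natAbs ≠ 0 := by
    intro h
    rw [Int.natAbs_eq_zero] at h
    exact hc (h ▸ dvd_zero _)
  have hnd : ¬ m ∣ c.natAbs := fun h => hc (Int.natCast_dvd.2 h)
  obtain ⟨p, hp⟩ : ∃ p, ¬ m.factorization p ≤ c.natAbs.factorization p := by
    by_contra hcon
    push Not at hcon
    exact hnd ((Nat.factorization_le_iff_dvd hm0.ne' hc0).1 hcon)
  have hpm : p ∈ m.primeFactors := by
    rw [← Nat.support_factorization, Finsupp.mem_support_iff]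
    omega
  have hpp := Nat.prime_of_mem_primeFactors hpm
  have hpdm := Nat.dvd_of_mem_primeFactors hpm
  have hpq : p ∣ q := hpdm.trans hmq
  refine ⟨p, hpp, hpq, ?_⟩
  have h1 : Int.gcd ((g : ℤ) ^ 2 * c) q = Nat.gcd (g ^ 2 * c.natAbs) q := by
    rw [Int.gcd_def, Int.natAbs_mul, Int.natAbs_pow, Int.natAbs_natCast, Int.natAbs_natCast]
  rw [h1]
  obtain ⟨G, hG⟩ : ∃ G, G = Nat.gcd (g ^ 2 * c.natAbs) q := ⟨_, rfl⟩
  rw [← hG]
  have hGq : G ∣ q := hG ▸ Nat.gcd_dvd_right _ _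
  have hGc : G ∣ g ^ 2 * c.natAbs := hG ▸ Nat.gcd_dvd_left _ _
  have hgc0 : g ^ 2 * c.natAbs ≠ 0 := mul_ne_zero (pow_ne_zero 2 hg0.ne') hc0
  have hG0 : G ≠ 0 := fun h => hq (by rw [h] at hGq; exact zero_dvd_iff.1 hGq)
  obtain ⟨k, hk⟩ := hGq
  have hk0 : k ≠ 0 := by
    rintro rfl
    exact hq hk
  have hpk : p ∣ k := by
    by_contra hpk
    have h2 : q.factorization p = G.factorization p := by
      rw [hk, Nat.factorization_mul hG0 hk0, Finsupp.add_apply,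
        Nat.factorization_eq_zero_of_not_dvd hpk, add_zero]
    have h3 : G.factorization p ≤ (g ^ 2 * c.natAbs).factorization p :=
      (Nat.factorization_le_iff_dvd hG0 hgc0).2 hGc p
    rw [Nat.factorization_mul (pow_ne_zero 2 hg0.ne') hc0, Nat.factorization_pow,
      Finsupp.add_apply, Finsupp.smul_apply, smul_eq_mul] at h3
    have h4 := hv p hpp hpdm
    omega
  obtain ⟨k', hk'⟩ := hpk
  refine ⟨k', ?_⟩
  rw [hk, hk']
  refine Nat.div_eq_of_eq_mul_left hpp.pos ?_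
  ring

theorem lam_add {q : ℕ} [NeZero q] (χ : DirichletCharacter ℂ q) (g : ℕ) (h3 : q ∣ g ^ 3) (w w' : ℤ) :
    χ ((1 - (g : ℤ) ^ 2 * (w + w') : ℤ) : ZMod q) =
      χ ((1 - (g : ℤ) ^ 2 * w : ℤ) : ZMod q) * χ ((1 - (g : ℤ) ^ 2 * w' : ℤ) : ZMod q) := by
  rw [← map_mul]
  congr 1
  have h := THG2_cube g h3
  push_cast
  linear_combination (-(g : ZMod q) * w * w') * h

theorem lam_conj {q : ℕ} [NeZero q] (χ : DirichletCharacter ℂ q) (g : ℕ) (h3 : q ∣ g ^ 3)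
    (hg : ∀ p : ℕ, p.Prime → p ∣ q → p ∣ g) (w : ℤ) :
    (starRingEnd ℂ) (χ ((1 - (g : ℤ) ^ 2 * w : ℤ) : ZMod q)) = χ ((1 - (g : ℤ) ^ 2 * (-w) : ℤ) : ZMod q) := by
  have h := THG2_cube g h3
  have h1 : ((1 - (g : ℤ) ^ 2 * w : ℤ) : ZMod q) * ((1 - (g : ℤ) ^ 2 * (-w) : ℤ) : ZMod q) = 1 := by
    push_cast
    linear_combination (-(g : ZMod q) * w * w) * h
  have h2 := congrArg χ h1
  rw [map_mul, map_one] at h2
  obtain ⟨z, hz⟩ : ∃ z, z = χ ((1 - (g : ℤ) ^ 2 * w : ℤ) : ZMod q) := ⟨_, rfl⟩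
  obtain ⟨z', hz'⟩ : ∃ z', z' = χ ((1 - (g : ℤ) ^ 2 * (-w) : ℤ) : ZMod q) := ⟨_, rfl⟩
  have hn : ‖z‖ ≤ 1 := hz ▸ χ.norm_le_one _
  have hn' : ‖z'‖ ≤ 1 := hz' ▸ χ.norm_le_one _
  rw [← hz, ← hz'] at h2
  rw [← hz, ← hz']
  have h3 : ‖z‖ * ‖z'‖ = 1 := by rw [← norm_mul, h2, norm_one]
  have h4 : ‖z‖ = 1 := by
    refine le_antisymm hn ?_
    calc (1 : ℝ) = ‖z‖ * ‖z'‖ := h3.symm
      _ ≤ ‖z‖ * 1 := mul_le_mul_of_nonneg_left hn' (norm_nonneg _)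
      _ = ‖z‖ := mul_one _
  rw [← Complex.inv_eq_conj h4]
  exact inv_eq_of_mul_eq_one_right h2

theorem lam_sum {q : ℕ} [NeZero q] (χ : DirichletCharacter ℂ q) (hχ : χ.IsPrimitive) (g m : ℕ) (hg0 : 0 < g) (hm0 : 0 < m)
    (h3 : q ∣ g ^ 3) (hg : ∀ p : ℕ, p.Prime → p ∣ q → p ∣ g) (hmq : m ∣ q)
    (hv : ∀ p : ℕ, p.Prime → p ∣ m → q.factorization p = 2 * g.factorization p + m.factorization p)
    (c : ℤ) (hc : ¬ (m : ℤ) ∣ c) :
    ∑ u ∈ range q, χ ((1 - (g : ℤ) ^ 2 * (c * (u : ℤ)) : ℤ) : ZMod q) = 0 := by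
  have hq : q ≠ 0 := NeZero.ne q
  have hcube := THG2_cube g h3
  obtain ⟨p, hp, hpq, k', hk'⟩ := THG2_dvd hq g m hg0 hm0 hmq hv c hc
  obtain ⟨n, hnq, hn1, hχn⟩ := NT_of_primitive χ hχ p hp hpq
  -- the point where the character is not trivial
  obtain ⟨u0, hu0⟩ : ∃ u0 : ℤ, χ (1 - (g : ZMod q) ^ 2 * ((c : ZMod q) * (u0 : ZMod q))) ≠ 1 := by
    obtain ⟨s, hs⟩ : ∃ s : ℤ, (n : ℤ) - 1 = ((q / p : ℕ) : ℤ) * s := by
      have h1 := (Nat.modEq_iff_dvd.1 hn1.symm)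
      obtain ⟨s, hs⟩ := h1
      exact ⟨s, by exact_mod_cast hs⟩
    have hbez := Int.gcd_eq_gcd_ab ((g : ℤ) ^ 2 * c) q
    refine ⟨-(Int.gcdA ((g : ℤ) ^ 2 * c) q * k' * s), ?_⟩
    have h2 : (n : ℤ) = 1 - (g : ℤ) ^ 2 * (c * -(Int.gcdA ((g : ℤ) ^ 2 * c) q * k' * s)) +
        (q : ℤ) * (Int.gcdB ((g : ℤ) ^ 2 * c) q * k' * s) := by
      have h3 : ((q / p : ℕ) : ℤ) = (Int.gcd ((g : ℤ) ^ 2 * c) q : ℤ) * k' := by
        rw [hk']
        push_cast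
        ring
      rw [h3, hbez] at hs
      linear_combination hs
    have h3 : (n : ZMod q) = 1 - (g : ZMod q) ^ 2 * ((c : ZMod q) *
        ((-(Int.gcdA ((g : ℤ) ^ 2 * c) q * k' * s) : ℤ) : ZMod q)) := by
      have h4 := congrArg (fun z : ℤ => (z : ZMod q)) h2
      push_cast at h4
      rw [ZMod.natCast_self, zero_mul, add_zero] at h4
      push_cast
      exact h4
    rw [← h3]
    exact hχn
  obtain ⟨f, hf⟩ : ∃ f : ZMod q → ℂ, ∀ x, f x = χ (1 - (g : ZMod q) ^ 2 * ((c : ZMod q) * x)) :=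
    ⟨_, fun x => rfl⟩
  have hmul : ∀ x y, f (x + y) = f x * f y := by
    intro x y
    rw [hf, hf, hf, ← map_mul]
    congr 1
    linear_combination (-(g : ZMod q) * c * c * x * y) * hcube
  have hS : ∑ u ∈ range q, χ ((1 - (g : ℤ) ^ 2 * (c * (u : ℤ)) : ℤ) : ZMod q) =
      ∑ x : ZMod q, f x := by
    rw [← THG2_sum f]
    refine Finset.sum_congr rfl fun u _ => ?_
    rw [hf]
    congr 1
    push_cast
    ring
  rw [hS]
  have h1 : ∑ x : ZMod q, f x = (∑ x : ZMod q, f x) * f (u0 : ZMod q) := by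
    rw [Finset.sum_mul, ← Equiv.sum_comp (Equiv.addRight (u0 : ZMod q)) f]
    exact Finset.sum_congr rfl fun x _ => hmul _ _
  have h2 : f (u0 : ZMod q) ≠ 1 := by
    rw [hf]
    exact hu0
  have h3 : (∑ x : ZMod q, f x) * (f (u0 : ZMod q) - 1) = 0 := by
    linear_combination -h1
  exact (mul_eq_zero.1 h3).resolve_right (sub_ne_zero.2 h2)

end Pool.Agent.Lib.MP_42948a_nt.TH
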