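import Pool.Agent.Lib.MP_42948a_nt.TH.G2
import Pool.Agent.Lib.MP_42948a_nt.TH.C1

/-!
# The quadratic sum (job G3)

Let `λ w = χ(1 - g^2 w)` (`w : ℤ`; it depends only on `w` mod `q`), `Γ = ∑_{x : (ZMod q)ˣ} χ(1 - g^2 c x^2)`. Work with `ZMod q`: `λ' x = χ(1 - g^2 x)` for `x : ZMod q`, additive by `lam_add`, `conj (λ' x) = λ' (-x)`.
`‖Γ‖^2 = ∑_{x, y units} λ'(c (x^2 - y^2)) = ∑_{t : ZMod q} ∑_{y : y, y + t units} λ'(c (2 y t + t^2))` (`x = y + t`). For fixed `t` the inner sum is invariant under `y ↦ y + ρ u` (`ρ = rad q`: `y + ρ u` is a unit iff `y` is, because every prime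
`p ∣ q` divides `ρ`), so it equals `(1/q) ∑_{u ∈ range q} ∑_y λ'(c (2 y t + t^2)) λ'(2 c t ρ u)`, which vanishes unless `m ∣ 2 c t ρ` (`lam_sum` with `2 c t ρ`, `t` replaced by `t.val`). Otherwise bound it by `q`. So
`‖Γ‖^2 ≤ q #{t < q : m ∣ 2 c ρ t} = q (q/m) gcd(m, 2 c ρ) ≤ q (q/m) 2 c ρ` (`m ∣ q`; `m ∣ a t ↔ (m/gcd(m, a)) ∣ t`, and the number of multiples of `m' ∣ q` below `q` is `q/m'`).
-/

namespace Pool.Agent.Lib.MP_42948a_nt.TH

open Finset Polynomial Pool.Agent.Lib.MP_42948a_nt.BU Pool.Agent.Lib.MP_42948a_nt.BU2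

private theorem THG3_int {q : ℕ} [NeZero q] (x : ZMod q) : ∃ n : ℤ, (n : ZMod q) = x :=
  ⟨(x.val : ℤ), by rw [Int.cast_natCast, ZMod.natCast_zmod_val]⟩

private theorem THG3_add {q : ℕ} [NeZero q] (χ : DirichletCharacter ℂ q) (g : ℕ) (h3 : q ∣ g ^ 3) (x y : ZMod q) :
    χ (1 - (g : ZMod q) ^ 2 * (x + y)) = χ (1 - (g : ZMod q) ^ 2 * x) * χ (1 - (g : ZMod q) ^ 2 * y) := by
  obtain ⟨a, rfl⟩ := THG3_int x
  obtain ⟨b, rfl⟩ := THG3_int y
  have h := lam_add χ g h3 a b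
  push_cast at h
  exact h

private theorem THG3_conj {q : ℕ} [NeZero q] (χ : DirichletCharacter ℂ q) (g : ℕ) (h3 : q ∣ g ^ 3)
    (hg : ∀ p : ℕ, p.Prime → p ∣ q → p ∣ g) (x : ZMod q) :
    (starRingEnd ℂ) (χ (1 - (g : ZMod q) ^ 2 * x)) = χ (1 - (g : ZMod q) ^ 2 * (-x)) := by
  obtain ⟨a, rfl⟩ := THG3_int x
  have h := lam_conj χ g h3 hg a
  push_cast at h
  exact h

private theorem THG3_dvd_rad {q p : ℕ} (hp : p.Prime) (hpq : p ∣ q) (hq : q ≠ 0) : p ∣ rad q := by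
  unfold rad
  exact Finset.dvd_prod_of_mem (fun p => p) (Nat.mem_primeFactors.2 ⟨hp, hpq, hq⟩)

private theorem THG3_rad_pos (q : ℕ) : 0 < rad q := by
  unfold rad
  exact Finset.prod_pos fun p hp => (Nat.prime_of_mem_primeFactors hp).pos

private theorem THG3_unit_one {q : ℕ} [NeZero q] (y : ZMod q) (u : ℕ) (h : IsUnit y) :
    IsUnit (y + (rad q : ZMod q) * (u : ZMod q)) := by
  have hq : q ≠ 0 := NeZero.ne q
  have hy : y = ((y.val : ℕ) : ZMod q) := (ZMod.natCast_zmod_val y).symm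
  have h1 : y + (rad q : ZMod q) * (u : ZMod q) = ((y.val + rad q * u : ℕ) : ZMod q) := by
    push_cast
    rw [ZMod.natCast_zmod_val]
  rw [h1, ZMod.isUnit_iff_coprime]
  rw [hy, ZMod.isUnit_iff_coprime] at h
  rw [Nat.coprime_iff_gcd_eq_one]
  by_contra hne
  obtain ⟨p, hp, hpd⟩ := Nat.exists_prime_and_dvd hne
  have hp1 : p ∣ y.val + rad q * u := hpd.trans (Nat.gcd_dvd_left _ _)
  have hp2 : p ∣ q := hpd.trans (Nat.gcd_dvd_right _ _)
  have hp3 : p ∣ rad q * u := (THG3_dvd_rad hp hp2 hq).mul_right u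
  have hp4 : p ∣ y.val := (Nat.dvd_add_left hp3).1 hp1
  have hp5 : p ∣ Nat.gcd y.val q := Nat.dvd_gcd hp4 hp2
  rw [Nat.coprime_iff_gcd_eq_one] at h
  rw [h] at hp5
  exact hp.one_lt.ne' (Nat.dvd_one.1 hp5)

private theorem THG3_unit {q : ℕ} [NeZero q] (y : ZMod q) (u : ℕ) :
    IsUnit (y + (rad q : ZMod q) * (u : ZMod q)) ↔ IsUnit y := by
  refine ⟨fun h => ?_, THG3_unit_one y u⟩
  have hq : 0 < q := Nat.pos_of_ne_zero (NeZero.ne q)
  have h1 := THG3_unit_one (y + (rad q : ZMod q) * (u : ZMod q)) ((q - 1) * u) h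
  have h2 : y + (rad q : ZMod q) * (u : ZMod q) + (rad q : ZMod q) * (((q - 1) * u : ℕ) : ZMod q) = y := by
    have h3 : (((q - 1) * u : ℕ) : ZMod q) = -(u : ZMod q) := by
      rw [Nat.cast_mul, Nat.cast_sub hq, ZMod.natCast_self]
      push_cast
      ring
    rw [h3]
    ring
  rw [h2] at h1
  exact h1

private theorem THG3_count (q m a : ℕ) (hq : 0 < q) (hm : 0 < m) (ha : 0 < a) (hmq : m ∣ q) :
    ((range q).filter (fun t => m ∣ a * t)).card * m ≤ q * a := by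
  obtain ⟨d, hd⟩ : ∃ d, d = Nat.gcd m a := ⟨_, rfl⟩
  have hd0 : 0 < d := by
    rw [hd]
    exact Nat.gcd_pos_of_pos_left _ hm
  obtain ⟨m', hm'⟩ : d ∣ m := by
    rw [hd]
    exact Nat.gcd_dvd_left _ _
  obtain ⟨a', ha'⟩ : d ∣ a := by
    rw [hd]
    exact Nat.gcd_dvd_right _ _
  have hm'0 : 0 < m' := by
    rcases Nat.eq_zero_or_pos m' with h | h
    · rw [h, mul_zero] at hm'
      omega
    · exact h
  have hcop : Nat.Coprime m' a' := by
    have h1 : Nat.Coprime (m / Nat.gcd m a) (a / Nat.gcd m a) := Nat.coprime_div_gcd_div_gcd (hd ▸ hd0)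
    rw [← hd] at h1
    have h2 : m / d = m' := Nat.div_eq_of_eq_mul_right hd0 hm'
    have h3 : a / d = a' := Nat.div_eq_of_eq_mul_right hd0 ha'
    rwa [h2, h3] at h1
  obtain ⟨k, hk⟩ : m' ∣ q := (Dvd.intro_left d hm'.symm).trans hmq
  have hsub : (range q).filter (fun t => m ∣ a * t) ⊆ (range k).image (fun j => m' * j) := by
    intro t ht
    rw [mem_filter, mem_range] at ht
    have h1 : d * m' ∣ d * (a' * t) := by
      have := ht.2
      rw [hm', ha', mul_assoc] at this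
      exact this
    have h2 : m' ∣ a' * t := Nat.dvd_of_mul_dvd_mul_left hd0 h1
    obtain ⟨j, hj⟩ : m' ∣ t := hcop.dvd_of_dvd_mul_left h2
    rw [mem_image]
    refine ⟨j, ?_, hj.symm⟩
    rw [mem_range]
    have h3 := ht.1
    rw [hj, hk] at h3
    exact Nat.lt_of_mul_lt_mul_left h3
  have hcard : ((range q).filter (fun t => m ∣ a * t)).card ≤ k := by
    refine (card_le_card hsub).trans (card_image_le.trans ?_)
    rw [card_range]
  have hda : d ≤ a := Nat.le_of_dvd ha (Dvd.intro a' ha'.symm)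
  calc ((range q).filter (fun t => m ∣ a * t)).card * m ≤ k * m := Nat.mul_le_mul_right m hcard
    _ = q * d := by rw [hk, hm']; ring
    _ ≤ q * a := Nat.mul_le_mul_left q hda

theorem quad_sum {q : ℕ} [NeZero q] (χ : DirichletCharacter ℂ q) (hχ : χ.IsPrimitive) (g m c : ℕ) (hg0 : 0 < g)
    (hm0 : 0 < m) (hc : 1 ≤ c) (h3 : q ∣ g ^ 3) (hg : ∀ p : ℕ, p.Prime → p ∣ q → p ∣ g) (hmq : m ∣ q)
    (hv : ∀ p : ℕ, p.Prime → p ∣ m → q.factorization p = 2 * g.factorization p + m.factorization p) :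
    ‖∑ x : (ZMod q)ˣ, χ (1 - (g : ZMod q) ^ 2 * ((c : ZMod q) * (x : ZMod q) ^ 2))‖ ^ 2 ≤
      (q : ℝ) ^ 2 * (2 * c * rad q) / m := by
  classical
  have hq0 : 0 < q := Nat.pos_of_ne_zero (NeZero.ne q)
  obtain ⟨L, hL⟩ : ∃ L : ZMod q → ℂ, ∀ x, L x = χ (1 - (g : ZMod q) ^ 2 * x) := ⟨_, fun _ => rfl⟩
  have hLadd : ∀ x y, L (x + y) = L x * L y := by
    intro x y
    rw [hL, hL, hL]
    exact THG3_add χ g h3 x y
  have hLconj : ∀ x, (starRingEnd ℂ) (L x) = L (-x) := by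
    intro x
    rw [hL, hL]
    exact THG3_conj χ g h3 hg x
  have hLn : ∀ x, ‖L x‖ ≤ 1 := by
    intro x
    rw [hL]
    exact χ.norm_le_one _
  obtain ⟨e, he1, he0⟩ : ∃ e : ZMod q → ℂ, (∀ x, IsUnit x → e x = 1) ∧ (∀ x, ¬ IsUnit x → e x = 0) :=
    ⟨fun x => if IsUnit x then 1 else 0, fun x hx => if_pos hx, fun x hx => if_neg hx⟩
  have hen : ∀ x, ‖e x‖ ≤ 1 := by
    intro x
    by_cases hx : IsUnit x
    · rw [he1 x hx, norm_one]
    · rw [he0 x hx, norm_zero]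
      exact zero_le_one
  obtain ⟨G, hG⟩ : ∃ G : ZMod q → ZMod q → ℂ, ∀ t y, G t y =
      e y * (e (y + t) * L ((c : ZMod q) * (2 * y * t + t ^ 2))) := ⟨_, fun _ _ => rfl⟩
  have hsum : ∀ f : ZMod q → ℂ, ∑ x : (ZMod q)ˣ, f (x : ZMod q) = ∑ x : ZMod q, e x * f x := by
    intro f
    have h1 : ∑ x : ZMod q, e x * f x = ∑ x ∈ (univ : Finset (ZMod q)ˣ).map ⟨Units.val, Units.val_injective⟩, e x * f x := by
      symm
      refine sum_subset (subset_univ _) fun x _ hx => ?_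
      have h2 : ¬ IsUnit x := by
        rintro ⟨y, hy⟩
        apply hx
        rw [mem_map]
        exact ⟨y, mem_univ _, hy⟩
      rw [he0 x h2, zero_mul]
    rw [h1, sum_map]
    refine sum_congr rfl fun x _ => ?_
    simp only [Function.Embedding.coeFn_mk]
    rw [he1 _ x.isUnit, one_mul]
  have hGam : (∑ x : (ZMod q)ˣ, L ((c : ZMod q) * (x : ZMod q) ^ 2)) *
      (starRingEnd ℂ) (∑ x : (ZMod q)ˣ, L ((c : ZMod q) * (x : ZMod q) ^ 2)) = ∑ t : ZMod q, ∑ y : ZMod q, G t y := by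
    rw [map_sum, sum_mul_sum, sum_comm]
    rw [hsum (fun y => ∑ x : (ZMod q)ˣ, L ((c : ZMod q) * (x : ZMod q) ^ 2) * (starRingEnd ℂ) (L ((c : ZMod q) * y ^ 2)))]
    rw [sum_comm (s := (univ : Finset (ZMod q))) (t := (univ : Finset (ZMod q)))]
    refine sum_congr rfl fun y _ => ?_
    rw [hsum (fun x => L ((c : ZMod q) * x ^ 2) * (starRingEnd ℂ) (L ((c : ZMod q) * y ^ 2)))]
    have h1 := Equiv.sum_comp (Equiv.addLeft y)
      (fun x => e x * (L ((c : ZMod q) * x ^ 2) * (starRingEnd ℂ) (L ((c : ZMod q) * y ^ 2))))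
    rw [← h1, mul_sum]
    refine sum_congr rfl fun t _ => ?_
    rw [hG]
    simp only [Equiv.coe_addLeft]
    rw [hLconj, ← hLadd]
    congr 4
    ring
  have hinv : ∀ (t : ZMod q) (u : ℕ), ∑ y : ZMod q, G t y =
      L (2 * (c : ZMod q) * t * (rad q : ZMod q) * (u : ZMod q)) * ∑ y : ZMod q, G t y := by
    intro t u
    have h1 := Equiv.sum_comp (Equiv.addRight ((rad q : ZMod q) * (u : ZMod q))) (fun y => G t y)
    rw [mul_sum]
    rw [← h1]
    refine sum_congr rfl fun y _ => ?_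
    simp only [Equiv.coe_addRight]
    have hee : ∀ x : ZMod q, e (x + (rad q : ZMod q) * (u : ZMod q)) = e x := by
      intro x
      by_cases hx : IsUnit x
      · rw [he1 x hx, he1 _ ((THG3_unit x u).2 hx)]
      · rw [he0 x hx, he0 _ (fun h => hx ((THG3_unit x u).1 h))]
    have h2 : y + (rad q : ZMod q) * (u : ZMod q) + t = y + t + (rad q : ZMod q) * (u : ZMod q) := by ring
    have h3 : (c : ZMod q) * (2 * (y + (rad q : ZMod q) * (u : ZMod q)) * t + t ^ 2) =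
        2 * (c : ZMod q) * t * (rad q : ZMod q) * (u : ZMod q) + (c : ZMod q) * (2 * y * t + t ^ 2) := by ring
    rw [hG, hG, h2, hee, hee, h3, hLadd]
    ring
  have hzero : ∀ t : ZMod q, ¬ m ∣ 2 * c * rad q * t.val → ∑ y : ZMod q, G t y = 0 := by
    intro t ht
    have h1 := lam_sum χ hχ g m hg0 hm0 h3 hg hmq hv ((2 * c * rad q * t.val : ℕ) : ℤ) (fun h => ht (Int.natCast_dvd_natCast.1 h))
    have h2 : ∑ u ∈ range q, L (2 * (c : ZMod q) * t * (rad q : ZMod q) * (u : ZMod q)) = 0 := by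
      rw [← h1]
      refine sum_congr rfl fun u _ => ?_
      rw [hL]
      congr 1
      push_cast
      rw [ZMod.natCast_zmod_val]
      ring
    have h3 : (q : ℂ) * ∑ y : ZMod q, G t y = 0 := by
      calc (q : ℂ) * ∑ y : ZMod q, G t y = ∑ u ∈ range q, ∑ y : ZMod q, G t y := by
            rw [sum_const, card_range, nsmul_eq_mul]
        _ = ∑ u ∈ range q, L (2 * (c : ZMod q) * t * (rad q : ZMod q) * (u : ZMod q)) * ∑ y : ZMod q, G t y :=
            sum_congr rfl fun u _ => hinv t u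
        _ = 0 := by rw [← sum_mul, h2, zero_mul]
    rcases mul_eq_zero.1 h3 with h | h
    · exact absurd h (Nat.cast_ne_zero.2 hq0.ne')
    · exact h
  have hGn : ∀ t y, ‖G t y‖ ≤ 1 := by
    intro t y
    rw [hG, norm_mul, norm_mul]
    exact mul_le_one₀ (hen _) (by positivity) (mul_le_one₀ (hen _) (norm_nonneg _) (hLn _))
  have hbd : ∀ t : ZMod q, ‖∑ y : ZMod q, G t y‖ ≤ q := by
    intro t
    refine (norm_sum_le _ _).trans ((sum_le_sum fun y _ => hGn t y).trans (le_of_eq ?_))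
    simp [ZMod.card]
  have hnorm : ‖∑ x : (ZMod q)ˣ, L ((c : ZMod q) * (x : ZMod q) ^ 2)‖ ^ 2 = ‖∑ t : ZMod q, ∑ y : ZMod q, G t y‖ := by
    rw [← hGam, norm_mul, RCLike.norm_conj, sq]
  have hcnt := THG3_count q m (2 * c * rad q) hq0 hm0 (by have := THG3_rad_pos q; positivity) hmq
  have hcard : ((univ : Finset (ZMod q)).filter (fun t => m ∣ 2 * c * rad q * t.val)).card ≤
      ((range q).filter (fun t => m ∣ 2 * c * rad q * t)).card := by
    refine card_le_card_of_injOn (fun t => t.val) ?_ ?_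
    · intro t ht
      simp only [coe_filter, mem_univ, true_and, Set.mem_ofPred_eq] at ht
      simp only [coe_filter, mem_range, Set.mem_ofPred_eq]
      exact ⟨ZMod.val_lt t, ht⟩
    · intro t _ t' _ h
      exact ZMod.val_injective q h
  have hmain : ‖∑ t : ZMod q, ∑ y : ZMod q, G t y‖ ≤
      (((range q).filter (fun t => m ∣ 2 * c * rad q * t)).card : ℝ) * q := by
    have h1 : ∑ t : ZMod q, ∑ y : ZMod q, G t y =
        ∑ t ∈ (univ : Finset (ZMod q)).filter (fun t => m ∣ 2 * c * rad q * t.val), ∑ y : ZMod q, G t y := by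
      symm
      refine sum_subset (filter_subset _ _) fun t _ ht => hzero t fun h => ht ?_
      rw [mem_filter]
      exact ⟨mem_univ _, h⟩
    rw [h1]
    refine (norm_sum_le _ _).trans ((sum_le_sum fun t _ => hbd t).trans ?_)
    rw [sum_const, nsmul_eq_mul]
    exact mul_le_mul_of_nonneg_right (by exact_mod_cast hcard) (by positivity)
  have hfin : ∀ x : (ZMod q)ˣ, χ (1 - (g : ZMod q) ^ 2 * ((c : ZMod q) * (x : ZMod q) ^ 2)) =
      L ((c : ZMod q) * (x : ZMod q) ^ 2) := fun x => (hL _).symm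
  rw [sum_congr rfl fun x _ => hfin x, hnorm]
  refine hmain.trans ?_
  have hm' : (0 : ℝ) < m := by exact_mod_cast hm0
  rw [le_div_iff₀ hm']
  have hcr : (((range q).filter (fun t => m ∣ 2 * c * rad q * t)).card : ℝ) * m ≤ (q : ℝ) * (2 * c * rad q) := by
    exact_mod_cast hcnt
  calc (((range q).filter (fun t => m ∣ 2 * c * rad q * t)).card : ℝ) * q * m =
        q * ((((range q).filter (fun t => m ∣ 2 * c * rad q * t)).card : ℝ) * m) := by ring
    _ ≤ q * ((q : ℝ) * (2 * c * rad q)) := mul_le_mul_of_nonneg_left hcr (by positivity)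
    _ = (q : ℝ) ^ 2 * (2 * c * rad q) := by ring

end Pool.Agent.Lib.MP_42948a_nt.TH
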