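import Pool.Agent.Lib.MP_42948a_nt.TH.B4
import Pool.Agent.Lib.MP_42948a_nt.TH.C1
import Pool.Agent.Lib.MP_42948a_nt.TH.G3

/-!
# Two differences with multiples of `g` (job G4)

`l = [g h1, g h2]`. `VP l = [0, g h1 + g h2]`-like and `VM l = [g h2, g h1]`-like (unfold `VV`; up to `+ 0`), so `AV l n = n (n + g h1 + g h2)`, `BV l n = (n + g h1)(n + g h2)`, `AV = BV - g^2 h1 h2`.
`dvs_two`: for `n` coprime to `q` (then all `n + v` are coprime to `q`, because every prime `p ∣ q` divides `g`), with `n n' ≡ 1 mod q`: `BV (1 - g^2 h1 h2 n'^2) ≡ BV - g^2 h1 h2 mod q` because `BV n'^2 ≡ 1 mod g` gives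
`g^2 BV n'^2 ≡ g^2 mod g^3` and `q ∣ g^3`. So `dvs l (ch χ) n = χ(AV) conj χ(BV) = χ(1 - g^2 h1 h2 n'^2)`; otherwise it is `0` (`dvs_zero`, the vertex `0`). In `ZMod q` with the unit `x = n`: `n' = x⁻¹`. Sum over `n` (`CZ_zmod`; the sum over `ZMod q` of a
function vanishing off the units is the sum over the units) and replace `x` by `x⁻¹`: `CZ q (dvs l (ch χ)) = ∑_{x : (ZMod q)ˣ} χ(1 - g^2 h1 h2 x^2)`.
`two_bound`: `dvs_period` with `m := q`, `q' := g` (`q ∣ g * (g h1 * g h2)` since `q ∣ g^3`): the function has the period `g`, `CZ q = (q/g) CZ g` (`CZ_mul`), and `SZ_le_CZ` for `g`: `‖SZ N f‖ ≤ (N/g) ‖CZ g f‖ + g = (N/q) ‖CZ q f‖ + g`, `quad_sum` with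
`c = h1 h2`: `‖CZ q f‖ ≤ q √(2 h1 h2 rad q/m)`.
-/

namespace Pool.Agent.Lib.MP_42948a_nt.TH

open Finset Polynomial Pool.Agent.Lib.MP_42948a_nt.BU Pool.Agent.Lib.MP_42948a_nt.BU2

private theorem THG4_conj {q : ℕ} (χ : DirichletCharacter ℂ q) {x y : ZMod q} (h : x * y = 1) :
    (starRingEnd ℂ) (χ x) = χ y := by
  have h2 := congrArg χ h
  rw [map_mul, map_one] at h2
  have hn : ‖χ x‖ ≤ 1 := χ.norm_le_one _
  have hn' : ‖χ y‖ ≤ 1 := χ.norm_le_one _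
  have h3 : ‖χ x‖ * ‖χ y‖ = 1 := by rw [← norm_mul, h2, norm_one]
  have h4 : ‖χ x‖ = 1 := by
    refine le_antisymm hn ?_
    calc (1 : ℝ) = ‖χ x‖ * ‖χ y‖ := h3.symm
      _ ≤ ‖χ x‖ * 1 := mul_le_mul_of_nonneg_left hn' (norm_nonneg _)
      _ = ‖χ x‖ := mul_one _
  rw [← Complex.inv_eq_conj h4]
  exact inv_eq_of_mul_eq_one_right h2

private theorem THG4_alg {R : Type*} [CommRing R] (g h1 h2 x y : R) (hg : g ^ 3 = 0)
    (hxy : x * y = 1) : ∃ v : R, ((x + g * h1) * (x + g * h2)) * v = 1 ∧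
      (x * (x + g * h1 + g * h2)) * v = 1 - g ^ 2 * (h1 * h2 * y ^ 2) := by
  have ht : ∀ h : R, (x + g * h) * (y * (1 - g * h * y + (g * h * y) ^ 2)) = 1 := by
    intro h
    have e1 : (x + g * h) * (y * (1 - g * h * y + (g * h * y) ^ 2)) =
        (x * y + g * h * y) * (1 - g * h * y + (g * h * y) ^ 2) := by ring
    rw [e1, hxy]
    linear_combination (h * y) ^ 3 * hg
  obtain ⟨v, hv⟩ : ∃ v, v = (y * (1 - g * h1 * y + (g * h1 * y) ^ 2)) *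
    (y * (1 - g * h2 * y + (g * h2 * y) ^ 2)) := ⟨_, rfl⟩
  have hw : ((x + g * h1) * (x + g * h2)) * v = 1 := by
    rw [hv]
    linear_combination (x + g * h2) * (y * (1 - g * h2 * y + (g * h2 * y) ^ 2)) * ht h1 + ht h2
  refine ⟨v, hw, ?_⟩
  -- `g ^ 2 v = g ^ 2 y ^ 2`
  have h4 : g ^ 2 * v = g ^ 2 * y ^ 2 := by
    rw [hv]
    linear_combination (y ^ 2 * (-(h1 * y) + h1 ^ 2 * g * y ^ 2 - h2 * y + h2 ^ 2 * g * y ^ 2 +
      g * (h1 * y) * (h2 * y) - g ^ 2 * (h1 * y) * (h2 * y) ^ 2 -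
      g ^ 2 * (h1 * y) ^ 2 * (h2 * y) + g ^ 3 * (h1 * y) ^ 2 * (h2 * y) ^ 2)) * hg
  linear_combination hw - (h1 * h2) * h4

private theorem THG4_dvs (a b : ℤ) (F : ℤ → ℂ) (n : ℤ) : dvs [a, b] F n =
    F n * (starRingEnd ℂ) (F (n + a)) * ((starRingEnd ℂ) (F (n + b)) * F (n + b + a)) := by
  show (F n * (starRingEnd ℂ) (F (n + a))) *
    (starRingEnd ℂ) (F (n + b) * (starRingEnd ℂ) (F (n + b + a))) = _
  rw [map_mul, Complex.conj_conj]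

theorem dvs_two {q : ℕ} [NeZero q] (χ : DirichletCharacter ℂ q) (g h1 h2 : ℕ) (h3 : q ∣ g ^ 3)
    (hg : ∀ p : ℕ, p.Prime → p ∣ q → p ∣ g) :
    CZ q (dvs [((g * h1 : ℕ) : ℤ), ((g * h2 : ℕ) : ℤ)] (ch χ)) =
      ∑ x : (ZMod q)ˣ, χ (1 - (g : ZMod q) ^ 2 * (((h1 * h2 : ℕ) : ZMod q) * (x : ZMod q) ^ 2)) := by
  have hcube : (g : ZMod q) ^ 3 = 0 := by
    rw [← Nat.cast_pow, ZMod.natCast_eq_zero_iff]
    exact h3
  obtain ⟨f, hf⟩ : ∃ f : ZMod q → ℂ, ∀ x, f x = χ x * (starRingEnd ℂ) (χ (x + g * h1)) *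
      ((starRingEnd ℂ) (χ (x + g * h2)) * χ (x + g * h2 + g * h1)) := ⟨_, fun x => rfl⟩
  have e1 : CZ q (dvs [((g * h1 : ℕ) : ℤ), ((g * h2 : ℕ) : ℤ)] (ch χ)) =
      CZ q (fun n => f ((n : ℤ) : ZMod q)) := by
    unfold CZ
    refine Finset.sum_congr rfl fun n _ => ?_
    show _ = f (((n : ℕ) : ℤ) : ZMod q)
    rw [THG4_dvs, hf]
    unfold ch
    push_cast
    rfl
  rw [e1, CZ_zmod]
  have e2 : ∑ x : ZMod q, f x = ∑ x : (ZMod q)ˣ, f (x : ZMod q) := by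
    symm
    refine Fintype.sum_of_injective (fun u : (ZMod q)ˣ => (u : ZMod q)) Units.val_injective _ _ ?_
      (fun u => rfl)
    intro x hx
    have hx' : ¬ IsUnit x := fun ⟨u, hu⟩ => hx ⟨u, hu⟩
    rw [hf, χ.map_nonunit hx', zero_mul, zero_mul]
  rw [e2, ← Equiv.sum_comp (Equiv.inv (ZMod q)ˣ)]
  refine Finset.sum_congr rfl fun u _ => ?_
  rw [Equiv.inv_apply, hf]
  obtain ⟨v, hv1, hv2⟩ := THG4_alg (g : ZMod q) h1 h2 ((u⁻¹ : (ZMod q)ˣ) : ZMod q) (u : ZMod q)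
    hcube (Units.inv_mul u)
  have e5 : (starRingEnd ℂ) (χ (((u⁻¹ : (ZMod q)ˣ) : ZMod q) + g * h1)) *
      (starRingEnd ℂ) (χ (((u⁻¹ : (ZMod q)ˣ) : ZMod q) + g * h2)) = χ v := by
    rw [← map_mul, ← map_mul]
    exact THG4_conj χ hv1
  have e6 : χ (1 - (g : ZMod q) ^ 2 * (((h1 * h2 : ℕ) : ZMod q) * (u : ZMod q) ^ 2)) =
      χ ((u⁻¹ : (ZMod q)ˣ) : ZMod q) * χ (((u⁻¹ : (ZMod q)ˣ) : ZMod q) + g * h2 + g * h1) * χ v := by
    rw [← map_mul, ← map_mul]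
    congr 1
    push_cast
    linear_combination -hv2
  rw [e6, ← e5]
  ring

theorem two_bound {q : ℕ} [NeZero q] (χ : DirichletCharacter ℂ q) (hχ : χ.IsPrimitive) (g m h1 h2 N : ℕ) (hg0 : 0 < g)
    (hm0 : 0 < m) (hh1 : 1 ≤ h1) (hh2 : 1 ≤ h2) (hgq : g ∣ q) (h3 : q ∣ g ^ 3)
    (hg : ∀ p : ℕ, p.Prime → p ∣ q → p ∣ g) (hmq : m ∣ q)
    (hv : ∀ p : ℕ, p.Prime → p ∣ m → q.factorization p = 2 * g.factorization p + m.factorization p) :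
    ‖SZ N (dvs [((g * h1 : ℕ) : ℤ), ((g * h2 : ℕ) : ℤ)] (ch χ))‖ ≤ N * √(2 * (h1 * h2) * rad q / m) + g := by
  have hq : 0 < q := Nat.pos_of_ne_zero (NeZero.ne q)
  have : NeZero g := ⟨hg0.ne'⟩
  obtain ⟨F, hF⟩ : ∃ F, F = dvs [((g * h1 : ℕ) : ℤ), ((g * h2 : ℕ) : ℤ)] (ch χ) := ⟨_, rfl⟩
  rw [← hF]
  have hper : Per g F := by
    rw [hF]
    refine dvs_period χ _ g ?_ hg
    have h5 : ((g : ℤ) * [((g * h1 : ℕ) : ℤ), ((g * h2 : ℕ) : ℤ)].prod) =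
        ((g ^ 3 : ℕ) : ℤ) * ((h1 * h2 : ℕ) : ℤ) := by
      rw [List.prod_cons, List.prod_cons, List.prod_nil]
      push_cast
      ring
    rw [h5]
    exact dvd_mul_of_dvd_left (Int.natCast_dvd_natCast.2 h3) _
  have hF1 : ∀ n, ‖F n‖ ≤ 1 := by
    intro n
    rw [hF]
    exact dvs_norm _ _ (ch_norm χ) n
  have hb := SZ_le_CZ g F hF1 hper N
  have hmul := CZ_mul (q / g) g F hper
  rw [Nat.div_mul_cancel hgq] at hmul
  have hsum : CZ q F = ∑ x : (ZMod q)ˣ, χ (1 - (g : ZMod q) ^ 2 *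
      (((h1 * h2 : ℕ) : ZMod q) * (x : ZMod q) ^ 2)) := by
    rw [hF]
    exact dvs_two χ g h1 h2 h3 hg
  have hquad := quad_sum χ hχ g m (h1 * h2) hg0 hm0 (Nat.mul_pos hh1 hh2) h3 hg hmq hv
  rw [← hsum] at hquad
  have hqR : (0 : ℝ) < q := by exact_mod_cast hq
  have hgR : (0 : ℝ) < g := by exact_mod_cast hg0
  have hmR : (0 : ℝ) < m := by exact_mod_cast hm0
  obtain ⟨X, hX⟩ : ∃ X : ℝ, X = 2 * (h1 * h2) * rad q / m := ⟨_, rfl⟩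
  have hX0 : 0 ≤ X := by
    rw [hX]
    positivity
  have hC : ‖CZ q F‖ ≤ q * √X := by
    refine le_of_sq_le_sq ?_ (by positivity)
    rw [mul_pow, Real.sq_sqrt hX0, hX]
    refine hquad.trans (le_of_eq ?_)
    push_cast
    ring
  have hCg : (N : ℝ) / g * ‖CZ g F‖ = N / q * ‖CZ q F‖ := by
    rw [hmul, norm_mul, Complex.norm_natCast, Nat.cast_div hgq hgR.ne']
    field_simp
  rw [← hX]
  calc ‖SZ N F‖ ≤ N / g * ‖CZ g F‖ + g := hb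
    _ = N / q * ‖CZ q F‖ + g := by rw [hCg]
    _ ≤ N / q * (q * √X) + g := by gcongr
    _ = N * √X + g := by
      field_simp

end Pool.Agent.Lib.MP_42948a_nt.TH
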