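import Pool.Agent.Lib.MP_42948a_nt.TH.A2
import Pool.Agent.Lib.MP_42948a_nt.TH.G1
import Pool.Agent.Lib.MP_42948a_nt.TH.G4

/-!
# The bound for moduli with a small radical (job G5)

`Q = (q : ℝ)`, `ρ = rad q ≤ Q^(κ/10)`. `choose_g`: `g^3 ≤ Q ρ^2`, so `g ≤ Q^(1/3 + κ/15)`; `Q ≤ m^3 ρ^4`, so `m ≥ Q^(1/3 - 2κ/15)`. `H = ⌊Q^(κ/20)⌋₊ ≥ 1`, `α = Q^(κ/15 + κ/20 - κ) ≤ 1`: `g H ≤ α N`. `vdc_iter` with `gs = [g, g]`, `w = 1`, `W = 1`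
(`∑_{Ico 1 H} 1 = H - 1 ≤ H`), `hs = [h1, h2]`, `yy gs hs = [g h1, g h2]`, `two_bound`: `β = √(2 H^2 ρ/m) + g/N`, where `2 H^2 ρ/m ≤ 2 Q^(κ/10 + κ/10 - 1/3 + 2κ/15) ≤ Q^(-1/6)` for large `q` (`κ ≤ 1/100`), `g/N ≤ Q^(κ/15 - κ)`. So
`(‖SZ N (ch χ)‖/N)^4 ≤ CV 2 (1/H + α + β) ≤ CV 2 (2 Q^(-κ/20) + Q^(-κ/2) + Q^(-1/12) + Q^(-κ/2)) ≤ Q^(-κ/25)` for large `q`, i.e. `‖SZ‖ ≤ N Q^(-κ/100)`.
-/

namespace Pool.Agent.Lib.MP_42948a_nt.TH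

open Finset Polynomial Pool.Agent.Lib.MP_42948a_nt.BU Pool.Agent.Lib.MP_42948a_nt.BU2

private theorem THG5_large (κ : ℝ) (hκ : 0 < κ) : ∃ q00 : ℕ, ∀ q : ℕ, q00 ≤ q →
    1 ≤ (q : ℝ) ∧ 69120 ≤ (q : ℝ) ^ (κ / 100) := by
  have h1 : Filter.Tendsto (fun q : ℕ => (q : ℝ) ^ (κ / 100)) Filter.atTop Filter.atTop :=
    (tendsto_rpow_atTop (by positivity)).comp tendsto_natCast_atTop_atTop
  have h2 := (h1.eventually_ge_atTop 69120).and (Filter.eventually_ge_atTop 1)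
  obtain ⟨q00, h3⟩ := Filter.eventually_atTop.1 h2
  refine ⟨q00, fun q hq => ?_⟩
  obtain ⟨h4, h5⟩ := h3 q hq
  exact ⟨by exact_mod_cast h5, h4⟩

private theorem THG5_CV : CV 2 = 13824 := by
  show (24 : ℝ) ^ (2 ^ 1) * ((24 : ℝ) ^ (2 ^ 0) * 1) = 13824
  norm_num

private theorem THG5_fin (Q κ x : ℝ) (hκ : 0 < κ) (hQ : 1 ≤ Q) (hx : 0 ≤ x) (hL : 69120 ≤ Q ^ (κ / 100))
    (h : x ^ 4 ≤ 13824 * (5 * Q ^ (-(κ / 20)))) : x ≤ Q ^ (-(κ / 100)) := by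
  have hQ0 : 0 < Q := by linarith
  have h1 : x ^ 4 ≤ (Q ^ (-(κ / 100))) ^ 4 := by
    refine h.trans ?_
    rw [← Real.rpow_natCast (Q ^ (-(κ / 100))) 4, ← Real.rpow_mul hQ0.le]
    have h2 : -(κ / 100) * ((4 : ℕ) : ℝ) = κ / 100 + -(κ / 20) := by
      push_cast
      ring
    rw [h2, Real.rpow_add hQ0, ← mul_assoc]
    have h3 : (0 : ℝ) ≤ Q ^ (-(κ / 20)) := Real.rpow_nonneg hQ0.le _
    refine mul_le_mul_of_nonneg_right ?_ h3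
    linarith
  exact le_of_pow_le_pow_left₀ (by norm_num) (Real.rpow_nonneg hQ0.le _) h1

private theorem THG5_gm (Q κ g m r : ℝ) (hQ : 1 ≤ Q) (hg0 : 0 ≤ g) (hm0 : 0 < m) (hr0 : 0 ≤ r)
    (hr : r ≤ Q ^ (2 * (κ / 20))) (h1 : g ^ 3 ≤ Q * r ^ 2) (h2 : Q ≤ m ^ 3 * r ^ 4) :
    g ≤ Q ^ (1 / 3 + κ / 15) ∧ Q ^ (1 / 3 - 2 * κ / 15) ≤ m := by
  have hQ0 : 0 < Q := by linarith
  constructor
  · have h3 : g ^ 3 ≤ (Q ^ (1 / 3 + κ / 15)) ^ 3 := by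
      refine h1.trans ?_
      have h4 : r ^ 2 ≤ (Q ^ (2 * (κ / 20))) ^ 2 := pow_le_pow_left₀ hr0 hr 2
      refine (mul_le_mul_of_nonneg_left h4 hQ0.le).trans (le_of_eq ?_)
      rw [← Real.rpow_natCast (Q ^ (2 * (κ / 20))) 2, ← Real.rpow_mul hQ0.le,
        ← Real.rpow_natCast (Q ^ (1 / 3 + κ / 15)) 3, ← Real.rpow_mul hQ0.le]
      nth_rewrite 1 [← Real.rpow_one Q]
      rw [← Real.rpow_add hQ0]
      congr 1
      push_cast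
      ring
    exact le_of_pow_le_pow_left₀ (by norm_num) (Real.rpow_nonneg hQ0.le _) h3
  · have h3 : (Q ^ (1 / 3 - 2 * κ / 15)) ^ 3 ≤ m ^ 3 := by
      have h4 : r ^ 4 ≤ (Q ^ (2 * (κ / 20))) ^ 4 := pow_le_pow_left₀ hr0 hr 4
      have h5 : Q ≤ m ^ 3 * (Q ^ (2 * (κ / 20))) ^ 4 :=
        h2.trans (mul_le_mul_of_nonneg_left h4 (by positivity))
      have h6 : (Q ^ (2 * (κ / 20))) ^ 4 = Q ^ (2 * κ / 5) := by
        rw [← Real.rpow_natCast (Q ^ (2 * (κ / 20))) 4, ← Real.rpow_mul hQ0.le]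
        congr 1
        push_cast
        ring
      have h7 : (Q ^ (1 / 3 - 2 * κ / 15)) ^ 3 * Q ^ (2 * κ / 5) = Q := by
        rw [← Real.rpow_natCast (Q ^ (1 / 3 - 2 * κ / 15)) 3, ← Real.rpow_mul hQ0.le,
          ← Real.rpow_add hQ0]
        nth_rewrite 2 [← Real.rpow_one Q]
        congr 1
        push_cast
        ring
      rw [h6] at h5
      have h8 : (0 : ℝ) < Q ^ (2 * κ / 5) := Real.rpow_pos_of_pos hQ0 _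
      have h9 : (Q ^ (1 / 3 - 2 * κ / 15)) ^ 3 * Q ^ (2 * κ / 5) ≤ m ^ 3 * Q ^ (2 * κ / 5) := by
        rw [h7]
        exact h5
      exact le_of_mul_le_mul_right h9 h8
    exact le_of_pow_le_pow_left₀ (by norm_num) hm0.le h3

private theorem THG5_beta (Q κ H m r : ℝ) (hκ : 0 < κ) (hκ1 : κ ≤ 1 / 100) (hQ : 1 ≤ Q) (hm0 : 0 < m)
    (hr0 : 0 ≤ r) (hr : r ≤ Q ^ (2 * (κ / 20))) (hm : Q ^ (1 / 3 - 2 * κ / 15) ≤ m)
    (hH0 : 0 ≤ H) (hH : H ≤ Q ^ (κ / 20)) (hL : 69120 ≤ Q ^ (κ / 100)) :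
    √(2 * (H * H) * r / m) ≤ Q ^ (-(κ / 20)) := by
  have hQ0 : 0 < Q := by linarith
  rw [Real.sqrt_le_left (Real.rpow_nonneg hQ0.le _)]
  have hm1 : (0 : ℝ) < Q ^ (1 / 3 - 2 * κ / 15) := Real.rpow_pos_of_pos hQ0 _
  have h1 : H * H ≤ Q ^ (κ / 20) * Q ^ (κ / 20) := mul_le_mul hH hH hH0 (Real.rpow_nonneg hQ0.le _)
  have h2 : 2 * (H * H) * r ≤ 2 * (Q ^ (κ / 20) * Q ^ (κ / 20)) * Q ^ (2 * (κ / 20)) :=
    mul_le_mul (by linarith) hr hr0 (by positivity)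
  have h3 : 2 * (H * H) * r / m ≤
      2 * (Q ^ (κ / 20) * Q ^ (κ / 20)) * Q ^ (2 * (κ / 20)) / Q ^ (1 / 3 - 2 * κ / 15) :=
    div_le_div₀ (by positivity) h2 hm1 hm
  refine h3.trans ?_
  rw [div_le_iff₀ hm1, ← Real.rpow_add hQ0, mul_assoc, ← Real.rpow_add hQ0,
    ← Real.rpow_natCast (Q ^ (-(κ / 20))) 2, ← Real.rpow_mul hQ0.le, ← Real.rpow_add hQ0]
  have h4 : (2 : ℝ) ≤ Q ^ (κ / 100) := by linarith
  have h5 : (0 : ℝ) ≤ Q ^ (κ / 20 + κ / 20 + 2 * (κ / 20)) := Real.rpow_nonneg hQ0.le _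
  refine (mul_le_mul_of_nonneg_right h4 h5).trans ?_
  rw [← Real.rpow_add hQ0]
  apply Real.rpow_le_rpow_of_exponent_le hQ
  push_cast
  linarith

theorem case_b (κ : ℝ) (hκ : 0 < κ) (hκ1 : κ ≤ 1 / 100) :
    ∃ q00 : ℕ, ∀ q N : ℕ, ∀ [NeZero q], q00 ≤ q → ((rad q : ℕ) : ℝ) ≤ (q : ℝ) ^ (2 * (κ / 20)) →
      ∀ χ : DirichletCharacter ℂ q, χ.IsPrimitive → (q : ℝ) ^ (1 / 3 + κ) ≤ N →
      ‖∑ n ∈ Icc 1 N, χ (n : ZMod q)‖ ≤ N * (q : ℝ) ^ (-(κ / 100)) := by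
  obtain ⟨q00, hq00⟩ := THG5_large κ hκ
  refine ⟨q00, ?_⟩
  intro q N _ hq hrad χ hχ hN
  obtain ⟨hQ, hL⟩ := hq00 q hq
  have hQ0 : (0 : ℝ) < q := by linarith
  have hq0 : 0 < q := by exact_mod_cast hQ0
  obtain ⟨g, m, hg0, hm0, hgq, hq3, hpg, hgr, hqm, -, hmq, hv, -⟩ := choose_g q hq0
  have hgr' : (g : ℝ) ^ 3 ≤ (q : ℝ) * ((rad q : ℕ) : ℝ) ^ 2 := by exact_mod_cast hgr
  have hqm' : (q : ℝ) ≤ (m : ℝ) ^ 3 * ((rad q : ℕ) : ℝ) ^ 4 := by exact_mod_cast hqm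
  have hm0' : (0 : ℝ) < m := by exact_mod_cast hm0
  obtain ⟨hg, hm⟩ := THG5_gm (q : ℝ) κ g m (rad q : ℕ) hQ (Nat.cast_nonneg _) hm0'
    (Nat.cast_nonneg _) hrad hgr' hqm'
  have hNpos : (0 : ℝ) < N := lt_of_lt_of_le (Real.rpow_pos_of_pos hQ0 _) hN
  have hN1 : 1 ≤ N := by exact_mod_cast hNpos
  -- the number of shifts
  set H : ℕ := ⌊(q : ℝ) ^ (κ / 20)⌋₊ with hHdef
  have hK0 : (0 : ℝ) ≤ (q : ℝ) ^ (κ / 20) := Real.rpow_nonneg hQ0.le _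
  have hK1 : (2 : ℝ) ≤ (q : ℝ) ^ (κ / 20) := by
    have h1 : (q : ℝ) ^ (κ / 100) ≤ (q : ℝ) ^ (κ / 20) :=
      Real.rpow_le_rpow_of_exponent_le hQ (by linarith)
    linarith
  have hHle : (H : ℝ) ≤ (q : ℝ) ^ (κ / 20) := Nat.floor_le hK0
  have hHge : (q : ℝ) ^ (κ / 20) / 2 ≤ (H : ℝ) := by
    have h1 : (q : ℝ) ^ (κ / 20) < (H : ℝ) + 1 := Nat.lt_floor_add_one _
    linarith
  have hH0 : (0 : ℝ) < H := by linarith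
  have hH1 : 1 ≤ H := by exact_mod_cast hH0
  -- the parameters
  have hα0 : (0 : ℝ) ≤ (q : ℝ) ^ (κ / 15 + κ / 20 - κ) := Real.rpow_nonneg hQ0.le _
  have hα1 : (q : ℝ) ^ (κ / 15 + κ / 20 - κ) ≤ (q : ℝ) ^ (-(κ / 20)) :=
    Real.rpow_le_rpow_of_exponent_le hQ (by linarith)
  have hone : (q : ℝ) ^ (-(κ / 20)) ≤ 1 := by
    have h1 : (q : ℝ) ^ (-(κ / 20)) ≤ (q : ℝ) ^ (0 : ℝ) :=
      Real.rpow_le_rpow_of_exponent_le hQ (by linarith)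
    rwa [Real.rpow_zero] at h1
  have hgH : (g : ℝ) * H ≤ (q : ℝ) ^ (κ / 15 + κ / 20 - κ) * N := by
    have h1 : (g : ℝ) * H ≤ (q : ℝ) ^ (1 / 3 + κ / 15) * (q : ℝ) ^ (κ / 20) :=
      mul_le_mul hg hHle hH0.le (Real.rpow_nonneg hQ0.le _)
    have h2 : (q : ℝ) ^ (1 / 3 + κ / 15) * (q : ℝ) ^ (κ / 20) =
        (q : ℝ) ^ (κ / 15 + κ / 20 - κ) * (q : ℝ) ^ (1 / 3 + κ) := by
      rw [← Real.rpow_add hQ0, ← Real.rpow_add hQ0]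
      congr 1
      ring
    rw [h2] at h1
    exact h1.trans (mul_le_mul_of_nonneg_left hN hα0)
  have hgN : (g : ℝ) / N ≤ (q : ℝ) ^ (-(κ / 20)) := by
    rw [div_le_iff₀ hNpos]
    have h1 : (q : ℝ) ^ (1 / 3 + κ / 15) ≤ (q : ℝ) ^ (-(κ / 20)) * (q : ℝ) ^ (1 / 3 + κ) := by
      rw [← Real.rpow_add hQ0]
      exact Real.rpow_le_rpow_of_exponent_le hQ (by linarith)
    exact (hg.trans h1).trans (mul_le_mul_of_nonneg_left hN (Real.rpow_nonneg hQ0.le _))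
  have hbeta : √(2 * ((H : ℝ) * H) * ((rad q : ℕ) : ℝ) / m) ≤ (q : ℝ) ^ (-(κ / 20)) :=
    THG5_beta (q : ℝ) κ H m (rad q : ℕ) hκ hκ1 hQ hm0' (Nat.cast_nonneg _) hrad hm hH0.le hHle hL
  set β : ℝ := √(2 * ((H : ℝ) * H) * ((rad q : ℕ) : ℝ) / m) + (g : ℝ) / N with hβdef
  have hβ0 : 0 ≤ β := by positivity
  have hβ1 : β ≤ 2 * (q : ℝ) ^ (-(κ / 20)) := by
    rw [hβdef]
    linarith
  have hW : ∑ h ∈ Ico 1 H, (fun _ : ℕ => (1 : ℝ)) h ≤ (H : ℝ) * 1 := by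
    simp only [sum_const, Nat.card_Ico, nsmul_eq_mul, mul_one]
    exact_mod_cast Nat.sub_le H 1
  have key := vdc_iter N H hN1 hH1 ((q : ℝ) ^ (κ / 15 + κ / 20 - κ)) hα0 (hα1.trans hone)
    (fun _ => (1 : ℝ)) (fun _ => zero_le_one) 1 hW [g, g] (fun x hx => by
      have : x = g := by
        simp only [List.mem_cons, List.not_mem_nil, or_false, or_self] at hx
        exact hx
      rw [this]
      exact hgH) (ch χ) (ch_norm χ) β hβ0 (fun hs hlen hmem => by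
      obtain ⟨h1, h2, rfl⟩ : ∃ h1 h2 : ℕ, hs = [h1, h2] := by
        match hs, hlen with
        | [a, b], _ => exact ⟨a, b, rfl⟩
      have hh1 := hmem h1 (by simp)
      have hh2 := hmem h2 (by simp)
      have h3 := two_bound χ hχ g m h1 h2 N hg0 hm0 hh1.1 hh2.1 hgq hq3 hpg hmq hv
      have h4 : yy [g, g] [h1, h2] = [((g * h1 : ℕ) : ℤ), ((g * h2 : ℕ) : ℤ)] := rfl
      rw [h4]
      have h5 : (List.map (fun _ : ℕ => (1 : ℝ)) [h1, h2]).prod = 1 := by simp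
      rw [h5, mul_one]
      refine h3.trans ?_
      have h6 : (N : ℝ) * β = N * √(2 * ((H : ℝ) * H) * ((rad q : ℕ) : ℝ) / m) + g := by
        rw [hβdef, mul_add, mul_div_cancel₀ _ hNpos.ne']
      rw [h6]
      have h7 : √(2 * ((h1 : ℝ) * h2) * ((rad q : ℕ) : ℝ) / m) ≤
          √(2 * ((H : ℝ) * H) * ((rad q : ℕ) : ℝ) / m) := by
        apply Real.sqrt_le_sqrt
        have h8 : (h1 : ℝ) * h2 ≤ (H : ℝ) * H := by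
          have h9 : (h1 : ℝ) ≤ H := by exact_mod_cast hh1.2.le
          have h10 : (h2 : ℝ) ≤ H := by exact_mod_cast hh2.2.le
          exact mul_le_mul h9 h10 (Nat.cast_nonneg _) hH0.le
        have h11 : (0 : ℝ) ≤ ((rad q : ℕ) : ℝ) := Nat.cast_nonneg _
        gcongr
      have h12 := mul_le_mul_of_nonneg_left h7 hNpos.le
      linarith)
  have hlen : ([g, g] : List ℕ).length = 2 := rfl
  rw [hlen, THG5_CV, one_pow, mul_one] at key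
  have hx0 : (0 : ℝ) ≤ ‖SZ N (ch χ)‖ / N := by positivity
  have h1H : 1 / (H : ℝ) ≤ 2 * (q : ℝ) ^ (-(κ / 20)) := by
    rw [Real.rpow_neg hQ0.le, div_le_iff₀ hH0]
    have h1 : (0 : ℝ) < (q : ℝ) ^ (κ / 20) := by linarith
    have h2 : 2 * ((q : ℝ) ^ (κ / 20))⁻¹ * ((q : ℝ) ^ (κ / 20) / 2) = 1 := by
      field_simp
    rw [← h2]
    exact mul_le_mul_of_nonneg_left hHge (by positivity)
  have hfin : ‖SZ N (ch χ)‖ / N ≤ (q : ℝ) ^ (-(κ / 100)) := by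
    refine THG5_fin (q : ℝ) κ _ hκ hQ hx0 hL ?_
    have h4 : (‖SZ N (ch χ)‖ / N) ^ 4 ≤ 13824 * (1 / (H : ℝ) + (q : ℝ) ^ (κ / 15 + κ / 20 - κ) + β) := by
      have e4 : (2 : ℕ) ^ 2 = 4 := by norm_num
      rw [e4] at key
      exact key
    refine h4.trans (mul_le_mul_of_nonneg_left ?_ (by norm_num))
    linarith
  have hSZ : ∑ n ∈ Icc 1 N, χ (n : ZMod q) = SZ N (ch χ) := by
    unfold SZ ch
    refine sum_congr rfl fun n _ => ?_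
    rw [Int.cast_natCast]
  rw [hSZ]
  rw [div_le_iff₀ hNpos] at hfin
  rw [mul_comm]
  exact hfin

end Pool.Agent.Lib.MP_42948a_nt.TH
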