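import Pool.Agent.Lib.MP_42948a_nt.TH.Defs
import Pool.Agent.Lib.MP_42948a_nt.BU2.J

/-!
# Numerics for the moment (job H4)

Copy `W_num'` of `BU2/J.lean` (and `W_num` of `BU/HE.lean`). `C ≤ 2^k`, `s' = s / (4 r + 2 k + 4)`, `τ(q1) ≤ q^s'`, `C^ω(q1) ≤ q^(k s')`. First term: `q0 r^(2r) B^r q1 = r^(2r) B^r q ≤ r^(2r) B^(2r) q^(1/2)` (`q^(1/2) ≤ B^r`) `≤ r^(2r) B^(2r) q^(2/3)`. Second term:
`q0 √q1 = √(q q0) ≤ √(q^(4/3)) = q^(2/3)`, so it is `≤ 2 r 2^(2r-1) B^(2r) q^((2r-1) s' + k s') q^(2/3)`. Both are `≤ (1/2) q^s B^(2r) q^(2/3)` for large `q`.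
-/

namespace Pool.Agent.Lib.MP_42948a_nt.TH

open Finset Polynomial Pool.Agent.Lib.MP_42948a_nt.OA Pool.Agent.Lib.MP_42948a_nt.BU Pool.Agent.Lib.MP_42948a_nt.BU2

theorem W_num3 (r : ℕ) (hr : 1 ≤ r) (C : ℝ) (hC1 : 1 ≤ C) (s : ℝ) (hs : 0 < s) :
    ∃ q00 : ℕ, ∀ q q0 q1 : ℕ, q00 ≤ q → q = q0 * q1 → 1 ≤ q0 → (q0 : ℝ) ≤ (q : ℝ) ^ (1 / 3 : ℝ) → 1 ≤ q1 →
      ∀ B : ℕ, 1 ≤ B → (q : ℝ) ^ (1 / 2 : ℝ) ≤ (B : ℝ) ^ r →
      (q0 : ℝ) * ((r : ℝ) ^ (2 * r) * (B : ℝ) ^ r * q1 +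
        2 * r * (B * (2 * B * (q1.divisors.card : ℝ)) ^ (2 * r - 1)) * (C ^ q1.primeFactors.card * √(q1 : ℝ))) ≤
      (q : ℝ) ^ s * ((B : ℝ) ^ (2 * r) * (q : ℝ) ^ (2 / 3 : ℝ)) := by
  obtain ⟨k, hk⟩ : ∃ k : ℕ, C ≤ 2 ^ k := by
    obtain ⟨k, hk⟩ := pow_unbounded_of_one_lt C (by norm_num : (1 : ℝ) < 2)
    exact ⟨k, hk.le⟩
  set s' : ℝ := s / (4 * r + 2 * k + 4) with hs'
  have hden : (0 : ℝ) < 4 * r + 2 * k + 4 := by positivity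
  have hs'0 : 0 < s' := div_pos hs hden
  obtain ⟨d0, hd0⟩ := BB_le s' hs'0
  have h1 : ∀ᶠ x : ℝ in Filter.atTop, 2 * (r : ℝ) ^ (2 * r) ≤ x ^ s :=
    (tendsto_rpow_atTop hs).eventually_ge_atTop _
  have h2 : ∀ᶠ x : ℝ in Filter.atTop, 2 * ((2 * (r : ℝ)) * 2 ^ (2 * r - 1)) ≤ x ^ (s / 2) :=
    (tendsto_rpow_atTop (by positivity : 0 < s / 2)).eventually_ge_atTop _
  have h3 : ∀ᶠ d : ℕ in Filter.atTop, d0 ≤ d ∧ 2 * (r : ℝ) ^ (2 * r) ≤ (d : ℝ) ^ s ∧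
      2 * ((2 * (r : ℝ)) * 2 ^ (2 * r - 1)) ≤ (d : ℝ) ^ (s / 2) := by
    have := tendsto_natCast_atTop_atTop (R := ℝ)
    filter_upwards [Filter.eventually_ge_atTop d0, this.eventually h1, this.eventually h2] with d a b c
    exact ⟨a, b, c⟩
  obtain ⟨q00, hq00⟩ := Filter.eventually_atTop.1 h3
  refine ⟨q00, fun q q0 q1 hq hqq hq01 hq0Q hq11 B hB hBr => ?_⟩
  obtain ⟨hqd, hqs, hqs2⟩ := hq00 q hq
  have hqpos : 0 < q := by rw [hqq]; exact Nat.mul_pos hq01 hq11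
  have hq1R : (1 : ℝ) ≤ (q : ℝ) := by exact_mod_cast hqpos
  have hq0R : (0 : ℝ) < (q : ℝ) := by linarith
  have hτ := (hd0 q hqd).2
  set t : ℝ := (q1.divisors.card : ℝ) with ht
  have ht0 : 0 ≤ t := by positivity
  have ht1 : t ≤ (q : ℝ) ^ s' := by
    refine le_trans ?_ hτ
    have hsub : q1.divisors ⊆ q.divisors := Nat.divisors_subset_of_dvd hqpos.ne' (by rw [hqq]; exact Dvd.intro_left _ rfl)
    have hcc : ((q1.divisors.card : ℕ) : ℝ) ≤ ((q.divisors.card : ℕ) : ℝ) := Nat.cast_le.2 (Finset.card_le_card hsub)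
    exact hcc
  have hω : (2 : ℝ) ^ q1.primeFactors.card ≤ t := by
    have := HE_two_pow q1 (by omega)
    rw [ht]
    exact_mod_cast this
  set Y : ℝ := (q : ℝ) ^ s' with hY
  have hY0 : 0 < Y := Real.rpow_pos_of_pos hq0R _
  have hCω : C ^ q1.primeFactors.card ≤ Y ^ k := by
    calc C ^ q1.primeFactors.card ≤ ((2 : ℝ) ^ k) ^ q1.primeFactors.card :=
          pow_le_pow_left₀ (by linarith) hk _
      _ = ((2 : ℝ) ^ q1.primeFactors.card) ^ k := by rw [← pow_mul, ← pow_mul, mul_comm]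
      _ ≤ Y ^ k := pow_le_pow_left₀ (by positivity) (hω.trans ht1) _
  set X : ℝ := (q : ℝ) ^ (1 / 2 : ℝ) with hX
  have hX0 : 0 < X := Real.rpow_pos_of_pos hq0R _
  have hXX : X * X = q := by
    rw [hX, ← Real.rpow_add hq0R]
    norm_num
  set Z : ℝ := (q : ℝ) ^ (2 / 3 : ℝ) with hZ
  have hZ0 : 0 < Z := Real.rpow_pos_of_pos hq0R _
  have hXZ : X ≤ Z := by
    rw [hX, hZ]
    exact Real.rpow_le_rpow_of_exponent_le hq1R (by norm_num)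
  have hqqR : (q : ℝ) = q0 * q1 := by rw [hqq]; push_cast; ring
  have hsq : (q0 : ℝ) * √(q1 : ℝ) ≤ Z := by
    have e1 : (q0 : ℝ) * √(q1 : ℝ) = √(q0 : ℝ) * √(q : ℝ) := by
      rw [hqqR, Real.sqrt_mul (Nat.cast_nonneg q0), ← mul_assoc, Real.mul_self_sqrt (Nat.cast_nonneg q0)]
    have e2 : √(q0 : ℝ) ≤ (q : ℝ) ^ (1 / 6 : ℝ) := by
      refine (Real.sqrt_le_sqrt hq0Q).trans (le_of_eq ?_)
      rw [Real.sqrt_eq_rpow, ← Real.rpow_mul hq0R.le]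
      norm_num
    rw [e1]
    calc √(q0 : ℝ) * √(q : ℝ) ≤ (q : ℝ) ^ (1 / 6 : ℝ) * √(q : ℝ) :=
          mul_le_mul_of_nonneg_right e2 (Real.sqrt_nonneg _)
      _ = Z := by
          rw [Real.sqrt_eq_rpow, ← Real.rpow_add hq0R, hZ]
          norm_num
  have hB1 : (1 : ℝ) ≤ B := by exact_mod_cast hB
  have hB0 : (0 : ℝ) < B := by linarith
  have hBB : (B : ℝ) ^ (2 * r) = (B : ℝ) ^ r * (B : ℝ) ^ r := by rw [two_mul, pow_add]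
  -- first term
  have hfirst : (q0 : ℝ) * ((r : ℝ) ^ (2 * r) * (B : ℝ) ^ r * q1) ≤
      (1 / 2) * ((q : ℝ) ^ s * ((B : ℝ) ^ (2 * r) * Z)) := by
    have e1 : (q0 : ℝ) * ((r : ℝ) ^ (2 * r) * (B : ℝ) ^ r * q1) = (r : ℝ) ^ (2 * r) * ((B : ℝ) ^ r * (X * X)) := by
      rw [hXX, hqqR]; ring
    rw [e1, hBB]
    have e2 : (B : ℝ) ^ r * (X * X) ≤ (B : ℝ) ^ r * ((B : ℝ) ^ r * Z) :=
      mul_le_mul_of_nonneg_left (mul_le_mul hBr hXZ hX0.le (by positivity)) (by positivity)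
    have e3 : (r : ℝ) ^ (2 * r) ≤ (1 / 2) * (q : ℝ) ^ s := by linarith
    calc (r : ℝ) ^ (2 * r) * ((B : ℝ) ^ r * (X * X)) ≤ ((1 / 2) * (q : ℝ) ^ s) * ((B : ℝ) ^ r * ((B : ℝ) ^ r * Z)) :=
          mul_le_mul e3 e2 (by positivity) (by positivity)
      _ = (1 / 2) * ((q : ℝ) ^ s * ((B : ℝ) ^ r * (B : ℝ) ^ r * Z)) := by ring
  -- second term
  have hpow : Y ^ (2 * r - 1) * Y ^ k ≤ (q : ℝ) ^ (s / 2) := by
    rw [← pow_add, hY, ← Real.rpow_natCast, ← Real.rpow_mul hq0R.le]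
    refine Real.rpow_le_rpow_of_exponent_le hq1R ?_
    have hcast : ((2 * r - 1 + k : ℕ) : ℝ) ≤ 2 * r + k := by
      have : (2 * r - 1 + k : ℕ) ≤ 2 * r + k := by omega
      exact_mod_cast this
    calc s' * ((2 * r - 1 + k : ℕ) : ℝ) ≤ s' * (2 * r + k) := mul_le_mul_of_nonneg_left hcast hs'0.le
      _ ≤ s / 2 := by
        rw [hs', div_mul_eq_mul_div, div_le_div_iff₀ hden (by norm_num : (0 : ℝ) < 2)]
        nlinarith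
  have hBpow : (B : ℝ) * (B : ℝ) ^ (2 * r - 1) = (B : ℝ) ^ (2 * r) := by
    rw [← pow_succ']
    congr 1
    omega
  have htp : (2 * (B : ℝ) * t) ^ (2 * r - 1) ≤ 2 ^ (2 * r - 1) * (B : ℝ) ^ (2 * r - 1) * Y ^ (2 * r - 1) := by
    rw [mul_pow, mul_pow]
    exact mul_le_mul_of_nonneg_left (pow_le_pow_left₀ ht0 ht1 _) (by positivity)
  have hsecond : (q0 : ℝ) * (2 * r * (B * (2 * B * t) ^ (2 * r - 1)) * (C ^ q1.primeFactors.card * √(q1 : ℝ))) ≤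
      (1 / 2) * ((q : ℝ) ^ s * ((B : ℝ) ^ (2 * r) * Z)) := by
    have f0 : (q0 : ℝ) * (2 * r * (B * (2 * B * t) ^ (2 * r - 1)) * (C ^ q1.primeFactors.card * √(q1 : ℝ))) =
        (2 * (r : ℝ) * (B * (2 * B * t) ^ (2 * r - 1))) * (C ^ q1.primeFactors.card * ((q0 : ℝ) * √(q1 : ℝ))) := by
      ring
    have f1 : C ^ q1.primeFactors.card * ((q0 : ℝ) * √(q1 : ℝ)) ≤ Y ^ k * Z :=
      mul_le_mul hCω hsq (by positivity) (by positivity)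
    have f2 : 2 * (r : ℝ) * (B * (2 * B * t) ^ (2 * r - 1)) ≤
        2 * r * (B * (2 ^ (2 * r - 1) * (B : ℝ) ^ (2 * r - 1) * Y ^ (2 * r - 1))) :=
      mul_le_mul_of_nonneg_left (mul_le_mul_of_nonneg_left htp hB0.le) (by positivity)
    have f3 : (2 * (r : ℝ) * (B * (2 * B * t) ^ (2 * r - 1))) * (C ^ q1.primeFactors.card * ((q0 : ℝ) * √(q1 : ℝ))) ≤
        2 * r * (B * (2 ^ (2 * r - 1) * (B : ℝ) ^ (2 * r - 1) * Y ^ (2 * r - 1))) * (Y ^ k * Z) :=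
      mul_le_mul f2 f1 (by positivity) (by positivity)
    have f5 : 2 * r * (B * (2 ^ (2 * r - 1) * (B : ℝ) ^ (2 * r - 1) * Y ^ (2 * r - 1))) * (Y ^ k * Z) =
        ((2 * (r : ℝ)) * 2 ^ (2 * r - 1)) * (Y ^ (2 * r - 1) * Y ^ k) * ((B : ℝ) ^ (2 * r) * Z) := by
      rw [← hBpow]; ring
    have f60 : (2 * (r : ℝ)) * 2 ^ (2 * r - 1) ≤ 1 / 2 * (q : ℝ) ^ (s / 2) := by linarith
    have f6 : ((2 * (r : ℝ)) * 2 ^ (2 * r - 1)) * (Y ^ (2 * r - 1) * Y ^ k) ≤ (1 / 2 * (q : ℝ) ^ (s / 2)) * (q : ℝ) ^ (s / 2) :=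
      mul_le_mul f60 hpow (by positivity) (by positivity)
    have f7 : (1 / 2 * (q : ℝ) ^ (s / 2)) * (q : ℝ) ^ (s / 2) = (1 / 2) * (q : ℝ) ^ s := by
      rw [mul_assoc, ← Real.rpow_add hq0R]
      congr 2
      ring
    calc (q0 : ℝ) * (2 * (r : ℝ) * (B * (2 * B * t) ^ (2 * r - 1)) * (C ^ q1.primeFactors.card * √(q1 : ℝ)))
        ≤ ((2 * (r : ℝ)) * 2 ^ (2 * r - 1)) * (Y ^ (2 * r - 1) * Y ^ k) * ((B : ℝ) ^ (2 * r) * Z) := by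
          rw [← f5, f0]; exact f3
      _ ≤ ((1 / 2) * (q : ℝ) ^ s) * ((B : ℝ) ^ (2 * r) * Z) := by
          refine mul_le_mul_of_nonneg_right ?_ (by positivity)
          rw [← f7]; exact f6
      _ = (1 / 2) * ((q : ℝ) ^ s * ((B : ℝ) ^ (2 * r) * Z)) := by ring
  rw [mul_add]
  linarith

end Pool.Agent.Lib.MP_42948a_nt.TH
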