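import Pool.Agent.Lib.MP_42948a_nt.TH.F2
import Pool.Agent.Lib.MP_42948a_nt.TH.F4
import Pool.Agent.Lib.MP_42948a_nt.TH.G5
import Pool.Agent.Lib.MP_42948a_nt.TH.H6

/-!
# The bound for primitive characters (job M1)

`κ2 = min κ (1/100)`; `split_cube`: `q = e r`. If `e ≤ q^(1/3)`: `case_c κ2` (`q0 = e`, `q1 = r`; first prove a general form in which the modulus is a variable `q` with `q = q0 * q1` and `subst`, as `Main_gen` in `BU2/Main.lean`). Otherwise `window 46656 (κ2/20)`: the first alternative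
is `case_b κ2`, the second one `case_a κ2` (again with `subst`). `κ'` is the minimum of the three exponents, `q00` the maximum; `N ≥ q^(1/3 + κ) ≥ q^(1/3 + κ2)`. `e, r > 0` give the instances.
-/

namespace Pool.Agent.Lib.MP_42948a_nt.TH

open Finset Polynomial Pool.Agent.Lib.MP_42948a_nt.BU Pool.Agent.Lib.MP_42948a_nt.BU2

private theorem M1_c (κ : ℝ) (hκ : 0 < κ) (hκ1 : κ ≤ 1 / 8) :
    ∃ κ' : ℝ, 0 < κ' ∧ ∃ q00 : ℕ, ∀ q : ℕ, q00 ≤ q → ∀ q0 q1 : ℕ, q = q0 * q1 → 0 < q0 → 0 < q1 →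
      q0.Coprime q1 → (∀ p : ℕ, p.Prime → ¬ p ^ 3 ∣ q1) → (q0 : ℝ) ≤ (q : ℝ) ^ (1 / 3 : ℝ) →
      ∀ χ : DirichletCharacter ℂ q, χ.IsPrimitive → ∀ N : ℕ, (q : ℝ) ^ (1 / 3 + κ) ≤ N →
      ‖∑ n ∈ Icc 1 N, χ (n : ZMod q)‖ ≤ N * (q : ℝ) ^ (-κ') := by
  obtain ⟨κ', h1, q00, h2⟩ := case_c κ hκ hκ1
  refine ⟨κ', h1, q00, ?_⟩
  intro q hq q0 q1 he h3 h4 hc hp hle χ hχ N hN
  subst he
  have n0 : NeZero q0 := ⟨h3.ne'⟩
  have n1 : NeZero q1 := ⟨h4.ne'⟩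
  have n2 : NeZero (q0 * q1) := ⟨(Nat.mul_pos h3 h4).ne'⟩
  exact h2 q0 q1 hq hc hp hle χ hχ N hN

private theorem M1_a (κ : ℝ) (hκ : 0 < κ) (hκ1 : κ ≤ 1 / 100) :
    ∃ q00 : ℕ, ∀ q : ℕ, q00 ≤ q → ∀ m0 m1 q' : ℕ, q = m0 * m1 → 0 < m0 → 0 < m1 → 0 < q' →
      m0.Coprime m1 → q' ∣ m1 → (∀ p : ℕ, p.Prime → p ∣ m1 → 46656 < p) →
      (∀ p : ℕ, p.Prime → q'.factorization p = min (m1.factorization p) 2) →
      (q : ℝ) ^ (κ / 20) ≤ q' → (q' : ℝ) ≤ (q : ℝ) ^ (2 / 3 + κ / 20) →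
      (∀ p : ℕ, p.Prime → p ∣ m0 * (m1 / q') → (p : ℝ) ≤ (q : ℝ) ^ (1 / 3 : ℝ)) →
      ∀ χ : DirichletCharacter ℂ q, χ.IsPrimitive → ∀ N : ℕ, (q : ℝ) ^ (1 / 3 + κ) ≤ N →
      ‖∑ n ∈ Icc 1 N, χ (n : ZMod q)‖ ≤ N * (q : ℝ) ^ (-(κ / 32000)) := by
  obtain ⟨q00, h2⟩ := case_a κ hκ hκ1
  refine ⟨q00, ?_⟩
  intro q hq m0 m1 q' he h3 h4 h5 hc hd h6 h7 h8 h9 h10 χ hχ N hN
  subst he
  have n0 : NeZero m0 := ⟨h3.ne'⟩
  have n1 : NeZero m1 := ⟨h4.ne'⟩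
  have n2 : NeZero (m0 * m1) := ⟨(Nat.mul_pos h3 h4).ne'⟩
  exact h2 m0 m1 q' N hq h5 hc hd h6 h7 h8 h9 h10 χ hχ hN

theorem prim13 (κ : ℝ) (hκ : 0 < κ) :
    ∃ κ' : ℝ, 0 < κ' ∧ ∃ q00 : ℕ, ∀ q : ℕ, q00 ≤ q → ∀ χ : DirichletCharacter ℂ q, χ.IsPrimitive → ∀ N : ℕ,
      (q : ℝ) ^ (1 / 3 + κ) ≤ N → ‖∑ n ∈ Icc 1 N, χ (n : ZMod q)‖ ≤ N * (q : ℝ) ^ (-κ') := by
  set κ2 : ℝ := min κ (1 / 100) with hκ2
  have hk0 : 0 < κ2 := lt_min hκ (by norm_num)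
  have hk1 : κ2 ≤ 1 / 100 := min_le_right _ _
  have hk2 : κ2 ≤ κ := min_le_left _ _
  obtain ⟨κc, hκc, qc, hc⟩ := M1_c κ2 hk0 (by linarith)
  obtain ⟨qa, ha⟩ := M1_a κ2 hk0 hk1
  obtain ⟨qb, hb⟩ := case_b κ2 hk0 hk1
  obtain ⟨qw, hw⟩ := window 46656 (κ2 / 20) (by positivity)
  refine ⟨min κc (min (κ2 / 32000) (κ2 / 100)), lt_min hκc (lt_min (by positivity) (by positivity)),
    max (max qa qb) (max (max qc qw) 1), ?_⟩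
  intro q hq χ hχ N hN
  have hqa : qa ≤ q := ((le_max_left _ _).trans (le_max_left _ _)).trans hq
  have hqb : qb ≤ q := ((le_max_right _ _).trans (le_max_left _ _)).trans hq
  have hqc : qc ≤ q := ((le_max_left _ _).trans ((le_max_left _ _).trans (le_max_right _ _))).trans hq
  have hqw : qw ≤ q := ((le_max_right _ _).trans ((le_max_left _ _).trans (le_max_right _ _))).trans hq
  have hq1 : 1 ≤ q := ((le_max_right _ _).trans (le_max_right _ _)).trans hq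
  have hqR : (1 : ℝ) ≤ q := by exact_mod_cast hq1
  have hN2 : (q : ℝ) ^ (1 / 3 + κ2) ≤ N :=
    (Real.rpow_le_rpow_of_exponent_le hqR (by linarith)).trans hN
  have hN0 : (0 : ℝ) ≤ N := Nat.cast_nonneg N
  have mono : ∀ t : ℝ, min κc (min (κ2 / 32000) (κ2 / 100)) ≤ t →
      ‖∑ n ∈ Icc 1 N, χ (n : ZMod q)‖ ≤ N * (q : ℝ) ^ (-t) →
      ‖∑ n ∈ Icc 1 N, χ (n : ZMod q)‖ ≤
        N * (q : ℝ) ^ (-(min κc (min (κ2 / 32000) (κ2 / 100)))) := by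
    intro t ht h
    refine h.trans (mul_le_mul_of_nonneg_left ?_ hN0)
    exact Real.rpow_le_rpow_of_exponent_le hqR (by linarith)
  obtain ⟨e, r, hqe, he, hr, hco, hcf, hce⟩ := split_cube q hq1
  by_cases hsm : (e : ℝ) ≤ (q : ℝ) ^ (1 / 3 : ℝ)
  · exact mono κc (min_le_left _ _) (hc q hqc e r hqe he hr hco hcf hsm χ hχ N hN2)
  · push Not at hsm
    rcases hw q e r hqw hqe hco hcf hce hsm with h | ⟨m0, m1, q', h1, h2, h3, h4, h5, h6, h7, h8, h9, h10, h11⟩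
    · have nq : NeZero q := ⟨by omega⟩
      exact mono (κ2 / 100) ((min_le_right _ _).trans (min_le_right _ _)) (hb q N hqb h χ hχ hN2)
    · exact mono (κ2 / 32000) ((min_le_right _ _).trans (min_le_left _ _))
        (ha q hqa m0 m1 q' h1 h2 h3 h4 h5 h6 h7 h8 h9 h10 h11 χ hχ N hN2)

end Pool.Agent.Lib.MP_42948a_nt.TH
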